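import Pool.Agent.SLD.StB
import Pool.Agent.Collatz3.ND

/-! SLD: conversions to the definitions of the natural density theorem. -/

set_option autoImplicit false

namespace Pool.Agent.SLD

open Filter Topology

theorem conv_T : Pool.Agent.Helper14.T = T := by
  funext n
  unfold Pool.Agent.Helper14.T T
  split_ifs <;> omega

theorem conv_EvInv {K : ℕ} {A : Set ℤ}
    (h : ∀ n : ℤ, (K : ℤ) < |n| → (Pool.Agent.Helper14.T n ∈ A ↔ n ∈ A)) : EvInv K A := by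
  rw [conv_T] at h
  exact h

theorem conv_sign {σ : ℤ} (hσ : |σ| = 1) : σ = 1 ∨ σ = -1 := by
  rcases abs_eq (by norm_num : (0 : ℤ) ≤ 1) |>.1 hσ with h | h
  · exact Or.inl h
  · exact Or.inr h

theorem conv_N {σ : ℤ} (hσ : σ = 1 ∨ σ = -1) (A : Set ℤ) (X : ℕ) :
    N σ A X 1 0 = Set.ncard {m : ℕ | 1 ≤ m ∧ m ≤ X ∧ σ * m ∈ A} := by
  have hσσ : σ * σ = 1 := by rcases hσ with rfl | rfl <;> norm_num
  have hset : {n : ℤ | 1 ≤ σ * n ∧ σ * n ≤ X ∧ ((1 : ℕ) : ℤ) ∣ n - 0 ∧ n ∈ A} =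
      (fun m : ℕ => σ * (m : ℤ)) '' {m : ℕ | 1 ≤ m ∧ m ≤ X ∧ σ * m ∈ A} := by
    ext n
    constructor
    · rintro ⟨h1, h2, -, h4⟩
      refine ⟨(σ * n).toNat, ⟨?_, ?_, ?_⟩, ?_⟩
      · omega
      · omega
      · rw [Int.toNat_of_nonneg (by omega), ← mul_assoc, hσσ, one_mul]
        exact h4
      · show σ * (((σ * n).toNat : ℕ) : ℤ) = n
        rw [Int.toNat_of_nonneg (by omega), ← mul_assoc, hσσ, one_mul]
    · rintro ⟨m, ⟨h1, h2, h3⟩, rfl⟩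
      have e : σ * (σ * (m : ℤ)) = m := by rw [← mul_assoc, hσσ, one_mul]
      refine ⟨?_, ?_, ?_, h3⟩
      · show 1 ≤ σ * (σ * (m : ℤ))
        rw [e]
        exact_mod_cast h1
      · show σ * (σ * (m : ℤ)) ≤ X
        rw [e]
        exact_mod_cast h2
      · simp
  have hinj : Function.Injective (fun m : ℕ => σ * (m : ℤ)) := by
    intro a b hab
    have h1 : σ * (a : ℤ) = σ * (b : ℤ) := hab
    have h2 : σ * (σ * (a : ℤ)) = σ * (σ * (b : ℤ)) := by rw [h1]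
    rw [← mul_assoc, ← mul_assoc, hσσ, one_mul, one_mul] at h2
    exact_mod_cast h2
  unfold N
  rw [hset, Set.ncard_image_of_injective _ hinj]

theorem conv_dens {σ : ℤ} (hσ : σ = 1 ∨ σ = -1) {A : Set ℤ} {d : ℝ}
    (h : Tendsto (fun x : ℝ => (Set.ncard {m : ℕ | (m : ℝ) ≤ x ∧ σ * ((1 : ℕ) * m + (0 : ℕ)) ∈ A} : ℝ) /
      x) atTop (𝓝 d)) :
    Tendsto (fun X : ℕ => (N σ A X 1 0 : ℝ) / X) atTop (𝓝 d) := by
  have h1 := h.comp (tendsto_natCast_atTop_atTop (R := ℝ))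
  have h2 : Tendsto (fun X : ℕ => (X : ℝ)⁻¹) atTop (𝓝 0) := tendsto_inv_atTop_nhds_zero_nat
  have h3 : Tendsto (fun X : ℕ => (N σ A X 1 0 : ℝ) / X -
      (Set.ncard {m : ℕ | (m : ℝ) ≤ (X : ℝ) ∧ σ * ((1 : ℕ) * m + (0 : ℕ)) ∈ A} : ℝ) / (X : ℝ)) atTop
      (𝓝 0) := by
    apply squeeze_zero_norm _ h2
    intro X
    rw [← sub_div, norm_div, Real.norm_eq_abs, Real.norm_natCast, ← one_div]
    apply div_le_div_of_nonneg_right _ (Nat.cast_nonneg _)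
    rw [conv_N hσ A X]
    have hfin : {m : ℕ | (m : ℝ) ≤ (X : ℝ) ∧ σ * ((1 : ℕ) * m + (0 : ℕ)) ∈ A}.Finite := by
      apply (Set.finite_Iic X).subset
      rintro m ⟨hm, -⟩
      exact_mod_cast hm
    have hsub : {m : ℕ | 1 ≤ m ∧ m ≤ X ∧ σ * m ∈ A} ⊆
        {m : ℕ | (m : ℝ) ≤ (X : ℝ) ∧ σ * ((1 : ℕ) * m + (0 : ℕ)) ∈ A} := by
      rintro m ⟨g1, g2, g3⟩
      refine ⟨by exact_mod_cast g2, ?_⟩
      simpa using g3
    have hsub2 : {m : ℕ | (m : ℝ) ≤ (X : ℝ) ∧ σ * ((1 : ℕ) * m + (0 : ℕ)) ∈ A} ⊆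
        insert 0 {m : ℕ | 1 ≤ m ∧ m ≤ X ∧ σ * m ∈ A} := by
      rintro m ⟨g1, g2⟩
      rcases Nat.eq_zero_or_pos m with h0 | h0
      · exact Or.inl h0
      · refine Or.inr ⟨h0, by exact_mod_cast g1, ?_⟩
        simpa using g2
    have k1 := Set.ncard_le_ncard hsub hfin
    have k2 := (Set.ncard_le_ncard hsub2 ((hfin.subset hsub).insert 0)).trans
      (Set.ncard_insert_le _ _)
    have k1' : ((Set.ncard {m : ℕ | 1 ≤ m ∧ m ≤ X ∧ σ * m ∈ A} : ℕ) : ℝ) ≤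
        (Set.ncard {m : ℕ | (m : ℝ) ≤ (X : ℝ) ∧ σ * ((1 : ℕ) * m + (0 : ℕ)) ∈ A} : ℕ) :=
      Nat.cast_le.2 k1
    have k2' : ((Set.ncard {m : ℕ | (m : ℝ) ≤ (X : ℝ) ∧ σ * ((1 : ℕ) * m + (0 : ℕ)) ∈ A} : ℕ) : ℝ) ≤
        (Set.ncard {m : ℕ | 1 ≤ m ∧ m ≤ X ∧ σ * m ∈ A} : ℕ) + 1 := by
      exact_mod_cast k2
    rw [abs_le]
    constructor <;> linarith
  have h4 := h3.add h1
  rw [zero_add] at h4
  refine h4.congr fun X => ?_
  simp only [Function.comp]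
  ring

end Pool.Agent.SLD
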