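import Pool.Agent.SLD.StB

/-! SLD, module ALE: all residues for eventually invariant sets, from the odd ones. -/

set_option autoImplicit false
set_option linter.unusedVariables false

namespace Pool.Agent.SLD

open Finset Filter Topology
open Pool.Agent.Collatz3 (cw)

theorem ALE_fin (σ : ℤ) (hσ : σ = 1 ∨ σ = -1) (K : ℕ) :
    {n : ℤ | 1 ≤ σ * n ∧ σ * n ≤ K}.Finite ∧ {n : ℤ | 1 ≤ σ * n ∧ σ * n ≤ K}.ncard ≤ K := by
  rcases hσ with rfl | rfl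
  · have e : {n : ℤ | 1 ≤ (1 : ℤ) * n ∧ (1 : ℤ) * n ≤ K} =
        ((Finset.Icc (1 : ℤ) K : Finset ℤ) : Set ℤ) := by
      ext n
      simp
    rw [e]
    refine ⟨Finset.finite_toSet _, ?_⟩
    rw [Set.ncard_coe_finset, Int.card_Icc]
    omega
  · have e : {n : ℤ | 1 ≤ (-1 : ℤ) * n ∧ (-1 : ℤ) * n ≤ K} =
        ((Finset.Icc (-(K : ℤ)) (-1) : Finset ℤ) : Set ℤ) := by
      ext n
      rw [Finset.coe_Icc, Set.mem_Icc]
      constructor
      · rintro ⟨h1, h2⟩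
        constructor <;> linarith
      · rintro ⟨h1, h2⟩
        constructor <;> linarith
    rw [e]
    refine ⟨Finset.finite_toSet _, ?_⟩
    rw [Set.ncard_coe_finset, Int.card_Icc]
    omega

theorem ALE_N_le (σ : ℤ) (hσ : σ = 1 ∨ σ = -1) (A : Set ℤ) (X q : ℕ) (r : ℤ) :
    N σ A X q r ≤ X := by
  refine le_trans (Set.ncard_le_ncard ?_ (ALE_fin σ hσ X).1) (ALE_fin σ hσ X).2
  rintro n ⟨h1, h2, _⟩
  exact ⟨h1, h2⟩

theorem ALE_N_one (σ : ℤ) (A : Set ℤ) (X : ℕ) (r : ℤ) : N σ A X 1 r = N σ A X 1 0 := by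
  unfold N
  simp

theorem ALE_ncard {S U F : Set ℤ} {K : ℕ} (hS : S.Finite) (hU : U.Finite) (hF : F.Finite)
    (h1 : S ⊆ U ∪ F) (h2 : U ⊆ S ∪ F) (h3 : F.ncard ≤ K) :
    |(S.ncard : ℝ) - U.ncard| ≤ K := by
  have a1 : S.ncard ≤ U.ncard + K :=
    (Set.ncard_le_ncard h1 (hU.union hF)).trans
      ((Set.ncard_union_le _ _).trans (by omega))
  have a2 : U.ncard ≤ S.ncard + K :=
    (Set.ncard_le_ncard h2 (hS.union hF)).trans
      ((Set.ncard_union_le _ _).trans (by omega))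
  have b1 : (S.ncard : ℝ) ≤ U.ncard + K := by exact_mod_cast a1
  have b2 : (U.ncard : ℝ) ≤ S.ncard + K := by exact_mod_cast a2
  rw [abs_le]
  constructor <;> linarith

theorem ALE_step (σ : ℤ) (hσ : σ = 1 ∨ σ = -1) (K : ℕ) (A : Set ℤ) (hA : EvInv K A) (q : ℕ)
    (hq : Odd q) (X : ℕ) (r : ℤ) :
    ∃ r' : ℤ, |(N σ A X q r : ℝ) - E σ A X q r - N σ A (X / 2) q r'| ≤ K := by
  obtain ⟨c, hc⟩ := hq
  have hcz : (q : ℤ) = 2 * c + 1 := by exact_mod_cast hc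
  refine ⟨(c + 1) * r, ?_⟩
  -- the even part
  have hfin := ALE_fin σ hσ X
  have e1 : N σ A X q r = E σ A X q r +
      {n : ℤ | Even n ∧ 1 ≤ σ * n ∧ σ * n ≤ X ∧ (q : ℤ) ∣ n - r ∧ n ∈ A}.ncard := by
    have f1 : {n : ℤ | Odd n ∧ 1 ≤ σ * n ∧ σ * n ≤ X ∧ (q : ℤ) ∣ n - r ∧ n ∈ A}.Finite := by
      refine hfin.1.subset ?_
      rintro n ⟨_, h1, h2, _⟩
      exact ⟨h1, h2⟩
    have f2 : {n : ℤ | Even n ∧ 1 ≤ σ * n ∧ σ * n ≤ X ∧ (q : ℤ) ∣ n - r ∧ n ∈ A}.Finite := by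
      refine hfin.1.subset ?_
      rintro n ⟨_, h1, h2, _⟩
      exact ⟨h1, h2⟩
    have f3 : Disjoint {n : ℤ | Odd n ∧ 1 ≤ σ * n ∧ σ * n ≤ X ∧ (q : ℤ) ∣ n - r ∧ n ∈ A}
        {n : ℤ | Even n ∧ 1 ≤ σ * n ∧ σ * n ≤ X ∧ (q : ℤ) ∣ n - r ∧ n ∈ A} := by
      rw [Set.disjoint_left]
      rintro n ⟨h1, _⟩ ⟨h2, _⟩
      exact (Int.not_even_iff_odd.2 h1) h2
    unfold N E
    rw [← Set.ncard_union_eq f3 f1 f2]
    apply congrArg
    ext n
    constructor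
    · intro h
      rcases Int.even_or_odd n with h0 | h0
      · exact Or.inr ⟨h0, h⟩
      · exact Or.inl ⟨h0, h⟩
    · rintro (⟨_, h⟩ | ⟨_, h⟩) <;> exact h
  have e2 : N σ A (X / 2) q ((c + 1) * r) =
      ((fun m : ℤ => 2 * m) '' {n : ℤ | 1 ≤ σ * n ∧ σ * n ≤ ((X / 2 : ℕ) : ℤ) ∧
        (q : ℤ) ∣ n - (c + 1) * r ∧ n ∈ A}).ncard := by
    unfold N
    rw [Set.ncard_image_of_injective]
    intro a b hab
    simp only at hab
    omega
  rw [e1, e2]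
  push_cast
  have e3 : ∀ a b c : ℝ, a + b - a - c = b - c := fun a b c => by ring
  rw [e3]
  have hfin2 := ALE_fin σ hσ (X / 2)
  refine ALE_ncard (F := {n : ℤ | 1 ≤ σ * n ∧ σ * n ≤ K}) ?_ ?_ (ALE_fin σ hσ K).1 ?_ ?_
    (ALE_fin σ hσ K).2
  · refine hfin.1.subset ?_
    rintro n ⟨_, h1, h2, _⟩
    exact ⟨h1, h2⟩
  · apply Set.Finite.image
    refine hfin2.1.subset ?_
    rintro n ⟨h1, h2, _⟩
    exact ⟨h1, by exact_mod_cast h2⟩
  · rintro n ⟨⟨m, hm⟩, h1, h2, h3, h4⟩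
    by_cases hK : σ * n ≤ K
    · exact Or.inr ⟨h1, hK⟩
    · refine Or.inl ⟨m, ⟨?_, ?_, ?_, ?_⟩, by simp only; omega⟩
      · rcases hσ with rfl | rfl <;> omega
      · rcases hσ with rfl | rfl <;> omega
      · have e4 : m - (c + 1) * r = q * (m - (c + 1) * r) - c * (n - r) + q * (c * r) := by
          rw [hm, hcz]
          ring
        rw [e4]
        exact dvd_add (dvd_sub (Dvd.intro _ rfl) (h3.mul_left _)) (Dvd.intro _ rfl)
      · have hn : (K : ℤ) < |n| := by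
          rcases hσ with rfl | rfl
          · rw [abs_of_pos (by omega)]
            omega
          · rw [abs_of_neg (by omega)]
            omega
        have h5 := (hA n hn).2 h4
        have e5 : T n = m := by
          unfold T
          rw [if_pos ⟨m, by omega⟩]
          omega
        rwa [e5] at h5
  · rintro n ⟨m, ⟨h1, h2, h3, h4⟩, hm⟩
    simp only at hm
    have h1' : 1 ≤ σ * n := by
      rcases hσ with rfl | rfl <;> omega
    by_cases hK : σ * n ≤ K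
    · exact Or.inr ⟨h1', hK⟩
    · refine Or.inl ⟨⟨m, by omega⟩, h1', ?_, ?_, ?_⟩
      · rcases hσ with rfl | rfl <;> omega
      · have e4 : n - r = 2 * (m - (c + 1) * r) + q * r := by
          rw [← hm, hcz]
          ring
        rw [e4]
        exact dvd_add (h3.mul_left _) (Dvd.intro _ rfl)
      · have hn : (K : ℤ) < |n| := by
          rcases hσ with rfl | rfl
          · rw [abs_of_pos (by omega)]
            omega
          · rw [abs_of_neg (by omega)]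
            omega
        refine (hA n hn).1 ?_
        have e5 : T n = m := by
          unfold T
          rw [if_pos ⟨m, by omega⟩]
          omega
        rwa [e5]

theorem ALE_ind (σ : ℤ) (hσ : σ = 1 ∨ σ = -1) (K : ℕ) (A : Set ℤ) (hA : EvInv K A) (q : ℕ)
    (hq : Odd q) (X Y₀ : ℕ) (hY₀ : 2 ≤ Y₀) (D : ℝ) (hD : 0 ≤ D)
    (h : ∀ (b : ℤ) (Y : ℕ), Y₀ ≤ Y → Y ≤ X →
      |(E σ A Y q b : ℝ) - E σ A Y 1 0 / q| ≤ D * Y) :
    ∀ (Y : ℕ) (r : ℤ), Y ≤ X → |(N σ A Y q r : ℝ) - N σ A Y 1 0 / q| ≤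
      2 * D * Y + 2 * K * (Nat.log 2 Y + 1) + Y₀ := by
  have hq1 : (1 : ℝ) ≤ q := by
    obtain ⟨c, hc⟩ := hq
    have : 1 ≤ q := by omega
    exact_mod_cast this
  intro Y
  induction Y using Nat.strong_induction_on with
  | _ Y ih =>
    intro r hYX
    have hK0 : (0 : ℝ) ≤ 2 * K * (Nat.log 2 Y + 1) := by positivity
    have hDY : 0 ≤ 2 * D * (Y : ℝ) := by positivity
    by_cases hY : Y < Y₀
    · have a1 : (N σ A Y q r : ℝ) ≤ Y := by exact_mod_cast ALE_N_le σ hσ A Y q r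
      have a2 : (N σ A Y 1 0 : ℝ) ≤ Y := by exact_mod_cast ALE_N_le σ hσ A Y 1 0
      have a3 : (N σ A Y 1 0 : ℝ) / q ≤ Y :=
        (div_le_self (Nat.cast_nonneg _) hq1).trans a2
      have a4 : (0 : ℝ) ≤ N σ A Y q r := Nat.cast_nonneg _
      have a5 : (0 : ℝ) ≤ (N σ A Y 1 0 : ℝ) / q := by positivity
      have a6 : (Y : ℝ) ≤ Y₀ := by exact_mod_cast hY.le
      rw [abs_le]
      constructor <;> linarith
    · have hY' : Y₀ ≤ Y := not_lt.1 hY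
      obtain ⟨r', hr'⟩ := ALE_step σ hσ K A hA q hq Y r
      obtain ⟨r'', hr''⟩ := ALE_step σ hσ K A hA 1 odd_one Y 0
      rw [ALE_N_one σ A (Y / 2) r''] at hr''
      have b1 := ih (Y / 2) (by omega) r' (by omega)
      have b2 := h r Y hY' hYX
      have b3 : (((Y / 2 : ℕ) : ℕ) : ℝ) ≤ (Y : ℝ) / 2 := Nat.cast_div_le
      have b4 : Nat.log 2 Y = Nat.log 2 (Y / 2) + 1 :=
        Nat.log_of_one_lt_of_le one_lt_two (by omega)
      have b5 : |((N σ A Y 1 0 : ℝ) - E σ A Y 1 0 - N σ A (Y / 2) 1 0) / q| ≤ K := by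
        rw [abs_div, abs_of_pos (by linarith : (0 : ℝ) < q)]
        exact (div_le_self (abs_nonneg _) hq1).trans hr''
      have b6 : (N σ A Y q r : ℝ) - N σ A Y 1 0 / q =
          ((N σ A Y q r : ℝ) - E σ A Y q r - N σ A (Y / 2) q r') +
          ((E σ A Y q r : ℝ) - E σ A Y 1 0 / q) +
          ((N σ A (Y / 2) q r' : ℝ) - N σ A (Y / 2) 1 0 / q) -
          ((N σ A Y 1 0 : ℝ) - E σ A Y 1 0 - N σ A (Y / 2) 1 0) / q := by ring
      have b7 : 2 * D * ((Y / 2 : ℕ) : ℝ) ≤ D * Y := by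
        have := mul_le_mul_of_nonneg_left b3 hD
        linarith
      rw [b6, b4]
      push_cast
      rw [abs_le] at hr' b1 b2 b5 ⊢
      obtain ⟨c1, c2⟩ := hr'
      obtain ⟨c3, c4⟩ := b1
      obtain ⟨c5, c6⟩ := b2
      obtain ⟨c7, c8⟩ := b5
      have c9 : 2 * (K : ℝ) * ((Nat.log 2 (Y / 2) : ℝ) + 1 + 1) =
        2 * K * ((Nat.log 2 (Y / 2) : ℝ) + 1) + 2 * K := by ring
      rw [c9]
      constructor <;> linarith

theorem ALE_log (B : ℕ) (x : ℝ) (hx : 1 ≤ x) :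
    Real.log x ^ B ≤ (8 * ((B : ℝ) + 1)) ^ B * x ^ ((1 : ℝ) / 8) := by
  have hB : (0 : ℝ) < 8 * ((B : ℝ) + 1) := by positivity
  have h1 : Real.log x ≤ 8 * ((B : ℝ) + 1) * x ^ (1 / (8 * ((B : ℝ) + 1))) := by
    have h := Real.log_le_rpow_div (x := x) (by linarith) (ε := 1 / (8 * ((B : ℝ) + 1)))
      (by positivity)
    have e : x ^ (1 / (8 * ((B : ℝ) + 1))) / (1 / (8 * ((B : ℝ) + 1))) =
      8 * ((B : ℝ) + 1) * x ^ (1 / (8 * ((B : ℝ) + 1))) := by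
      field_simp
    rwa [e] at h
  have h2 : Real.log x ^ B ≤ (8 * ((B : ℝ) + 1) * x ^ (1 / (8 * ((B : ℝ) + 1)))) ^ B :=
    pow_le_pow_left₀ (Real.log_nonneg hx) h1 B
  refine h2.trans ?_
  rw [mul_pow, ← Real.rpow_natCast (x ^ _) B, ← Real.rpow_mul (by linarith)]
  apply mul_le_mul_of_nonneg_left _ (by positivity)
  apply Real.rpow_le_rpow_of_exponent_le hx
  rw [div_mul_eq_mul_div, one_mul, div_le_div_iff₀ hB (by norm_num)]
  linarith

theorem ALE_natlog (X : ℕ) (hX : 2 ≤ X) :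
    (Nat.log 2 X : ℝ) + 1 ≤ 17 * (X : ℝ) ^ ((1 : ℝ) / 8) := by
  have hx : (2 : ℝ) ≤ X := by exact_mod_cast hX
  have h1 : (Nat.log 2 X : ℝ) ≤ Real.logb 2 X := by
    have := Real.natLog_le_logb X 2
    exact_mod_cast this
  have h2 : Real.log X ≤ (X : ℝ) ^ ((1 : ℝ) / 8) / (1 / 8) :=
    Real.log_le_rpow_div (by linarith) (by norm_num)
  have h3 : (1 : ℝ) ≤ (X : ℝ) ^ ((1 : ℝ) / 8) :=
    Real.one_le_rpow (by linarith) (by norm_num)
  have h4 : Real.logb 2 X ≤ 2 * Real.log X := by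
    rw [Real.logb, div_le_iff₀ (Real.log_pos one_lt_two)]
    have h5 := Real.log_two_gt_d9
    have h6 : 0 ≤ Real.log X := Real.log_nonneg (by linarith)
    nlinarith
  linarith

theorem thm_ALE (h1 : St_ODE) : St_ALE := by
  intro B
  obtain ⟨δ, hδ, C, hC⟩ := h1 B
  refine ⟨min (δ / 2) (1 / 8), lt_min (by linarith) (by norm_num),
    2 * |C| * 2 ^ B + 36 * (8 * ((B : ℝ) + 1)) ^ B, ?_⟩
  intro σ r K A X q hσ hA hX hK hq hqX
  have hx : (2 : ℝ) ≤ X := by exact_mod_cast hX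
  have hx0 : (0 : ℝ) < X := by linarith
  have hx1 : (1 : ℝ) ≤ X := by linarith
  have hL : 0 < Real.log X := Real.log_pos (by linarith)
  have hq1 : (1 : ℝ) ≤ q := by
    obtain ⟨c, hc⟩ := hq
    have : 1 ≤ q := by omega
    exact_mod_cast this
  have hq0 : (0 : ℝ) < q := by linarith
  have hs1 : 1 < (X : ℝ) ^ ((1 : ℝ) / 2) := Real.one_lt_rpow (by linarith) (by norm_num)
  have hY₀2 : 2 ≤ ⌈(X : ℝ) ^ ((1 : ℝ) / 2)⌉₊ := by
    have : 1 < ⌈(X : ℝ) ^ ((1 : ℝ) / 2)⌉₊ := by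
      rw [Nat.lt_ceil]
      exact_mod_cast hs1
    omega
  have hpow : ∀ (n Y : ℕ), (n : ℝ) ≤ (X : ℝ) ^ (min (δ / 2) (1 / 8)) →
      (X : ℝ) ^ ((1 : ℝ) / 2) ≤ Y → (n : ℝ) ≤ (Y : ℝ) ^ δ := by
    intro n Y hn hY
    have hY1 : (1 : ℝ) ≤ Y := by linarith
    have a1 : (X : ℝ) ^ (min (δ / 2) (1 / 8)) ≤ (X : ℝ) ^ (δ / 2) :=
      Real.rpow_le_rpow_of_exponent_le hx1 (min_le_left _ _)
    have a2 : (X : ℝ) ^ (δ / 2) = ((X : ℝ) ^ ((1 : ℝ) / 2)) ^ δ := by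
      rw [← Real.rpow_mul hx0.le]
      apply congrArg
      ring
    have a3 : ((X : ℝ) ^ ((1 : ℝ) / 2)) ^ δ ≤ (Y : ℝ) ^ δ :=
      Real.rpow_le_rpow (by linarith) hY hδ.le
    linarith [a1, a2, a3]
  have hmain := ALE_ind σ hσ K A hA q hq X ⌈(X : ℝ) ^ ((1 : ℝ) / 2)⌉₊ hY₀2
    (|C| * 2 ^ B / (q * Real.log X ^ B)) (by positivity) (by
      intro b Y hY hYX
      have hYr : (X : ℝ) ^ ((1 : ℝ) / 2) ≤ Y := (Nat.le_ceil _).trans (by exact_mod_cast hY)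
      have hY1 : (1 : ℝ) < Y := by linarith
      have b0 := hC σ b K A Y q hσ hA (hY₀2.trans hY) (hpow K Y hK hYr) hq (hpow q Y hqX hYr)
      have hlogY : Real.log X / 2 ≤ Real.log Y := by
        have := Real.log_le_log (by linarith) hYr
        rw [Real.log_rpow hx0] at this
        linarith
      have b1 : (Real.log X / 2) ^ B ≤ Real.log Y ^ B :=
        pow_le_pow_left₀ (by linarith) hlogY B
      have b2 : C * Y / (q * Real.log Y ^ B) ≤ |C| * Y / (q * (Real.log X / 2) ^ B) := by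
        have b3 : C * Y ≤ |C| * Y := mul_le_mul_of_nonneg_right (le_abs_self C) (by linarith)
        have b4 : 0 < (q : ℝ) * (Real.log X / 2) ^ B := by positivity
        have b5 : (q : ℝ) * (Real.log X / 2) ^ B ≤ q * Real.log Y ^ B :=
          mul_le_mul_of_nonneg_left b1 hq0.le
        exact div_le_div₀ (by positivity) b3 b4 b5
      refine b0.trans (b2.trans (le_of_eq ?_))
      rw [div_pow]
      field_simp)
    X r le_rfl
  refine hmain.trans ?_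
  have hc1 : (⌈(X : ℝ) ^ ((1 : ℝ) / 2)⌉₊ : ℝ) ≤ 2 * (X : ℝ) ^ ((1 : ℝ) / 2) := by
    have := (Nat.ceil_lt_add_one (by positivity : 0 ≤ (X : ℝ) ^ ((1 : ℝ) / 2))).le
    linarith
  have hc2 : (K : ℝ) ≤ (X : ℝ) ^ ((1 : ℝ) / 8) :=
    hK.trans (Real.rpow_le_rpow_of_exponent_le hx1 (min_le_right _ _))
  have hc3 : (q : ℝ) ≤ (X : ℝ) ^ ((1 : ℝ) / 8) :=
    hqX.trans (Real.rpow_le_rpow_of_exponent_le hx1 (min_le_right _ _))
  have hc4 := ALE_natlog X hX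
  have hp0 : (0 : ℝ) < (X : ℝ) ^ ((1 : ℝ) / 8) := by positivity
  have hc5 : 2 * (K : ℝ) * ((Nat.log 2 X : ℝ) + 1) ≤ 34 * (X : ℝ) ^ ((1 : ℝ) / 4) := by
    have e : (X : ℝ) ^ ((1 : ℝ) / 4) = (X : ℝ) ^ ((1 : ℝ) / 8) * (X : ℝ) ^ ((1 : ℝ) / 8) := by
      rw [← Real.rpow_add hx0]
      norm_num
    have h := mul_le_mul hc2 hc4 (by positivity) hp0.le
    rw [e]
    nlinarith [h]
  have hc6 : (X : ℝ) ^ ((1 : ℝ) / 4) ≤ (X : ℝ) ^ ((3 : ℝ) / 4) :=
    Real.rpow_le_rpow_of_exponent_le hx1 (by norm_num)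
  have hc7 : (X : ℝ) ^ ((1 : ℝ) / 2) ≤ (X : ℝ) ^ ((3 : ℝ) / 4) :=
    Real.rpow_le_rpow_of_exponent_le hx1 (by norm_num)
  have hc8 : (X : ℝ) ^ ((3 : ℝ) / 4) ≤
      (8 * ((B : ℝ) + 1)) ^ B * X / (q * Real.log X ^ B) := by
    rw [le_div_iff₀ (by positivity)]
    have e : (X : ℝ) = (X : ℝ) ^ ((3 : ℝ) / 4) * ((X : ℝ) ^ ((1 : ℝ) / 8) *
        (X : ℝ) ^ ((1 : ℝ) / 8)) := by
      rw [← Real.rpow_add hx0, ← Real.rpow_add hx0]
      norm_num
    have h5 := mul_le_mul hc3 (ALE_log B X hx1) (by positivity) hp0.le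
    have h6 := mul_le_mul_of_nonneg_left h5 (by positivity : (0 : ℝ) ≤ (X : ℝ) ^ ((3 : ℝ) / 4))
    refine h6.trans (le_of_eq ?_)
    conv_rhs => rw [e]
    ring
  have e9 : (2 * |C| * 2 ^ B + 36 * (8 * ((B : ℝ) + 1)) ^ B) * X / (q * Real.log X ^ B) =
      2 * (|C| * 2 ^ B / (q * Real.log X ^ B)) * X +
      36 * ((8 * ((B : ℝ) + 1)) ^ B * X / (q * Real.log X ^ B)) := by ring
  rw [e9]
  linarith

end Pool.Agent.SLD
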