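import Pool.Agent.SLD.StA

/-! SLD, module CNT: counting in one class modulo `2 ^ (s + 1) Q`. -/

set_option autoImplicit false
set_option linter.unusedVariables false

namespace Pool.Agent.SLD

open Finset Filter Topology
open Pool.Agent.Collatz3 (cw)

/-- the condition is one residue class -/
theorem CNT_class (b : ℤ) (w : List ℕ) (Q : ℕ) (hQ : Odd Q) :
    ∃ c : ℤ, ∀ n : ℤ, ((Q : ℤ) ∣ n - b ∧
        ∃ m : ℤ, Odd m ∧ 2 ^ w.sum * m = 3 ^ w.length * n + cw w) ↔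
      ((2 ^ (w.sum + 1) * Q : ℕ) : ℤ) ∣ n - c := by
  set s := w.sum
  set k := w.length
  have c1 : IsCoprime ((3 : ℤ) ^ k) (2 ^ (s + 1)) := by
    apply IsCoprime.pow
    exact ⟨1, -1, by norm_num⟩
  have c2 : IsCoprime (Q : ℤ) (2 ^ (s + 1)) := by
    apply IsCoprime.pow_right
    obtain ⟨j, hj⟩ := hQ
    refine ⟨1, -j, ?_⟩
    rw [hj]
    push_cast
    ring
  obtain ⟨u, v, huv⟩ := c1
  obtain ⟨u', v', huv'⟩ := id c2
  set n₁ := u * (2 ^ s - (cw w : ℤ)) with hn₁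
  set c := n₁ * (u' * Q) + b * (v' * 2 ^ (s + 1)) with hc
  have h1 : c - b = Q * (u' * (n₁ - b)) := by
    have : b * (v' * 2 ^ (s + 1)) = b * (1 - u' * Q) := by
      rw [← huv']
      ring
    rw [hc, this]
    ring
  have h2 : c - n₁ = 2 ^ (s + 1) * (v' * (b - n₁)) := by
    have : n₁ * (u' * Q) = n₁ * (1 - v' * 2 ^ (s + 1)) := by
      rw [← huv']
      ring
    rw [hc, this]
    ring
  have h3 : ∃ m₀ : ℤ, Odd m₀ ∧ 2 ^ s * m₀ = 3 ^ k * c + cw w := by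
    refine ⟨1 - 2 * (v * (2 ^ s - (cw w : ℤ))) + 3 ^ k * 2 * (v' * (b - n₁)), ?_, ?_⟩
    · refine ⟨-(v * (2 ^ s - (cw w : ℤ))) + 3 ^ k * (v' * (b - n₁)), ?_⟩
      ring
    · have e1 : c = n₁ + 2 ^ (s + 1) * (v' * (b - n₁)) := by linarith
      have e2 : 3 ^ k * n₁ + (cw w : ℤ) =
          2 ^ s - v * 2 ^ (s + 1) * (2 ^ s - (cw w : ℤ)) := by
        have e3 : 3 ^ k * n₁ = (1 - v * 2 ^ (s + 1)) * (2 ^ s - (cw w : ℤ)) := by
          rw [← huv, hn₁]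
          ring
        rw [e3]
        ring
      have e4 : 3 ^ k * c + (cw w : ℤ) = (3 ^ k * n₁ + (cw w : ℤ)) +
          3 ^ k * (2 ^ (s + 1) * (v' * (b - n₁))) := by
        rw [e1]
        ring
      rw [e4, e2]
      ring
  obtain ⟨m₀, hm₀, he₀⟩ := h3
  refine ⟨c, fun n => ?_⟩
  push_cast
  constructor
  · rintro ⟨g1, m, g2, g3⟩
    have k1 : (Q : ℤ) ∣ n - c := by
      have e : n - c = (n - b) - Q * (u' * (n₁ - b)) := by
        rw [← h1]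
        ring
      rw [e]
      exact dvd_sub g1 (Dvd.intro _ rfl)
    have k2 : (2 : ℤ) ^ (s + 1) ∣ n - c := by
      have e : (3 : ℤ) ^ k * (n - c) = 2 ^ s * (m - m₀) := by
        have e1 : (3 : ℤ) ^ k * (n - c) = (3 ^ k * n + cw w) - (3 ^ k * c + cw w) := by ring
        rw [e1, ← g3, ← he₀]
        ring
      obtain ⟨d, hd⟩ : (2 : ℤ) ∣ m - m₀ := by
        obtain ⟨a1, ha1⟩ := g2
        obtain ⟨a2, ha2⟩ := hm₀
        exact ⟨a1 - a2, by rw [ha1, ha2]; ring⟩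
      have hd2 : (2 : ℤ) ^ (s + 1) ∣ 3 ^ k * (n - c) := by
        refine ⟨d, ?_⟩
        rw [e, hd]
        ring
      have hcop : IsCoprime ((2 : ℤ) ^ (s + 1)) (3 ^ k) := by
        apply IsCoprime.pow
        exact ⟨-1, 1, by norm_num⟩
      exact hcop.dvd_of_dvd_mul_left hd2
    exact c2.symm.mul_dvd k2 k1
  · rintro ⟨t, ht⟩
    refine ⟨?_, m₀ + 2 * (3 ^ k * Q * t), ?_, ?_⟩
    · refine ⟨2 ^ (s + 1) * t + u' * (n₁ - b), ?_⟩
      have e : n - b = (n - c) + (c - b) := by ring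
      rw [e, ht, h1]
      ring
    · exact hm₀.add_even (even_two_mul _)
    · have e : n = c + 2 ^ (s + 1) * Q * t := by linarith
      have e1 : (3 : ℤ) ^ k * n + cw w = (3 ^ k * c + cw w) + 3 ^ k * (2 ^ (s + 1) * Q * t) := by
        rw [e]
        ring
      rw [e1, ← he₀]
      ring

/-- one residue class, positive integers -/
theorem CNT_pos (c : ℤ) (Y M : ℕ) (hM : 0 < M) :
    |((#{x ∈ Ioc (0 : ℤ) Y | x ≡ c [ZMOD M]} : ℕ) : ℝ) - (Y : ℝ) / M| ≤ 1 := by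
  have hM' : (0 : ℤ) < M := by exact_mod_cast hM
  have h1 := Int.Ioc_filter_modEq_card (0 : ℤ) (Y : ℤ) hM' c
  have hq : (0 : ℚ) < (M : ℚ) := by exact_mod_cast hM
  have hY : (0 : ℚ) ≤ (Y : ℚ) / M := by positivity
  set f1 := ⌊(((Y : ℤ) : ℚ) - (c : ℚ)) / ((M : ℤ) : ℚ)⌋ with hf1
  set f0 := ⌊(((0 : ℤ) : ℚ) - (c : ℚ)) / ((M : ℤ) : ℚ)⌋ with hf0
  have a1 := Int.floor_le ((((Y : ℤ) : ℚ) - (c : ℚ)) / ((M : ℤ) : ℚ))
  have a2 := Int.lt_floor_add_one ((((Y : ℤ) : ℚ) - (c : ℚ)) / ((M : ℤ) : ℚ))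
  have b1 := Int.floor_le ((((0 : ℤ) : ℚ) - (c : ℚ)) / ((M : ℤ) : ℚ))
  have b2 := Int.lt_floor_add_one ((((0 : ℤ) : ℚ) - (c : ℚ)) / ((M : ℤ) : ℚ))
  rw [← hf1] at a1 a2
  rw [← hf0] at b1 b2
  have e : (((Y : ℤ) : ℚ) - (c : ℚ)) / ((M : ℤ) : ℚ) -
      (((0 : ℤ) : ℚ) - (c : ℚ)) / ((M : ℤ) : ℚ) = (Y : ℚ) / M := by
    push_cast
    ring
  have hlt : ((f1 : ℚ) - f0) < (Y : ℚ) / M + 1 := by linarith
  have hgt : (Y : ℚ) / M - 1 < ((f1 : ℚ) - f0) := by linarith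
  have hge : f0 ≤ f1 := by
    have : (-1 : ℚ) < ((f1 - f0 : ℤ) : ℚ) := by
      push_cast
      linarith
    have h2 : -1 < f1 - f0 := by exact_mod_cast this
    omega
  have hmax : max (f1 - f0) 0 = f1 - f0 := max_eq_left (by omega)
  rw [hmax] at h1
  have h2 : ((#{x ∈ Ioc (0 : ℤ) Y | x ≡ c [ZMOD M]} : ℕ) : ℚ) = (f1 : ℚ) - f0 := by
    have := congrArg (fun z : ℤ => (z : ℚ)) h1
    push_cast at this
    exact this
  have h3 : |((#{x ∈ Ioc (0 : ℤ) Y | x ≡ c [ZMOD M]} : ℕ) : ℚ) - (Y : ℚ) / M| ≤ 1 := by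
    rw [h2, abs_le]
    constructor <;> linarith
  have h4 : ((|((#{x ∈ Ioc (0 : ℤ) Y | x ≡ c [ZMOD M]} : ℕ) : ℚ) - (Y : ℚ) / M| : ℚ) : ℝ) ≤
      ((1 : ℚ) : ℝ) := Rat.cast_le.2 h3
  push_cast at h4
  exact h4

theorem thm_CNT : St_CNT := by
  intro σ b w Y Q hσ hw hQ
  obtain ⟨c, hc⟩ := CNT_class b w Q hQ
  set M := 2 ^ (w.sum + 1) * Q with hM
  have hM0 : 0 < M := by
    have := hQ.pos
    positivity
  have hσσ : σ * σ = 1 := by rcases hσ with rfl | rfl <;> norm_num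
  have hset : {n : ℤ | 1 ≤ σ * n ∧ σ * n ≤ Y ∧ (Q : ℤ) ∣ n - b ∧
        ∃ m : ℤ, Odd m ∧ 2 ^ w.sum * m = 3 ^ w.length * n + cw w} =
      (fun x => σ * x) '' (↑({x ∈ Ioc (0 : ℤ) Y | x ≡ σ * c [ZMOD M]}) : Set ℤ) := by
    ext n
    have h1 : (n ∈ {n : ℤ | 1 ≤ σ * n ∧ σ * n ≤ Y ∧ (Q : ℤ) ∣ n - b ∧
        ∃ m : ℤ, Odd m ∧ 2 ^ w.sum * m = 3 ^ w.length * n + cw w}) ↔
        (1 ≤ σ * n ∧ σ * n ≤ Y ∧ (M : ℤ) ∣ n - c) := by
      show (1 ≤ σ * n ∧ σ * n ≤ Y ∧ (Q : ℤ) ∣ n - b ∧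
        ∃ m : ℤ, Odd m ∧ 2 ^ w.sum * m = 3 ^ w.length * n + cw w) ↔ _
      rw [hc n]
    rw [h1, Set.mem_image]
    constructor
    · rintro ⟨g1, g2, g3⟩
      refine ⟨σ * n, ?_, ?_⟩
      · rw [mem_coe, mem_filter, mem_Ioc]
        refine ⟨⟨by omega, g2⟩, ?_⟩
        have g4 : (M : ℤ) ∣ σ * n - σ * c := by
          rw [← mul_sub]
          exact Dvd.dvd.mul_left g3 σ
        exact (Int.modEq_iff_dvd.2 (by
          have : σ * c - σ * n = -(σ * n - σ * c) := by ring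
          rw [this]
          exact (dvd_neg).2 g4))
      · show σ * (σ * n) = n
        rw [← mul_assoc, hσσ, one_mul]
    · rintro ⟨x, hx, rfl⟩
      rw [mem_coe, mem_filter, mem_Ioc] at hx
      obtain ⟨⟨g1, g2⟩, g3⟩ := hx
      have e : σ * (σ * x) = x := by rw [← mul_assoc, hσσ, one_mul]
      refine ⟨?_, ?_, ?_⟩
      · show 1 ≤ σ * (σ * x)
        rw [e]
        omega
      · show σ * (σ * x) ≤ Y
        rw [e]
        exact g2
      · show (M : ℤ) ∣ σ * x - c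
        have g4 : (M : ℤ) ∣ σ * c - x := Int.modEq_iff_dvd.1 g3
        have g5 : (M : ℤ) ∣ σ * (σ * c - x) := Dvd.dvd.mul_left g4 σ
        have e2 : σ * (σ * c - x) = -(σ * x - c) := by
          have : σ * (σ * c - x) = σ * σ * c - σ * x := by ring
          rw [this, hσσ]
          ring
        rw [e2] at g5
        exact (dvd_neg).1 g5
  have hinj : Function.Injective (fun x : ℤ => σ * x) := by
    intro x y hxy
    have h1 : σ * x = σ * y := hxy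
    have h2 : σ * (σ * x) = σ * (σ * y) := by rw [h1]
    rw [← mul_assoc, ← mul_assoc, hσσ, one_mul, one_mul] at h2
    exact h2
  rw [hset, Set.ncard_image_of_injective _ hinj, Set.ncard_coe_finset]
  have h := CNT_pos (σ * c) Y M hM0
  have e : (M : ℝ) = 2 ^ (w.sum + 1) * Q := by
    rw [hM]
    push_cast
    ring
  rw [← e]
  exact h

end Pool.Agent.SLD
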