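import Pool.Agent.SLD.StA

/-! SLD, module FWD: forward words. -/

set_option autoImplicit false
set_option linter.unusedVariables false

namespace Pool.Agent.SLD

open Finset Filter Topology
open Pool.Agent.Collatz3 (cw)

theorem FWD_step (n m : ℤ) (i : ℕ) (u : List ℕ) (hi : 1 ≤ i)
    (h : 2 ^ (i :: u).sum * m = 3 ^ (i :: u).length * n + cw (i :: u)) :
    ∃ m₁ : ℤ, Odd m₁ ∧ 2 ^ u.sum * m₁ = 3 ^ u.length * n + cw u ∧ 2 ^ i * m = 3 * m₁ + 1 := by
  have e0 : (cw (i :: u) : ℤ) = 3 * (cw u : ℤ) + 2 ^ u.sum := by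
    have : cw (i :: u) = 3 * cw u + 2 ^ u.sum := rfl
    rw [this]
    push_cast
    ring
  rw [e0, List.sum_cons, List.length_cons, pow_add, pow_succ] at h
  have h2 : (2 : ℤ) ^ u.sum ≠ 0 := by positivity
  have hd : (2 : ℤ) ^ u.sum ∣ 3 * (3 ^ u.length * n + (cw u : ℤ)) := by
    refine ⟨2 ^ i * m - 1, ?_⟩
    have e1 : (3 : ℤ) * (3 ^ u.length * n + (cw u : ℤ)) =
        3 ^ u.length * 3 * n + (3 * (cw u : ℤ) + 2 ^ u.sum) - 2 ^ u.sum := by ring
    rw [e1, ← h]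
    ring
  have hc : IsCoprime ((2 : ℤ) ^ u.sum) 3 := by
    apply IsCoprime.pow_left
    exact ⟨-1, 1, by norm_num⟩
  obtain ⟨m₁, hm₁⟩ := hc.dvd_of_dvd_mul_left hd
  have e2 : 2 ^ i * m = 3 * m₁ + 1 := by
    apply mul_left_cancel₀ h2
    have e3 : (2 : ℤ) ^ u.sum * (2 ^ i * m) = 2 ^ i * 2 ^ u.sum * m := by ring
    rw [e3, h, mul_add, mul_left_comm, ← hm₁]
    ring
  refine ⟨m₁, ?_, hm₁.symm, e2⟩
  obtain ⟨j, rfl⟩ : ∃ j, i = j + 1 := ⟨i - 1, by omega⟩
  rcases Int.even_or_odd m₁ with ⟨c, hc⟩ | ho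
  · exfalso
    have e4 : (2 : ℤ) * (2 ^ j * m) = 3 * m₁ + 1 := by
      rw [← e2]
      ring
    omega
  · exact ho

/-- the power of 2 of a nonzero integer -/
theorem FWD_two (z : ℤ) (hz : z ≠ 0) : ∃ (i : ℕ) (m : ℤ), Odd m ∧ 2 ^ i * m = z := by
  obtain ⟨i, hi⟩ := Nat.exists_eq_two_pow_mul_odd (n := z.natAbs) (Int.natAbs_ne_zero.2 hz)
  obtain ⟨m, hm, he⟩ := hi
  rcases Int.natAbs_eq z with h | h
  · refine ⟨i, m, by exact_mod_cast hm, ?_⟩
    rw [h, he]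
    push_cast
    ring
  · refine ⟨i, -m, ?_, ?_⟩
    · have : Odd (m : ℤ) := by exact_mod_cast hm
      exact this.neg
    · rw [h, he]
      push_cast
      ring

theorem FWD_pow_inj : ∀ (i j : ℕ) (m m' : ℤ), Odd m → Odd m' → 2 ^ i * m = 2 ^ j * m' → i = j
  | 0, 0, _, _, _, _, _ => rfl
  | 0, j + 1, m, m', h, h', e => by
    exfalso
    obtain ⟨c, hc⟩ := h
    have e1 : m = 2 * (2 ^ j * m') := by
      rw [pow_zero, one_mul] at e
      rw [e]
      ring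
    omega
  | i + 1, 0, m, m', h, h', e => by
    exfalso
    obtain ⟨c, hc⟩ := h'
    have e1 : m' = 2 * (2 ^ i * m) := by
      rw [pow_zero, one_mul] at e
      rw [← e]
      ring
    omega
  | i + 1, j + 1, m, m', h, h', e => by
    have e1 : 2 ^ i * m = 2 ^ j * m' := by
      apply mul_left_cancel₀ (two_ne_zero : (2 : ℤ) ≠ 0)
      have e2 : (2 : ℤ) * (2 ^ i * m) = 2 ^ (i + 1) * m := by ring
      have e3 : (2 : ℤ) * (2 ^ j * m') = 2 ^ (j + 1) * m' := by ring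
      rw [e2, e3, e]
    rw [FWD_pow_inj i j m m' h h' e1]

theorem FWD_a (n : ℤ) (hn : Odd n) : ∀ k : ℕ, ∃ w : List ℕ, w.length = k ∧ (∀ i ∈ w, 1 ≤ i) ∧
    ∃ m : ℤ, Odd m ∧ 2 ^ w.sum * m = 3 ^ k * n + cw w
  | 0 => ⟨[], rfl, by simp, n, hn, by simp [cw]⟩
  | k + 1 => by
    obtain ⟨w, h1, h2, m, h3, h4⟩ := FWD_a n hn k
    have hz : 3 * m + 1 ≠ 0 := by omega
    obtain ⟨i, m', h5, h6⟩ := FWD_two (3 * m + 1) hz
    have hi : 1 ≤ i := by
      by_contra hcon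
      have : i = 0 := by omega
      subst this
      rw [pow_zero, one_mul] at h6
      obtain ⟨c, hc⟩ := h3
      obtain ⟨d, hd⟩ := h5
      omega
    refine ⟨i :: w, by rw [List.length_cons, h1], ?_, m', h5, ?_⟩
    · intro j hj
      rcases List.mem_cons.1 hj with rfl | hj
      · exact hi
      · exact h2 j hj
    · have e0 : (cw (i :: w) : ℤ) = 3 * (cw w : ℤ) + 2 ^ w.sum := by
        have : cw (i :: w) = 3 * cw w + 2 ^ w.sum := rfl
        rw [this]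
        push_cast
        ring
      rw [e0, List.sum_cons, pow_add, pow_succ]
      have e1 : (2 : ℤ) ^ i * 2 ^ w.sum * m' = 2 ^ w.sum * (2 ^ i * m') := by ring
      have e2 : (2 : ℤ) ^ w.sum * (3 * m + 1) = 3 * (2 ^ w.sum * m) + 2 ^ w.sum := by ring
      rw [e1, h6, e2, h4]
      ring

theorem FWD_b (n : ℤ) : ∀ (w w' : List ℕ) (m m' : ℤ), Odd m → Odd m' → w.length = w'.length →
    (∀ i ∈ w, 1 ≤ i) → (∀ i ∈ w', 1 ≤ i) → 2 ^ w.sum * m = 3 ^ w.length * n + cw w →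
    2 ^ w'.sum * m' = 3 ^ w'.length * n + cw w' → w = w'
  | [], w', m, m', _, _, hl, _, _, _, _ => by
    rw [List.length_nil] at hl
    exact (List.length_eq_zero_iff.1 hl.symm).symm
  | i :: u, [], m, m', _, _, hl, _, _, _, _ => by
    rw [List.length_nil, List.length_cons] at hl
    omega
  | i :: u, i' :: u', m, m', hm, hm', hl, hw, hw', h, h' => by
    obtain ⟨m₁, g1, g2, g3⟩ := FWD_step n m i u (hw i (List.mem_cons_self ..)) h
    obtain ⟨m₁', g1', g2', g3'⟩ := FWD_step n m' i' u' (hw' i' (List.mem_cons_self ..)) h'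
    have hu : u = u' := FWD_b n u u' m₁ m₁' g1 g1' (by simpa using hl)
      (fun j hj => hw j (List.mem_cons_of_mem _ hj)) (fun j hj => hw' j (List.mem_cons_of_mem _ hj))
      g2 g2'
    subst hu
    have h2 : (2 : ℤ) ^ u.sum ≠ 0 := by positivity
    have e1 : m₁ = m₁' := by
      apply mul_left_cancel₀ h2
      rw [g2, g2']
    have e2 : (2 : ℤ) ^ i * m = 2 ^ i' * m' := by rw [g3, g3', e1]
    rw [FWD_pow_inj i i' m m' hm hm' e2]

theorem FWD_double {A : Set ℤ} (hA : Inv A) (m : ℤ) : ∀ j : ℕ, 2 ^ j * m ∈ A ↔ m ∈ A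
  | 0 => by rw [pow_zero, one_mul]
  | j + 1 => by
    rw [hA (2 ^ (j + 1) * m)]
    have e : T (2 ^ (j + 1) * m) = 2 ^ j * m := by
      have e1 : (2 : ℤ) ^ (j + 1) * m = 2 * (2 ^ j * m) := by ring
      unfold T
      rw [e1, if_pos (Dvd.intro _ rfl)]
      exact Int.mul_ediv_cancel_left _ two_ne_zero
    rw [e]
    exact FWD_double hA m j

theorem FWD_c (n : ℤ) : ∀ (w : List ℕ) (m : ℤ), Odd m → (∀ i ∈ w, 1 ≤ i) →
    2 ^ w.sum * m = 3 ^ w.length * n + cw w →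
    Odd n ∧ (0 < n ↔ 0 < m) ∧ ∀ A : Set ℤ, Inv A → (n ∈ A ↔ m ∈ A)
  | [], m, hm, _, h => by
    have e : m = n := by simpa [cw] using h
    rw [e] at hm ⊢
    exact ⟨hm, Iff.rfl, fun _ _ => Iff.rfl⟩
  | i :: u, m, hm, hw, h => by
    obtain ⟨m₁, g1, g2, g3⟩ := FWD_step n m i u (hw i (List.mem_cons_self ..)) h
    obtain ⟨k1, k2, k3⟩ := FWD_c n u m₁ g1 (fun j hj => hw j (List.mem_cons_of_mem _ hj)) g2
    refine ⟨k1, k2.trans ?_, fun A hA => (k3 A hA).trans ?_⟩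
    · have hp : (0 : ℤ) < 2 ^ i := by positivity
      have hm₁ : m₁ ≠ 0 := by
        rintro rfl
        exact (by decide : ¬ Odd (0 : ℤ)) g1
      constructor
      · intro h1
        have h2 : 0 < 2 ^ i * m := by
          rw [g3]
          linarith
        exact pos_of_mul_pos_right h2 hp.le
      · intro h1
        have h2 : 0 < 2 ^ i * m := mul_pos hp h1
        rw [g3] at h2
        omega
    · obtain ⟨j, rfl⟩ : ∃ j, i = j + 1 :=
        ⟨i - 1, by have := hw i (List.mem_cons_self ..); omega⟩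
      rw [hA m₁]
      have e : T m₁ = 2 ^ j * m := by
        have h1 : ¬ (2 : ℤ) ∣ m₁ := by
          obtain ⟨c, hc⟩ := g1
          omega
        unfold T
        rw [if_neg h1, ← g3]
        have e1 : (2 : ℤ) ^ (j + 1) * m = 2 * (2 ^ j * m) := by ring
        rw [e1]
        exact Int.mul_ediv_cancel_left _ two_ne_zero
      rw [e]
      exact FWD_double hA m j

theorem thm_FWD : St_FWD :=
  ⟨fun n k hn => FWD_a n hn k,
    fun n m m' w w' _ hm hm' hl hw hw' h h' => FWD_b n w w' m m' hm hm' hl hw hw' h h',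
    fun n m w hm hw h => FWD_c n w m hm hw h⟩

end Pool.Agent.SLD
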