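import Pool.Agent.SLD.StB
import Pool.Agent.SLD.FWD

/-! SLD, module FWE: forward words and eventually invariant sets. -/

set_option autoImplicit false
set_option linter.unusedVariables false

namespace Pool.Agent.SLD

open Finset Filter Topology
open Pool.Agent.Collatz3 (cw)

theorem FWE_double (m : ℤ) : ∀ j : ℕ, T^[j] (2 ^ j * m) = m
  | 0 => by simp
  | j + 1 => by
    rw [Function.iterate_succ_apply]
    have e : T (2 ^ (j + 1) * m) = 2 ^ j * m := by
      have e1 : (2 : ℤ) ^ (j + 1) * m = 2 * (2 ^ j * m) := by ring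
      unfold T
      rw [e1, if_pos (Dvd.intro _ rfl)]
      exact Int.mul_ediv_cancel_left _ two_ne_zero
    rw [e]
    exact FWE_double m j

theorem FWE_a (n : ℤ) : ∀ (w : List ℕ) (m : ℤ), Odd m → (∀ i ∈ w, 1 ≤ i) →
    2 ^ w.sum * m = 3 ^ w.length * n + cw w → T^[w.sum] n = m
  | [], m, hm, _, h => by
    have e : m = n := by simpa [cw] using h
    rw [e]
    rfl
  | i :: u, m, hm, hw, h => by
    obtain ⟨m₁, g1, g2, g3⟩ := FWD_step n m i u (hw i (List.mem_cons_self ..)) h
    have ih := FWE_a n u m₁ g1 (fun j hj => hw j (List.mem_cons_of_mem _ hj)) g2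
    rw [List.sum_cons, Function.iterate_add_apply, ih]
    obtain ⟨j, rfl⟩ : ∃ j, i = j + 1 :=
      ⟨i - 1, by have := hw i (List.mem_cons_self ..); omega⟩
    rw [Function.iterate_succ_apply]
    have e : T m₁ = 2 ^ j * m := by
      have h1 : ¬ (2 : ℤ) ∣ m₁ := by
        obtain ⟨c, hc⟩ := g1
        omega
      unfold T
      rw [if_neg h1, ← g3]
      have e1 : (2 : ℤ) ^ (j + 1) * m = 2 * (2 ^ j * m) := by ring
      rw [e1]
      exact Int.mul_ediv_cancel_left _ two_ne_zero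
    rw [e]
    exact FWE_double m j

theorem FWE_abs (n : ℤ) : |n| ≤ 2 * |T n| := by
  unfold T
  split_ifs with h
  · obtain ⟨c, rfl⟩ := h
    rw [Int.mul_ediv_cancel_left _ two_ne_zero, abs_mul]
    norm_num
  · have h1 : 2 * ((3 * n + 1) / 2) = 3 * n + 1 := by omega
    have h2 : 2 * |(3 * n + 1) / 2| = |3 * n + 1| := by
      have h3 : |2 * ((3 * n + 1) / 2)| = 2 * |(3 * n + 1) / 2| := by
        rw [abs_mul]
        norm_num
      rw [← h3, h1]
    rw [h2]
    rcases le_or_gt 0 n with h4 | h4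
    · rw [abs_of_nonneg h4, abs_of_nonneg (by omega)]
      omega
    · rw [abs_of_neg h4, abs_of_neg (by omega)]
      omega

theorem FWE_b {K : ℕ} {A : Set ℤ} (hA : EvInv K A) : ∀ (j : ℕ) (n : ℤ), (K : ℤ) * 2 ^ j < |n| →
    (T^[j] n ∈ A ↔ n ∈ A)
  | 0, n, _ => Iff.rfl
  | j + 1, n, h => by
    rw [Function.iterate_succ_apply]
    have h1 := FWE_abs n
    have h2 : (K : ℤ) * 2 ^ (j + 1) = 2 * (K * 2 ^ j) := by ring
    have h3 : (K : ℤ) * 2 ^ j < |T n| := by
      rw [h2] at h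
      linarith
    have h4 : (K : ℤ) < |n| := by
      have h5 : (1 : ℤ) ≤ 2 ^ (j + 1) := one_le_pow₀ (by norm_num)
      have h6 : (K : ℤ) * 1 ≤ K * 2 ^ (j + 1) :=
        mul_le_mul_of_nonneg_left h5 (Int.natCast_nonneg _)
      linarith
    exact (FWE_b hA j (T n) h3).trans (hA n h4)

theorem thm_FWE : St_FWE :=
  ⟨fun n m w hm hw h => FWE_a n w m hm hw h, fun K A hA n j h => FWE_b hA j n h⟩

end Pool.Agent.SLD
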