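import Pool.Agent.SLD.StA

/-! SLD, module HO1: the hand-off, first part. -/

set_option autoImplicit false
set_option linter.unusedVariables false

namespace Pool.Agent.SLD

open Finset Filter Topology
open Pool.Agent.Collatz3 (cw)

theorem HO1_cw_le : ∀ w : List ℕ, (∀ i ∈ w, 1 ≤ i) → cw w + 2 ^ w.sum ≤ 3 ^ w.length * 2 ^ w.sum
  | [], _ => by simp [cw]
  | i :: w, h => by
    have ih := HO1_cw_le w (fun j hj => h j (List.mem_cons_of_mem _ hj))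
    have hi : 1 ≤ i := h i (List.mem_cons_self ..)
    obtain ⟨j, rfl⟩ : ∃ j, i = j + 1 := ⟨i - 1, by omega⟩
    have e1 : cw ((j + 1) :: w) = 3 * cw w + 2 ^ w.sum := rfl
    rw [e1, List.sum_cons, List.length_cons, pow_add, pow_succ, pow_succ]
    have h1 : 1 ≤ 2 ^ j := Nat.one_le_two_pow
    have h2 : 1 ≤ 3 ^ w.length := Nat.one_le_pow _ _ (by norm_num)
    set a := 2 ^ w.sum
    set c := 3 ^ w.length
    set d := 2 ^ j
    have h3 : 3 * cw w + 3 * a ≤ 3 * (c * a) := by omega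
    have h4 : c * a * 1 ≤ c * a * d := Nat.mul_le_mul_left _ h1
    have h5 : 1 * (a * d) ≤ c * (a * d) := Nat.mul_le_mul_right _ h2
    have e2 : c * 3 * (d * 2 * a) = 6 * (c * a * d) := by ring
    have e3 : d * 2 * a = 2 * (a * d) := by ring
    have e4 : c * (a * d) = c * a * d := by ring
    rw [e2, e3]
    omega

theorem HO1_nat1 (X t a : ℕ) (h : t + 1 ≤ a) : X ≤ X - (t + 1) + a := by omega

theorem HO1_nat2 (X t a : ℕ) (h : t + 1 ≤ a) : X + (t + 1) ≤ X + a := by omega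

theorem HO1_nat3 (X t : ℕ) : X - (t + 1) ≤ X := by omega

theorem HO1_nat4 (X t : ℕ) : X ≤ X + (t + 1) := by omega

/-- the word `w` leads from `n` to an odd integer -/
def HO1_has (w : List ℕ) (n : ℤ) : Prop :=
  ∃ m : ℤ, Odd m ∧ 2 ^ w.sum * m = 3 ^ w.length * n + cw w

theorem HO1_fin {σ : ℤ} (hσ : σ = 1 ∨ σ = -1) (Y : ℕ) :
    {n : ℤ | 1 ≤ σ * n ∧ σ * n ≤ Y}.Finite := by
  apply (Set.finite_Icc (-(Y : ℤ)) Y).subset
  rintro n ⟨h1, h2⟩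
  rcases hσ with rfl | rfl
  · constructor <;> omega
  · constructor <;> omega

/-- the set of CNT -/
def HO1_D (σ b : ℤ) (w : List ℕ) (Y Q : ℕ) : Set ℤ :=
  {n : ℤ | 1 ≤ σ * n ∧ σ * n ≤ Y ∧ (Q : ℤ) ∣ n - b ∧
        ∃ m : ℤ, Odd m ∧ 2 ^ w.sum * m = 3 ^ w.length * n + cw w}

theorem HO1_D_fin {σ : ℤ} (hσ : σ = 1 ∨ σ = -1) (b : ℤ) (w : List ℕ) (Y Q : ℕ) :
    (HO1_D σ b w Y Q).Finite :=
  (HO1_fin hσ Y).subset fun _ h => ⟨h.1, h.2.1⟩

/-- the number of elements of a window -/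
theorem HO1_win (hC : St_CNT) {σ : ℤ} (hσ : σ = 1 ∨ σ = -1) (b : ℤ) (w : List ℕ)
    (hw : ∀ i ∈ w, 1 ≤ i) (Y Z Q : ℕ) (hQ : Odd Q) (hYZ : Y ≤ Z) (hZ : Z ≤ Y + 2 ^ w.sum) :
    (Set.ncard (HO1_D σ b w Z Q \ HO1_D σ b w Y Q) : ℝ) ≤ 3 := by
  have hsub : HO1_D σ b w Y Q ⊆ HO1_D σ b w Z Q := by
    rintro n ⟨h1, h2, h3, h4⟩
    exact ⟨h1, h2.trans (by exact_mod_cast hYZ), h3, h4⟩
  have e1 : (Set.ncard (HO1_D σ b w Z Q \ HO1_D σ b w Y Q) : ℝ) =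
      (HO1_D σ b w Z Q).ncard - (HO1_D σ b w Y Q).ncard := by
    have h1 := Set.ncard_sdiff_add_ncard_of_subset hsub (HO1_D_fin hσ b w Z Q)
    rw [← h1]
    push_cast
    ring
  rw [e1]
  have h1 := abs_le.1 (hC σ b w Z Q hσ hw hQ)
  have h2 := abs_le.1 (hC σ b w Y Q hσ hw hQ)
  have hQ1 : (1 : ℝ) ≤ Q := by
    have : 1 ≤ Q := hQ.pos
    exact_mod_cast this
  have hp : (0 : ℝ) < 2 ^ (w.sum + 1) * Q := by positivity
  have h3 : (Z : ℝ) / (2 ^ (w.sum + 1) * Q) - Y / (2 ^ (w.sum + 1) * Q) ≤ 1 := by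
    rw [← sub_div, div_le_one hp]
    have h4 : (Z : ℝ) ≤ Y + 2 ^ w.sum := by exact_mod_cast hZ
    have h5 : (2 : ℝ) ^ w.sum * 1 ≤ 2 ^ w.sum * (2 * Q) := by
      apply mul_le_mul_of_nonneg_left _ (by positivity)
      linarith
    have e2 : (2 : ℝ) ^ (w.sum + 1) * Q = 2 ^ w.sum * (2 * Q) := by ring
    rw [e2]
    linarith
  have e3 : (HO1_D σ b w Z Q).ncard = Set.ncard {n : ℤ | 1 ≤ σ * n ∧ σ * n ≤ Z ∧ (Q : ℤ) ∣ n - b ∧
        ∃ m : ℤ, Odd m ∧ 2 ^ w.sum * m = 3 ^ w.length * n + cw w} := rfl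
  have e4 : (HO1_D σ b w Y Q).ncard = Set.ncard {n : ℤ | 1 ≤ σ * n ∧ σ * n ≤ Y ∧ (Q : ℤ) ∣ n - b ∧
        ∃ m : ℤ, Odd m ∧ 2 ^ w.sum * m = 3 ^ w.length * n + cw w} := rfl
  rw [e3, e4]
  linarith [h1.2, h2.1]

/-- the `n ∈ A` with word `w` -/
def HO1_En (σ b : ℤ) (A : Set ℤ) (w : List ℕ) (X Q : ℕ) : Set ℤ :=
  {n : ℤ | Odd n ∧ 1 ≤ σ * n ∧ σ * n ≤ X ∧ (Q : ℤ) ∣ n - b ∧ n ∈ A ∧ HO1_has w n}

/-- the same with the other boundary -/
def HO1_Cn (σ b : ℤ) (A : Set ℤ) (w : List ℕ) (X Q : ℕ) : Set ℤ :=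
  {n : ℤ | Odd n ∧ 1 ≤ σ * n ∧ 3 ^ w.length * (σ * n) + σ * (cw w : ℤ) ≤ 3 ^ w.length * X ∧
    (Q : ℤ) ∣ n - b ∧ n ∈ A ∧ HO1_has w n}

theorem HO1_Cn_eq (hF : St_FWD) {σ : ℤ} (hσ : σ = 1 ∨ σ = -1) (b : ℤ) {A : Set ℤ} (hA : Inv A)
    (w : List ℕ) (hw : ∀ i ∈ w, 1 ≤ i) (X Q : ℕ) :
    (HO1_Cn σ b A w X Q).ncard = Cn σ A X Q b w := by
  obtain ⟨-, -, hF3⟩ := hF
  have h2 : (0 : ℤ) < 2 ^ w.sum := by positivity
  have h3 : (0 : ℤ) < 3 ^ w.length := by positivity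
  have hsign : ∀ n m : ℤ, Odd n → Odd m → (0 < n ↔ 0 < m) → (1 ≤ σ * n ↔ 1 ≤ σ * m) := by
    intro n m hn hm h
    have hn0 : n ≠ 0 := by
      rintro rfl
      exact (by decide : ¬ Odd (0 : ℤ)) hn
    have hm0 : m ≠ 0 := by
      rintro rfl
      exact (by decide : ¬ Odd (0 : ℤ)) hm
    rcases hσ with rfl | rfl
    · omega
    · omega
  unfold Cn
  apply Set.ncard_congr (fun (n : ℤ) (_ : n ∈ HO1_Cn σ b A w X Q) =>
    (3 ^ w.length * n + (cw w : ℤ)) / 2 ^ w.sum)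
  · rintro n ⟨g1, g2, g3, g4, g5, m, g6, g7⟩
    have e : (3 ^ w.length * n + (cw w : ℤ)) / 2 ^ w.sum = m := by
      rw [← g7]
      exact Int.mul_ediv_cancel_left _ h2.ne'
    obtain ⟨k1, k2, k3⟩ := hF3 n m w g6 hw g7
    show (3 ^ w.length * n + (cw w : ℤ)) / 2 ^ w.sum ∈ _
    rw [e]
    refine ⟨g6, (hsign n m k1 g6 k2).1 g2, ?_, ?_, (k3 A hA).1 g5⟩
    · have e2 : σ * m * 2 ^ w.sum = 3 ^ w.length * (σ * n) + σ * (cw w : ℤ) := by
        have e3 : σ * m * 2 ^ w.sum = σ * (2 ^ w.sum * m) := by ring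
        rw [e3, g7]
        ring
      rw [e2]
      exact g3
    · obtain ⟨c, hc⟩ := g4
      refine ⟨c, ?_⟩
      rw [g7]
      have e3 : (3 : ℤ) ^ w.length * Q * c = 3 ^ w.length * (Q * c) := by ring
      rw [e3, ← hc]
      ring
  · rintro n n' ⟨g1, g2, g3, g4, g5, m, g6, g7⟩ ⟨g1', g2', g3', g4', g5', m', g6', g7'⟩ hnn
    have e : (3 ^ w.length * n + (cw w : ℤ)) / 2 ^ w.sum = m := by
      rw [← g7]
      exact Int.mul_ediv_cancel_left _ h2.ne'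
    have e' : (3 ^ w.length * n' + (cw w : ℤ)) / 2 ^ w.sum = m' := by
      rw [← g7']
      exact Int.mul_ediv_cancel_left _ h2.ne'
    have hmm : m = m' := by
      rw [← e, ← e']
      exact hnn
    rw [hmm, g7'] at g7
    have h5 : (3 : ℤ) ^ w.length * n' = 3 ^ w.length * n := by linarith
    exact (mul_left_cancel₀ h3.ne' h5).symm
  · rintro m ⟨g1, g2, g3, ⟨c, hc⟩, g5⟩
    have e1 : 2 ^ w.sum * m = 3 ^ w.length * (b + Q * c) + cw w := by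
      have e3 : (3 : ℤ) ^ w.length * Q * c = 3 ^ w.length * (Q * c) := by ring
      rw [e3] at hc
      rw [mul_add]
      linarith
    obtain ⟨k1, k2, k3⟩ := hF3 _ m w g1 hw e1
    refine ⟨b + Q * c, ⟨k1, (hsign _ m k1 g1 k2).2 g2, ?_, ⟨c, by ring⟩, (k3 A hA).2 g5,
      m, g1, e1⟩, ?_⟩
    · have e2 : σ * m * 2 ^ w.sum = 3 ^ w.length * (σ * (b + Q * c)) + σ * (cw w : ℤ) := by
        have e3 : σ * m * 2 ^ w.sum = σ * (2 ^ w.sum * m) := by ring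
        rw [e3, e1]
        ring
      rw [← e2]
      exact g3
    · show (3 ^ w.length * (b + Q * c) + (cw w : ℤ)) / 2 ^ w.sum = m
      rw [← e1]
      exact Int.mul_ediv_cancel_left _ h2.ne'

theorem HO1_diff (hF : St_FWD) (hC : St_CNT) {σ : ℤ} (hσ : σ = 1 ∨ σ = -1) (b : ℤ) {A : Set ℤ}
    (hA : Inv A) (w : List ℕ) (hw : ∀ i ∈ w, 1 ≤ i) (X Q : ℕ) (hQ : Odd Q) :
    |((HO1_En σ b A w X Q).ncard : ℝ) - Cn σ A X Q b w| ≤ 3 := by
  rw [← HO1_Cn_eq hF hσ b hA w hw X Q]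
  have h3 : (0 : ℤ) < 3 ^ w.length := by positivity
  have h3n : 0 < 3 ^ w.length := by positivity
  have hcw := HO1_cw_le w hw
  have hq : cw w / 3 ^ w.length + 1 ≤ 2 ^ w.sum := by
    have h1 : cw w < 3 ^ w.length * 2 ^ w.sum := by
      have : 0 < 2 ^ w.sum := by positivity
      omega
    have h2 : cw w / 3 ^ w.length < 2 ^ w.sum := by
      rw [Nat.div_lt_iff_lt_mul h3n, mul_comm]
      exact h1
    omega
  have hdm := Nat.div_add_mod (cw w) (3 ^ w.length)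
  have hml := Nat.mod_lt (cw w) h3n
  set t := cw w / 3 ^ w.length with ht
  have hcz : (cw w : ℤ) = 3 ^ w.length * (t : ℤ) + ((cw w % 3 ^ w.length : ℕ) : ℤ) := by
    rw [← hdm]
    push_cast
    simp
  set r := cw w % 3 ^ w.length with hr
  have hrz : (r : ℤ) < 3 ^ w.length := by exact_mod_cast hml
  have hr0 : (0 : ℤ) ≤ r := Int.natCast_nonneg _
  rcases hσ with hs | hs
  · subst hs
    have hσ' : (1 : ℤ) = 1 ∨ (1 : ℤ) = -1 := Or.inl rfl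
    have hsub : HO1_Cn 1 b A w X Q ⊆ HO1_En 1 b A w X Q := by
      rintro n ⟨g1, g2, g3, g4, g5, g6⟩
      refine ⟨g1, g2, ?_, g4, g5, g6⟩
      have h5 : (3 : ℤ) ^ w.length * (1 * n) ≤ 3 ^ w.length * X := by
        have h6 : (0 : ℤ) ≤ 1 * (cw w : ℤ) := by simp
        linarith
      exact le_of_mul_le_mul_left h5 h3
    have hfin : (HO1_En 1 b A w X Q).Finite := (HO1_fin hσ' X).subset fun _ h => ⟨h.2.1, h.2.2.1⟩
    have hsub2 : HO1_En 1 b A w X Q \ HO1_Cn 1 b A w X Q ⊆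
        HO1_D 1 b w X Q \ HO1_D 1 b w (X - (t + 1)) Q := by
      rintro n ⟨⟨g1, g2, g3, g4, g5, g6⟩, hn⟩
      refine ⟨⟨g2, g3, g4, g6⟩, ?_⟩
      rintro ⟨-, k2, -, -⟩
      apply hn
      refine ⟨g1, g2, ?_, g4, g5, g6⟩
      have h5 : (1 : ℤ) * n ≤ X - (t + 1) := by
        have h6 : ((X - (t + 1) : ℕ) : ℤ) = (X : ℤ) - (t + 1) ∨ ((X - (t + 1) : ℕ) : ℤ) = 0 := by
          omega
        rcases h6 with h6 | h6
        · rw [h6] at k2
          exact k2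
        · rw [h6] at k2
          omega
      have h7 : (3 : ℤ) ^ w.length * (1 * n) ≤ 3 ^ w.length * (X - (t + 1)) :=
        mul_le_mul_of_nonneg_left h5 h3.le
      have e5 : (3 : ℤ) ^ w.length * (X - (t + 1)) =
          3 ^ w.length * X - 3 ^ w.length * t - 3 ^ w.length := by ring
      rw [e5] at h7
      linarith
    have e1 : ((HO1_En 1 b A w X Q).ncard : ℝ) - (HO1_Cn 1 b A w X Q).ncard =
        (HO1_En 1 b A w X Q \ HO1_Cn 1 b A w X Q).ncard := by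
      have h1 := Set.ncard_sdiff_add_ncard_of_subset hsub hfin
      rw [← h1]
      push_cast
      ring
    rw [e1, abs_of_nonneg (Nat.cast_nonneg _)]
    have h1 : ((HO1_En 1 b A w X Q \ HO1_Cn 1 b A w X Q).ncard : ℝ) ≤
        ((HO1_D 1 b w X Q \ HO1_D 1 b w (X - (t + 1)) Q).ncard : ℝ) := by
      exact_mod_cast Set.ncard_le_ncard hsub2 ((HO1_D_fin hσ' b w X Q).subset Set.sdiff_subset)
    exact h1.trans (HO1_win hC hσ' b w hw _ _ Q hQ (HO1_nat3 X t) (HO1_nat1 X t _ hq))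
  · subst hs
    have hσ' : (-1 : ℤ) = 1 ∨ (-1 : ℤ) = -1 := Or.inr rfl
    have hsub : HO1_En (-1) b A w X Q ⊆ HO1_Cn (-1) b A w X Q := by
      rintro n ⟨g1, g2, g3, g4, g5, g6⟩
      refine ⟨g1, g2, ?_, g4, g5, g6⟩
      have h5 : (3 : ℤ) ^ w.length * (-1 * n) ≤ 3 ^ w.length * X :=
        mul_le_mul_of_nonneg_left g3 h3.le
      have h6 : (0 : ℤ) ≤ (cw w : ℤ) := Int.natCast_nonneg _
      linarith
    have hsub2 : HO1_Cn (-1) b A w X Q \ HO1_En (-1) b A w X Q ⊆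
        HO1_D (-1) b w (X + (t + 1)) Q \ HO1_D (-1) b w X Q := by
      rintro n ⟨⟨g1, g2, g3, g4, g5, g6⟩, hn⟩
      refine ⟨⟨g2, ?_, g4, g6⟩, ?_⟩
      · by_contra hcon
        push Not at hcon
        have h5 : ((X + (t + 1) : ℕ) : ℤ) < -1 * n := hcon
        push_cast at h5
        have h6 : (3 : ℤ) ^ w.length * (X + (t + 1)) ≤ 3 ^ w.length * (-1 * n) :=
          mul_le_mul_of_nonneg_left h5.le h3.le
        have e5 : (3 : ℤ) ^ w.length * (X + (t + 1)) =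
            3 ^ w.length * X + 3 ^ w.length * t + 3 ^ w.length := by ring
        rw [e5] at h6
        linarith
      · rintro ⟨-, k2, -, -⟩
        exact hn ⟨g1, g2, k2, g4, g5, g6⟩
    have hE : (HO1_En (-1) b A w X Q).Finite := (HO1_fin hσ' X).subset fun _ h => ⟨h.2.1, h.2.2.1⟩
    have hfin : (HO1_Cn (-1) b A w X Q).Finite := by
      apply ((HO1_D_fin hσ' b w (X + (t + 1)) Q).union hE).subset
      intro n hn
      by_cases h : n ∈ HO1_En (-1) b A w X Q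
      · exact Or.inr h
      · exact Or.inl (hsub2 ⟨hn, h⟩).1
    have e1 : ((HO1_En (-1) b A w X Q).ncard : ℝ) - (HO1_Cn (-1) b A w X Q).ncard =
        -((HO1_Cn (-1) b A w X Q \ HO1_En (-1) b A w X Q).ncard : ℝ) := by
      have h1 := Set.ncard_sdiff_add_ncard_of_subset hsub hfin
      rw [← h1]
      push_cast
      ring
    rw [e1, abs_neg, abs_of_nonneg (Nat.cast_nonneg _)]
    have h1 : ((HO1_Cn (-1) b A w X Q \ HO1_En (-1) b A w X Q).ncard : ℝ) ≤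
        ((HO1_D (-1) b w (X + (t + 1)) Q \ HO1_D (-1) b w X Q).ncard : ℝ) := by
      exact_mod_cast Set.ncard_le_ncard hsub2
        ((HO1_D_fin hσ' b w (X + (t + 1)) Q).subset Set.sdiff_subset)
    exact h1.trans (HO1_win hC hσ' b w hw _ _ Q hQ (HO1_nat4 X t) (HO1_nat2 X t _ hq))

open Classical in
theorem HO1_part (hF : St_FWD) (hW : St_WRD) (k R : ℕ) (G : Finset ℤ) (hG : ∀ n ∈ G, Odd n) :
    (#G : ℝ) = ∑ s ∈ range R, ∑ w ∈ W k s, (#(G.filter (HO1_has w)) : ℝ) +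
      #(G.filter (fun n => ¬ ∃ s ∈ range R, ∃ w ∈ W k s, HO1_has w n)) := by
  obtain ⟨-, hF2, -⟩ := hF
  obtain ⟨hW1, -, -, -⟩ := hW
  have huniq : ∀ n ∈ G, ∀ s s' : ℕ, ∀ w ∈ W k s, ∀ w' ∈ W k s', HO1_has w n → HO1_has w' n →
      w = w' := by
    rintro n hn s s' w hw w' hw' ⟨m, h1, h2⟩ ⟨m', h1', h2'⟩
    obtain ⟨a1, a2, a3⟩ := (hW1 _ _ _).1 hw
    obtain ⟨b1, b2, b3⟩ := (hW1 _ _ _).1 hw'
    exact hF2 n m m' w w' (hG n hn) h1 h1' (a1.trans b1.symm) a2 b2 h2 h2'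
  have h1 : #G = #(G.filter (fun n => ∃ s ∈ range R, ∃ w ∈ W k s, HO1_has w n)) +
      #(G.filter (fun n => ¬ ∃ s ∈ range R, ∃ w ∈ W k s, HO1_has w n)) :=
    (Finset.card_filter_add_card_filter_not _).symm
  have h2 : G.filter (fun n => ∃ s ∈ range R, ∃ w ∈ W k s, HO1_has w n) =
      (range R).biUnion fun s => (W k s).biUnion fun w => G.filter (HO1_has w) := by
    ext n
    simp only [mem_filter, mem_biUnion]
    constructor
    · rintro ⟨h1, s, h2, w, h3, h4⟩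
      exact ⟨s, h2, w, h3, h1, h4⟩
    · rintro ⟨s, h2, w, h3, h1, h4⟩
      exact ⟨h1, s, h2, w, h3, h4⟩
  have h3 : #(G.filter (fun n => ∃ s ∈ range R, ∃ w ∈ W k s, HO1_has w n)) =
      ∑ s ∈ range R, ∑ w ∈ W k s, #(G.filter (HO1_has w)) := by
    rw [h2, card_biUnion]
    · apply Finset.sum_congr rfl
      intro s hs
      rw [card_biUnion]
      intro w hw w' hw' hne
      show Disjoint (G.filter (HO1_has w)) (G.filter (HO1_has w'))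
      rw [Finset.disjoint_left]
      intro n hn hn'
      obtain ⟨g1, g2⟩ := mem_filter.1 hn
      obtain ⟨-, g3⟩ := mem_filter.1 hn'
      exact hne (huniq n g1 s s w hw w' hw' g2 g3)
    · intro s hs s' hs' hne
      show Disjoint ((W k s).biUnion fun w => G.filter (HO1_has w))
        ((W k s').biUnion fun w => G.filter (HO1_has w))
      rw [Finset.disjoint_left]
      intro n hn hn'
      obtain ⟨w, hw, h4⟩ := mem_biUnion.1 hn
      obtain ⟨w', hw', h4'⟩ := mem_biUnion.1 hn'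
      obtain ⟨g1, g2⟩ := mem_filter.1 h4
      obtain ⟨-, g3⟩ := mem_filter.1 h4'
      have e := huniq n g1 s s' w hw w' hw' g2 g3
      obtain ⟨-, -, a3⟩ := (hW1 _ _ _).1 hw
      obtain ⟨-, -, b3⟩ := (hW1 _ _ _).1 hw'
      apply hne
      rw [← a3, ← b3, e]
  rw [h1, h3]
  push_cast
  rfl

theorem HO1_Wn (hW : St_WRD) (k : ℕ) :
    ∑ s ∈ range (21 * k / 10 + 1), (#(W k s) : ℝ) ≤ 2 ^ (21 * k / 10) := by
  obtain ⟨-, hW2, -, -⟩ := hW
  have h1 : ∀ s ∈ range (21 * k / 10 + 1), (#(W k s) : ℝ) ≤ 2 ^ (21 * k / 10) * p k s := by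
    intro s hs
    have hs' : s ≤ 21 * k / 10 := by
      have := mem_range.1 hs
      omega
    have h2 : (2 : ℝ) ^ s ≤ 2 ^ (21 * k / 10) := pow_le_pow_right₀ (by norm_num) hs'
    have h3 : 0 ≤ p k s := by unfold p; positivity
    have h4 : (#(W k s) : ℝ) = 2 ^ s * p k s := by
      unfold p
      field_simp
    rw [h4]
    exact mul_le_mul_of_nonneg_right h2 h3
  refine (Finset.sum_le_sum h1).trans ?_
  rw [← Finset.mul_sum]
  have h5 := hW2 k (21 * k / 10 + 1)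
  have h6 : (0 : ℝ) < 2 ^ (21 * k / 10) := by positivity
  nlinarith

/-- the bound with `ρ ^ k` -/
theorem HO1_main (hF : St_FWD) (hC : St_CNT) (hW : St_WRD) {σ : ℤ} (hσ : σ = 1 ∨ σ = -1) (b : ℤ)
    {A : Set ℤ} (hA : Inv A) (X Q k : ℕ) (hQ : Odd Q) (ρ : ℝ)
    (hρ : 1 - ρ ^ k ≤ ∑ s ∈ range (21 * k / 10 + 1), p k s) :
    |(E σ A X Q b : ℝ) - ∑ s ∈ range (21 * k / 10 + 1), ∑ w ∈ W k s, (Cn σ A X Q b w : ℝ)| ≤
      X / (2 * Q) * ρ ^ k + 5 * 2 ^ (21 * k / 10) := by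
  classical
  set R := 21 * k / 10 + 1 with hR
  have hWr := hW
  obtain ⟨hW1, hW2, hW3, hW4⟩ := hW
  have hQ1 : (1 : ℝ) ≤ Q := by
    have : 1 ≤ Q := hQ.pos
    exact_mod_cast this
  have hQ0 : (0 : ℝ) < Q := by linarith
  have hfin1 : {n : ℤ | Odd n ∧ 1 ≤ σ * n ∧ σ * n ≤ X ∧ (Q : ℤ) ∣ n - b}.Finite :=
    (HO1_fin hσ X).subset fun _ h => ⟨h.2.1, h.2.2.1⟩
  set F1 := hfin1.toFinset with hF1
  have hmem1 : ∀ n, n ∈ F1 ↔ Odd n ∧ 1 ≤ σ * n ∧ σ * n ≤ X ∧ (Q : ℤ) ∣ n - b := by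
    intro n
    rw [hF1, Set.Finite.mem_toFinset]
    rfl
  set F0 := F1.filter (fun n => n ∈ A) with hF0
  have hcard0 : E σ A X Q b = #F0 := by
    unfold E
    rw [← Set.ncard_coe_finset]
    congr 1
    ext n
    simp only [Set.mem_ofPred_eq, hF0, coe_filter, hmem1]
    tauto
  have hcard1 : (#F1 : ℝ) ≤ X / (2 * Q) + 1 := by
    have h1 := hC σ b [] X Q hσ (by simp) hQ
    have h2 : Set.ncard {n : ℤ | 1 ≤ σ * n ∧ σ * n ≤ X ∧ (Q : ℤ) ∣ n - b ∧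
        ∃ m : ℤ, Odd m ∧ 2 ^ ([] : List ℕ).sum * m = 3 ^ ([] : List ℕ).length * n + cw []} =
        #F1 := by
      rw [← Set.ncard_coe_finset]
      congr 1
      ext n
      simp only [Set.mem_ofPred_eq, mem_coe, hmem1]
      constructor
      · rintro ⟨g1, g2, g3, m, g4, g5⟩
        have g6 : m = n := by simpa [cw] using g5
        rw [g6] at g4
        exact ⟨g4, g1, g2, g3⟩
      · rintro ⟨g0, g1, g2, g3⟩
        exact ⟨g1, g2, g3, n, g0, by simp [cw]⟩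
    rw [h2] at h1
    have h3 := (abs_le.1 h1).2
    have h4 : (X : ℝ) / (2 ^ (([] : List ℕ).sum + 1) * Q) = X / (2 * Q) := by simp
    rw [h4] at h3
    linarith
  have hEn : ∀ w : List ℕ, (HO1_En σ b A w X Q).ncard = #(F0.filter (HO1_has w)) := by
    intro w
    rw [← Set.ncard_coe_finset]
    congr 1
    ext n
    simp only [HO1_En, Set.mem_ofPred_eq, mem_coe, mem_filter, hF0, hmem1]
    tauto
  have hDn : ∀ s ∈ range R, ∀ w ∈ W k s,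
      (X : ℝ) / (2 * Q) / 2 ^ s - 1 ≤ (#(F1.filter (HO1_has w)) : ℝ) := by
    intro s hs w hw
    obtain ⟨a1, a2, a3⟩ := (hW1 _ _ _).1 hw
    have h1 := hC σ b w X Q hσ a2 hQ
    have h2 : Set.ncard {n : ℤ | 1 ≤ σ * n ∧ σ * n ≤ X ∧ (Q : ℤ) ∣ n - b ∧
        ∃ m : ℤ, Odd m ∧ 2 ^ w.sum * m = 3 ^ w.length * n + cw w} = #(F1.filter (HO1_has w)) := by
      rw [← Set.ncard_coe_finset]
      congr 1
      ext n
      simp only [Set.mem_ofPred_eq, mem_coe, mem_filter, hmem1, HO1_has]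
      constructor
      · rintro ⟨g1, g2, g3, m, g4, g5⟩
        exact ⟨⟨(hF.2.2 n m w g4 a2 g5).1, g1, g2, g3⟩, m, g4, g5⟩
      · rintro ⟨⟨g0, g1, g2, g3⟩, m, g4, g5⟩
        exact ⟨g1, g2, g3, m, g4, g5⟩
    rw [h2] at h1
    have h3 := (abs_le.1 h1).1
    have h4 : (X : ℝ) / (2 ^ (w.sum + 1) * Q) = X / (2 * Q) / 2 ^ s := by
      rw [a3, div_div]
      congr 1
      ring
    rw [h4] at h3
    linarith
  have hp0 := HO1_part hF hWr k R F0 (fun n hn => by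
    rw [hF0, mem_filter, hmem1] at hn
    exact hn.1.1)
  have hp1 := HO1_part hF hWr k R F1 (fun n hn => ((hmem1 n).1 hn).1)
  set r0 : ℝ := ((#(F0.filter (fun n => ¬ ∃ s ∈ range R, ∃ w ∈ W k s, HO1_has w n)) : ℕ) : ℝ) with hr0
  set r1 : ℝ := ((#(F1.filter (fun n => ¬ ∃ s ∈ range R, ∃ w ∈ W k s, HO1_has w n)) : ℕ) : ℝ) with hr1
  have hr : r0 ≤ r1 := by
    have : #(F0.filter (fun n => ¬ ∃ s ∈ range R, ∃ w ∈ W k s, HO1_has w n)) ≤
        #(F1.filter (fun n => ¬ ∃ s ∈ range R, ∃ w ∈ W k s, HO1_has w n)) := by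
      apply Finset.card_le_card
      apply Finset.filter_subset_filter
      exact Finset.filter_subset _ _
    rw [hr0, hr1]
    exact Nat.cast_le.2 this
  have hr0' : 0 ≤ r0 := Nat.cast_nonneg _
  set Wn : ℝ := ∑ s ∈ range R, (#(W k s) : ℝ) with hWn
  have hWn' : Wn ≤ 2 ^ (21 * k / 10) := HO1_Wn hWr k
  have hWn1 : (1 : ℝ) ≤ 2 ^ (21 * k / 10) := one_le_pow₀ (by norm_num)
  -- the lower bound of the sum over `F1`
  have hlow : (X : ℝ) / (2 * Q) * ∑ s ∈ range R, p k s - Wn ≤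
      ∑ s ∈ range R, ∑ w ∈ W k s, (#(F1.filter (HO1_has w)) : ℝ) := by
    rw [hWn, Finset.mul_sum, ← Finset.sum_sub_distrib]
    apply Finset.sum_le_sum
    intro s hs
    have h1 : ∑ w ∈ W k s, ((X : ℝ) / (2 * Q) / 2 ^ s - 1) ≤
        ∑ w ∈ W k s, (#(F1.filter (HO1_has w)) : ℝ) :=
      Finset.sum_le_sum fun w hw => hDn s hs w hw
    rw [Finset.sum_const, nsmul_eq_mul] at h1
    have h2 : (X : ℝ) / (2 * Q) * p k s - #(W k s) =
        (#(W k s) : ℝ) * (X / (2 * Q) / 2 ^ s - 1) := by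
      unfold p
      ring
    rw [h2]
    exact h1
  have hr1' : r1 ≤ X / (2 * Q) * ρ ^ k + 1 + Wn := by
    have h1 : r1 = (#F1 : ℝ) - ∑ s ∈ range R, ∑ w ∈ W k s, (#(F1.filter (HO1_has w)) : ℝ) := by
      linarith
    rw [h1]
    have h2 : (0 : ℝ) ≤ X / (2 * Q) := by positivity
    have h3 : (X : ℝ) / (2 * Q) * (1 - ρ ^ k) ≤ X / (2 * Q) * ∑ s ∈ range R, p k s :=
      mul_le_mul_of_nonneg_left hρ h2
    have h4 : (X : ℝ) / (2 * Q) * (1 - ρ ^ k) = X / (2 * Q) - X / (2 * Q) * ρ ^ k := by ring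
    rw [h4] at h3
    linarith
  have hdiff : |∑ s ∈ range R, ∑ w ∈ W k s, (#(F0.filter (HO1_has w)) : ℝ) -
      ∑ s ∈ range R, ∑ w ∈ W k s, (Cn σ A X Q b w : ℝ)| ≤ 3 * Wn := by
    rw [← Finset.sum_sub_distrib]
    refine (Finset.abs_sum_le_sum_abs _ _).trans ?_
    rw [hWn, Finset.mul_sum]
    apply Finset.sum_le_sum
    intro s hs
    rw [← Finset.sum_sub_distrib]
    refine (Finset.abs_sum_le_sum_abs _ _).trans ?_
    have h1 : ∑ w ∈ W k s, |(#(F0.filter (HO1_has w)) : ℝ) - (Cn σ A X Q b w : ℝ)| ≤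
        ∑ w ∈ W k s, (3 : ℝ) := by
      apply Finset.sum_le_sum
      intro w hw
      obtain ⟨a1, a2, a3⟩ := (hW1 _ _ _).1 hw
      have h2 := HO1_diff hF hC hσ b hA w a2 X Q hQ
      rw [hEn w] at h2
      exact h2
    refine h1.trans (le_of_eq ?_)
    rw [Finset.sum_const, nsmul_eq_mul]
    ring
  rw [hcard0, hp0]
  have e1 : ∑ s ∈ range R, ∑ w ∈ W k s, (#(F0.filter (HO1_has w)) : ℝ) + r0 -
      ∑ s ∈ range R, ∑ w ∈ W k s, (Cn σ A X Q b w : ℝ) =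
      (∑ s ∈ range R, ∑ w ∈ W k s, (#(F0.filter (HO1_has w)) : ℝ) -
      ∑ s ∈ range R, ∑ w ∈ W k s, (Cn σ A X Q b w : ℝ)) + r0 := by ring
  rw [e1]
  refine (abs_add_le _ _).trans ?_
  rw [abs_of_nonneg hr0']
  linarith

theorem HO1_pow (X : ℕ) (hX : 2 ≤ X) :
    (2 : ℝ) ^ (21 * kk X / 10) ≤ (X : ℝ) ^ ((49 : ℝ) / 50) := by
  have hX1 : (1 : ℝ) ≤ X := by exact_mod_cast (by omega : 1 ≤ X)
  have h1 : (2 : ℝ) ^ (Nat.log 2 X) ≤ X := by
    exact_mod_cast Nat.pow_log_le_self 2 (by omega : X ≠ 0)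
  have h2 : ((21 * kk X / 10 : ℕ) : ℝ) ≤ (49 / 50 : ℝ) * (Nat.log 2 X : ℝ) := by
    have h3 : 21 * kk X / 10 * 220 ≤ 210 * Nat.log 2 X := by
      unfold kk
      omega
    have h4 : ((21 * kk X / 10 : ℕ) : ℝ) * 220 ≤ 210 * (Nat.log 2 X : ℝ) := by exact_mod_cast h3
    have h5 : (0 : ℝ) ≤ Nat.log 2 X := Nat.cast_nonneg _
    linarith
  calc (2 : ℝ) ^ (21 * kk X / 10) = (2 : ℝ) ^ ((21 * kk X / 10 : ℕ) : ℝ) := by
        rw [Real.rpow_natCast]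
    _ ≤ (2 : ℝ) ^ ((49 / 50 : ℝ) * (Nat.log 2 X : ℝ)) :=
        Real.rpow_le_rpow_of_exponent_le (by norm_num) h2
    _ = ((2 : ℝ) ^ (Nat.log 2 X)) ^ ((49 : ℝ) / 50) := by
        rw [← Real.rpow_natCast, ← Real.rpow_mul (by norm_num)]
        congr 1
        ring
    _ ≤ (X : ℝ) ^ ((49 : ℝ) / 50) := Real.rpow_le_rpow (by positivity) h1 (by norm_num)

theorem thm_HO1 (hF : St_FWD) (hC : St_CNT) (hW : St_WRD) (hT : St_TAL) : St_HO1 := by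
  obtain ⟨⟨ρ, hρ0, hρ1, hρ⟩, -⟩ := hT
  intro B
  obtain ⟨C1, hC1⟩ : ∃ C1 : ℝ, ∀ k : ℕ, (k : ℝ) ^ B * ρ ^ k ≤ C1 := by
    have h1 := tendsto_pow_const_mul_const_pow_of_abs_lt_one B
      (by rw [abs_of_pos hρ0]; exact hρ1 : |ρ| < 1)
    obtain ⟨C1, hC1⟩ := h1.bddAbove_range
    exact ⟨C1, fun k => hC1 ⟨k, rfl⟩⟩
  have hC10 : 0 ≤ C1 := by
    have h1 := hC1 1
    have h2 : (0 : ℝ) ≤ ((1 : ℕ) : ℝ) ^ B * ρ ^ 1 := by positivity
    linarith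
  refine ⟨C1 + 20, ?_⟩
  intro σ b A X Q hσ hA hX hQ
  have h1 := HO1_main hF hC hW hσ b hA X Q (kk X) hQ ρ (hρ (kk X)).2.1
  refine h1.trans ?_
  have hpow := HO1_pow X hX
  have hX1 : (1 : ℝ) ≤ X := by exact_mod_cast (by omega : 1 ≤ X)
  have hX2 : (1 : ℝ) ≤ (X : ℝ) ^ ((49 : ℝ) / 50) := Real.one_le_rpow hX1 (by norm_num)
  have hQ1 : (1 : ℝ) ≤ Q := by
    have : 1 ≤ Q := hQ.pos
    exact_mod_cast this
  have hQ0 : (0 : ℝ) < Q := by linarith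
  have hXQ : (0 : ℝ) ≤ (X : ℝ) / Q := by positivity
  have h2 : (X : ℝ) / (2 * Q) * ρ ^ kk X ≤ (X : ℝ) / Q * ρ ^ kk X := by
    apply mul_le_mul_of_nonneg_right _ (by positivity)
    apply div_le_div_of_nonneg_left (by positivity) hQ0
    linarith
  have hXp : (0 : ℝ) ≤ (X : ℝ) ^ ((49 : ℝ) / 50) := by linarith
  rcases Nat.eq_zero_or_pos (kk X) with h0 | h0
  · -- `X < 8`
    have h3 : X < 8 := by
      by_contra hcon
      push Not at hcon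
      have h4 : 3 ≤ Nat.log 2 X := by
        have : Nat.log 2 8 ≤ Nat.log 2 X := Nat.log_mono_right hcon
        have h5 : Nat.log 2 8 = 3 := by
          have := Nat.log_pow (b := 2) (by norm_num) 3
          simpa using this
        omega
      unfold kk at h0
      omega
    have h4 : (X : ℝ) / Q ≤ 8 := by
      have h5 : (X : ℝ) / Q ≤ X := div_le_self (by linarith) hQ1
      have h6 : (X : ℝ) ≤ 8 := by exact_mod_cast h3.le
      linarith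
    have h5 : (X : ℝ) / Q * ρ ^ kk X ≤ 8 := by
      rw [h0, pow_zero, mul_one]
      exact h4
    have h6 : (0 : ℝ) ≤ (C1 + 20) * (X / Q) / (kk X : ℝ) ^ B := by positivity
    have h7 : 0 ≤ C1 * (X : ℝ) ^ ((49 : ℝ) / 50) := mul_nonneg hC10 hXp
    have e : (C1 + 20) * (X : ℝ) ^ ((49 : ℝ) / 50) =
        C1 * (X : ℝ) ^ ((49 : ℝ) / 50) + 20 * (X : ℝ) ^ ((49 : ℝ) / 50) := by ring
    rw [e]
    linarith
  · have hk : (0 : ℝ) < (kk X : ℝ) ^ B := by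
      have : (0 : ℝ) < kk X := by exact_mod_cast h0
      positivity
    have h3 : ρ ^ kk X ≤ C1 / (kk X : ℝ) ^ B := by
      rw [le_div_iff₀ hk, mul_comm]
      exact hC1 (kk X)
    have h4 : (X : ℝ) / Q * ρ ^ kk X ≤ (C1 + 20) * (X / Q) / (kk X : ℝ) ^ B := by
      have h5 : (X : ℝ) / Q * ρ ^ kk X ≤ X / Q * (C1 / (kk X : ℝ) ^ B) :=
        mul_le_mul_of_nonneg_left h3 hXQ
      have h6 : (X : ℝ) / Q * (C1 / (kk X : ℝ) ^ B) = C1 * (X / Q) / (kk X : ℝ) ^ B := by ring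
      rw [h6] at h5
      refine h5.trans ?_
      apply div_le_div_of_nonneg_right _ hk.le
      apply mul_le_mul_of_nonneg_right _ hXQ
      linarith
    have h7 : 0 ≤ C1 * (X : ℝ) ^ ((49 : ℝ) / 50) := mul_nonneg hC10 hXp
    have e : (C1 + 20) * (X : ℝ) ^ ((49 : ℝ) / 50) =
        C1 * (X : ℝ) ^ ((49 : ℝ) / 50) + 20 * (X : ℝ) ^ ((49 : ℝ) / 50) := by ring
    rw [e]
    linarith

end Pool.Agent.SLD
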