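import Pool.Agent.SLD.StB
import Pool.Agent.SLD.HO1

/-! SLD, module HE1: the hand-off, first part, for eventually invariant sets. -/

set_option autoImplicit false
set_option linter.unusedVariables false

namespace Pool.Agent.SLD

open Finset Filter Topology
open Pool.Agent.Collatz3 (cw)

/-- the word `w` leads from `n` to an odd integer in `A` -/
def HE1_P (A : Set ℤ) (w : List ℕ) (n : ℤ) : Prop :=
  ∃ m : ℤ, Odd m ∧ 2 ^ w.sum * m = 3 ^ w.length * n + cw w ∧ m ∈ A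

/-- the `n` with word `w` and end point in `A` -/
def HE1_Fn (σ b : ℤ) (A : Set ℤ) (w : List ℕ) (X Q : ℕ) : Set ℤ :=
  {n : ℤ | Odd n ∧ 1 ≤ σ * n ∧ σ * n ≤ X ∧ (Q : ℤ) ∣ n - b ∧ HE1_P A w n}

/-- the same with the other boundary -/
def HE1_Cn (σ b : ℤ) (A : Set ℤ) (w : List ℕ) (X Q : ℕ) : Set ℤ :=
  {n : ℤ | Odd n ∧ 1 ≤ σ * n ∧ 3 ^ w.length * (σ * n) + σ * (cw w : ℤ) ≤ 3 ^ w.length * X ∧
    (Q : ℤ) ∣ n - b ∧ HE1_P A w n}

theorem HE1_Cn_eq (hF : St_FWD) {σ : ℤ} (hσ : σ = 1 ∨ σ = -1) (b : ℤ) (A : Set ℤ)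
    (w : List ℕ) (hw : ∀ i ∈ w, 1 ≤ i) (X Q : ℕ) :
    (HE1_Cn σ b A w X Q).ncard = Cn σ A X Q b w := by
  obtain ⟨-, -, hF3⟩ := hF
  have h2 : (0 : ℤ) < 2 ^ w.sum := by positivity
  have h3 : (0 : ℤ) < 3 ^ w.length := by positivity
  have hsign : ∀ n m : ℤ, Odd n → Odd m → (0 < n ↔ 0 < m) → (1 ≤ σ * n ↔ 1 ≤ σ * m) := by
    intro n m hn hm h
    have hn0 : n ≠ 0 := by
      rintro rfl
      exact (by decide : ¬ Odd (0 : ℤ)) hn
    have hm0 : m ≠ 0 := by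
      rintro rfl
      exact (by decide : ¬ Odd (0 : ℤ)) hm
    rcases hσ with rfl | rfl
    · omega
    · omega
  unfold Cn
  apply Set.ncard_congr (fun (n : ℤ) (_ : n ∈ HE1_Cn σ b A w X Q) =>
    (3 ^ w.length * n + (cw w : ℤ)) / 2 ^ w.sum)
  · rintro n ⟨g1, g2, g3, g4, m, g6, g7, g5⟩
    have e : (3 ^ w.length * n + (cw w : ℤ)) / 2 ^ w.sum = m := by
      rw [← g7]
      exact Int.mul_ediv_cancel_left _ h2.ne'
    obtain ⟨k1, k2, k3⟩ := hF3 n m w g6 hw g7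
    show (3 ^ w.length * n + (cw w : ℤ)) / 2 ^ w.sum ∈ _
    rw [e]
    refine ⟨g6, (hsign n m k1 g6 k2).1 g2, ?_, ?_, g5⟩
    · have e2 : σ * m * 2 ^ w.sum = 3 ^ w.length * (σ * n) + σ * (cw w : ℤ) := by
        have e3 : σ * m * 2 ^ w.sum = σ * (2 ^ w.sum * m) := by ring
        rw [e3, g7]
        ring
      rw [e2]
      exact g3
    · obtain ⟨c, hc⟩ := g4
      refine ⟨c, ?_⟩
      rw [g7]
      have e3 : (3 : ℤ) ^ w.length * Q * c = 3 ^ w.length * (Q * c) := by ring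
      rw [e3, ← hc]
      ring
  · rintro n n' ⟨g1, g2, g3, g4, m, g6, g7, g5⟩ ⟨g1', g2', g3', g4', m', g6', g7', g5'⟩ hnn
    have e : (3 ^ w.length * n + (cw w : ℤ)) / 2 ^ w.sum = m := by
      rw [← g7]
      exact Int.mul_ediv_cancel_left _ h2.ne'
    have e' : (3 ^ w.length * n' + (cw w : ℤ)) / 2 ^ w.sum = m' := by
      rw [← g7']
      exact Int.mul_ediv_cancel_left _ h2.ne'
    have hmm : m = m' := by
      rw [← e, ← e']
      exact hnn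
    rw [hmm, g7'] at g7
    have h5 : (3 : ℤ) ^ w.length * n' = 3 ^ w.length * n := by linarith
    exact (mul_left_cancel₀ h3.ne' h5).symm
  · rintro m ⟨g1, g2, g3, ⟨c, hc⟩, g5⟩
    have e1 : 2 ^ w.sum * m = 3 ^ w.length * (b + Q * c) + cw w := by
      have e3 : (3 : ℤ) ^ w.length * Q * c = 3 ^ w.length * (Q * c) := by ring
      rw [e3] at hc
      rw [mul_add]
      linarith
    obtain ⟨k1, k2, k3⟩ := hF3 _ m w g1 hw e1
    refine ⟨b + Q * c, ⟨k1, (hsign _ m k1 g1 k2).2 g2, ?_, ⟨c, by ring⟩, 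
      m, g1, e1, g5⟩, ?_⟩
    · have e2 : σ * m * 2 ^ w.sum = 3 ^ w.length * (σ * (b + Q * c)) + σ * (cw w : ℤ) := by
        have e3 : σ * m * 2 ^ w.sum = σ * (2 ^ w.sum * m) := by ring
        rw [e3, e1]
        ring
      rw [← e2]
      exact g3
    · show (3 ^ w.length * (b + Q * c) + (cw w : ℤ)) / 2 ^ w.sum = m
      rw [← e1]
      exact Int.mul_ediv_cancel_left _ h2.ne'

theorem HE1_diff (hF : St_FWD) (hC : St_CNT) {σ : ℤ} (hσ : σ = 1 ∨ σ = -1) (b : ℤ) (A : Set ℤ) (w : List ℕ) (hw : ∀ i ∈ w, 1 ≤ i) (X Q : ℕ) (hQ : Odd Q) :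
    |((HE1_Fn σ b A w X Q).ncard : ℝ) - Cn σ A X Q b w| ≤ 3 := by
  rw [← HE1_Cn_eq hF hσ b A w hw X Q]
  have h3 : (0 : ℤ) < 3 ^ w.length := by positivity
  have h3n : 0 < 3 ^ w.length := by positivity
  have hcw := HO1_cw_le w hw
  have hq : cw w / 3 ^ w.length + 1 ≤ 2 ^ w.sum := by
    have h1 : cw w < 3 ^ w.length * 2 ^ w.sum := by
      have : 0 < 2 ^ w.sum := by positivity
      omega
    have h2 : cw w / 3 ^ w.length < 2 ^ w.sum := by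
      rw [Nat.div_lt_iff_lt_mul h3n, mul_comm]
      exact h1
    omega
  have hdm := Nat.div_add_mod (cw w) (3 ^ w.length)
  have hml := Nat.mod_lt (cw w) h3n
  set t := cw w / 3 ^ w.length with ht
  have hcz : (cw w : ℤ) = 3 ^ w.length * (t : ℤ) + ((cw w % 3 ^ w.length : ℕ) : ℤ) := by
    rw [← hdm]
    push_cast
    simp
  set r := cw w % 3 ^ w.length with hr
  have hrz : (r : ℤ) < 3 ^ w.length := by exact_mod_cast hml
  have hr0 : (0 : ℤ) ≤ r := Int.natCast_nonneg _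
  rcases hσ with hs | hs
  · subst hs
    have hσ' : (1 : ℤ) = 1 ∨ (1 : ℤ) = -1 := Or.inl rfl
    have hsub : HE1_Cn 1 b A w X Q ⊆ HE1_Fn 1 b A w X Q := by
      rintro n ⟨g1, g2, g3, g4, g5⟩
      refine ⟨g1, g2, ?_, g4, g5⟩
      have h5 : (3 : ℤ) ^ w.length * (1 * n) ≤ 3 ^ w.length * X := by
        have h6 : (0 : ℤ) ≤ 1 * (cw w : ℤ) := by simp
        linarith
      exact le_of_mul_le_mul_left h5 h3
    have hfin : (HE1_Fn 1 b A w X Q).Finite := (HO1_fin hσ' X).subset fun _ h => ⟨h.2.1, h.2.2.1⟩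
    have hsub2 : HE1_Fn 1 b A w X Q \ HE1_Cn 1 b A w X Q ⊆
        HO1_D 1 b w X Q \ HO1_D 1 b w (X - (t + 1)) Q := by
      rintro n ⟨⟨g1, g2, g3, g4, g5⟩, hn⟩
      have g6 : HO1_has w n := by
        obtain ⟨m, l1, l2, -⟩ := g5
        exact ⟨m, l1, l2⟩
      refine ⟨⟨g2, g3, g4, g6⟩, ?_⟩
      rintro ⟨-, k2, -, -⟩
      apply hn
      refine ⟨g1, g2, ?_, g4, g5⟩
      have h5 : (1 : ℤ) * n ≤ X - (t + 1) := by
        have h6 : ((X - (t + 1) : ℕ) : ℤ) = (X : ℤ) - (t + 1) ∨ ((X - (t + 1) : ℕ) : ℤ) = 0 := by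
          omega
        rcases h6 with h6 | h6
        · rw [h6] at k2
          exact k2
        · rw [h6] at k2
          omega
      have h7 : (3 : ℤ) ^ w.length * (1 * n) ≤ 3 ^ w.length * (X - (t + 1)) :=
        mul_le_mul_of_nonneg_left h5 h3.le
      have e5 : (3 : ℤ) ^ w.length * (X - (t + 1)) =
          3 ^ w.length * X - 3 ^ w.length * t - 3 ^ w.length := by ring
      rw [e5] at h7
      linarith
    have e1 : ((HE1_Fn 1 b A w X Q).ncard : ℝ) - (HE1_Cn 1 b A w X Q).ncard =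
        (HE1_Fn 1 b A w X Q \ HE1_Cn 1 b A w X Q).ncard := by
      have h1 := Set.ncard_sdiff_add_ncard_of_subset hsub hfin
      rw [← h1]
      push_cast
      ring
    rw [e1, abs_of_nonneg (Nat.cast_nonneg _)]
    have h1 : ((HE1_Fn 1 b A w X Q \ HE1_Cn 1 b A w X Q).ncard : ℝ) ≤
        ((HO1_D 1 b w X Q \ HO1_D 1 b w (X - (t + 1)) Q).ncard : ℝ) := by
      exact_mod_cast Set.ncard_le_ncard hsub2 ((HO1_D_fin hσ' b w X Q).subset Set.sdiff_subset)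
    exact h1.trans (HO1_win hC hσ' b w hw _ _ Q hQ (HO1_nat3 X t) (HO1_nat1 X t _ hq))
  · subst hs
    have hσ' : (-1 : ℤ) = 1 ∨ (-1 : ℤ) = -1 := Or.inr rfl
    have hsub : HE1_Fn (-1) b A w X Q ⊆ HE1_Cn (-1) b A w X Q := by
      rintro n ⟨g1, g2, g3, g4, g5⟩
      refine ⟨g1, g2, ?_, g4, g5⟩
      have h5 : (3 : ℤ) ^ w.length * (-1 * n) ≤ 3 ^ w.length * X :=
        mul_le_mul_of_nonneg_left g3 h3.le
      have h6 : (0 : ℤ) ≤ (cw w : ℤ) := Int.natCast_nonneg _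
      linarith
    have hsub2 : HE1_Cn (-1) b A w X Q \ HE1_Fn (-1) b A w X Q ⊆
        HO1_D (-1) b w (X + (t + 1)) Q \ HO1_D (-1) b w X Q := by
      rintro n ⟨⟨g1, g2, g3, g4, g5⟩, hn⟩
      have g6 : HO1_has w n := by
        obtain ⟨m, l1, l2, -⟩ := g5
        exact ⟨m, l1, l2⟩
      refine ⟨⟨g2, ?_, g4, g6⟩, ?_⟩
      · by_contra hcon
        push Not at hcon
        have h5 : ((X + (t + 1) : ℕ) : ℤ) < -1 * n := hcon
        push_cast at h5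
        have h6 : (3 : ℤ) ^ w.length * (X + (t + 1)) ≤ 3 ^ w.length * (-1 * n) :=
          mul_le_mul_of_nonneg_left h5.le h3.le
        have e5 : (3 : ℤ) ^ w.length * (X + (t + 1)) =
            3 ^ w.length * X + 3 ^ w.length * t + 3 ^ w.length := by ring
        rw [e5] at h6
        linarith
      · rintro ⟨-, k2, -, -⟩
        exact hn ⟨g1, g2, k2, g4, g5⟩
    have hE : (HE1_Fn (-1) b A w X Q).Finite := (HO1_fin hσ' X).subset fun _ h => ⟨h.2.1, h.2.2.1⟩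
    have hfin : (HE1_Cn (-1) b A w X Q).Finite := by
      apply ((HO1_D_fin hσ' b w (X + (t + 1)) Q).union hE).subset
      intro n hn
      by_cases h : n ∈ HE1_Fn (-1) b A w X Q
      · exact Or.inr h
      · exact Or.inl (hsub2 ⟨hn, h⟩).1
    have e1 : ((HE1_Fn (-1) b A w X Q).ncard : ℝ) - (HE1_Cn (-1) b A w X Q).ncard =
        -((HE1_Cn (-1) b A w X Q \ HE1_Fn (-1) b A w X Q).ncard : ℝ) := by
      have h1 := Set.ncard_sdiff_add_ncard_of_subset hsub hfin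
      rw [← h1]
      push_cast
      ring
    rw [e1, abs_neg, abs_of_nonneg (Nat.cast_nonneg _)]
    have h1 : ((HE1_Cn (-1) b A w X Q \ HE1_Fn (-1) b A w X Q).ncard : ℝ) ≤
        ((HO1_D (-1) b w (X + (t + 1)) Q \ HO1_D (-1) b w X Q).ncard : ℝ) := by
      exact_mod_cast Set.ncard_le_ncard hsub2
        ((HO1_D_fin hσ' b w (X + (t + 1)) Q).subset Set.sdiff_subset)
    exact h1.trans (HO1_win hC hσ' b w hw _ _ Q hQ (HO1_nat4 X t) (HO1_nat2 X t _ hq))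

theorem HE1_EF (hE : St_FWE) (hF : St_FWD) (hC : St_CNT) {σ : ℤ} (hσ : σ = 1 ∨ σ = -1) (b : ℤ)
    {K : ℕ} {A : Set ℤ} (hA : EvInv K A) (w : List ℕ) (hw : ∀ i ∈ w, 1 ≤ i) (X Q : ℕ)
    (hQ : Odd Q) :
    |((HO1_En σ b A w X Q).ncard : ℝ) - (HE1_Fn σ b A w X Q).ncard| ≤ K + 1 := by
  obtain ⟨hE1, hE2⟩ := hE
  set S := HO1_D σ b w (K * 2 ^ w.sum) Q with hS
  have hQ1 : (1 : ℝ) ≤ Q := by
    have : 1 ≤ Q := hQ.pos
    exact_mod_cast this
  have hSf : S.Finite := HO1_D_fin hσ b w _ Q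
  have hScard : (S.ncard : ℝ) ≤ K + 1 := by
    have h1 := (abs_le.1 (hC σ b w (K * 2 ^ w.sum) Q hσ hw hQ)).2
    have e1 : ((K * 2 ^ w.sum : ℕ) : ℝ) / (2 ^ (w.sum + 1) * Q) = K / (2 * Q) := by
      push_cast
      have h2 : (2 : ℝ) ^ w.sum ≠ 0 := by positivity
      have h3 : (Q : ℝ) ≠ 0 := by linarith
      rw [pow_succ]
      field_simp
    rw [e1] at h1
    have h2 : (K : ℝ) / (2 * Q) ≤ K := by
      apply div_le_self (Nat.cast_nonneg _)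
      linarith
    have h3 : (S.ncard : ℝ) ≤ K / (2 * Q) + 1 := by
      have h4 : (S.ncard : ℝ) - K / (2 * Q) ≤ 1 := h1
      linarith
    linarith
  have habs : ∀ n : ℤ, 1 ≤ σ * n → σ * n = |n| := by
    intro n hn
    rcases hσ with rfl | rfl
    · rw [abs_of_pos (by omega)]
      ring
    · rw [abs_of_neg (by omega)]
      ring
  have hfinE : (HO1_En σ b A w X Q).Finite := (HO1_fin hσ X).subset fun _ h => ⟨h.2.1, h.2.2.1⟩
  have hfinF : (HE1_Fn σ b A w X Q).Finite := (HO1_fin hσ X).subset fun _ h => ⟨h.2.1, h.2.2.1⟩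
  have hkey : ∀ n m : ℤ, Odd m → 2 ^ w.sum * m = 3 ^ w.length * n + cw w → 1 ≤ σ * n →
      (Q : ℤ) ∣ n - b → n ∉ S → (n ∈ A ↔ m ∈ A) := by
    intro n m h1 h2 h3 h4 h5
    have h6 : (K : ℤ) * 2 ^ w.sum < |n| := by
      by_contra hcon
      push Not at hcon
      apply h5
      refine ⟨h3, ?_, h4, m, h1, h2⟩
      rw [habs n h3]
      push_cast
      exact hcon
    have h7 := hE2 K A hA n w.sum h6
    rw [hE1 n m w h1 hw h2] at h7
    exact h7.symm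
  have hsub1 : HO1_En σ b A w X Q ⊆ HE1_Fn σ b A w X Q ∪ S := by
    rintro n ⟨g1, g2, g3, g4, g5, m, g6, g7⟩
    by_cases h : n ∈ S
    · exact Or.inr h
    · exact Or.inl ⟨g1, g2, g3, g4, m, g6, g7, (hkey n m g6 g7 g2 g4 h).1 g5⟩
  have hsub2 : HE1_Fn σ b A w X Q ⊆ HO1_En σ b A w X Q ∪ S := by
    rintro n ⟨g1, g2, g3, g4, m, g6, g7, g5⟩
    by_cases h : n ∈ S
    · exact Or.inr h
    · exact Or.inl ⟨g1, g2, g3, g4, (hkey n m g6 g7 g2 g4 h).2 g5, m, g6, g7⟩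
  have h1 : ((HO1_En σ b A w X Q).ncard : ℝ) ≤ (HE1_Fn σ b A w X Q).ncard + S.ncard := by
    have h2 := Set.ncard_le_ncard hsub1 (hfinF.union hSf)
    have h3 := Set.ncard_union_le (HE1_Fn σ b A w X Q) S
    exact_mod_cast h2.trans h3
  have h2 : ((HE1_Fn σ b A w X Q).ncard : ℝ) ≤ (HO1_En σ b A w X Q).ncard + S.ncard := by
    have h2 := Set.ncard_le_ncard hsub2 (hfinE.union hSf)
    have h3 := Set.ncard_union_le (HO1_En σ b A w X Q) S
    exact_mod_cast h2.trans h3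
  rw [abs_le]
  constructor <;> linarith

/-- the bound with `ρ ^ k` -/
theorem HE1_main (hE : St_FWE) (hF : St_FWD) (hC : St_CNT) (hW : St_WRD) {σ : ℤ} (hσ : σ = 1 ∨ σ = -1) (b : ℤ)
    {K : ℕ} {A : Set ℤ} (hA : EvInv K A) (X Q k : ℕ) (hQ : Odd Q) (ρ : ℝ)
    (hρ : 1 - ρ ^ k ≤ ∑ s ∈ range (21 * k / 10 + 1), p k s) :
    |(E σ A X Q b : ℝ) - ∑ s ∈ range (21 * k / 10 + 1), ∑ w ∈ W k s, (Cn σ A X Q b w : ℝ)| ≤
      X / (2 * Q) * ρ ^ k + (K + 6) * 2 ^ (21 * k / 10) := by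
  classical
  set R := 21 * k / 10 + 1 with hR
  have hWr := hW
  obtain ⟨hW1, hW2, hW3, hW4⟩ := hW
  have hQ1 : (1 : ℝ) ≤ Q := by
    have : 1 ≤ Q := hQ.pos
    exact_mod_cast this
  have hQ0 : (0 : ℝ) < Q := by linarith
  have hfin1 : {n : ℤ | Odd n ∧ 1 ≤ σ * n ∧ σ * n ≤ X ∧ (Q : ℤ) ∣ n - b}.Finite :=
    (HO1_fin hσ X).subset fun _ h => ⟨h.2.1, h.2.2.1⟩
  set F1 := hfin1.toFinset with hF1
  have hmem1 : ∀ n, n ∈ F1 ↔ Odd n ∧ 1 ≤ σ * n ∧ σ * n ≤ X ∧ (Q : ℤ) ∣ n - b := by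
    intro n
    rw [hF1, Set.Finite.mem_toFinset]
    rfl
  set F0 := F1.filter (fun n => n ∈ A) with hF0
  have hcard0 : E σ A X Q b = #F0 := by
    unfold E
    rw [← Set.ncard_coe_finset]
    congr 1
    ext n
    simp only [Set.mem_ofPred_eq, hF0, coe_filter, hmem1]
    tauto
  have hcard1 : (#F1 : ℝ) ≤ X / (2 * Q) + 1 := by
    have h1 := hC σ b [] X Q hσ (by simp) hQ
    have h2 : Set.ncard {n : ℤ | 1 ≤ σ * n ∧ σ * n ≤ X ∧ (Q : ℤ) ∣ n - b ∧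
        ∃ m : ℤ, Odd m ∧ 2 ^ ([] : List ℕ).sum * m = 3 ^ ([] : List ℕ).length * n + cw []} =
        #F1 := by
      rw [← Set.ncard_coe_finset]
      congr 1
      ext n
      simp only [Set.mem_ofPred_eq, mem_coe, hmem1]
      constructor
      · rintro ⟨g1, g2, g3, m, g4, g5⟩
        have g6 : m = n := by simpa [cw] using g5
        rw [g6] at g4
        exact ⟨g4, g1, g2, g3⟩
      · rintro ⟨g0, g1, g2, g3⟩
        exact ⟨g1, g2, g3, n, g0, by simp [cw]⟩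
    rw [h2] at h1
    have h3 := (abs_le.1 h1).2
    have h4 : (X : ℝ) / (2 ^ (([] : List ℕ).sum + 1) * Q) = X / (2 * Q) := by simp
    rw [h4] at h3
    linarith
  have hEn : ∀ w : List ℕ, (HO1_En σ b A w X Q).ncard = #(F0.filter (HO1_has w)) := by
    intro w
    rw [← Set.ncard_coe_finset]
    congr 1
    ext n
    simp only [HO1_En, Set.mem_ofPred_eq, mem_coe, mem_filter, hF0, hmem1]
    tauto
  have hDn : ∀ s ∈ range R, ∀ w ∈ W k s,
      (X : ℝ) / (2 * Q) / 2 ^ s - 1 ≤ (#(F1.filter (HO1_has w)) : ℝ) := by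
    intro s hs w hw
    obtain ⟨a1, a2, a3⟩ := (hW1 _ _ _).1 hw
    have h1 := hC σ b w X Q hσ a2 hQ
    have h2 : Set.ncard {n : ℤ | 1 ≤ σ * n ∧ σ * n ≤ X ∧ (Q : ℤ) ∣ n - b ∧
        ∃ m : ℤ, Odd m ∧ 2 ^ w.sum * m = 3 ^ w.length * n + cw w} = #(F1.filter (HO1_has w)) := by
      rw [← Set.ncard_coe_finset]
      congr 1
      ext n
      simp only [Set.mem_ofPred_eq, mem_coe, mem_filter, hmem1, HO1_has]
      constructor
      · rintro ⟨g1, g2, g3, m, g4, g5⟩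
        exact ⟨⟨(hF.2.2 n m w g4 a2 g5).1, g1, g2, g3⟩, m, g4, g5⟩
      · rintro ⟨⟨g0, g1, g2, g3⟩, m, g4, g5⟩
        exact ⟨g1, g2, g3, m, g4, g5⟩
    rw [h2] at h1
    have h3 := (abs_le.1 h1).1
    have h4 : (X : ℝ) / (2 ^ (w.sum + 1) * Q) = X / (2 * Q) / 2 ^ s := by
      rw [a3, div_div]
      congr 1
      ring
    rw [h4] at h3
    linarith
  have hp0 := HO1_part hF hWr k R F0 (fun n hn => by
    rw [hF0, mem_filter, hmem1] at hn
    exact hn.1.1)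
  have hp1 := HO1_part hF hWr k R F1 (fun n hn => ((hmem1 n).1 hn).1)
  set r0 : ℝ := ((#(F0.filter (fun n => ¬ ∃ s ∈ range R, ∃ w ∈ W k s, HO1_has w n)) : ℕ) : ℝ) with hr0
  set r1 : ℝ := ((#(F1.filter (fun n => ¬ ∃ s ∈ range R, ∃ w ∈ W k s, HO1_has w n)) : ℕ) : ℝ) with hr1
  have hr : r0 ≤ r1 := by
    have : #(F0.filter (fun n => ¬ ∃ s ∈ range R, ∃ w ∈ W k s, HO1_has w n)) ≤
        #(F1.filter (fun n => ¬ ∃ s ∈ range R, ∃ w ∈ W k s, HO1_has w n)) := by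
      apply Finset.card_le_card
      apply Finset.filter_subset_filter
      exact Finset.filter_subset _ _
    rw [hr0, hr1]
    exact Nat.cast_le.2 this
  have hr0' : 0 ≤ r0 := Nat.cast_nonneg _
  set Wn : ℝ := ∑ s ∈ range R, (#(W k s) : ℝ) with hWn
  have hWn' : Wn ≤ 2 ^ (21 * k / 10) := HO1_Wn hWr k
  have hWn1 : (1 : ℝ) ≤ 2 ^ (21 * k / 10) := one_le_pow₀ (by norm_num)
  -- the lower bound of the sum over `F1`
  have hlow : (X : ℝ) / (2 * Q) * ∑ s ∈ range R, p k s - Wn ≤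
      ∑ s ∈ range R, ∑ w ∈ W k s, (#(F1.filter (HO1_has w)) : ℝ) := by
    rw [hWn, Finset.mul_sum, ← Finset.sum_sub_distrib]
    apply Finset.sum_le_sum
    intro s hs
    have h1 : ∑ w ∈ W k s, ((X : ℝ) / (2 * Q) / 2 ^ s - 1) ≤
        ∑ w ∈ W k s, (#(F1.filter (HO1_has w)) : ℝ) :=
      Finset.sum_le_sum fun w hw => hDn s hs w hw
    rw [Finset.sum_const, nsmul_eq_mul] at h1
    have h2 : (X : ℝ) / (2 * Q) * p k s - #(W k s) =
        (#(W k s) : ℝ) * (X / (2 * Q) / 2 ^ s - 1) := by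
      unfold p
      ring
    rw [h2]
    exact h1
  have hr1' : r1 ≤ X / (2 * Q) * ρ ^ k + 1 + Wn := by
    have h1 : r1 = (#F1 : ℝ) - ∑ s ∈ range R, ∑ w ∈ W k s, (#(F1.filter (HO1_has w)) : ℝ) := by
      linarith
    rw [h1]
    have h2 : (0 : ℝ) ≤ X / (2 * Q) := by positivity
    have h3 : (X : ℝ) / (2 * Q) * (1 - ρ ^ k) ≤ X / (2 * Q) * ∑ s ∈ range R, p k s :=
      mul_le_mul_of_nonneg_left hρ h2
    have h4 : (X : ℝ) / (2 * Q) * (1 - ρ ^ k) = X / (2 * Q) - X / (2 * Q) * ρ ^ k := by ring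
    rw [h4] at h3
    linarith
  have hdiff : |∑ s ∈ range R, ∑ w ∈ W k s, (#(F0.filter (HO1_has w)) : ℝ) -
      ∑ s ∈ range R, ∑ w ∈ W k s, (Cn σ A X Q b w : ℝ)| ≤ (K + 4) * Wn := by
    rw [← Finset.sum_sub_distrib]
    refine (Finset.abs_sum_le_sum_abs _ _).trans ?_
    rw [hWn, Finset.mul_sum]
    apply Finset.sum_le_sum
    intro s hs
    rw [← Finset.sum_sub_distrib]
    refine (Finset.abs_sum_le_sum_abs _ _).trans ?_
    have h1 : ∑ w ∈ W k s, |(#(F0.filter (HO1_has w)) : ℝ) - (Cn σ A X Q b w : ℝ)| ≤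
        ∑ w ∈ W k s, ((K : ℝ) + 4) := by
      apply Finset.sum_le_sum
      intro w hw
      obtain ⟨a1, a2, a3⟩ := (hW1 _ _ _).1 hw
      have h2 := HE1_diff hF hC hσ b A w a2 X Q hQ
      have h3 := HE1_EF hE hF hC hσ b hA w a2 X Q hQ
      rw [hEn w] at h3
      have h4 := abs_sub_le (#(F0.filter (HO1_has w)) : ℝ) ((HE1_Fn σ b A w X Q).ncard : ℝ)
        (Cn σ A X Q b w : ℝ)
      linarith
    refine h1.trans (le_of_eq ?_)
    rw [Finset.sum_const, nsmul_eq_mul]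
    ring
  rw [hcard0, hp0]
  have e1 : ∑ s ∈ range R, ∑ w ∈ W k s, (#(F0.filter (HO1_has w)) : ℝ) + r0 -
      ∑ s ∈ range R, ∑ w ∈ W k s, (Cn σ A X Q b w : ℝ) =
      (∑ s ∈ range R, ∑ w ∈ W k s, (#(F0.filter (HO1_has w)) : ℝ) -
      ∑ s ∈ range R, ∑ w ∈ W k s, (Cn σ A X Q b w : ℝ)) + r0 := by ring
  rw [e1]
  refine (abs_add_le _ _).trans ?_
  rw [abs_of_nonneg hr0']
  have hK : (0 : ℝ) ≤ K := Nat.cast_nonneg _
  have h9 : ((K : ℝ) + 5) * Wn ≤ (K + 5) * 2 ^ (21 * k / 10) :=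
    mul_le_mul_of_nonneg_left hWn' (by linarith)
  linarith

theorem HE1_pow (X : ℕ) (hX : 2 ≤ X) :
    (2 : ℝ) ^ (21 * kk X / 10) ≤ (X : ℝ) ^ ((24 : ℝ) / 25) := by
  have hX1 : (1 : ℝ) ≤ X := by exact_mod_cast (by omega : 1 ≤ X)
  have h1 : (2 : ℝ) ^ (Nat.log 2 X) ≤ X := by
    exact_mod_cast Nat.pow_log_le_self 2 (by omega : X ≠ 0)
  have h2 : ((21 * kk X / 10 : ℕ) : ℝ) ≤ (24 / 25 : ℝ) * (Nat.log 2 X : ℝ) := by
    have h3 : 21 * kk X / 10 * 220 ≤ 210 * Nat.log 2 X := by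
      unfold kk
      omega
    have h4 : ((21 * kk X / 10 : ℕ) : ℝ) * 220 ≤ 210 * (Nat.log 2 X : ℝ) := by exact_mod_cast h3
    have h5 : (0 : ℝ) ≤ Nat.log 2 X := Nat.cast_nonneg _
    linarith
  calc (2 : ℝ) ^ (21 * kk X / 10) = (2 : ℝ) ^ ((21 * kk X / 10 : ℕ) : ℝ) := by
        rw [Real.rpow_natCast]
    _ ≤ (2 : ℝ) ^ ((24 / 25 : ℝ) * (Nat.log 2 X : ℝ)) :=
        Real.rpow_le_rpow_of_exponent_le (by norm_num) h2
    _ = ((2 : ℝ) ^ (Nat.log 2 X)) ^ ((24 : ℝ) / 25) := by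
        rw [← Real.rpow_natCast, ← Real.rpow_mul (by norm_num)]
        congr 1
        ring
    _ ≤ (X : ℝ) ^ ((24 : ℝ) / 25) := Real.rpow_le_rpow (by positivity) h1 (by norm_num)

theorem thm_HE1 (hE : St_FWE) (hF : St_FWD) (hC : St_CNT) (hW : St_WRD) (hT : St_TAL) :
    St_HE1 := by
  obtain ⟨⟨ρ, hρ0, hρ1, hρ⟩, -⟩ := hT
  intro B
  obtain ⟨C1, hC1⟩ : ∃ C1 : ℝ, ∀ k : ℕ, (k : ℝ) ^ B * ρ ^ k ≤ C1 := by
    have h1 := tendsto_pow_const_mul_const_pow_of_abs_lt_one B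
      (by rw [abs_of_pos hρ0]; exact hρ1 : |ρ| < 1)
    obtain ⟨C1, hC1⟩ := h1.bddAbove_range
    exact ⟨C1, fun k => hC1 ⟨k, rfl⟩⟩
  have hC10 : 0 ≤ C1 := by
    have h1 := hC1 1
    have h2 : (0 : ℝ) ≤ ((1 : ℕ) : ℝ) ^ B * ρ ^ 1 := by positivity
    linarith
  refine ⟨C1 + 20, ?_⟩
  intro σ b K A X Q hσ hA hX hQ
  have h1 := HE1_main hE hF hC hW hσ b hA X Q (kk X) hQ ρ (hρ (kk X)).2.1
  have hK : (0 : ℝ) ≤ K := Nat.cast_nonneg _
  refine h1.trans ?_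
  have hpow := HE1_pow X hX
  have hX1 : (1 : ℝ) ≤ X := by exact_mod_cast (by omega : 1 ≤ X)
  have hX2 : (1 : ℝ) ≤ (X : ℝ) ^ ((24 : ℝ) / 25) := Real.one_le_rpow hX1 (by norm_num)
  have hQ1 : (1 : ℝ) ≤ Q := by
    have : 1 ≤ Q := hQ.pos
    exact_mod_cast this
  have hQ0 : (0 : ℝ) < Q := by linarith
  have hXQ : (0 : ℝ) ≤ (X : ℝ) / Q := by positivity
  have h2 : (X : ℝ) / (2 * Q) * ρ ^ kk X ≤ (X : ℝ) / Q * ρ ^ kk X := by
    apply mul_le_mul_of_nonneg_right _ (by positivity)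
    apply div_le_div_of_nonneg_left (by positivity) hQ0
    linarith
  have hXp : (0 : ℝ) ≤ (X : ℝ) ^ ((24 : ℝ) / 25) := by linarith
  have hend : 8 * (X : ℝ) ^ ((24 : ℝ) / 25) + (K + 6) * 2 ^ (21 * kk X / 10) ≤
      (C1 + 20) * (K + 1) * (X : ℝ) ^ ((24 : ℝ) / 25) := by
    have h3 : ((K : ℝ) + 6) * 2 ^ (21 * kk X / 10) ≤ (K + 6) * (X : ℝ) ^ ((24 : ℝ) / 25) :=
      mul_le_mul_of_nonneg_left hpow (by linarith)
    have h4 : (K : ℝ) + 14 ≤ (C1 + 20) * (K + 1) := by nlinarith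
    have h5 : ((K : ℝ) + 14) * (X : ℝ) ^ ((24 : ℝ) / 25) ≤
        (C1 + 20) * (K + 1) * (X : ℝ) ^ ((24 : ℝ) / 25) := mul_le_mul_of_nonneg_right h4 hXp
    linarith
  rcases Nat.eq_zero_or_pos (kk X) with h0 | h0
  · -- `X < 8`
    have h3 : X < 8 := by
      by_contra hcon
      push Not at hcon
      have h4 : 3 ≤ Nat.log 2 X := by
        have : Nat.log 2 8 ≤ Nat.log 2 X := Nat.log_mono_right hcon
        have h5 : Nat.log 2 8 = 3 := by
          have := Nat.log_pow (b := 2) (by norm_num) 3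
          simpa using this
        omega
      unfold kk at h0
      omega
    have h4 : (X : ℝ) / Q ≤ 8 := by
      have h5 : (X : ℝ) / Q ≤ X := div_le_self (by linarith) hQ1
      have h6 : (X : ℝ) ≤ 8 := by exact_mod_cast h3.le
      linarith
    have h5 : (X : ℝ) / Q * ρ ^ kk X ≤ 8 := by
      rw [h0, pow_zero, mul_one]
      exact h4
    have h6 : (0 : ℝ) ≤ (C1 + 20) * (X / Q) / (kk X : ℝ) ^ B := by positivity
    linarith
  · have hk : (0 : ℝ) < (kk X : ℝ) ^ B := by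
      have : (0 : ℝ) < kk X := by exact_mod_cast h0
      positivity
    have h3 : ρ ^ kk X ≤ C1 / (kk X : ℝ) ^ B := by
      rw [le_div_iff₀ hk, mul_comm]
      exact hC1 (kk X)
    have h4 : (X : ℝ) / Q * ρ ^ kk X ≤ (C1 + 20) * (X / Q) / (kk X : ℝ) ^ B := by
      have h5 : (X : ℝ) / Q * ρ ^ kk X ≤ X / Q * (C1 / (kk X : ℝ) ^ B) :=
        mul_le_mul_of_nonneg_left h3 hXQ
      have h6 : (X : ℝ) / Q * (C1 / (kk X : ℝ) ^ B) = C1 * (X / Q) / (kk X : ℝ) ^ B := by ring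
      rw [h6] at h5
      refine h5.trans ?_
      apply div_le_div_of_nonneg_right _ hk.le
      apply mul_le_mul_of_nonneg_right _ hXQ
      linarith
    linarith

end Pool.Agent.SLD
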