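import Pool.Agent.SLD.StA

/-!
SLD, [TAL]: Chernoff tails for the numbers `p k s` (helper29).
-/

set_option autoImplicit false

namespace Pool.Agent.SLD

open Finset Filter Topology

theorem TAL_card (k s : ℕ) : #(W (k + 1) s) = ∑ i ∈ Icc 1 s, #(W k (s - i)) := by
  rw [W, card_biUnion]
  · refine sum_congr rfl fun i _ => ?_
    exact card_image_of_injective _ List.cons_injective
  · intro i _ j _ hij
    change Disjoint ((W k (s - i)).image (List.cons i)) ((W k (s - j)).image (List.cons j))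
    rw [Finset.disjoint_left]
    intro x hx hx'
    rw [mem_image] at hx hx'
    obtain ⟨u, -, rfl⟩ := hx
    obtain ⟨v, -, hv⟩ := hx'
    injection hv with h1 _
    exact hij h1.symm

theorem TAL_p_nonneg (k s : ℕ) : 0 ≤ p k s := by
  unfold p
  positivity

theorem TAL_p_succ (k s : ℕ) :
    p (k + 1) s = ∑ i ∈ Icc 1 s, (1 / 2 : ℝ) ^ i * p k (s - i) := by
  unfold p
  rw [TAL_card, Nat.cast_sum, sum_div]
  refine sum_congr rfl fun i hi => ?_
  rw [mem_Icc] at hi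
  have h1 : (2 : ℝ) ^ s = 2 ^ i * 2 ^ (s - i) := by
    rw [← pow_add]
    congr 1
    omega
  rw [h1, one_div, inv_pow]
  field_simp

theorem TAL_gen (z : ℝ) (k S : ℕ) :
    ∑ s ∈ range S, p (k + 1) s * z ^ s =
      ∑ i ∈ Icc 1 S, (z / 2) ^ i * ∑ s ∈ range (S - i), p k s * z ^ s := by
  have h1 : ∀ s, p (k + 1) s * z ^ s =
      ∑ i ∈ Icc 1 s, (z / 2) ^ i * (p k (s - i) * z ^ (s - i)) := by
    intro s
    rw [TAL_p_succ, sum_mul]
    refine sum_congr rfl fun i hi => ?_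
    rw [mem_Icc] at hi
    have h2 : z ^ s = z ^ i * z ^ (s - i) := by
      rw [← pow_add]
      congr 1
      omega
    have h5 : (z / 2) ^ i = (1 / 2) ^ i * z ^ i := by
      rw [← mul_pow]
      congr 1
      ring
    rw [h2, h5]
    ring
  have h3 : ∑ s ∈ range S, p (k + 1) s * z ^ s =
      ∑ s ∈ range S, ∑ i ∈ Icc 1 s, (z / 2) ^ i * (p k (s - i) * z ^ (s - i)) :=
    sum_congr rfl fun s _ => h1 s
  rw [h3]
  have h4 : ∑ s ∈ range S, ∑ i ∈ Icc 1 s, (z / 2) ^ i * (p k (s - i) * z ^ (s - i)) =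
      ∑ i ∈ Icc 1 S, ∑ s ∈ Ico i S, (z / 2) ^ i * (p k (s - i) * z ^ (s - i)) := by
    refine Finset.sum_comm' ?_
    intro s i
    rw [mem_range, mem_Icc, mem_Ico, mem_Icc]
    omega
  rw [h4]
  refine sum_congr rfl fun i _ => ?_
  rw [Finset.sum_Ico_eq_sum_range, mul_sum]
  refine sum_congr rfl fun s _ => ?_
  rw [Nat.add_sub_cancel_left]

theorem TAL_geom (r : ℝ) (S : ℕ) : (1 - r) * ∑ i ∈ Icc 1 S, r ^ i = r - r ^ (S + 1) := by
  induction S with
  | zero => simp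
  | succ n ih =>
    rw [sum_Icc_succ_top (by omega), mul_add, ih]
    ring

theorem TAL_bd (z : ℝ) (h0 : 0 < z) (h2 : z < 2) (k : ℕ) :
    ∀ S : ℕ, ∑ s ∈ range S, p k s * z ^ s ≤ (z / (2 - z)) ^ k := by
  have hz : 0 < 2 - z := by linarith
  induction k with
  | zero =>
    intro S
    rw [pow_zero]
    have h1 : ∀ s ∈ range S, p 0 s * z ^ s = if s = 0 then 1 else 0 := by
      intro s _
      by_cases hs : s = 0
      · subst hs
        simp [p, W]
      · simp [p, W, hs]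
    rw [sum_congr rfl h1, sum_ite_eq']
    split_ifs
    · exact le_rfl
    · exact zero_le_one
  | succ k ih =>
    intro S
    rw [TAL_gen]
    have hb : 0 ≤ (z / (2 - z)) ^ k := by positivity
    have h1 : ∑ i ∈ Icc 1 S, (z / 2) ^ i * ∑ s ∈ range (S - i), p k s * z ^ s ≤
        ∑ i ∈ Icc 1 S, (z / 2) ^ i * (z / (2 - z)) ^ k := by
      refine sum_le_sum fun i _ => ?_
      exact mul_le_mul_of_nonneg_left (ih _) (by positivity)
    refine h1.trans ?_
    rw [← sum_mul, pow_succ, mul_comm ((z / (2 - z)) ^ k)]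
    refine mul_le_mul_of_nonneg_right ?_ hb
    have h3 := TAL_geom (z / 2) S
    rw [le_div_iff₀ hz]
    have h4 : 0 ≤ (z / 2) ^ (S + 1) := by positivity
    nlinarith [h3, h4]

theorem TAL_low (k S : ℕ) (N : ℕ) :
    (1 - (1 / 2 : ℝ) ^ N) * ∑ s ∈ range S, p k s ≤ ∑ s ∈ range (S + N), p (k + 1) s := by
  have h1 := TAL_gen 1 k (S + N)
  simp only [one_pow, mul_one] at h1
  rw [h1]
  have h2 : ∑ i ∈ Icc 1 N, (1 / 2 : ℝ) ^ i * ∑ s ∈ range S, p k s ≤
      ∑ i ∈ Icc 1 (S + N), (1 / 2 : ℝ) ^ i * ∑ s ∈ range (S + N - i), p k s := by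
    have h3 : ∑ i ∈ Icc 1 N, (1 / 2 : ℝ) ^ i * ∑ s ∈ range S, p k s ≤
        ∑ i ∈ Icc 1 N, (1 / 2 : ℝ) ^ i * ∑ s ∈ range (S + N - i), p k s := by
      refine sum_le_sum fun i hi => ?_
      rw [mem_Icc] at hi
      refine mul_le_mul_of_nonneg_left ?_ (by positivity)
      refine sum_le_sum_of_subset_of_nonneg ?_ fun s _ _ => TAL_p_nonneg k s
      exact range_subset_range.2 (by omega)
    refine h3.trans ?_
    refine sum_le_sum_of_subset_of_nonneg ?_ fun i _ _ => ?_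
    · exact Icc_subset_Icc le_rfl (by omega)
    · exact mul_nonneg (by positivity) (sum_nonneg fun s _ => TAL_p_nonneg k s)
  refine le_trans (le_of_eq ?_) h2
  rw [← sum_mul]
  congr 1
  have h4 := TAL_geom (1 / 2) N
  have h5 : ((1 : ℝ) / 2) ^ (N + 1) = (1 / 2) ^ N * (1 / 2) := pow_succ _ _
  rw [h5] at h4
  linarith

theorem TAL_total (k N : ℕ) :
    (1 - (1 / 2 : ℝ) ^ N) ^ k ≤ ∑ s ∈ range (k * N + 1), p k s := by
  have hN : (0 : ℝ) ≤ 1 - (1 / 2) ^ N := by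
    have : ((1 : ℝ) / 2) ^ N ≤ 1 := pow_le_one₀ (by norm_num) (by norm_num)
    linarith
  induction k with
  | zero => simp [p, W]
  | succ k ih =>
    have h1 := TAL_low k (k * N + 1) N
    have e : k * N + 1 + N = (k + 1) * N + 1 := by ring
    rw [e] at h1
    refine le_trans ?_ h1
    rw [pow_succ, mul_comm]
    exact mul_le_mul_of_nonneg_left ih hN

theorem TAL_pow10 (a b : ℝ) (hb : 0 ≤ b) (h : a ^ 10 ≤ b ^ 10) : a ≤ b := by
  by_contra hc
  push Not at hc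
  have h1 : b ^ 10 < a ^ 10 := pow_lt_pow_left₀ hc hb (by norm_num)
  linarith

/-- lower tail -/
theorem TAL_lower (k : ℕ) :
    ∑ s ∈ range ((19 * k + 9) / 10), p k s ≤ (999 / 1000 : ℝ) ^ k := by
  have hb := TAL_bd (19 / 20) (by norm_num) (by norm_num) k ((19 * k + 9) / 10)
  have e1 : (19 / 20 : ℝ) / (2 - 19 / 20) = 19 / 21 := by norm_num
  rw [e1] at hb
  have hpos : (0 : ℝ) < (19 / 21) ^ k := by positivity
  have h1 : (19 / 21 : ℝ) ^ k * ∑ s ∈ range ((19 * k + 9) / 10), p k s ≤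
      (999 / 1000 : ℝ) ^ k * ∑ s ∈ range ((19 * k + 9) / 10), p k s * (19 / 20 : ℝ) ^ s := by
    rw [mul_sum, mul_sum]
    refine sum_le_sum fun s hs => ?_
    rw [mem_range] at hs
    have hs' : 10 * s ≤ 19 * k := by omega
    have h2 : (19 / 21 : ℝ) ^ k ≤ (999 / 1000 : ℝ) ^ k * (19 / 20 : ℝ) ^ s := by
      refine TAL_pow10 _ _ (by positivity) ?_
      rw [mul_pow, ← pow_mul, ← pow_mul, ← pow_mul, mul_comm k 10, mul_comm s 10, pow_mul,
        pow_mul (999 / 1000 : ℝ)]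
      have h3 : (19 / 20 : ℝ) ^ (19 * k) ≤ (19 / 20 : ℝ) ^ (10 * s) :=
        pow_le_pow_of_le_one (by norm_num) (by norm_num) hs'
      have h4 : (((19 : ℝ) / 21) ^ 10) ^ k ≤
          (((999 : ℝ) / 1000) ^ 10) ^ k * ((19 / 20 : ℝ) ^ 19) ^ k := by
        rw [← mul_pow]
        exact pow_le_pow_left₀ (by positivity) (by norm_num) k
      refine h4.trans ?_
      rw [← pow_mul (19 / 20 : ℝ)]
      exact mul_le_mul_of_nonneg_left h3 (by positivity)
    have h5 := mul_le_mul_of_nonneg_right h2 (TAL_p_nonneg k s)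
    calc (19 / 21 : ℝ) ^ k * p k s ≤ (999 / 1000 : ℝ) ^ k * (19 / 20 : ℝ) ^ s * p k s := h5
      _ = (999 / 1000 : ℝ) ^ k * (p k s * (19 / 20 : ℝ) ^ s) := by ring
  have h6 : (999 / 1000 : ℝ) ^ k * ∑ s ∈ range ((19 * k + 9) / 10), p k s * (19 / 20 : ℝ) ^ s ≤
      (999 / 1000 : ℝ) ^ k * (19 / 21) ^ k := mul_le_mul_of_nonneg_left hb (by positivity)
  have h7 := h1.trans h6
  rw [mul_comm ((999 / 1000 : ℝ) ^ k)] at h7
  exact le_of_mul_le_mul_left h7 hpos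

/-- upper tail -/
theorem TAL_upper (k S : ℕ) :
    ∑ s ∈ Ico (21 * k / 10 + 1) S, p k s ≤ (999 / 1000 : ℝ) ^ k := by
  have hb := TAL_bd (21 / 20) (by norm_num) (by norm_num) k S
  have e1 : (21 / 20 : ℝ) / (2 - 21 / 20) = 21 / 19 := by norm_num
  rw [e1] at hb
  have hpos : (0 : ℝ) < (21 / 19) ^ k := by positivity
  have h1 : (21 / 19 : ℝ) ^ k * ∑ s ∈ Ico (21 * k / 10 + 1) S, p k s ≤
      (999 / 1000 : ℝ) ^ k * ∑ s ∈ Ico (21 * k / 10 + 1) S, p k s * (21 / 20 : ℝ) ^ s := by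
    rw [mul_sum, mul_sum]
    refine sum_le_sum fun s hs => ?_
    rw [mem_Ico] at hs
    have hs' : 21 * k ≤ 10 * s := by omega
    have h2 : (21 / 19 : ℝ) ^ k ≤ (999 / 1000 : ℝ) ^ k * (21 / 20 : ℝ) ^ s := by
      refine TAL_pow10 _ _ (by positivity) ?_
      rw [mul_pow, ← pow_mul, ← pow_mul, ← pow_mul, mul_comm k 10, mul_comm s 10, pow_mul,
        pow_mul (999 / 1000 : ℝ)]
      have h3 : (21 / 20 : ℝ) ^ (21 * k) ≤ (21 / 20 : ℝ) ^ (10 * s) :=
        pow_le_pow_right₀ (by norm_num) hs'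
      have h4 : (((21 : ℝ) / 19) ^ 10) ^ k ≤
          (((999 : ℝ) / 1000) ^ 10) ^ k * ((21 / 20 : ℝ) ^ 21) ^ k := by
        rw [← mul_pow]
        exact pow_le_pow_left₀ (by positivity) (by norm_num) k
      refine h4.trans ?_
      rw [← pow_mul (21 / 20 : ℝ)]
      exact mul_le_mul_of_nonneg_left h3 (by positivity)
    have h5 := mul_le_mul_of_nonneg_right h2 (TAL_p_nonneg k s)
    calc (21 / 19 : ℝ) ^ k * p k s ≤ (999 / 1000 : ℝ) ^ k * (21 / 20 : ℝ) ^ s * p k s := h5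
      _ = (999 / 1000 : ℝ) ^ k * (p k s * (21 / 20 : ℝ) ^ s) := by ring
  have h0 : ∑ s ∈ Ico (21 * k / 10 + 1) S, p k s * (21 / 20 : ℝ) ^ s ≤ (21 / 19) ^ k := by
    refine le_trans (sum_le_sum_of_subset_of_nonneg ?_ fun s _ _ => ?_) hb
    · intro s hs
      rw [mem_Ico] at hs
      exact mem_range.2 hs.2
    · exact mul_nonneg (TAL_p_nonneg k s) (by positivity)
  have h6 := mul_le_mul_of_nonneg_left h0 (by positivity : (0 : ℝ) ≤ (999 / 1000 : ℝ) ^ k)
  have h7 := h1.trans h6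
  rw [mul_comm ((999 / 1000 : ℝ) ^ k)] at h7
  exact le_of_mul_le_mul_left h7 hpos

theorem TAL_mid (k : ℕ) :
    1 - (999 / 1000 : ℝ) ^ k ≤ ∑ s ∈ range (21 * k / 10 + 1), p k s := by
  have h1 : ∀ N : ℕ, (1 - (1 / 2 : ℝ) ^ N) ^ k ≤
      ∑ s ∈ range (21 * k / 10 + 1), p k s + (999 / 1000 : ℝ) ^ k := by
    intro N
    refine (TAL_total k N).trans ?_
    rcases le_total (k * N + 1) (21 * k / 10 + 1) with h | h
    · have h2 : ∑ s ∈ range (k * N + 1), p k s ≤ ∑ s ∈ range (21 * k / 10 + 1), p k s :=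
        sum_le_sum_of_subset_of_nonneg (range_subset_range.2 h) fun s _ _ => TAL_p_nonneg k s
      have h3 : (0 : ℝ) ≤ (999 / 1000 : ℝ) ^ k := by positivity
      linarith
    · rw [← sum_range_add_sum_Ico _ h]
      have h2 := TAL_upper k (k * N + 1)
      linarith
  have h2 : Tendsto (fun N : ℕ => (1 - (1 / 2 : ℝ) ^ N) ^ k) atTop (𝓝 ((1 - 0) ^ k)) := by
    refine Tendsto.pow ?_ k
    refine Tendsto.sub tendsto_const_nhds ?_
    exact tendsto_pow_atTop_nhds_zero_of_lt_one (by norm_num) (by norm_num)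
  have h3 := le_of_tendsto' h2 h1
  rw [sub_zero, one_pow] at h3
  linarith

theorem TAL_last (j J S : ℕ) (hj : j ≤ J) :
    ∑ t ∈ Ico (10 * J + 1) S, p j t ≤ (1 / 2) ^ J := by
  have hb := TAL_bd (3 / 2) (by norm_num) (by norm_num) j S
  have e1 : (3 / 2 : ℝ) / (2 - 3 / 2) = 3 := by norm_num
  rw [e1] at hb
  have h0 : ∑ s ∈ Ico (10 * J + 1) S, p j s * (3 / 2 : ℝ) ^ s ≤ 3 ^ j := by
    refine le_trans (sum_le_sum_of_subset_of_nonneg ?_ fun s _ _ => ?_) hb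
    · intro s hs
      rw [mem_Ico] at hs
      exact mem_range.2 hs.2
    · exact mul_nonneg (TAL_p_nonneg j s) (by positivity)
  have h1 : (3 / 2 : ℝ) ^ (10 * J) * ∑ s ∈ Ico (10 * J + 1) S, p j s ≤
      ∑ s ∈ Ico (10 * J + 1) S, p j s * (3 / 2 : ℝ) ^ s := by
    rw [mul_sum]
    refine sum_le_sum fun s hs => ?_
    rw [mem_Ico] at hs
    rw [mul_comm]
    refine mul_le_mul_of_nonneg_left ?_ (TAL_p_nonneg j s)
    exact pow_le_pow_right₀ (by norm_num) (by omega)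
  have h2 : (3 : ℝ) ^ j ≤ 3 ^ J := pow_le_pow_right₀ (by norm_num) hj
  have h3 : (3 : ℝ) ^ J ≤ (3 / 2 : ℝ) ^ (10 * J) * (1 / 2) ^ J := by
    rw [pow_mul, ← mul_pow]
    exact pow_le_pow_left₀ (by norm_num) (by norm_num) J
  have h4 : (3 / 2 : ℝ) ^ (10 * J) * ∑ s ∈ Ico (10 * J + 1) S, p j s ≤
      (3 / 2 : ℝ) ^ (10 * J) * (1 / 2) ^ J := by linarith
  exact le_of_mul_le_mul_left h4 (by positivity)

theorem thm_TAL : St_TAL :=
  ⟨⟨999 / 1000, by norm_num, by norm_num, fun k => ⟨TAL_lower k, TAL_mid k, TAL_upper k⟩⟩,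
    fun j J S h => TAL_last j J S h⟩

end Pool.Agent.SLD
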