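import Pool.Agent.SLD.StA

/-!
SLD, module WRD (helper25): basic facts on the words `W k s`.
-/

set_option autoImplicit false

namespace Pool.Agent.SLD

open Finset

lemma WRD_mem (k : ℕ) : ∀ (s : ℕ) (w : List ℕ),
    w ∈ W k s ↔ w.length = k ∧ (∀ i ∈ w, 1 ≤ i) ∧ w.sum = s := by
  induction k with
  | zero =>
    intro s w
    unfold W
    by_cases hs : s = 0
    · subst hs
      rw [if_pos rfl, mem_singleton]
      constructor
      · rintro rfl
        simp
      · rintro ⟨h, -, -⟩
        exact List.length_eq_zero_iff.1 h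
    · rw [if_neg hs]
      constructor
      · intro h
        simp at h
      · rintro ⟨h, -, h2⟩
        rw [List.length_eq_zero_iff.1 h, List.sum_nil] at h2
        exact absurd h2.symm hs
  | succ k ih =>
    intro s w
    unfold W
    rw [mem_biUnion]
    constructor
    · rintro ⟨i, hi, hw⟩
      rw [mem_image] at hw
      obtain ⟨v, hv, rfl⟩ := hw
      rw [mem_Icc] at hi
      obtain ⟨h1, h2, h3⟩ := (ih _ _).1 hv
      refine ⟨by rw [List.length_cons, h1], ?_, ?_⟩
      · intro j hj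
        rcases List.mem_cons.1 hj with rfl | hj
        · exact hi.1
        · exact h2 j hj
      · rw [List.sum_cons, h3]
        omega
    · rintro ⟨h1, h2, h3⟩
      cases w with
      | nil => simp at h1
      | cons i v =>
        rw [List.length_cons] at h1
        rw [List.sum_cons] at h3
        refine ⟨i, mem_Icc.2 ⟨h2 i (List.mem_cons_self ..), by omega⟩, ?_⟩
        rw [mem_image]
        refine ⟨v, (ih _ _).2 ⟨by omega, fun j hj => h2 j (List.mem_cons_of_mem _ hj), by omega⟩,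
          rfl⟩

lemma WRD_cut {A : Type*} [AddCommMonoid A] (j k s : ℕ) (f : List ℕ → A) :
    ∑ w ∈ W (j + k) s, f w =
      ∑ t ∈ range (s + 1), ∑ u ∈ W j t, ∑ v ∈ W k (s - t), f (u ++ v) := by
  have h1 : ∑ t ∈ range (s + 1), ∑ u ∈ W j t, ∑ v ∈ W k (s - t), f (u ++ v) =
      ∑ x ∈ (range (s + 1)).sigma (fun t => W j t ×ˢ W k (s - t)), f (x.2.1 ++ x.2.2) := by
    rw [sum_sigma]
    refine sum_congr rfl fun t _ => ?_
    rw [sum_product]
  rw [h1]
  refine sum_bij' (fun w _ => (⟨(w.take j).sum, (w.take j, w.drop j)⟩ : (_ : ℕ) × (List ℕ × List ℕ)))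
    (fun x _ => x.2.1 ++ x.2.2) ?_ ?_ ?_ ?_ ?_
  · intro w hw
    obtain ⟨h2, h3, h4⟩ := (WRD_mem _ _ _).1 hw
    have h5 : (w.take j).sum + (w.drop j).sum = s := by
      rw [← List.sum_append, List.take_append_drop, h4]
    rw [mem_sigma]
    refine ⟨mem_range.2 (by simp only; omega), ?_⟩
    rw [mem_product]
    refine ⟨(WRD_mem _ _ _).2 ⟨?_, fun i hi => h3 i (List.mem_of_mem_take hi), rfl⟩,
      (WRD_mem _ _ _).2 ⟨?_, fun i hi => h3 i (List.mem_of_mem_drop hi), ?_⟩⟩
    · simp only [List.length_take]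
      omega
    · simp only [List.length_drop]
      omega
    · simp only
      omega
  · rintro ⟨t, u, v⟩ hx
    rw [mem_sigma, mem_product] at hx
    obtain ⟨h2, h3, h4⟩ := hx
    simp only at h3 h4 ⊢
    obtain ⟨a1, a2, a3⟩ := (WRD_mem _ _ _).1 h3
    obtain ⟨b1, b2, b3⟩ := (WRD_mem _ _ _).1 h4
    have h5 := mem_range.1 h2
    simp only at h5
    refine (WRD_mem _ _ _).2 ⟨by rw [List.length_append, a1, b1], ?_, ?_⟩
    · intro i hi
      rcases List.mem_append.1 hi with hi | hi
      · exact a2 i hi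
      · exact b2 i hi
    · rw [List.sum_append, a3, b3]
      omega
  · intro w _
    exact List.take_append_drop j w
  · rintro ⟨t, u, v⟩ hx
    rw [mem_sigma, mem_product] at hx
    obtain ⟨h2, h3, h4⟩ := hx
    simp only at h3 h4 ⊢
    obtain ⟨a1, a2, a3⟩ := (WRD_mem _ _ _).1 h3
    have h6 : (u ++ v).take j = u := by
      rw [← a1]
      exact List.take_left
    have h7 : (u ++ v).drop j = v := by
      rw [← a1]
      exact List.drop_left
    rw [h6, h7, a3]
  · intro w _
    simp only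
    rw [List.take_append_drop]

lemma WRD_p_nonneg (k s : ℕ) : 0 ≤ p k s := by
  unfold p
  positivity

lemma WRD_p_cut (j k s : ℕ) : p (j + k) s = ∑ t ∈ range (s + 1), p j t * p k (s - t) := by
  have h := WRD_cut j k s (fun _ => (1 : ℝ))
  simp only [sum_const, nsmul_eq_mul, mul_one] at h
  unfold p
  rw [h, sum_div]
  refine sum_congr rfl fun t ht => ?_
  have h1 : (2 : ℝ) ^ s = 2 ^ t * 2 ^ (s - t) := by
    rw [← pow_add]
    congr 1
    have := mem_range.1 ht
    omega
  rw [h1]
  field_simp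

lemma WRD_conv (a b : ℕ → ℝ) (ha : ∀ t, 0 ≤ a t) (hb : ∀ t, 0 ≤ b t) (S : ℕ) :
    ∑ s ∈ range S, ∑ t ∈ range (s + 1), a t * b (s - t) ≤
      (∑ t ∈ range S, a t) * ∑ s ∈ range S, b s := by
  have h1 : ∑ s ∈ range S, ∑ t ∈ range (s + 1), a t * b (s - t) =
      ∑ t ∈ range S, ∑ s ∈ Ico t S, a t * b (s - t) := by
    apply sum_comm'
    intro s t
    simp only [mem_range, mem_Ico]
    omega
  rw [h1, sum_mul]
  refine sum_le_sum fun t _ => ?_
  rw [sum_Ico_eq_sum_range, ← mul_sum]
  refine mul_le_mul_of_nonneg_left ?_ (ha t)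
  have h2 : ∑ i ∈ range (S - t), b (t + i - t) = ∑ i ∈ range (S - t), b i :=
    sum_congr rfl fun i _ => by rw [Nat.add_sub_cancel_left]
  rw [h2]
  exact sum_le_sum_of_subset_of_nonneg (range_subset_range.2 (Nat.sub_le _ _)) fun i _ _ => hb i

lemma WRD_one (S : ℕ) : ∑ t ∈ range S, p 1 t ≤ 1 := by
  have h0 : p 1 0 = 0 := by
    have : W 1 0 = ∅ := by
      apply eq_empty_of_forall_notMem
      intro w hw
      obtain ⟨h1, h2, h3⟩ := (WRD_mem _ _ _).1 hw
      obtain ⟨a, rfl⟩ := List.length_eq_one_iff.1 h1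
      have := h2 a (by simp)
      simp at h3
      omega
    unfold p
    rw [this]
    simp
  have h1 : ∀ t, p 1 t ≤ 1 / 2 ^ t := by
    intro t
    have : #(W 1 t) ≤ 1 := by
      rw [card_le_one]
      intro v hv w hw
      obtain ⟨a1, -, a3⟩ := (WRD_mem _ _ _).1 hv
      obtain ⟨b1, -, b3⟩ := (WRD_mem _ _ _).1 hw
      obtain ⟨a, rfl⟩ := List.length_eq_one_iff.1 a1
      obtain ⟨b, rfl⟩ := List.length_eq_one_iff.1 b1
      simp at a3 b3
      rw [a3, b3]
    unfold p
    refine div_le_div_of_nonneg_right ?_ (by positivity)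
    exact_mod_cast this
  have h2 : ∀ S : ℕ, ∑ t ∈ range (S + 1), p 1 t ≤ 1 - 1 / 2 ^ S := by
    intro S
    induction S with
    | zero => simp [h0]
    | succ S ih =>
      rw [sum_range_succ]
      have h3 := h1 (S + 1)
      have h4 : (1 : ℝ) / 2 ^ S = 2 * (1 / 2 ^ (S + 1)) := by
        rw [pow_succ]
        field_simp
      linarith
  cases S with
  | zero => simp
  | succ S =>
    have h3 := h2 S
    have h4 : (0 : ℝ) ≤ 1 / 2 ^ S := by positivity
    linarith

lemma WRD_mass (k S : ℕ) : ∑ s ∈ range S, p k s ≤ 1 := by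
  induction k with
  | zero =>
    have h1 : ∀ s, p 0 s = if s = 0 then 1 else 0 := by
      intro s
      unfold p W
      by_cases hs : s = 0
      · subst hs
        simp
      · simp [hs]
    rw [sum_congr rfl fun s _ => h1 s, sum_ite_eq']
    split_ifs <;> norm_num
  | succ k ih =>
    have h1 : ∑ s ∈ range S, p (k + 1) s = ∑ s ∈ range S, ∑ t ∈ range (s + 1), p k t * p 1 (s - t) :=
      sum_congr rfl fun s _ => WRD_p_cut k 1 s
    rw [h1]
    refine (WRD_conv (p k) (p 1) (WRD_p_nonneg k) (WRD_p_nonneg 1) S).trans ?_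
    have h2 := WRD_one S
    have h3 : 0 ≤ ∑ s ∈ range S, p 1 s := sum_nonneg fun s _ => WRD_p_nonneg 1 s
    exact mul_le_one₀ ih h3 h2

theorem thm_WRD : St_WRD :=
  ⟨WRD_mem, WRD_mass, fun j k s f => WRD_cut j k s f, WRD_p_cut⟩

end Pool.Agent.SLD
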