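import Pool.Agent.SLD.StA

/-!
SLD, [TWO]: even moduli (helper29).
-/

set_option autoImplicit false

namespace Pool.Agent.SLD

theorem TWO_T_even (n : ℤ) : T (2 * n) = n := by
  unfold T
  rw [if_pos (Dvd.intro n rfl)]
  exact Int.mul_ediv_cancel_left n (by norm_num)

theorem TWO_T_odd (n : ℤ) : T (2 * n + 1) = 3 * n + 2 := by
  unfold T
  rw [if_neg (by omega)]
  omega

theorem TWO_T_zero (n : ℤ) : T n = 0 ↔ n = 0 := by
  unfold T
  split_ifs with h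
  · omega
  · omega

theorem TWO_it_zero (i : ℕ) : ∀ n : ℤ, T^[i] n = 0 ↔ n = 0 := by
  induction i with
  | zero => intro n; rfl
  | succ i ih =>
    intro n
    rw [Function.iterate_succ_apply, ih, TWO_T_zero]

theorem TWO_it_mem (A : Set ℤ) (hA : Inv A) (i : ℕ) : ∀ n : ℤ, n ∈ A ↔ T^[i] n ∈ A := by
  induction i with
  | zero => intro n; rfl
  | succ i ih =>
    intro n
    rw [Function.iterate_succ_apply, ← ih, ← hA]

theorem TWO_A (i : ℕ) : ∀ r₀ : ℤ, 0 ≤ r₀ → r₀ < 2 ^ i →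
    ∃ (a : ℕ) (t : ℤ), a ≤ i ∧ 0 ≤ t ∧ t < 3 ^ a ∧
      ∀ l : ℤ, T^[i] (r₀ + 2 ^ i * l) = 3 ^ a * l + t := by
  induction i with
  | zero =>
    intro r₀ h0 h1
    refine ⟨0, 0, le_rfl, le_rfl, by norm_num, fun l => ?_⟩
    rw [pow_zero] at h1
    have h2 : r₀ = 0 := by omega
    rw [h2]
    simp
  | succ i ih =>
    intro r₀ h0 h1
    have hp : (0 : ℤ) < 2 ^ i := by positivity
    rw [pow_succ] at h1
    rcases Int.even_or_odd' r₀ with ⟨ρ, h | h⟩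
    · obtain ⟨a, t, ha, ht0, ht1, hl⟩ := ih ρ (by omega) (by omega)
      refine ⟨a, t, by omega, ht0, ht1, fun l => ?_⟩
      have e1 : r₀ + 2 ^ (i + 1) * l = 2 * (ρ + 2 ^ i * l) := by
        rw [h]
        ring
      rw [e1, Function.iterate_succ_apply, TWO_T_even, hl]
    · have hc0 : 0 ≤ (3 * ρ + 2) / 2 ^ i := Int.ediv_nonneg (by omega) hp.le
      have hc2 : (3 * ρ + 2) / 2 ^ i < 3 := by
        apply Int.ediv_lt_of_lt_mul hp
        omega
      obtain ⟨a, t, ha, ht0, ht1, hl⟩ := ih ((3 * ρ + 2) % 2 ^ i)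
        (Int.emod_nonneg _ hp.ne') (Int.emod_lt_of_pos _ hp)
      have h3 : (0 : ℤ) < 3 ^ a := by positivity
      refine ⟨a + 1, 3 ^ a * ((3 * ρ + 2) / 2 ^ i) + t, by omega, ?_, ?_, fun l => ?_⟩
      · have := mul_nonneg h3.le hc0
        linarith
      · have h4 : 3 ^ a * ((3 * ρ + 2) / 2 ^ i) ≤ 3 ^ a * 2 :=
          mul_le_mul_of_nonneg_left (by omega) h3.le
        rw [pow_succ]
        linarith
      · have e1 : r₀ + 2 ^ (i + 1) * l = 2 * (ρ + 2 ^ i * l) + 1 := by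
          rw [h]
          ring
        have e2 : 3 * (ρ + 2 ^ i * l) + 2 =
            (3 * ρ + 2) % 2 ^ i + 2 ^ i * (3 * l + (3 * ρ + 2) / 2 ^ i) := by
          have h5 := Int.emod_add_mul_ediv (3 * ρ + 2) (2 ^ i)
          linear_combination -h5
        rw [e1, Function.iterate_succ_apply, TWO_T_odd, e2, hl]
        ring

/-- the sets are parametrised by the same integers -/
theorem TWO_card (σ : ℤ) (A : Set ℤ) (X Q q₁ : ℕ) (c r r' k : ℤ)
    (hc : c ≠ 0) (S : Set ℤ) (hQ : (Q : ℤ) = c * q₁) (hr : r = r' + c * k)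
    (hS : ∀ l : ℤ, l ∈ S ↔ (q₁ : ℤ) ∣ l - k ∧ 1 ≤ σ * (r' + c * l) ∧ σ * (r' + c * l) ≤ X ∧
      r' + c * l ∈ A) : N σ A X Q r = S.ncard := by
  have h1 : {n : ℤ | 1 ≤ σ * n ∧ σ * n ≤ X ∧ (Q : ℤ) ∣ n - r ∧ n ∈ A} =
      (fun l : ℤ => r' + c * l) '' S := by
    ext n
    constructor
    · rintro ⟨h1, h2, ⟨d, hd⟩, h4⟩
      have e : n = r' + c * (k + q₁ * d) := by
        rw [hQ] at hd
        rw [hr] at hd
        linear_combination hd
      refine ⟨k + q₁ * d, ?_, e.symm⟩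
      rw [hS, ← e]
      exact ⟨⟨d, by ring⟩, h1, h2, h4⟩
    · rintro ⟨l, hl, rfl⟩
      rw [hS] at hl
      obtain ⟨⟨d, hd⟩, h2, h3, h4⟩ := hl
      refine ⟨h2, h3, ⟨d, ?_⟩, h4⟩
      rw [hQ, hr]
      change r' + c * l - (r' + c * k) = c * q₁ * d
      linear_combination c * hd
  unfold N
  rw [h1]
  refine Set.ncard_image_of_injective _ ?_
  intro l l' h
  change r' + c * l = r' + c * l' at h
  have h2 : c * l = c * l' := by linarith
  exact mul_left_cancel₀ hc h2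

/-- upper bound, positive sign -/
theorem TWO_pos (X : ℕ) (a i : ℕ) (r₀ t : ℤ) (h0 : 0 ≤ r₀) (h1 : r₀ < 2 ^ i) (ht0 : 0 ≤ t)
    (ht1 : t < 3 ^ a) (hz : r₀ = 0 ↔ t = 0) : ∃ X' : ℕ,
    (∀ l : ℤ, (1 ≤ r₀ + 2 ^ i * l ∧ r₀ + 2 ^ i * l ≤ X) ↔ (1 ≤ t + 3 ^ a * l ∧ t + 3 ^ a * l ≤ X')) ∧
      |(X' : ℝ) - 3 ^ a * X / 2 ^ i| ≤ 2 * 3 ^ a := by
  have hp : (0 : ℤ) < 2 ^ i := by positivity
  have h3 : (0 : ℤ) < 3 ^ a := by positivity
  have hpR : (0 : ℝ) < 2 ^ i := by positivity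
  have h3R : (0 : ℝ) < 3 ^ a := by positivity
  have hl1 : ∀ l : ℤ, (1 ≤ r₀ + 2 ^ i * l) ↔ (1 ≤ t + 3 ^ a * l) := by
    intro l
    rcases lt_trichotomy l 0 with h | h | h
    · have e1 : 2 ^ i * l ≤ 2 ^ i * (-1) := mul_le_mul_of_nonneg_left (by omega) hp.le
      have e2 : 3 ^ a * l ≤ 3 ^ a * (-1) := mul_le_mul_of_nonneg_left (by omega) h3.le
      constructor
      · intro h5; linarith
      · intro h5; linarith
    · subst h
      rw [mul_zero, mul_zero]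
      omega
    · have e1 : 2 ^ i * 1 ≤ 2 ^ i * l := mul_le_mul_of_nonneg_left (by omega) hp.le
      have e2 : 3 ^ a * 1 ≤ 3 ^ a * l := mul_le_mul_of_nonneg_left (by omega) h3.le
      constructor
      · intro _; linarith
      · intro _; linarith
  have hq : 3 ^ a * (X : ℝ) / 2 ^ i = 3 ^ a * ((X : ℝ) / 2 ^ i) := by ring
  have hXnn : (0 : ℝ) ≤ (X : ℝ) / 2 ^ i := by positivity
  rcases lt_or_ge (X : ℤ) r₀ with hX | hX
  · refine ⟨0, fun l => ?_, ?_⟩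
    · constructor
      · rintro ⟨h4, h5⟩
        exfalso
        have h6 : 0 < l := by
          by_contra hc
          have e1 : 2 ^ i * l ≤ 2 ^ i * 0 := mul_le_mul_of_nonneg_left (by omega) hp.le
          rcases lt_or_eq_of_le (not_lt.1 hc) with h | h
          · have e1 : 2 ^ i * l ≤ 2 ^ i * (-1) := mul_le_mul_of_nonneg_left (by omega) hp.le
            linarith
          · subst h
            omega
        have e1 : 2 ^ i * 1 ≤ 2 ^ i * l := mul_le_mul_of_nonneg_left (by omega) hp.le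
        linarith
      · rintro ⟨h4, h5⟩
        exfalso
        rw [Nat.cast_zero] at h5
        linarith
    · have h4 : (X : ℝ) ≤ 2 ^ i := by
        have : (X : ℤ) ≤ 2 ^ i := by linarith
        exact_mod_cast this
      have h5 : (X : ℝ) / 2 ^ i ≤ 1 := (div_le_one hpR).2 h4
      rw [hq, Nat.cast_zero, zero_sub, abs_neg, abs_of_nonneg (by positivity)]
      nlinarith
  · have hL0 : 0 ≤ ((X : ℤ) - r₀) / 2 ^ i := Int.ediv_nonneg (by omega) hp.le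
    have hm := Int.emod_add_mul_ediv ((X : ℤ) - r₀) (2 ^ i)
    have hm0 := Int.emod_nonneg ((X : ℤ) - r₀) hp.ne'
    have hm1 := Int.emod_lt_of_pos ((X : ℤ) - r₀) hp
    set L := ((X : ℤ) - r₀) / 2 ^ i with hL
    set ρ := ((X : ℤ) - r₀) % 2 ^ i with hρ
    have hnn : 0 ≤ t + 3 ^ a * L := add_nonneg ht0 (mul_nonneg h3.le hL0)
    obtain ⟨X', hX'⟩ := Int.eq_ofNat_of_zero_le hnn
    refine ⟨X', fun l => ?_, ?_⟩
    · rw [hl1 l]
      refine and_congr_right fun _ => ?_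
      rw [← hX']
      have e1 : (r₀ + 2 ^ i * l ≤ X) ↔ l ≤ L := by
        constructor
        · intro h4
          by_contra hc
          have e1 : 2 ^ i * (L + 1) ≤ 2 ^ i * l := mul_le_mul_of_nonneg_left (by omega) hp.le
          linarith
        · intro h4
          have e1 : 2 ^ i * l ≤ 2 ^ i * L := mul_le_mul_of_nonneg_left h4 hp.le
          linarith
      have e2 : (t + 3 ^ a * l ≤ t + 3 ^ a * L) ↔ l ≤ L := by
        rw [add_le_add_iff_left]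
        exact mul_le_mul_iff_right₀ h3
      rw [e1, e2]
    · have h4 : (X' : ℝ) = t + 3 ^ a * (L : ℝ) := by
        have : ((X' : ℤ) : ℝ) = ((t + 3 ^ a * L : ℤ) : ℝ) := by rw [hX']
        push_cast at this
        exact this
      have h5 : (X : ℝ) = r₀ + 2 ^ i * (L : ℝ) + (ρ : ℝ) := by
        have : ((X : ℤ) : ℝ) = ((r₀ + 2 ^ i * L + ρ : ℤ) : ℝ) := by
          congr 1
          linarith
        push_cast at this
        exact this
      have h6 : (X : ℝ) / 2 ^ i = (r₀ : ℝ) / 2 ^ i + L + (ρ : ℝ) / 2 ^ i := by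
        rw [h5]
        field_simp
      have g0 : (0 : ℝ) ≤ (r₀ : ℝ) / 2 ^ i := by
        have : (0 : ℝ) ≤ (r₀ : ℝ) := by exact_mod_cast h0
        positivity
      have g1 : (r₀ : ℝ) / 2 ^ i ≤ 1 := by
        rw [div_le_one hpR]
        exact_mod_cast h1.le
      have g2 : (0 : ℝ) ≤ (ρ : ℝ) / 2 ^ i := by
        have : (0 : ℝ) ≤ (ρ : ℝ) := by exact_mod_cast hm0
        positivity
      have g3 : (ρ : ℝ) / 2 ^ i ≤ 1 := by
        rw [div_le_one hpR]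
        exact_mod_cast hm1.le
      have g4 : (0 : ℝ) ≤ (t : ℝ) := by exact_mod_cast ht0
      have g5 : (t : ℝ) ≤ 3 ^ a := by exact_mod_cast ht1.le
      rw [hq, h6, h4, abs_le]
      constructor
      · nlinarith
      · nlinarith

/-- upper bound, negative sign -/
theorem TWO_neg (X : ℕ) (a i : ℕ) (r₀ t : ℤ) (h0 : 0 ≤ r₀) (h1 : r₀ < 2 ^ i) (ht0 : 0 ≤ t)
    (ht1 : t < 3 ^ a) : ∃ X' : ℕ,
    (∀ l : ℤ, (1 ≤ -(r₀ + 2 ^ i * l) ∧ -(r₀ + 2 ^ i * l) ≤ X) ↔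
      (1 ≤ -(t + 3 ^ a * l) ∧ -(t + 3 ^ a * l) ≤ X')) ∧
      |(X' : ℝ) - 3 ^ a * X / 2 ^ i| ≤ 2 * 3 ^ a := by
  have hp : (0 : ℤ) < 2 ^ i := by positivity
  have h3 : (0 : ℤ) < 3 ^ a := by positivity
  have hpR : (0 : ℝ) < 2 ^ i := by positivity
  have h3R : (0 : ℝ) < 3 ^ a := by positivity
  have hl1 : ∀ l : ℤ, (1 ≤ -(r₀ + 2 ^ i * l)) ↔ l ≤ -1 := by
    intro l
    constructor
    · intro h4
      by_contra hc
      have e1 : 2 ^ i * 0 ≤ 2 ^ i * l := mul_le_mul_of_nonneg_left (by omega) hp.le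
      linarith
    · intro h4
      have e1 : 2 ^ i * l ≤ 2 ^ i * (-1) := mul_le_mul_of_nonneg_left h4 hp.le
      linarith
  have hl2 : ∀ l : ℤ, (1 ≤ -(t + 3 ^ a * l)) ↔ l ≤ -1 := by
    intro l
    constructor
    · intro h4
      by_contra hc
      have e1 : 3 ^ a * 0 ≤ 3 ^ a * l := mul_le_mul_of_nonneg_left (by omega) h3.le
      linarith
    · intro h4
      have e1 : 3 ^ a * l ≤ 3 ^ a * (-1) := mul_le_mul_of_nonneg_left h4 h3.le
      linarith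
  have hq : 3 ^ a * (X : ℝ) / 2 ^ i = 3 ^ a * ((X : ℝ) / 2 ^ i) := by ring
  have hXnn : (0 : ℝ) ≤ (X : ℝ) / 2 ^ i := by positivity
  have hL0 : 0 ≤ ((X : ℤ) + r₀) / 2 ^ i := Int.ediv_nonneg (by omega) hp.le
  have hm := Int.emod_add_mul_ediv ((X : ℤ) + r₀) (2 ^ i)
  have hm0 := Int.emod_nonneg ((X : ℤ) + r₀) hp.ne'
  have hm1 := Int.emod_lt_of_pos ((X : ℤ) + r₀) hp
  set L := ((X : ℤ) + r₀) / 2 ^ i with hL
  set ρ := ((X : ℤ) + r₀) % 2 ^ i with hρ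
  have e1 : ∀ l : ℤ, (-(r₀ + 2 ^ i * l) ≤ X) ↔ -l ≤ L := by
    intro l
    constructor
    · intro h4
      by_contra hc
      have e1 : 2 ^ i * (L + 1) ≤ 2 ^ i * (-l) := mul_le_mul_of_nonneg_left (by omega) hp.le
      linarith
    · intro h4
      have e1 : 2 ^ i * (-l) ≤ 2 ^ i * L := mul_le_mul_of_nonneg_left h4 hp.le
      linarith
  rcases eq_or_lt_of_le hL0 with hLz | hLp
  · refine ⟨0, fun l => ?_, ?_⟩
    · rw [hl1, hl2, e1]
      constructor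
      · rintro ⟨h4, h5⟩
        omega
      · rintro ⟨h4, h5⟩
        exfalso
        have h6 := (hl2 l).2 h4
        rw [Nat.cast_zero] at h5
        linarith
    · have h4 : (X : ℝ) ≤ 2 ^ i := by
        have : (X : ℤ) ≤ 2 ^ i := by
          rw [← hLz] at hm
          linarith
        exact_mod_cast this
      have h5 : (X : ℝ) / 2 ^ i ≤ 1 := (div_le_one hpR).2 h4
      rw [hq, Nat.cast_zero, zero_sub, abs_neg, abs_of_nonneg (by positivity)]
      nlinarith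
  · have hnn : 0 ≤ 3 ^ a * L - t := by
      have e2 : 3 ^ a * 1 ≤ 3 ^ a * L := mul_le_mul_of_nonneg_left (by omega) h3.le
      linarith
    obtain ⟨X', hX'⟩ := Int.eq_ofNat_of_zero_le hnn
    refine ⟨X', fun l => ?_, ?_⟩
    · rw [hl1 l, hl2 l]
      refine and_congr_right fun _ => ?_
      rw [← hX', e1]
      have e2 : (-(t + 3 ^ a * l) ≤ 3 ^ a * L - t) ↔ -l ≤ L := by
        have e3 : -(t + 3 ^ a * l) = 3 ^ a * (-l) - t := by ring
        rw [e3, sub_le_sub_iff_right]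
        exact mul_le_mul_iff_right₀ h3
      rw [e2]
    · have h4 : (X' : ℝ) = 3 ^ a * (L : ℝ) - t := by
        have : ((X' : ℤ) : ℝ) = ((3 ^ a * L - t : ℤ) : ℝ) := by rw [hX']
        push_cast at this
        exact this
      have h5 : (X : ℝ) = 2 ^ i * (L : ℝ) + (ρ : ℝ) - r₀ := by
        have : ((X : ℤ) : ℝ) = ((2 ^ i * L + ρ - r₀ : ℤ) : ℝ) := by
          congr 1
          linarith
        push_cast at this
        exact this
      have h6 : (X : ℝ) / 2 ^ i = L + (ρ : ℝ) / 2 ^ i - (r₀ : ℝ) / 2 ^ i := by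
        rw [h5]
        field_simp
      have g0 : (0 : ℝ) ≤ (r₀ : ℝ) / 2 ^ i := by
        have : (0 : ℝ) ≤ (r₀ : ℝ) := by exact_mod_cast h0
        positivity
      have g1 : (r₀ : ℝ) / 2 ^ i ≤ 1 := by
        rw [div_le_one hpR]
        exact_mod_cast h1.le
      have g2 : (0 : ℝ) ≤ (ρ : ℝ) / 2 ^ i := by
        have : (0 : ℝ) ≤ (ρ : ℝ) := by exact_mod_cast hm0
        positivity
      have g3 : (ρ : ℝ) / 2 ^ i ≤ 1 := by
        rw [div_le_one hpR]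
        exact_mod_cast hm1.le
      have g4 : (0 : ℝ) ≤ (t : ℝ) := by exact_mod_cast ht0
      have g5 : (t : ℝ) ≤ 3 ^ a := by exact_mod_cast ht1.le
      rw [hq, h6, h4, abs_le]
      constructor
      · nlinarith
      · nlinarith

theorem thm_TWO : St_TWO := by
  intro σ r A X i q₁ hσ hA _
  have hp : (0 : ℤ) < 2 ^ i := by positivity
  obtain ⟨a, t, ha, ht0, ht1, hl⟩ := TWO_A i (r % 2 ^ i) (Int.emod_nonneg _ hp.ne')
    (Int.emod_lt_of_pos _ hp)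
  have hr0 := Int.emod_nonneg r hp.ne'
  have hr1 := Int.emod_lt_of_pos r hp
  have hrr := Int.emod_add_mul_ediv r (2 ^ i)
  set r₀ := r % 2 ^ i with hr₀
  set k := r / 2 ^ i with hk
  have hz : r₀ = 0 ↔ t = 0 := by
    have h1 := hl 0
    rw [mul_zero, mul_zero, add_zero, zero_add] at h1
    rw [← h1]
    exact (TWO_it_zero i r₀).symm
  have key : ∃ X' : ℕ, (∀ l : ℤ, (1 ≤ σ * (r₀ + 2 ^ i * l) ∧ σ * (r₀ + 2 ^ i * l) ≤ X) ↔
      (1 ≤ σ * (t + 3 ^ a * l) ∧ σ * (t + 3 ^ a * l) ≤ X')) ∧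
      |(X' : ℝ) - 3 ^ a * X / 2 ^ i| ≤ 2 * 3 ^ a := by
    rcases hσ with rfl | rfl
    · obtain ⟨X', h1, h2⟩ := TWO_pos X a i r₀ t hr0 hr1 ht0 ht1 hz
      refine ⟨X', fun l => ?_, h2⟩
      rw [one_mul, one_mul]
      exact h1 l
    · obtain ⟨X', h1, h2⟩ := TWO_neg X a i r₀ t hr0 hr1 ht0 ht1
      refine ⟨X', fun l => ?_, h2⟩
      rw [neg_one_mul, neg_one_mul]
      exact h1 l
  obtain ⟨X', hX', hX2⟩ := key
  refine ⟨a, X', t + 3 ^ a * k, ha, ?_, hX2⟩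
  let S : Set ℤ := {l | (q₁ : ℤ) ∣ l - k ∧ 1 ≤ σ * (r₀ + 2 ^ i * l) ∧
    σ * (r₀ + 2 ^ i * l) ≤ X ∧ r₀ + 2 ^ i * l ∈ A}
  have e1 : N σ A X (2 ^ i * q₁) r = S.ncard := by
    refine TWO_card σ A X (2 ^ i * q₁) q₁ (2 ^ i) r r₀ k hp.ne' S ?_ hrr.symm
      (fun l => Iff.rfl)
    push_cast
    rfl
  have e2 : N σ A X' (3 ^ a * q₁) (t + 3 ^ a * k) = S.ncard := by
    refine TWO_card σ A X' (3 ^ a * q₁) q₁ (3 ^ a) (t + 3 ^ a * k) t k
      (by positivity) S ?_ rfl (fun l => ?_)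
    · push_cast
      rfl
    · have h1 : r₀ + 2 ^ i * l ∈ A ↔ t + 3 ^ a * l ∈ A := by
        rw [TWO_it_mem A hA i (r₀ + 2 ^ i * l), hl, add_comm]
      have h2 := hX' l
      constructor
      · rintro ⟨h3, h4, h5, h6⟩
        exact ⟨h3, (h2.1 ⟨h4, h5⟩).1, (h2.1 ⟨h4, h5⟩).2, h1.1 h6⟩
      · rintro ⟨h3, h4, h5, h6⟩
        exact ⟨h3, (h2.2 ⟨h4, h5⟩).1, (h2.2 ⟨h4, h5⟩).2, h1.2 h6⟩
  rw [e1, e2]

end Pool.Agent.SLD
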