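import Pool.Agent.SLD.StB
import Pool.Agent.SLD.TWO

/-!
SLD, [TWE]: even moduli, eventually invariant sets.
-/

set_option autoImplicit false

namespace Pool.Agent.SLD

/-- the exceptional parameters -/
theorem TWE_small (σ : ℤ) (hσ : σ = 1 ∨ σ = -1) (K i : ℕ) (r₀ : ℤ) (h0 : 0 ≤ r₀)
    (h1 : r₀ < 2 ^ i) (D : Set ℤ)
    (hD : ∀ l ∈ D, 1 ≤ σ * (r₀ + 2 ^ i * l) ∧ |r₀ + 2 ^ i * l| ≤ K * 2 ^ i) :
    D.Finite ∧ D.ncard ≤ K + 1 := by
  have hp : (0 : ℤ) < 2 ^ i := by positivity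
  rcases hσ with rfl | rfl
  · have hsub : D ⊆ ((Finset.Icc (0 : ℤ) K : Finset ℤ) : Set ℤ) := by
      intro l hl
      obtain ⟨h2, h3⟩ := hD l hl
      rw [one_mul] at h2
      rw [abs_le] at h3
      rw [Finset.coe_Icc, Set.mem_Icc]
      constructor
      · by_contra hc
        have e1 : 2 ^ i * l ≤ 2 ^ i * (-1) := mul_le_mul_of_nonneg_left (by omega) hp.le
        linarith
      · by_contra hc
        have e1 : 2 ^ i * ((K : ℤ) + 1) ≤ 2 ^ i * l :=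
          mul_le_mul_of_nonneg_left (by omega) hp.le
        linarith [h3.2, mul_comm (K : ℤ) (2 ^ i)]
    refine ⟨(Finset.finite_toSet _).subset hsub, ?_⟩
    have h4 := Set.ncard_le_ncard hsub (Finset.finite_toSet _)
    rw [Set.ncard_coe_finset, Int.card_Icc] at h4
    omega
  · have hsub : D ⊆ ((Finset.Icc (-(K : ℤ)) (-1) : Finset ℤ) : Set ℤ) := by
      intro l hl
      obtain ⟨h2, h3⟩ := hD l hl
      rw [neg_one_mul] at h2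
      rw [abs_le] at h3
      rw [Finset.coe_Icc, Set.mem_Icc]
      constructor
      · by_contra hc
        have e1 : 2 ^ i * l ≤ 2 ^ i * (-(K : ℤ) - 1) :=
          mul_le_mul_of_nonneg_left (by omega) hp.le
        linarith [h3.1, mul_comm (K : ℤ) (2 ^ i)]
      · by_contra hc
        have e1 : 2 ^ i * 0 ≤ 2 ^ i * l := mul_le_mul_of_nonneg_left (by omega) hp.le
        linarith
    refine ⟨(Finset.finite_toSet _).subset hsub, ?_⟩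
    have h4 := Set.ncard_le_ncard hsub (Finset.finite_toSet _)
    rw [Set.ncard_coe_finset, Int.card_Icc] at h4
    omega

/-- finiteness of the set of parameters -/
theorem TWE_fin (σ : ℤ) (hσ : σ = 1 ∨ σ = -1) (X i : ℕ) (r₀ : ℤ) (h0 : 0 ≤ r₀)
    (h1 : r₀ < 2 ^ i) (S : Set ℤ)
    (hS : ∀ l ∈ S, 1 ≤ σ * (r₀ + 2 ^ i * l) ∧ σ * (r₀ + 2 ^ i * l) ≤ X) : S.Finite := by
  refine (TWE_small σ hσ X i r₀ h0 h1 S fun l hl => ⟨(hS l hl).1, ?_⟩).1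
  obtain ⟨h2, h3⟩ := hS l hl
  have hp : (1 : ℤ) ≤ 2 ^ i := one_le_pow₀ (by norm_num)
  have hX : (X : ℤ) ≤ X * 2 ^ i := le_mul_of_one_le_right (by positivity) hp
  rw [abs_le]
  rcases hσ with rfl | rfl
  · rw [one_mul] at h2 h3
    constructor <;> linarith
  · rw [neg_one_mul] at h2 h3
    constructor <;> linarith

/-- comparison of two sets which agree outside a third one -/
theorem TWE_cmp (S S' D : Set ℤ) (hS : S.Finite) (hS' : S'.Finite) (hD : D.Finite)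
    (h : ∀ l, l ∉ D → (l ∈ S ↔ l ∈ S')) (K : ℕ) (hK : D.ncard ≤ K + 1) :
    |(S.ncard : ℝ) - S'.ncard| ≤ K + 1 := by
  have h1 : S.ncard ≤ S'.ncard + D.ncard := by
    refine (Set.ncard_le_ncard (t := S' ∪ D) ?_ (hS'.union hD)).trans (Set.ncard_union_le _ _)
    intro l hl
    by_cases hd : l ∈ D
    · exact Or.inr hd
    · exact Or.inl ((h l hd).1 hl)
  have h2 : S'.ncard ≤ S.ncard + D.ncard := by
    refine (Set.ncard_le_ncard (t := S ∪ D) ?_ (hS.union hD)).trans (Set.ncard_union_le _ _)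
    intro l hl
    by_cases hd : l ∈ D
    · exact Or.inr hd
    · exact Or.inl ((h l hd).2 hl)
  have h3 : (S.ncard : ℝ) ≤ S'.ncard + (K + 1) := by
    have : S.ncard ≤ S'.ncard + (K + 1) := by omega
    exact_mod_cast this
  have h4 : (S'.ncard : ℝ) ≤ S.ncard + (K + 1) := by
    have : S'.ncard ≤ S.ncard + (K + 1) := by omega
    exact_mod_cast this
  rw [abs_le]
  constructor <;> linarith

theorem thm_TWE (h1 : St_FWE) : St_TWE := by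
  intro σ r K A X i q₁ hσ hA _
  have hp : (0 : ℤ) < 2 ^ i := by positivity
  obtain ⟨a, t, ha, ht0, ht1, hl⟩ := TWO_A i (r % 2 ^ i) (Int.emod_nonneg _ hp.ne')
    (Int.emod_lt_of_pos _ hp)
  have hr0 := Int.emod_nonneg r hp.ne'
  have hr1 := Int.emod_lt_of_pos r hp
  have hrr := Int.emod_add_mul_ediv r (2 ^ i)
  set r₀ := r % 2 ^ i with hr₀
  set k := r / 2 ^ i with hk
  have hz : r₀ = 0 ↔ t = 0 := by
    have h1 := hl 0
    rw [mul_zero, mul_zero, add_zero, zero_add] at h1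
    rw [← h1]
    exact (TWO_it_zero i r₀).symm
  have key : ∃ X' : ℕ, (∀ l : ℤ, (1 ≤ σ * (r₀ + 2 ^ i * l) ∧ σ * (r₀ + 2 ^ i * l) ≤ X) ↔
      (1 ≤ σ * (t + 3 ^ a * l) ∧ σ * (t + 3 ^ a * l) ≤ X')) ∧
      |(X' : ℝ) - 3 ^ a * X / 2 ^ i| ≤ 2 * 3 ^ a := by
    rcases hσ with rfl | rfl
    · obtain ⟨X', h1, h2⟩ := TWO_pos X a i r₀ t hr0 hr1 ht0 ht1 hz
      refine ⟨X', fun l => ?_, h2⟩
      rw [one_mul, one_mul]
      exact h1 l
    · obtain ⟨X', h1, h2⟩ := TWO_neg X a i r₀ t hr0 hr1 ht0 ht1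
      refine ⟨X', fun l => ?_, h2⟩
      rw [neg_one_mul, neg_one_mul]
      exact h1 l
  obtain ⟨X', hX', hX2⟩ := key
  refine ⟨a, X', t + 3 ^ a * k, ha, ?_, hX2⟩
  let S : Set ℤ := {l | (q₁ : ℤ) ∣ l - k ∧ 1 ≤ σ * (r₀ + 2 ^ i * l) ∧
    σ * (r₀ + 2 ^ i * l) ≤ X ∧ r₀ + 2 ^ i * l ∈ A}
  let S' : Set ℤ := {l | (q₁ : ℤ) ∣ l - k ∧ 1 ≤ σ * (r₀ + 2 ^ i * l) ∧
    σ * (r₀ + 2 ^ i * l) ≤ X ∧ t + 3 ^ a * l ∈ A}
  let D : Set ℤ := {l | 1 ≤ σ * (r₀ + 2 ^ i * l) ∧ |r₀ + 2 ^ i * l| ≤ K * 2 ^ i}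
  have e1 : N σ A X (2 ^ i * q₁) r = S.ncard := by
    refine TWO_card σ A X (2 ^ i * q₁) q₁ (2 ^ i) r r₀ k hp.ne' S ?_ hrr.symm
      (fun l => Iff.rfl)
    push_cast
    rfl
  have e2 : N σ A X' (3 ^ a * q₁) (t + 3 ^ a * k) = S'.ncard := by
    refine TWO_card σ A X' (3 ^ a * q₁) q₁ (3 ^ a) (t + 3 ^ a * k) t k
      (by positivity) S' ?_ rfl (fun l => ?_)
    · push_cast
      rfl
    · have h2 := hX' l
      constructor
      · rintro ⟨h3, h4, h5, h6⟩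
        exact ⟨h3, (h2.1 ⟨h4, h5⟩).1, (h2.1 ⟨h4, h5⟩).2, h6⟩
      · rintro ⟨h3, h4, h5, h6⟩
        exact ⟨h3, (h2.2 ⟨h4, h5⟩).1, (h2.2 ⟨h4, h5⟩).2, h6⟩
  obtain ⟨hDf, hDc⟩ := TWE_small σ hσ K i r₀ hr0 hr1 D (fun l hl => hl)
  rw [e1, e2]
  refine TWE_cmp S S' D (TWE_fin σ hσ X i r₀ hr0 hr1 S fun l hl => ⟨hl.2.1, hl.2.2.1⟩)
    (TWE_fin σ hσ X i r₀ hr0 hr1 S' fun l hl => ⟨hl.2.1, hl.2.2.1⟩) hDf (fun l hd => ?_) K hDc
  have h5 : 1 ≤ σ * (r₀ + 2 ^ i * l) → (r₀ + 2 ^ i * l ∈ A ↔ t + 3 ^ a * l ∈ A) := by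
    intro h6
    have h7 : (K : ℤ) * 2 ^ i < |r₀ + 2 ^ i * l| := by
      by_contra hc
      exact hd ⟨h6, not_lt.1 hc⟩
    have h8 := h1.2 K A hA _ _ h7
    rw [hl] at h8
    rw [← h8, add_comm]
  constructor
  · rintro ⟨h6, h7, h8, h9⟩
    exact ⟨h6, h7, h8, (h5 h7).1 h9⟩
  · rintro ⟨h6, h7, h8, h9⟩
    exact ⟨h6, h7, h8, (h5 h7).2 h9⟩

end Pool.Agent.SLD
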