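import Mathlib
import Pool.Agent.Helper14.FatouDefs
import Pool.Agent.Helper14.Fatou
import Pool.Agent.Collatz3.ND
import Pool.Agent.CPR.All
import Pool.Agent.CPR.Upp

set_option autoImplicit false

namespace Pool.Agent.SLD.PrimeOld

open Filter Topology
open Pool.Agent.Helper14 (T f₀ fatouComponent IsWanderingDomain)
open Pool.Agent.Collatz3.DN (EvInv)

/-- The set of integers whose Fatou component is a wandering domain of `f₀`. -/
def W : Set ℤ := {n : ℤ | IsWanderingDomain f₀ (fatouComponent f₀ (n : ℂ))}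

/-- `A` has natural density `d` among the integers of sign `σ` (`σ = 1` or `-1`), and the same
density along every arithmetic progression `σ (q m + r)`, `m = 0, 1, 2, …`. -/
def Dens (σ : ℤ) (A : Set ℤ) (d : ℝ) : Prop :=
  ∀ q r : ℕ, 1 ≤ q → Tendsto (fun x : ℝ =>
    (Set.ncard {m : ℕ | (m : ℝ) ≤ x ∧ σ * (q * m + r) ∈ A} : ℝ) / x) atTop (𝓝 d)

/-- The number of prime numbers `p ≤ x` with `σ p ∈ A`, divided by `x / log x`. -/
noncomputable def relDens (σ : ℤ) (A : Set ℤ) (x : ℝ) : ℝ :=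
  (Set.ncard {p : ℕ | p.Prime ∧ (p : ℝ) ≤ x ∧ σ * (p : ℤ) ∈ A} : ℝ) / (x / Real.log x)

theorem dens_zero_of_empty {σ : ℤ} (hσ : |σ| = 1) {A : Set ℤ} (h : ∀ n ∈ A, ¬ 0 < σ * n) (x : ℝ) :
    Set.ncard {p : ℕ | p.Prime ∧ (p : ℝ) ≤ x ∧ σ * (p : ℤ) ∈ A} = 0 := by
  have hs : {p : ℕ | p.Prime ∧ (p : ℝ) ≤ x ∧ σ * (p : ℤ) ∈ A} = ∅ := by
    rw [Set.eq_empty_iff_forall_notMem]
    rintro p ⟨hp, -, hpA⟩
    apply h _ hpA
    have hσσ : σ * σ = 1 := by
      have := abs_mul_abs_self σ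
      rw [hσ] at this
      linarith
    rw [← mul_assoc, hσσ, one_mul]
    exact_mod_cast hp.pos
  rw [hs, Set.ncard_empty]

/-- **Primes in invariant sets of the `3x+1` map.** There are absolute constants `c, C > 0` with the
following properties, for each sign `σ = 1, -1`; `relDens σ A x` is the number of primes `p ≤ x` with
`σ p ∈ A`, divided by `x / log x`.
1. If `A` is a set of integers with `T n ∈ A ↔ n ∈ A` for all `n` outside a finite set, and `A` has
density `d`, then `c d ≤ relDens σ A x` for all large `x`, and `relDens σ A x ≤ C b ^ (1/4)` for all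
large `x`, for every `b ≥ d`, `b > 0`.
2. If `A` is invariant (`T n ∈ A ↔ n ∈ A` for all `n`) and `a ∈ A` has sign `σ`, then
`c / |a| ≤ relDens σ A x` for all large `x`.
3. No integer of sign `σ` lies in a wandering domain of `f₀` if and only if `relDens σ W x → 0`.
4. For all `a` of sign `σ`, not divisible by `3`: `c / |a| ≤ relDens σ {n : the orbit of n contains a} x`
for all large `x`. -/
theorem result : ∃ c C : ℝ, 0 < c ∧ 0 < C ∧ ∀ σ : ℤ, |σ| = 1 →
    (∀ (K : ℕ) (A : Set ℤ) (d : ℝ), (∀ n : ℤ, (K : ℤ) < |n| → (T n ∈ A ↔ n ∈ A)) → Dens σ A d →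
      (∀ᶠ x : ℝ in atTop, c * d ≤ relDens σ A x) ∧
      ∀ b : ℝ, d ≤ b → 0 < b → ∀ᶠ x : ℝ in atTop, relDens σ A x ≤ C * b ^ (1 / 4 : ℝ)) ∧
    (∀ A : Set ℤ, (∀ n, T n ∈ A ↔ n ∈ A) → ∀ a ∈ A, 0 < σ * a →
      ∀ᶠ x : ℝ in atTop, c / |(a : ℝ)| ≤ relDens σ A x) ∧
    ((∀ n ∈ W, ¬ 0 < σ * n) ↔ Tendsto (relDens σ W) atTop (𝓝 0)) ∧
    (∀ a : ℤ, 0 < σ * a → ¬ (3 : ℤ) ∣ a →
      ∀ᶠ x : ℝ in atTop, c / |(a : ℝ)| ≤ relDens σ {n : ℤ | ∃ k : ℕ, T^[k] n = a} x) := by
  obtain ⟨c₁, hc₁, hF⟩ := Pool.Agent.CPR.all_Fin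
  obtain ⟨C, hC, hU⟩ := Pool.Agent.CPR.thm_Upp'
  obtain ⟨c₂, hc₂, hN⟩ := Pool.Agent.Collatz3.ND.result
  have hpos : ∀ᶠ x : ℝ in atTop, 0 < x / Real.log x := by
    filter_upwards [eventually_gt_atTop 1] with x hx
    exact div_pos (by linarith) (Real.log_pos hx)
  refine ⟨min c₁ (c₁ * c₂), C, lt_min hc₁ (by positivity), hC, fun σ hσ => ?_⟩
  have hs : σ = 1 ∨ σ = -1 := by
    rcases abs_eq (by norm_num : (0 : ℤ) ≤ 1) |>.1 hσ with h | h
    · exact Or.inl h
    · exact Or.inr h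
  obtain ⟨d, h1, -, -, -, -, -, h6⟩ := hN σ hσ
  have hmain : ∀ (K : ℕ) (A : Set ℤ) (d : ℝ), (∀ n : ℤ, (K : ℤ) < |n| → (T n ∈ A ↔ n ∈ A)) →
      Dens σ A d → ∀ c : ℝ, c ≤ c₁ * d → ∀ᶠ x : ℝ in atTop, c ≤ relDens σ A x := by
    intro K A d hA hd c hc
    rcases le_or_gt d 0 with h0 | h0
    · filter_upwards [hpos] with x hx
      have h2 : c ≤ 0 := hc.trans (mul_nonpos_of_nonneg_of_nonpos hc₁.le h0)
      exact h2.trans (div_nonneg (Nat.cast_nonneg _) hx.le)
    · filter_upwards [hF K A σ d hs hA hd h0, hpos] with x hx hx0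
      unfold relDens
      rw [le_div_iff₀ hx0]
      refine le_trans ?_ hx
      rw [mul_div_assoc]
      exact mul_le_mul_of_nonneg_right hc hx0.le
  have hinv : ∀ A : Set ℤ, (∀ n, T n ∈ A ↔ n ∈ A) → ∀ a ∈ A, 0 < σ * a →
      ∀ᶠ x : ℝ in atTop, min c₁ (c₁ * c₂) / |(a : ℝ)| ≤ relDens σ A x := by
    intro A hA a ha ha0
    obtain ⟨g1, g2⟩ := h1 A hA
    apply hmain 0 A (d A) (fun n _ => hA n) g1
    calc min c₁ (c₁ * c₂) / |(a : ℝ)| ≤ c₁ * c₂ / |(a : ℝ)| :=
          div_le_div_of_nonneg_right (min_le_right _ _) (abs_nonneg _)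
      _ = c₁ * (c₂ / |(a : ℝ)|) := by ring
      _ ≤ c₁ * d A := mul_le_mul_of_nonneg_left (g2 a ha ha0) hc₁.le
  refine ⟨?_, hinv, ?_, ?_⟩
  · intro K A d hA hd
    refine ⟨?_, fun b hdb hb => ?_⟩
    · rcases le_or_gt d 0 with h0 | h0
      · filter_upwards [hpos] with x hx
        have h2 : min c₁ (c₁ * c₂) * d ≤ 0 :=
          mul_nonpos_of_nonneg_of_nonpos (lt_min hc₁ (by positivity)).le h0
        exact h2.trans (div_nonneg (Nat.cast_nonneg _) hx.le)
      · exact hmain K A d hA hd _ (mul_le_mul_of_nonneg_right (min_le_left _ _) h0.le)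
    · filter_upwards [hU K A σ d b hs hA hd hdb hb, hpos] with x hx hx0
      unfold relDens
      rw [div_le_iff₀ hx0]
      exact hx
  · constructor
    · intro h
      have h2 : relDens σ W = fun _ => 0 := by
        funext x
        unfold relDens
        rw [dens_zero_of_empty hσ h x, Nat.cast_zero, zero_div]
      rw [h2]
      exact tendsto_const_nhds
    · intro h n hn hpos'
      have hn0 : n ≠ 0 := by
        rintro rfl
        simp at hpos'
      have h2 := hinv W Pool.Agent.Collatz3.ND.reach_inv_W n hn hpos'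
      have h3 : 0 < min c₁ (c₁ * c₂) / |(n : ℝ)| := by
        apply div_pos (lt_min hc₁ (by positivity))
        rw [abs_pos]
        exact_mod_cast hn0
      have h4 := le_of_tendsto_of_tendsto tendsto_const_nhds h h2
      linarith
  · intro a ha0 h3
    obtain ⟨g1, g2⟩ := h6 a ha0
    have hset : Pool.Agent.Collatz3.ND.reach {a} =
        {n : ℤ | ∃ k : ℕ, T^[k] n = a} := rfl
    have hev : EvInv a.natAbs (Pool.Agent.Collatz3.ND.reach {a}) :=
      Pool.Agent.Collatz3.DN.Reach.evInv (F := {a}) (by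
        intro c hc
        rw [Set.mem_singleton_iff] at hc
        rw [hc, Int.abs_eq_natAbs])
    rw [← hset]
    apply hmain a.natAbs _ _ hev g1
    calc min c₁ (c₁ * c₂) / |(a : ℝ)| ≤ c₁ * c₂ / |(a : ℝ)| :=
          div_le_div_of_nonneg_right (min_le_right _ _) (abs_nonneg _)
      _ = c₁ * (c₂ / |(a : ℝ)|) := by ring
      _ ≤ _ := mul_le_mul_of_nonneg_left (g2 h3) hc₁.le

end Pool.Agent.SLD.PrimeOld
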