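import Pool.Agent.SLD.All
import Pool.Agent.SLD.Conv

/-! SLD: the upper bound for the relative density in the primes. -/

set_option autoImplicit false

namespace Pool.Agent.SLD

open Filter Topology

/-- from SVP to large real `x` -/
theorem primeUp : ∃ C : ℝ, 0 < C ∧ ∀ (σ : ℤ) (K : ℕ) (A : Set ℤ) (d b : ℝ), |σ| = 1 →
    (∀ n : ℤ, (K : ℤ) < |n| → (Pool.Agent.Helper14.T n ∈ A ↔ n ∈ A)) →
    Tendsto (fun X : ℕ => (N σ A X 1 0 : ℝ) / X) atTop (𝓝 d) → d ≤ b → 0 < b →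
    ∀ᶠ x : ℝ in atTop, (Set.ncard {p : ℕ | p.Prime ∧ (p : ℝ) ≤ x ∧ σ * (p : ℤ) ∈ A} : ℝ) /
      (x / Real.log x) ≤ C * b := by
  obtain ⟨δ, hδ, C₁, h⟩ := all_SVP
  refine ⟨|C₁| * 8 + 1, by positivity, ?_⟩
  intro σ K A d b hσ hA hd hdb hb
  have hs := conv_sign hσ
  have h1 : ∀ᶠ X : ℕ in atTop, (N σ A X 1 0 : ℝ) / X < 2 * b :=
    hd.eventually_lt_const (by linarith)
  have h2 : ∀ᶠ X : ℕ in atTop, (K : ℝ) ≤ (X : ℝ) ^ δ :=
    ((tendsto_rpow_atTop hδ).comp tendsto_natCast_atTop_atTop).eventually (eventually_ge_atTop _)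
  have h3 : ∀ᶠ x : ℝ in atTop, 1 / b ≤ Real.log x :=
    Real.tendsto_log_atTop.eventually (eventually_ge_atTop _)
  have hfl : Tendsto (fun x : ℝ => ⌊x⌋₊) atTop atTop := tendsto_nat_floor_atTop
  filter_upwards [hfl.eventually h1, hfl.eventually h2, hfl.eventually (eventually_ge_atTop 2), h3,
    eventually_ge_atTop 4] with x g1 g2 g3 g4 g5
  obtain ⟨X, hX⟩ : ∃ X, X = ⌊x⌋₊ := ⟨_, rfl⟩
  rw [← hX] at g1 g2 g3
  have hXx : (X : ℝ) ≤ x := by
    rw [hX]
    exact Nat.floor_le (by linarith)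
  have hxX : x < X + 1 := by
    rw [hX]
    exact Nat.lt_floor_add_one x
  have hX2 : (2 : ℝ) ≤ X := by exact_mod_cast g3
  have hX0 : (0 : ℝ) < X := by linarith
  have hset : {p : ℕ | p.Prime ∧ (p : ℝ) ≤ x ∧ σ * (p : ℤ) ∈ A} =
      {p : ℕ | p.Prime ∧ p ≤ X ∧ σ * (p : ℤ) ∈ A} := by
    ext p
    have : (p : ℝ) ≤ x ↔ p ≤ X := by
      rw [hX]
      exact (Nat.le_floor_iff (by linarith)).symm
    constructor
    · rintro ⟨a1, a2, a3⟩
      exact ⟨a1, this.1 a2, a3⟩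
    · rintro ⟨a1, a2, a3⟩
      exact ⟨a1, this.2 a2, a3⟩
  have h4 := h σ K A X hs (conv_EvInv hA) g3 g2
  rw [hset]
  have hlx : 0 < Real.log x := Real.log_pos (by linarith)
  have hlX : Real.log x / 2 ≤ Real.log X := by
    have h5 : x ≤ (X : ℝ) ^ 2 := by nlinarith
    have h6 := Real.log_le_log (by linarith) h5
    rw [Real.log_pow] at h6
    push_cast at h6
    linarith
  have hlX0 : 0 < Real.log X := by linarith
  have hx0 : 0 < x := by linarith
  rw [div_le_iff₀ (div_pos hx0 hlx)]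
  refine h4.trans ?_
  have hC : C₁ * ((N σ A X 1 0 : ℝ) / Real.log X + X / Real.log X ^ 2) ≤
      |C₁| * ((N σ A X 1 0 : ℝ) / Real.log X + X / Real.log X ^ 2) :=
    mul_le_mul_of_nonneg_right (le_abs_self _) (by positivity)
  refine hC.trans ?_
  have h5 : (N σ A X 1 0 : ℝ) ≤ 2 * b * x := by
    rw [div_lt_iff₀ hX0] at g1
    have : 2 * b * X ≤ 2 * b * x := mul_le_mul_of_nonneg_left hXx (by linarith)
    linarith
  have h6 : (N σ A X 1 0 : ℝ) / Real.log X ≤ 4 * b * (x / Real.log x) := by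
    rw [div_le_iff₀ hlX0]
    have e : 4 * b * (x / Real.log x) * Real.log X = 2 * b * x * (Real.log X / (Real.log x / 2)) := by
      field_simp
      ring
    rw [e]
    have h7 : 1 ≤ Real.log X / (Real.log x / 2) := by
      rw [one_le_div (by linarith)]
      exact hlX
    have h8 : 0 ≤ 2 * b * x := by positivity
    nlinarith
  have h7 : (X : ℝ) / Real.log X ^ 2 ≤ 4 * b * (x / Real.log x) := by
    have e1 : (Real.log x / 2) ^ 2 ≤ Real.log X ^ 2 := pow_le_pow_left₀ (by linarith) hlX 2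
    have e2 : (X : ℝ) / Real.log X ^ 2 ≤ x / (Real.log x / 2) ^ 2 :=
      div_le_div₀ hx0.le hXx (by positivity) e1
    refine e2.trans ?_
    have e3 : x / (Real.log x / 2) ^ 2 = 4 * (1 / Real.log x) * (x / Real.log x) := by
      field_simp
      ring
    rw [e3]
    apply mul_le_mul_of_nonneg_right _ (by positivity)
    have e4 : 1 / Real.log x ≤ b := by
      rw [div_le_iff₀ hlx]
      rw [div_le_iff₀ hb] at g4
      linarith
    linarith
  have hp : 0 ≤ b * (x / Real.log x) := by positivity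
  calc |C₁| * ((N σ A X 1 0 : ℝ) / Real.log X + X / Real.log X ^ 2) ≤
        |C₁| * (4 * b * (x / Real.log x) + 4 * b * (x / Real.log x)) :=
        mul_le_mul_of_nonneg_left (add_le_add h6 h7) (abs_nonneg _)
    _ = |C₁| * 8 * (b * (x / Real.log x)) := by ring
    _ ≤ (|C₁| * 8 + 1) * (b * (x / Real.log x)) := by
        apply mul_le_mul_of_nonneg_right _ hp
        linarith
    _ = (|C₁| * 8 + 1) * b * (x / Real.log x) := by ring

end Pool.Agent.SLD
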