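import Pool.Agent.SLD.StA

/-!
SLD, TEL: telescoping of `Osc` (helper87).
-/

set_option autoImplicit false

namespace Pool.Agent.SLD

open Finset
open Pool.Agent.Collatz3 (cw)

/-- `P Q k s` is `Q`-periodic -/
theorem TEL_per (Q k s : ℕ) (x : ℤ) (r : ℤ) : P Q k s (x + r * Q) = P Q k s x := by
  unfold P
  congr 2
  congr 1
  ext w
  simp only [mem_filter, and_congr_right_iff]
  intro _
  have h : (2 : ℤ) ^ s * (x + r * Q) - (cw w : ℤ) =
      (2 ^ s * x - (cw w : ℤ)) + Q * (2 ^ s * r) := by ring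
  rw [h]
  exact dvd_add_left (dvd_mul_right _ _)

/-- a sum over `r` periods -/
theorem TEL_sum (f : ℤ → ℝ) (Q : ℕ) (hf : ∀ x r : ℤ, f (x + r * Q) = f x) (r : ℕ) :
    ∑ x ∈ range (Q * r), f x = r * ∑ x ∈ range Q, f x := by
  induction r with
  | zero => simp
  | succ r ih =>
    rw [Nat.mul_succ, sum_range_add, ih]
    have h : ∀ x ∈ range Q, f ((Q * r + x : ℕ) : ℤ) = f (x : ℤ) := by
      intro x _
      have := hf (x : ℤ) (r : ℤ)
      rw [← this]
      congr 1
      push_cast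
      ring
    rw [sum_congr rfl h]
    push_cast
    ring

/-- telescoping of the oscillation -/
theorem thm_TEL : St_TEL := by
  intro Q Q' Q'' k S hQ h1 h2
  obtain ⟨r, hr⟩ := h1
  obtain ⟨c, hc⟩ := h2
  have hr0 : r ≠ 0 := by
    rintro rfl
    simp at hr
    omega
  have hQ'0 : Q' ≠ 0 := by
    rintro rfl
    simp at hr
    omega
  have hrR : (r : ℝ) ≠ 0 := by exact_mod_cast hr0
  have hQ'R : (Q' : ℝ) ≠ 0 := by exact_mod_cast hQ'0
  unfold Osc
  rw [← sum_add_distrib]
  refine sum_le_sum fun s _ => ?_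
  -- the second sum over the larger range
  have key : ∑ x ∈ range Q', |P Q' k s x - (Q'' : ℝ) / Q' * P Q'' k s x| =
      ∑ x ∈ range Q, (Q' : ℝ) / Q * |P Q' k s x - (Q'' : ℝ) / Q' * P Q'' k s x| := by
    have hp : ∀ x t : ℤ, |P Q' k s (x + t * Q') - (Q'' : ℝ) / Q' * P Q'' k s (x + t * Q')| =
        |P Q' k s x - (Q'' : ℝ) / Q' * P Q'' k s x| := by
      intro x t
      rw [TEL_per]
      have : P Q'' k s (x + t * Q') = P Q'' k s x := by
        rw [hc]
        have e : x + t * ((Q'' * c : ℕ) : ℤ) = x + (t * c) * Q'' := by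
          push_cast
          ring
        rw [e, TEL_per]
      rw [this]
    have := TEL_sum (fun x : ℤ => |P Q' k s x - (Q'' : ℝ) / Q' * P Q'' k s x|) Q' hp r
    rw [← mul_sum, hr, this, ← mul_assoc]
    have h1 : (Q' : ℝ) / ((Q' * r : ℕ) : ℝ) * r = 1 := by
      push_cast
      field_simp
    rw [h1, one_mul]
  rw [key, ← sum_add_distrib]
  refine sum_le_sum fun x _ => ?_
  have hnn : (0 : ℝ) ≤ (Q' : ℝ) / Q := by positivity
  have e : P Q k s x - (Q'' : ℝ) / Q * P Q'' k s x =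
      (P Q k s x - (Q' : ℝ) / Q * P Q' k s x) +
        (Q' : ℝ) / Q * (P Q' k s x - (Q'' : ℝ) / Q' * P Q'' k s x) := by
    have hQR : (Q : ℝ) ≠ 0 := by
      exact_mod_cast hQ.ne'
    field_simp
    ring
  rw [e]
  refine (abs_add_le _ _).trans ?_
  rw [abs_mul, abs_of_nonneg hnn]

end Pool.Agent.SLD
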