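import Pool.Agent.SLD.StA

/-!
SLD, the module ALN: from odd integers to all integers (odd moduli).
-/

set_option autoImplicit false

namespace Pool.Agent.SLD

open Finset Filter Topology

private theorem ALN_abs {σ n : ℤ} {X : ℕ} (hσ : σ = 1 ∨ σ = -1) (h1 : 1 ≤ σ * n)
    (h2 : σ * n ≤ X) : -(X : ℤ) ≤ n ∧ n ≤ X ∧ n ≠ 0 := by
  rcases hσ with rfl | rfl
  · refine ⟨?_, ?_, ?_⟩
    · linarith
    · linarith
    · rintro rfl
      norm_num at h1
  · refine ⟨?_, ?_, ?_⟩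
    · linarith
    · linarith
    · rintro rfl
      norm_num at h1

private theorem ALN_finE (σ : ℤ) (hσ : σ = 1 ∨ σ = -1) (A : Set ℤ) (X Q : ℕ) (b : ℤ) :
    {n : ℤ | Odd n ∧ 1 ≤ σ * n ∧ σ * n ≤ X ∧ (Q : ℤ) ∣ n - b ∧ n ∈ A}.Finite := by
  refine (Set.finite_Icc (-(X : ℤ)) X).subset ?_
  rintro n ⟨-, h1, h2, -, -⟩
  obtain ⟨h3, h4, -⟩ := ALN_abs hσ h1 h2
  exact ⟨h3, h4⟩

private theorem ALN_E_le (σ : ℤ) (hσ : σ = 1 ∨ σ = -1) (A : Set ℤ) (X Q : ℕ) (b : ℤ) :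
    E σ A X Q b ≤ X := by
  unfold E
  have h1 : Set.ncard (Set.Icc (1 : ℤ) X) = X := by
    rw [← Finset.coe_Icc, Set.ncard_coe_finset, Int.card_Icc]
    simp
  calc Set.ncard {n : ℤ | Odd n ∧ 1 ≤ σ * n ∧ σ * n ≤ X ∧ (Q : ℤ) ∣ n - b ∧ n ∈ A}
      ≤ Set.ncard (Set.Icc (1 : ℤ) X) := by
        refine Set.ncard_le_ncard_of_injOn (fun n => σ * n) ?_ ?_ (Set.finite_Icc _ _)
        · rintro n ⟨-, h2, h3, -, -⟩
          exact ⟨h2, h3⟩
        · intro n _ n' _ h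
          rcases hσ with rfl | rfl
          · simpa using h
          · simpa using h
    _ = X := h1

private theorem ALN_pow {A : Set ℤ} (hA : Inv A) (e : ℕ) (n : ℤ) : 2 ^ e * n ∈ A ↔ n ∈ A := by
  induction e with
  | zero => simp
  | succ e ih =>
    rw [hA (2 ^ (e + 1) * n)]
    have : T (2 ^ (e + 1) * n) = 2 ^ e * n := by
      have h1 : (2 : ℤ) ^ (e + 1) * n = 2 * (2 ^ e * n) := by ring
      unfold T
      rw [h1, if_pos (dvd_mul_right _ _)]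
      exact Int.mul_ediv_cancel_left _ (by norm_num)
    rw [this, ih]

private theorem ALN_odd_pow (n : ℤ) (hn : n ≠ 0) : ∃ (e : ℕ) (m : ℤ), Odd m ∧ n = 2 ^ e * m := by
  obtain ⟨k, m, hm, h⟩ := Nat.exists_eq_two_pow_mul_odd (Int.natAbs_ne_zero.2 hn)
  rcases Int.natAbs_eq n with h1 | h1
  · refine ⟨k, m, ?_, ?_⟩
    · exact_mod_cast hm
    · rw [h1, h]
      push_cast
      ring
  · refine ⟨k, -m, ?_, ?_⟩
    · exact Odd.neg (by exact_mod_cast hm)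
    · rw [h1, h]
      push_cast
      ring

private theorem ALN_uniq {e e' : ℕ} {m m' : ℤ} (hm : Odd m) (hm' : Odd m')
    (h : 2 ^ e * m = 2 ^ e' * m') : e = e' := by
  by_contra hne
  rcases lt_or_gt_of_ne hne with hlt | hlt
  · obtain ⟨d, rfl⟩ := Nat.exists_eq_add_of_lt hlt
    have h1 : (2 : ℤ) ^ e * m = 2 ^ e * (2 * (2 ^ d * m')) := by
      rw [h]
      ring
    have h2 := mul_left_cancel₀ (pow_ne_zero e (by norm_num : (2 : ℤ) ≠ 0)) h1
    rw [h2] at hm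
    exact (Int.not_odd_iff_even.2 (even_two_mul _)) hm
  · obtain ⟨d, rfl⟩ := Nat.exists_eq_add_of_lt hlt
    have h1 : (2 : ℤ) ^ e' * m' = 2 ^ e' * (2 * (2 ^ d * m)) := by
      rw [← h]
      ring
    have h2 := mul_left_cancel₀ (pow_ne_zero e' (by norm_num : (2 : ℤ) ≠ 0)) h1
    rw [h2] at hm'
    exact (Int.not_odd_iff_even.2 (even_two_mul _)) hm'

/-- the class of `n / 2 ^ e` -/
private def ALN_r (q : ℕ) (r : ℤ) (e : ℕ) : ℤ := r * (((q + 1) / 2 : ℕ) : ℤ) ^ e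

private theorem ALN_dvd {q : ℕ} (hq : Odd q) (r m : ℤ) (e : ℕ) :
    (q : ℤ) ∣ 2 ^ e * m - r ↔ (q : ℤ) ∣ m - ALN_r q r e := by
  have h2 : 2 * ((q + 1) / 2) = q + 1 := by
    obtain ⟨c, rfl⟩ := hq
    omega
  have h2' : (2 : ℤ) * (((q + 1) / 2 : ℕ) : ℤ) = q + 1 := by exact_mod_cast h2
  obtain ⟨u, hu⟩ : ∃ u : ℤ, u = (((q + 1) / 2 : ℕ) : ℤ) := ⟨_, rfl⟩
  rw [← hu] at h2'
  have h3 : (q : ℤ) ∣ (2 * u) ^ e - 1 := by
    rw [h2']
    have := sub_dvd_pow_sub_pow ((q : ℤ) + 1) 1 e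
    rwa [add_sub_cancel_right, one_pow] at this
  obtain ⟨c, hc⟩ := h3
  rw [mul_pow] at hc
  unfold ALN_r
  rw [← hu]
  constructor
  · rintro ⟨d, hd⟩
    refine ⟨u ^ e * d - c * m, ?_⟩
    have h4 : u ^ e * (2 ^ e * m - r) = (2 ^ e * u ^ e - 1) * m + (m - r * u ^ e) := by ring
    rw [hd, hc] at h4
    linarith
  · rintro ⟨d, hd⟩
    refine ⟨2 ^ e * d + c * r, ?_⟩
    have h4 : 2 ^ e * (m - r * u ^ e) = (2 ^ e * m - r) - (2 ^ e * u ^ e - 1) * r := by ring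
    rw [hd, hc] at h4
    linarith

private theorem ALN_split (σ r : ℤ) (hσ : σ = 1 ∨ σ = -1) (A : Set ℤ) (hA : Inv A) (X q : ℕ)
    (_hX : X ≠ 0) (hq : Odd q) :
    N σ A X q r = ∑ e ∈ range (Nat.log 2 X + 1), E σ A (X / 2 ^ e) q (ALN_r q r e) := by
  classical
  have hfin : ∀ e : ℕ, {n : ℤ | Odd n ∧ 1 ≤ σ * n ∧ σ * n ≤ ((X / 2 ^ e : ℕ) : ℤ) ∧
      (q : ℤ) ∣ n - ALN_r q r e ∧ n ∈ A}.Finite := fun e => ALN_finE σ hσ A _ q _
  have hiff : ∀ (e : ℕ) (m : ℤ), σ * m ≤ ((X / 2 ^ e : ℕ) : ℤ) ↔ σ * (2 ^ e * m) ≤ X := by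
    intro e m
    push_cast
    rw [Int.le_ediv_iff_mul_le (by positivity)]
    constructor
    · intro h
      linarith
    · intro h
      linarith
  have hpos : ∀ (e : ℕ) (m : ℤ), 1 ≤ σ * m ↔ 1 ≤ σ * (2 ^ e * m) := by
    intro e m
    have h2 : (1 : ℤ) ≤ 2 ^ e := one_le_pow₀ (by norm_num)
    constructor
    · intro h
      nlinarith
    · intro h
      by_contra h3
      have h4 : σ * m ≤ 0 := by omega
      nlinarith
  let G : Finset ℤ := (range (Nat.log 2 X + 1)).biUnion fun e =>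
    ((hfin e).toFinset).image fun m => 2 ^ e * m
  have hG : {n : ℤ | 1 ≤ σ * n ∧ σ * n ≤ X ∧ (q : ℤ) ∣ n - r ∧ n ∈ A} = (G : Set ℤ) := by
    ext n
    simp only [G, Set.mem_ofPred_eq, Finset.coe_biUnion, Finset.coe_range, Set.mem_Iio,
      Finset.coe_image, Set.Finite.coe_toFinset, Set.mem_iUnion, Set.mem_image, exists_prop]
    constructor
    · rintro ⟨h1, h2, h3, h4⟩
      obtain ⟨h5, h6, h7⟩ := ALN_abs hσ h1 h2
      obtain ⟨e, m, hm, rfl⟩ := ALN_odd_pow n h7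
      refine ⟨e, ?_, m, ⟨hm, (hpos e m).2 h1, (hiff e m).2 h2, (ALN_dvd hq r m e).1 h3,
        (ALN_pow hA e m).1 h4⟩, rfl⟩
      have h8 : (2 : ℤ) ^ e ≤ X := by
        have h9 := (hpos e m).2 h1
        have h10 : (2 : ℤ) ^ e * (σ * m) ≤ X := by linarith
        have h11 : (0 : ℤ) < 2 ^ e := by positivity
        nlinarith
      have h9 : 2 ^ e ≤ X := by exact_mod_cast h8
      have h10 := Nat.le_log_of_pow_le (by norm_num : 1 < 2) h9
      omega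
    · rintro ⟨e, he, m, ⟨hm, h1, h2, h3, h4⟩, rfl⟩
      exact ⟨(hpos e m).1 h1, (hiff e m).1 h2, (ALN_dvd hq r m e).2 h3, (ALN_pow hA e m).2 h4⟩
  unfold N
  rw [hG, Set.ncard_coe_finset, Finset.card_biUnion]
  · refine Finset.sum_congr rfl fun e _ => ?_
    rw [Finset.card_image_of_injective]
    · unfold E
      rw [Set.ncard_eq_toFinset_card _ (hfin e)]
    · intro m m' h
      exact mul_left_cancel₀ (pow_ne_zero e (by norm_num : (2 : ℤ) ≠ 0)) h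
  · intro e _ e' _ hne
    rw [Function.onFun, Finset.disjoint_left]
    intro n hn hn'
    obtain ⟨m, hm, rfl⟩ := Finset.mem_image.1 hn
    obtain ⟨m', hm', h⟩ := Finset.mem_image.1 hn'
    rw [Set.Finite.mem_toFinset] at hm hm'
    exact hne (ALN_uniq hm.1 hm'.1 h.symm)

private theorem ALN_log (B : ℕ) {x : ℝ} (hx : 1 ≤ x) :
    Real.log x ^ (B + 1) ≤ (4 * ((B : ℝ) + 1)) ^ (B + 1) * x ^ (1 / 4 : ℝ) := by
  have hε : (0 : ℝ) < 1 / (4 * ((B : ℝ) + 1)) := by positivity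
  have h1 := Real.log_le_rpow_div (by linarith : (0 : ℝ) ≤ x) hε
  have h0 : 0 ≤ Real.log x := Real.log_nonneg hx
  calc Real.log x ^ (B + 1)
      ≤ (x ^ (1 / (4 * ((B : ℝ) + 1))) / (1 / (4 * ((B : ℝ) + 1)))) ^ (B + 1) :=
        pow_le_pow_left₀ h0 h1 _
    _ = (4 * ((B : ℝ) + 1)) ^ (B + 1) * x ^ (1 / 4 : ℝ) := by
        rw [div_pow, ← Real.rpow_natCast (x ^ (1 / (4 * ((B : ℝ) + 1)))),
          ← Real.rpow_mul (by linarith)]
        have h2 : 1 / (4 * ((B : ℝ) + 1)) * ((B + 1 : ℕ) : ℝ) = 1 / 4 := by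
          push_cast
          field_simp
        rw [h2, one_div, one_div, inv_pow, div_inv_eq_mul]
        ring

/-- Theorem S: odd moduli. -/
theorem thm_ALN (h1 : St_ODD) : St_ALN := by
  intro B
  obtain ⟨δ, hδ, C, hC⟩ := h1 B
  obtain ⟨C0, hC0⟩ : ∃ C0 : ℝ, C0 = max C 0 := ⟨_, rfl⟩
  have hC00 : 0 ≤ C0 := hC0 ▸ le_max_right _ _
  have hCC0 : C ≤ C0 := hC0 ▸ le_max_left _ _
  refine ⟨min (δ / 2) (1 / 4), lt_min (by linarith) (by norm_num),
    2 * C0 * 2 ^ B + 3 * (4 * ((B : ℝ) + 1)) ^ (B + 1), ?_⟩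
  intro σ r A X q hσ hA hX hq hqX
  have hX1 : (2 : ℝ) ≤ X := by exact_mod_cast hX
  have hX0 : (0 : ℝ) < X := by linarith
  have hq1 : (1 : ℝ) ≤ q := by exact_mod_cast hq.pos
  have hq0 : (0 : ℝ) < q := by linarith
  have hlog : 0 < Real.log X := Real.log_pos (by linarith)
  have hsq : 1 < Real.sqrt X := by
    rw [Real.lt_sqrt (by norm_num)]
    linarith
  have hsq0 : 0 < Real.sqrt X := by linarith
  rw [ALN_split σ r hσ A hA X q (by omega) hq, ALN_split σ 0 hσ A hA X 1 (by omega) odd_one]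
  have hr0 : ∀ e, ALN_r 1 0 e = 0 := by
    intro e
    unfold ALN_r
    rw [zero_mul]
  simp only [hr0]
  push_cast
  rw [Finset.sum_div, ← Finset.sum_sub_distrib]
  refine le_trans (Finset.abs_sum_le_sum_abs _ _) ?_
  have hterm : ∀ e ∈ range (Nat.log 2 X + 1),
      |(E σ A (X / 2 ^ e) q (ALN_r q r e) : ℝ) - (E σ A (X / 2 ^ e) 1 0 : ℝ) / q| ≤
        C0 * 2 ^ B * (X / (q * Real.log X ^ B)) * (1 / 2) ^ e + Real.sqrt X := by
    intro e _
    have hY : ((X / 2 ^ e : ℕ) : ℝ) ≤ X / 2 ^ e := by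
      have := @Nat.cast_div_le ℝ _ _ _ X (2 ^ e)
      push_cast at this
      exact this
    obtain ⟨Y, hYdef⟩ : ∃ Y, Y = X / 2 ^ e := ⟨_, rfl⟩
    rw [← hYdef] at hY ⊢
    have hnn : 0 ≤ C0 * 2 ^ B * (X / (q * Real.log X ^ B)) * (1 / 2) ^ e := by positivity
    rcases le_or_gt (Real.sqrt X) (Y : ℝ) with hc | hc
    · have hY2 : 2 ≤ Y := by
        have : (1 : ℝ) < Y := by linarith
        have h3 : 1 < Y := by exact_mod_cast this
        omega
      have hqY : (q : ℝ) ≤ (Y : ℝ) ^ δ := by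
        calc (q : ℝ) ≤ (X : ℝ) ^ (min (δ / 2) (1 / 4)) := hqX
          _ ≤ (X : ℝ) ^ (δ / 2) :=
              Real.rpow_le_rpow_of_exponent_le (by linarith) (min_le_left _ _)
          _ = (Real.sqrt X) ^ δ := by
              rw [Real.sqrt_eq_rpow, ← Real.rpow_mul hX0.le]
              congr 1
              ring
          _ ≤ (Y : ℝ) ^ δ := Real.rpow_le_rpow hsq0.le hc hδ.le
      have h4 := hC σ (ALN_r q r e) A Y q hσ hA hY2 hq hqY
      have hY0 : (0 : ℝ) < Y := by linarith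
      have hlogY : Real.log X / 2 ≤ Real.log Y := by
        have h5 : Real.log (Real.sqrt X) ≤ Real.log Y := Real.log_le_log hsq0 hc
        rw [Real.log_sqrt hX0.le] at h5
        exact h5
      have hl2 : 0 < Real.log X / 2 := by linarith
      have h6 : C * Y / (q * Real.log Y ^ B) ≤
          C0 * 2 ^ B * (X / (q * Real.log X ^ B)) * (1 / 2) ^ e := by
        calc C * Y / (q * Real.log Y ^ B)
            ≤ C0 * (X / 2 ^ e) / (q * (Real.log X / 2) ^ B) := by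
              apply div_le_div₀
              · positivity
              · exact mul_le_mul hCC0 hY hY0.le hC00
              · positivity
              · exact mul_le_mul_of_nonneg_left (pow_le_pow_left₀ hl2.le hlogY B) hq0.le
          _ = C0 * 2 ^ B * (X / (q * Real.log X ^ B)) * (1 / 2) ^ e := by
              rw [div_pow, one_div, inv_pow]
              field_simp
      linarith
    · have h4 : (E σ A Y q (ALN_r q r e) : ℝ) ≤ Y := by exact_mod_cast ALN_E_le σ hσ A Y q _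
      have h5 : (E σ A Y 1 0 : ℝ) ≤ Y := by exact_mod_cast ALN_E_le σ hσ A Y 1 _
      have h6 : (0 : ℝ) ≤ (E σ A Y q (ALN_r q r e) : ℝ) := Nat.cast_nonneg _
      have h7 : (0 : ℝ) ≤ (E σ A Y 1 0 : ℝ) / q := by positivity
      have h8 : (E σ A Y 1 0 : ℝ) / q ≤ Y := le_trans (div_le_self (Nat.cast_nonneg _) hq1) h5
      rw [abs_le]
      constructor
      · linarith
      · linarith
  refine le_trans (Finset.sum_le_sum hterm) ?_
  rw [Finset.sum_add_distrib, ← Finset.mul_sum, Finset.sum_const, Finset.card_range,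
    nsmul_eq_mul]
  obtain ⟨Z, hZ⟩ : ∃ Z : ℝ, Z = X / (q * Real.log X ^ B) := ⟨_, rfl⟩
  have hZ0 : 0 < Z := by
    rw [hZ]
    positivity
  have hgeo : ∑ e ∈ range (Nat.log 2 X + 1), (1 / 2 : ℝ) ^ e ≤ 2 := sum_geometric_two_le _
  have hlast : ((Nat.log 2 X + 1 : ℕ) : ℝ) * Real.sqrt X ≤
      3 * (4 * ((B : ℝ) + 1)) ^ (B + 1) * Z := by
    have h3 : ((Nat.log 2 X + 1 : ℕ) : ℝ) ≤ 3 * Real.log X := by
      have h4 : (Nat.log 2 X : ℝ) * Real.log 2 ≤ Real.log X := by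
        rw [← Real.log_pow]
        apply Real.log_le_log (by positivity)
        exact_mod_cast Nat.pow_log_le_self 2 (by omega)
      have h5 : Real.log 2 ≤ Real.log X := Real.log_le_log (by norm_num) hX1
      have h6 : (0.69 : ℝ) < Real.log 2 := by
        have := Real.log_two_gt_d9
        linarith
      push_cast
      nlinarith
    have h4 : (q : ℝ) ≤ (X : ℝ) ^ (1 / 4 : ℝ) := le_trans hqX
      (Real.rpow_le_rpow_of_exponent_le (by linarith) (min_le_right _ _))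
    have h5 := ALN_log B (show (1 : ℝ) ≤ X by linarith)
    have h6 : Real.sqrt X * (X : ℝ) ^ (1 / 4 : ℝ) * (X : ℝ) ^ (1 / 4 : ℝ) = X := by
      rw [Real.sqrt_eq_rpow, ← Real.rpow_add hX0, ← Real.rpow_add hX0]
      norm_num
    rw [hZ, mul_div_assoc', le_div_iff₀ (by positivity)]
    have hp : 0 ≤ (X : ℝ) ^ (1 / 4 : ℝ) := by positivity
    calc ((Nat.log 2 X + 1 : ℕ) : ℝ) * Real.sqrt X * (q * Real.log X ^ B)
        ≤ (3 * Real.log X) * Real.sqrt X * ((X : ℝ) ^ (1 / 4 : ℝ) * Real.log X ^ B) := by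
          gcongr
      _ = 3 * Real.sqrt X * (X : ℝ) ^ (1 / 4 : ℝ) * Real.log X ^ (B + 1) := by ring
      _ ≤ 3 * Real.sqrt X * (X : ℝ) ^ (1 / 4 : ℝ) *
            ((4 * ((B : ℝ) + 1)) ^ (B + 1) * (X : ℝ) ^ (1 / 4 : ℝ)) := by
          gcongr
      _ = 3 * (4 * ((B : ℝ) + 1)) ^ (B + 1) *
            (Real.sqrt X * (X : ℝ) ^ (1 / 4 : ℝ) * (X : ℝ) ^ (1 / 4 : ℝ)) := by ring
      _ = 3 * (4 * ((B : ℝ) + 1)) ^ (B + 1) * X := by rw [h6]
  rw [← hZ]
  have h7 : C0 * 2 ^ B * Z * ∑ e ∈ range (Nat.log 2 X + 1), (1 / 2 : ℝ) ^ e ≤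
      C0 * 2 ^ B * Z * 2 := mul_le_mul_of_nonneg_left hgeo (by positivity)
  have h8 : (2 * C0 * 2 ^ B + 3 * (4 * ((B : ℝ) + 1)) ^ (B + 1)) * X /
      (q * Real.log X ^ B) =
      (2 * C0 * 2 ^ B + 3 * (4 * ((B : ℝ) + 1)) ^ (B + 1)) * Z := by
    rw [hZ]
    ring
  rw [h8]
  linarith

end Pool.Agent.SLD
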