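import Pool.Agent.SLD.StA

/-!
SLD, the module BAD: words with large constants.
-/

set_option autoImplicit false

namespace Pool.Agent.SLD

open Finset
open Pool.Agent.Collatz3 (cw)

theorem BAD_sum_W {M : Type} [AddCommMonoid M] (k s : ℕ) (f : List ℕ → M) :
    ∑ w ∈ W (k + 1) s, f w = ∑ i ∈ Icc 1 s, ∑ v ∈ W k (s - i), f (i :: v) := by
  show ∑ w ∈ (Icc 1 s).biUnion (fun i => (W k (s - i)).image (List.cons i)), f w = _
  rw [Finset.sum_biUnion]
  · refine Finset.sum_congr rfl fun i _ => ?_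
    rw [Finset.sum_image]
    intro v _ v' _ h
    exact (List.cons.inj h).2
  · intro i _ i' _ h
    rw [Function.onFun, Finset.disjoint_left]
    intro w hw hw'
    obtain ⟨v, _, rfl⟩ := Finset.mem_image.1 hw
    obtain ⟨v', _, h'⟩ := Finset.mem_image.1 hw'
    exact h (List.cons.inj h').1.symm

theorem BAD_geom (S : ℕ) : ∑ i ∈ Icc 1 S, (1 / 4 : ℝ) ^ i ≤ 1 / 3 := by
  have h : ∑ i ∈ Icc 1 S, (1 / 4 : ℝ) ^ i = (1 - (1 / 4) ^ S) / 3 := by
    induction S with
    | zero => simp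
    | succ S ih =>
      rw [Finset.sum_Icc_succ_top (by omega), ih, pow_succ]
      ring
  rw [h]
  have : (0 : ℝ) < (1 / 4) ^ S := by positivity
  linarith

theorem BAD_conv (B : ℕ → ℝ) (hB : ∀ s, 0 ≤ B s) (b : ℝ) (S : ℕ)
    (hb : ∑ s ∈ range S, B s ≤ b) :
    ∑ s ∈ range S, ∑ i ∈ Icc 1 s, (1 / 4 : ℝ) ^ i * B (s - i) ≤ b / 3 := by
  have h1 : ∑ s ∈ range S, ∑ i ∈ Icc 1 s, (1 / 4 : ℝ) ^ i * B (s - i) =
      ∑ i ∈ Icc 1 S, ∑ s ∈ Ico i S, (1 / 4 : ℝ) ^ i * B (s - i) := by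
    apply Finset.sum_comm'
    intro s i
    simp only [Finset.mem_range, Finset.mem_Icc, Finset.mem_Ico]
    omega
  have hb0 : 0 ≤ b := le_trans (Finset.sum_nonneg fun s _ => hB s) hb
  rw [h1]
  calc ∑ i ∈ Icc 1 S, ∑ s ∈ Ico i S, (1 / 4 : ℝ) ^ i * B (s - i)
      ≤ ∑ i ∈ Icc 1 S, (1 / 4 : ℝ) ^ i * b := by
        refine Finset.sum_le_sum fun i _ => ?_
        rw [← Finset.mul_sum]
        apply mul_le_mul_of_nonneg_left _ (by positivity)
        rw [Finset.sum_Ico_eq_sum_range]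
        refine le_trans ?_ hb
        have h2 : ∑ j ∈ range (S - i), B (i + j - i) = ∑ j ∈ range (S - i), B j := by
          refine Finset.sum_congr rfl fun j _ => ?_
          rw [Nat.add_sub_cancel_left]
        rw [h2]
        apply Finset.sum_le_sum_of_subset_of_nonneg
        · exact Finset.range_subset_range.2 (Nat.sub_le _ _)
        · intro j _ _
          exact hB j
    _ = (∑ i ∈ Icc 1 S, (1 / 4 : ℝ) ^ i) * b := by rw [Finset.sum_mul]
    _ ≤ 1 / 3 * b := mul_le_mul_of_nonneg_right (BAD_geom S) hb0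
    _ = b / 3 := by ring

theorem BAD_mean (h1 : St_WRD) (k : ℕ) : ∀ S : ℕ,
    ∑ s ∈ range S, ∑ w ∈ W k s, (cw w : ℝ) / 4 ^ s ≤ (k : ℝ) / 3 := by
  induction k with
  | zero =>
    intro S
    have : ∀ s ∈ range S, ∑ w ∈ W 0 s, (cw w : ℝ) / 4 ^ s = 0 := by
      intro s _
      show ∑ w ∈ (if s = 0 then {[]} else ∅ : Finset (List ℕ)), (cw w : ℝ) / 4 ^ s = 0
      by_cases hs : s = 0
      · rw [if_pos hs, Finset.sum_singleton]
        simp [cw]
      · rw [if_neg hs, Finset.sum_empty]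
    rw [Finset.sum_congr rfl this]
    simp
  | succ k ih =>
    intro S
    have key : ∀ s, ∑ w ∈ W (k + 1) s, (cw w : ℝ) / 4 ^ s =
        ∑ i ∈ Icc 1 s, (1 / 4 : ℝ) ^ i *
          (3 * (∑ v ∈ W k (s - i), (cw v : ℝ) / 4 ^ (s - i)) + p k (s - i)) := by
      intro s
      rw [BAD_sum_W]
      refine Finset.sum_congr rfl fun i hi => ?_
      obtain ⟨_, hi2⟩ := Finset.mem_Icc.1 hi
      have hs : (4 : ℝ) ^ s = 4 ^ i * 4 ^ (s - i) := by
        rw [← pow_add]
        congr 1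
        omega
      have hv : ∀ v ∈ W k (s - i), ((cw (i :: v) : ℕ) : ℝ) / 4 ^ s =
          (1 / 4 : ℝ) ^ i * (3 * ((cw v : ℝ) / 4 ^ (s - i)) + 1 / 2 ^ (s - i)) := by
        intro v hv
        have hsum : v.sum = s - i := ((h1.1 k (s - i) v).1 hv).2.2
        have hcw : cw (i :: v) = 3 * cw v + 2 ^ v.sum := rfl
        rw [hcw, hsum, hs]
        push_cast
        have h4 : (4 : ℝ) ^ (s - i) = 2 ^ (s - i) * 2 ^ (s - i) := by
          rw [← mul_pow]
          norm_num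
        rw [h4, one_div, inv_pow]
        have : (2 : ℝ) ^ (s - i) ≠ 0 := by positivity
        field_simp
      rw [Finset.sum_congr rfl hv, ← Finset.mul_sum, Finset.sum_add_distrib, ← Finset.mul_sum,
        Finset.sum_const, nsmul_eq_mul]
      unfold p
      ring
    rw [Finset.sum_congr rfl fun s _ => key s]
    refine le_trans (BAD_conv
      (fun s => 3 * (∑ v ∈ W k s, (cw v : ℝ) / 4 ^ s) + p k s) ?_ ((k : ℝ) + 1) S ?_) ?_
    · intro s
      have h2 : 0 ≤ ∑ v ∈ W k s, (cw v : ℝ) / 4 ^ s := Finset.sum_nonneg fun v _ => by positivity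
      have h3 : 0 ≤ p k s := by
        unfold p
        positivity
      positivity
    · rw [Finset.sum_add_distrib, ← Finset.mul_sum]
      have h2 := ih S
      have h3 := h1.2.1 k S
      linarith
    · push_cast
      exact le_rfl

/-- Markov bound for the constants of the words. -/
theorem thm_BAD (h1 : St_WRD) : St_BAD := by
  intro k K S hK
  have hK0 : (0 : ℝ) < K := by exact_mod_cast hK
  have h2 : ∑ s ∈ range S, (#{w ∈ W k s | K * 2 ^ s ≤ cw w} : ℝ) / 2 ^ s ≤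
      ∑ s ∈ range S, (∑ w ∈ W k s, (cw w : ℝ) / 4 ^ s) / K := by
    refine Finset.sum_le_sum fun s _ => ?_
    have h3 : (#{w ∈ W k s | K * 2 ^ s ≤ cw w} : ℝ) / 2 ^ s =
        ∑ w ∈ W k s with K * 2 ^ s ≤ cw w, (1 : ℝ) / 2 ^ s := by
      rw [Finset.sum_const, nsmul_eq_mul]
      ring
    rw [h3, Finset.sum_div]
    refine le_trans (Finset.sum_le_sum (g := fun w => (cw w : ℝ) / 4 ^ s / K) ?_)
      (Finset.sum_le_sum_of_subset_of_nonneg (Finset.filter_subset _ _) fun w _ _ => by positivity)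
    intro w hw
    have h4 : ((K * 2 ^ s : ℕ) : ℝ) ≤ (cw w : ℝ) := by
      exact_mod_cast (Finset.mem_filter.1 hw).2
    push_cast at h4
    have h5 : (4 : ℝ) ^ s = 2 ^ s * 2 ^ s := by
      rw [← mul_pow]
      norm_num
    have h6 : (0 : ℝ) < 2 ^ s := by positivity
    rw [h5, div_div, div_le_div_iff₀ h6 (by positivity)]
    calc (1 : ℝ) * (2 ^ s * 2 ^ s * K) = (K * 2 ^ s) * 2 ^ s := by ring
      _ ≤ (cw w : ℝ) * 2 ^ s := mul_le_mul_of_nonneg_right h4 h6.le
  refine le_trans h2 ?_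
  rw [← Finset.sum_div]
  apply div_le_div_of_nonneg_right _ hK0.le
  refine le_trans (BAD_mean h1 k S) ?_
  have : (0 : ℝ) ≤ k := Nat.cast_nonneg k
  linarith

end Pool.Agent.SLD
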