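import Pool.Agent.SLD.StA
import Pool.Agent.Collatz3.VBasic

/-!
SLD, module BL1 (helper25): one block, one sum.
-/

set_option autoImplicit false

namespace Pool.Agent.SLD

open Finset
open Pool.Agent.Collatz3 (cw)

lemma BL1_hf (Q : ℕ) (hQ : Odd Q) : (2 : ZMod Q) * hf Q = 1 := by
  obtain ⟨m, rfl⟩ := hQ
  unfold hf
  have h1 : (2 * m + 1 + 1) / 2 = m + 1 := by omega
  rw [h1]
  have h2 : ((2 * m + 1 : ℕ) : ZMod (2 * m + 1)) = 0 := ZMod.natCast_self _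
  push_cast at h2 ⊢
  linear_combination h2

lemma BL1_unit (Q : ℕ) (hQ : Odd Q) (s : ℕ) (x : ZMod Q) (h : hf Q ^ s * x = 0) : x = 0 := by
  have h1 : (2 : ZMod Q) ^ s * hf Q ^ s = 1 := by rw [← mul_pow, BL1_hf Q hQ, one_pow]
  calc x = ((2 : ZMod Q) ^ s * hf Q ^ s) * x := by rw [h1, one_mul]
    _ = 2 ^ s * (hf Q ^ s * x) := by ring
    _ = 0 := by rw [h, mul_zero]

lemma BL1_norm (Q : ℕ) [NeZero Q] (x : ZMod Q) : ‖(ZMod.stdAddChar x : ℂ)‖ = 1 :=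
  AddChar.norm_apply _ _

theorem thm_BL1 (h1 : St_CHG) (h2 : St_DIS) (h3 : St_WRD) : St_BL1 := by
  intro Q _ hQ h k J s t hk hR hRM hD hΩ
  obtain ⟨hW, -, -, -⟩ := h3
  set Ω : Finset (List ℕ) := {w ∈ W k s | cw w < k ^ 2 * 2 ^ s} with hΩdef
  set Ω' : Finset (List ℕ) := {w ∈ W k s | k ^ 2 * 2 ^ s ≤ cw w} with hΩ'def
  have hk0 : (0 : ℝ) < k := by exact_mod_cast hk
  have h2s : (0 : ℝ) < 2 ^ s := by positivity
  have hcard : 0 < #Ω := by
    rcases Nat.eq_zero_or_pos (#Ω) with h0 | h0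
    · rw [h0, Nat.cast_zero, zero_div] at hΩ
      have : 0 < 1 / (k : ℝ) ^ 3 := by positivity
      linarith
    · exact h0
  have hcardR : (0 : ℝ) < #Ω := by exact_mod_cast hcard
  have hinj : Set.InjOn cw (Ω : Set (List ℕ)) := by
    intro v hv w hw hvw
    have hv1 := (hW _ _ _).1 (mem_filter.1 (mem_coe.1 hv)).1
    have hw1 := (hW _ _ _).1 (mem_filter.1 (mem_coe.1 hw)).1
    exact Pool.Agent.Collatz3.Mix.cw_inj hv1.1 hw1.1 hv1.2.1 hw1.2.1 (hv1.2.2.trans hw1.2.2.symm)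
      hvw
  have hR0 : ∀ a : ZMod Q, ((addOrderOf h : ℕ) : ZMod Q) * (a * h) = 0 := by
    intro a
    have e : ((addOrderOf h : ℕ) : ZMod Q) * h = 0 := by
      rw [← nsmul_eq_mul]
      exact addOrderOf_nsmul_eq_zero h
    calc ((addOrderOf h : ℕ) : ZMod Q) * (a * h) = a * (((addOrderOf h : ℕ) : ZMod Q) * h) := by
          ring
      _ = 0 := by rw [e, mul_zero]
  have key := h1 Q (List ℕ) Ω cw (k ^ 2 * 2 ^ s) (addOrderOf h) J
    (fun j => hf Q ^ s * (3 ^ (j : ℕ) * hf Q ^ t j * h)) (card_pos.1 hcard) hinj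
    (fun w hw => (mem_filter.1 hw).2) hR
    (fun j => by
      have := hR0 (hf Q ^ s * (3 ^ (j : ℕ) * hf Q ^ t j))
      rwa [mul_assoc (hf Q ^ s)] at this)
    hRM
    (fun ε hε hne h0 => by
      refine h2 Q hQ h J t ε hD hε hne (BL1_unit Q hQ s _ ?_)
      rw [mul_sum, ← h0]
      exact sum_congr rfl fun j _ => by ring)
  refine ⟨fun j => ‖∑ w ∈ Ω, ZMod.stdAddChar
    (hf Q ^ s * (3 ^ (j : ℕ) * hf Q ^ t j * h) * (cw w : ZMod Q))‖ / #Ω, fun j => by positivity,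
    key.trans ?_, fun j => ?_⟩
  · refine mul_le_mul_of_nonneg_left (Real.log_le_log ?_ ?_) (by norm_num)
    · push_cast
      positivity
    · rw [div_le_div_iff₀ (by positivity) h2s] at hΩ
      rw [div_le_iff₀ hcardR]
      push_cast
      have h4 : (k : ℝ) ^ 2 * 2 ^ s ≤ (k : ℝ) ^ 5 * #Ω := by
        calc (k : ℝ) ^ 2 * 2 ^ s = (k : ℝ) ^ 2 * (1 * 2 ^ s) := by ring
          _ ≤ (k : ℝ) ^ 2 * (#Ω * (k : ℝ) ^ 3) := mul_le_mul_of_nonneg_left hΩ (by positivity)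
          _ = (k : ℝ) ^ 5 * #Ω := by ring
      linarith
  · have h4 : ∑ w ∈ W k s, ZMod.stdAddChar ((3 : ZMod Q) ^ (j : ℕ) * hf Q ^ t j * h * X Q w) =
        ∑ w ∈ W k s, ZMod.stdAddChar
          (hf Q ^ s * (3 ^ (j : ℕ) * hf Q ^ t j * h) * (cw w : ZMod Q)) := by
      refine sum_congr rfl fun w hw => ?_
      congr 1
      unfold X
      rw [((hW _ _ _).1 hw).2.2]
      ring
    have h5 : ∑ w ∈ W k s, ZMod.stdAddChar
          (hf Q ^ s * (3 ^ (j : ℕ) * hf Q ^ t j * h) * (cw w : ZMod Q)) =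
        (∑ w ∈ Ω, ZMod.stdAddChar
          (hf Q ^ s * (3 ^ (j : ℕ) * hf Q ^ t j * h) * (cw w : ZMod Q))) +
        ∑ w ∈ Ω', ZMod.stdAddChar
          (hf Q ^ s * (3 ^ (j : ℕ) * hf Q ^ t j * h) * (cw w : ZMod Q)) := by
      rw [← sum_filter_add_sum_filter_not (W k s) (fun w => cw w < k ^ 2 * 2 ^ s)]
      congr 1
      refine sum_congr ?_ fun _ _ => rfl
      exact filter_congr fun w _ => not_lt
    have h6 : ‖∑ w ∈ Ω', ZMod.stdAddChar
          (hf Q ^ s * (3 ^ (j : ℕ) * hf Q ^ t j * h) * (cw w : ZMod Q))‖ ≤ #Ω' := by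
      refine (norm_sum_le _ _).trans ?_
      rw [sum_congr rfl fun w _ => BL1_norm Q _, sum_const, nsmul_eq_mul, mul_one]
    unfold F
    rw [h4, h5, norm_div]
    have h7 : ‖(2 : ℂ) ^ s‖ = 2 ^ s := by
      rw [norm_pow]
      norm_num
    rw [h7]
    have h8 := norm_add_le (∑ w ∈ Ω, ZMod.stdAddChar
          (hf Q ^ s * (3 ^ (j : ℕ) * hf Q ^ t j * h) * (cw w : ZMod Q)))
        (∑ w ∈ Ω', ZMod.stdAddChar
          (hf Q ^ s * (3 ^ (j : ℕ) * hf Q ^ t j * h) * (cw w : ZMod Q)))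
    calc _ ≤ (‖∑ w ∈ Ω, ZMod.stdAddChar
          (hf Q ^ s * (3 ^ (j : ℕ) * hf Q ^ t j * h) * (cw w : ZMod Q))‖ + #Ω') / 2 ^ s :=
          div_le_div_of_nonneg_right (h8.trans (by linarith)) h2s.le
      _ = _ := by
          field_simp

end Pool.Agent.SLD
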