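import Pool.Agent.SLD.StA

/-!
SLD, module BLK: one block
-/

set_option autoImplicit false

namespace Pool.Agent.SLD

open Finset
open Pool.Agent.Collatz3 (cw)

private theorem BLK_div (k s K : ℕ) :
    p k s = (#{w ∈ W k s | cw w < K * 2 ^ s} : ℝ) / 2 ^ s +
      (#{w ∈ W k s | K * 2 ^ s ≤ cw w} : ℝ) / 2 ^ s := by
  unfold p
  rw [← add_div]
  congr 1
  have h := Finset.card_filter_add_card_filter_not (s := W k s) (fun w => cw w < K * 2 ^ s)
  simp only [not_lt] at h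
  exact_mod_cast h.symm

private theorem BLK_union (f : ℕ → ℝ) (hf : ∀ s, 0 ≤ f s) (A B : Finset ℕ) :
    ∑ s ∈ A ∪ B, f s ≤ ∑ s ∈ A, f s + ∑ s ∈ B, f s := by
  have h1 := Finset.sum_union_inter (s₁ := A) (s₂ := B) (f := f)
  have h2 : 0 ≤ ∑ s ∈ A ∩ B, f s := Finset.sum_nonneg fun s _ => hf s
  linarith

theorem thm_BLK (hWRD : St_WRD) (hBAD : St_BAD) (hCMP : St_CMP) (hBL1 : St_BL1) : St_BLK := by
  intro Q _ hQ h k J smin T al ν hk hJ hord hdis hν1 hν2
  obtain ⟨-, hp1, -, -⟩ := hWRD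
  obtain ⟨-, -, -, hF, -, -⟩ := hCMP Q hQ
  have hk0 : (0 : ℝ) < k := by exact_mod_cast hk
  have hk1 : (1 : ℝ) ≤ k := by exact_mod_cast hk
  have hJ0 : (0 : ℝ) < J := by exact_mod_cast hJ
  have hp0 : ∀ s, 0 ≤ p k s := fun s => by unfold p; positivity
  have hν0 : 0 ≤ ν := (Finset.sum_nonneg fun s _ => hp0 s).trans hν1
  obtain ⟨L, hL⟩ : ∃ L, L = Real.log (2 * (k : ℝ) ^ 5) := ⟨_, rfl⟩
  have hL0 : 0 ≤ L := by
    rw [hL]
    apply Real.log_nonneg
    have : (1 : ℝ) ≤ (k : ℝ) ^ 5 := one_le_pow₀ hk1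
    linarith
  rw [← hL]
  by_contra hcon
  push Not at hcon
  -- the bad values of `t`
  have hcon' : ∀ j : Fin J, ∃ t, al t ∧ ∃ S : ℕ, Real.sqrt (4 * L / J) + 2 * (2 * ν + 5 / k) <
      ∑ s ∈ range S, ‖F Q k s (3 ^ (j : ℕ) * hf Q ^ t * h)‖ := fun j => hcon j j.2
  choose t ht S' hS' using hcon'
  obtain ⟨S, hS⟩ : ∃ S, S = ∑ j, S' j := ⟨_, rfl⟩
  have hSj : ∀ j : Fin J, Real.sqrt (4 * L / J) + 2 * (2 * ν + 5 / k) <
      ∑ s ∈ range S, ‖F Q k s (3 ^ (j : ℕ) * hf Q ^ t j * h)‖ := by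
    intro j
    refine (hS' j).trans_le (Finset.sum_le_sum_of_subset_of_nonneg ?_ fun _ _ _ => norm_nonneg _)
    refine Finset.range_mono ?_
    rw [hS]
    exact Finset.single_le_sum (f := S') (fun _ _ => Nat.zero_le _) (Finset.mem_univ j)
  -- the parts of the sums
  obtain ⟨y, hy⟩ : ∃ y : ℕ → ℝ, ∀ s, y s = (#{w ∈ W k s | cw w < k ^ 2 * 2 ^ s} : ℝ) / 2 ^ s :=
    ⟨_, fun _ => rfl⟩
  obtain ⟨bad, hbad⟩ : ∃ bad : ℕ → ℝ, ∀ s, bad s =
      (#{w ∈ W k s | k ^ 2 * 2 ^ s ≤ cw w} : ℝ) / 2 ^ s := ⟨_, fun _ => rfl⟩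
  have hpy : ∀ s, p k s = y s + bad s := fun s => by
    rw [hy, hbad]
    exact BLK_div k s (k ^ 2)
  have hy0 : ∀ s, 0 ≤ y s := fun s => by rw [hy]; positivity
  have hbad0 : ∀ s, 0 ≤ bad s := fun s => by rw [hbad]; positivity
  have hbadsum : ∑ s ∈ range (21 * k / 10 + 1), bad s ≤ 1 / k := by
    have h1 := hBAD k (k ^ 2) (21 * k / 10 + 1) (Nat.one_le_pow _ _ hk)
    simp only [← hbad] at h1
    refine h1.trans (le_of_eq ?_)
    push_cast
    field_simp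
  have hone : ∀ s, smin ≤ s → ∃ r : Fin J → ℝ, (∀ j, 0 ≤ r j) ∧ ∑ j, r j ^ 2 ≤ 2 * L ∧
      ∀ j : Fin J, ‖F Q k s (3 ^ (j : ℕ) * hf Q ^ t j * h)‖ ≤
        y s * r j + bad s + 1 / (k : ℝ) ^ 3 := by
    intro s hs
    by_cases h1 : 1 / (k : ℝ) ^ 3 ≤ y s
    · have hord0 : 0 < addOrderOf h := addOrderOf_pos h
      obtain ⟨r, hr0, hr1, hr2⟩ := hBL1 Q hQ h k J s t hk hord0
        (hord.trans (Nat.mul_le_mul_left _ (Nat.pow_le_pow_right (by norm_num) hs))) (by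
          rcases hdis with h2 | ⟨h2, h3⟩
          · exact Or.inl h2
          · exact Or.inr ⟨T, fun j => h2 _ (ht j), h3⟩) (by rw [← hy]; exact h1)
      rw [← hy, ← hbad] at hr2
      refine ⟨r, hr0, by rw [hL]; exact hr1, fun j => (hr2 j).trans ?_⟩
      have : 0 ≤ 1 / (k : ℝ) ^ 3 := by positivity
      linarith
    · refine ⟨fun _ => 0, fun _ => le_rfl, ?_, fun j => ?_⟩
      · simp
        linarith
      · refine (hF k s _).trans ?_
        rw [hpy, mul_zero, zero_add]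
        push Not at h1
        linarith
  choose! r hr0 hr1 hr2 using hone
  obtain ⟨B, hB⟩ : ∃ B, B = Ico smin (21 * k / 10 + 1) := ⟨_, rfl⟩
  have hBmem : ∀ s ∈ B, smin ≤ s ∧ s < 21 * k / 10 + 1 := fun s hs => by
    rw [hB] at hs
    exact Finset.mem_Ico.1 hs
  have hsum : ∀ j : Fin J, ∑ s ∈ range S, ‖F Q k s (3 ^ (j : ℕ) * hf Q ^ t j * h)‖ ≤
      ∑ s ∈ B, y s * r s j + (2 * ν + 5 / k) := by
    intro j
    obtain ⟨f, hf'⟩ : ∃ f : ℕ → ℝ, ∀ s, f s = ‖F Q k s (3 ^ (j : ℕ) * hf Q ^ t j * h)‖ :=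
      ⟨_, fun _ => rfl⟩
    have hf0 : ∀ s, 0 ≤ f s := fun s => by rw [hf']; exact norm_nonneg _
    have hfp : ∀ s, f s ≤ p k s := fun s => by rw [hf']; exact hF k s _
    simp only [← hf']
    have hcov : ∑ s ∈ range S, f s ≤ ∑ s ∈ range smin, f s + ∑ s ∈ B, f s +
        ∑ s ∈ Ico (21 * k / 10 + 1) S, f s := by
      have h1 : range S ⊆ range smin ∪ B ∪ Ico (21 * k / 10 + 1) S := by
        intro s hs
        rw [Finset.mem_range] at hs
        rw [Finset.mem_union, Finset.mem_union, Finset.mem_range, Finset.mem_Ico, hB,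
          Finset.mem_Ico]
        omega
      refine (Finset.sum_le_sum_of_subset_of_nonneg h1 fun s _ _ => hf0 s).trans ?_
      refine (BLK_union f hf0 _ _).trans ?_
      have h2 := BLK_union f hf0 (range smin) B
      linarith
    have e1 : ∑ s ∈ range smin, f s ≤ ν := (Finset.sum_le_sum fun s _ => hfp s).trans hν1
    have e2 : ∑ s ∈ Ico (21 * k / 10 + 1) S, f s ≤ ν :=
      (Finset.sum_le_sum fun s _ => hfp s).trans (hν2 S)
    have e3 : ∑ s ∈ B, f s ≤ ∑ s ∈ B, y s * r s j + 1 / k + 4 / k := by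
      have h1 : ∑ s ∈ B, f s ≤ ∑ s ∈ B, (y s * r s j + bad s + 1 / (k : ℝ) ^ 3) :=
        Finset.sum_le_sum fun s hs => by
          rw [hf']
          exact hr2 s (hBmem s hs).1 j
      rw [Finset.sum_add_distrib, Finset.sum_add_distrib, Finset.sum_const, nsmul_eq_mul] at h1
      have h2 : ∑ s ∈ B, bad s ≤ 1 / k := by
        refine le_trans (Finset.sum_le_sum_of_subset_of_nonneg ?_ fun s _ _ => hbad0 s) hbadsum
        intro s hs
        rw [Finset.mem_range]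
        exact (hBmem s hs).2
      have h3 : (#B : ℝ) ≤ 4 * k := by
        have h4 : #B ≤ 4 * k := by
          rw [hB, Nat.card_Ico]
          omega
        exact_mod_cast h4
      have h4 : (#B : ℝ) * (1 / (k : ℝ) ^ 3) ≤ 4 / k := by
        calc (#B : ℝ) * (1 / (k : ℝ) ^ 3) ≤ 4 * k * (1 / (k : ℝ) ^ 3) :=
              mul_le_mul_of_nonneg_right h3 (by positivity)
          _ = 4 / (k : ℝ) ^ 2 := by field_simp
          _ ≤ 4 / k := by
              apply div_le_div_of_nonneg_left (by norm_num) hk0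
              nlinarith
      linarith
    have e4 : (5 : ℝ) / k = 1 / k + 4 / k := by ring
    linarith
  -- Cauchy-Schwarz
  have hCS : ∀ j : Fin J, (∑ s ∈ B, y s * r s j) ^ 2 ≤ ∑ s ∈ B, y s * r s j ^ 2 := by
    intro j
    have h1 := Finset.sum_mul_sq_le_sq_mul_sq B (fun s => Real.sqrt (y s))
      (fun s => Real.sqrt (y s) * r s j)
    have h2 : ∀ s, Real.sqrt (y s) * (Real.sqrt (y s) * r s j) = y s * r s j := fun s => by
      rw [← mul_assoc, Real.mul_self_sqrt (hy0 s)]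
    have h3 : ∀ s, (Real.sqrt (y s) * r s j) ^ 2 = y s * r s j ^ 2 := fun s => by
      rw [mul_pow, Real.sq_sqrt (hy0 s)]
    have h4 : ∀ s, Real.sqrt (y s) ^ 2 = y s := fun s => Real.sq_sqrt (hy0 s)
    simp only [h2, h3, h4] at h1
    have h5 : ∑ s ∈ B, y s ≤ 1 := by
      refine le_trans ?_ (hp1 k (21 * k / 10 + 1))
      refine le_trans (Finset.sum_le_sum_of_subset_of_nonneg (t := range (21 * k / 10 + 1)) ?_
        fun s _ _ => hy0 s) (Finset.sum_le_sum fun s _ => ?_)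
      · intro s hs
        rw [Finset.mem_range]
        exact (hBmem s hs).2
      · rw [hpy]
        have := hbad0 s
        linarith
    have h6 : 0 ≤ ∑ s ∈ B, y s * r s j ^ 2 :=
      Finset.sum_nonneg fun s _ => mul_nonneg (hy0 s) (sq_nonneg _)
    calc (∑ s ∈ B, y s * r s j) ^ 2 ≤ (∑ s ∈ B, y s) * ∑ s ∈ B, y s * r s j ^ 2 := h1
      _ ≤ 1 * ∑ s ∈ B, y s * r s j ^ 2 := mul_le_mul_of_nonneg_right h5 h6
      _ = _ := one_mul _
  have hyB : ∑ s ∈ B, y s ≤ 1 := by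
    refine le_trans ?_ (hp1 k (21 * k / 10 + 1))
    refine le_trans (Finset.sum_le_sum_of_subset_of_nonneg (t := range (21 * k / 10 + 1)) ?_
      fun s _ _ => hy0 s) (Finset.sum_le_sum fun s _ => ?_)
    · intro s hs
      rw [Finset.mem_range]
      exact (hBmem s hs).2
    · rw [hpy]
      have := hbad0 s
      linarith
  have htot : ∑ j : Fin J, (∑ s ∈ B, y s * r s j) ^ 2 ≤ 2 * L := by
    refine (Finset.sum_le_sum fun j _ => hCS j).trans ?_
    rw [Finset.sum_comm]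
    calc ∑ s ∈ B, ∑ j, y s * r s j ^ 2 ≤ ∑ s ∈ B, y s * (2 * L) := by
          refine Finset.sum_le_sum fun s hs => ?_
          rw [← Finset.mul_sum]
          exact mul_le_mul_of_nonneg_left (hr1 s (hBmem s hs).1) (hy0 s)
      _ = (∑ s ∈ B, y s) * (2 * L) := by rw [Finset.sum_mul]
      _ ≤ 1 * (2 * L) := mul_le_mul_of_nonneg_right hyB (by linarith)
      _ = 2 * L := one_mul _
  -- some `j` is good
  have hsq : 0 ≤ Real.sqrt (4 * L / J) := Real.sqrt_nonneg _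
  have hnn : 0 ≤ 2 * ν + 5 / (k : ℝ) := by positivity
  have hlow : ∀ j : Fin J, 4 * L / J < (∑ s ∈ B, y s * r s j) ^ 2 := by
    intro j
    have h1 := hSj j
    have h2 := hsum j
    have h3 : Real.sqrt (4 * L / J) < ∑ s ∈ B, y s * r s j := by linarith
    have h4 : 0 ≤ 4 * L / J := by positivity
    calc 4 * L / J = Real.sqrt (4 * L / J) ^ 2 := (Real.sq_sqrt h4).symm
      _ < (∑ s ∈ B, y s * r s j) ^ 2 := pow_lt_pow_left₀ h3 hsq two_ne_zero
  have hne : (Finset.univ : Finset (Fin J)).Nonempty := ⟨⟨0, hJ⟩, Finset.mem_univ _⟩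
  have h1 : ∑ _j : Fin J, 4 * L / J < ∑ j : Fin J, (∑ s ∈ B, y s * r s j) ^ 2 :=
    Finset.sum_lt_sum_of_nonempty hne fun j _ => hlow j
  rw [Finset.sum_const, card_univ, Fintype.card_fin, nsmul_eq_mul] at h1
  have h2 : (J : ℝ) * (4 * L / J) = 4 * L := by field_simp
  rw [h2] at h1
  linarith

end Pool.Agent.SLD
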