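import Pool.Agent.SLD.StA

/-!
SLD, module CHG: Chang's inequality
-/

set_option autoImplicit false

namespace Pool.Agent.SLD

open Finset

private theorem CHG_exp (a y : ℝ) (hy : |y| ≤ 1) :
    Real.exp (a * y) ≤ Real.cosh a + y * Real.sinh a := by
  obtain ⟨h1, h2⟩ := abs_le.1 hy
  have h := convexOn_exp.2 (Set.mem_univ a) (Set.mem_univ (-a))
    (show (0 : ℝ) ≤ (1 + y) / 2 by linarith) (show (0 : ℝ) ≤ (1 - y) / 2 by linarith) (by ring)
  rw [smul_eq_mul, smul_eq_mul, smul_eq_mul, smul_eq_mul] at h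
  have e1 : (1 + y) / 2 * a + (1 - y) / 2 * -a = a * y := by ring
  rw [e1] at h
  rw [Real.cosh_eq, Real.sinh_eq]
  linarith

private theorem CHG_geo (ζ : ℂ) (R M : ℕ) (hR : 0 < R) (h1 : ζ ^ R = 1) (h2 : ζ ≠ 1)
    (h3 : ‖ζ‖ = 1) : ‖∑ c ∈ range M, ζ ^ c‖ ≤ R := by
  have h4 : ∑ c ∈ range M, ζ ^ c = ∑ c ∈ range (M % R), ζ ^ c := by
    rw [geom_sum_eq h2, geom_sum_eq h2, pow_eq_pow_mod M h1]
  rw [h4]
  refine (norm_sum_le _ _).trans ?_
  have h5 : ∑ c ∈ range (M % R), ‖ζ ^ c‖ = ((M % R : ℕ) : ℝ) := by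
    rw [Finset.sum_congr rfl fun c _ => by rw [norm_pow, h3, one_pow], sum_const, card_range,
      nsmul_eq_mul, mul_one]
  rw [h5]
  exact_mod_cast (Nat.mod_lt M hR).le

/-- the coefficients of the Riesz product -/
private noncomputable def CHG_co (a : ℝ) (z : ℂ) (e : ℤ) : ℂ :=
  if e = 0 then (Real.cosh a : ℂ) else
    if e = 1 then (Real.sinh a / 2 : ℝ) * z else (Real.sinh a / 2 : ℝ) * (starRingEnd ℂ) z

private theorem CHG_norm (a : ℝ) (ha : 0 ≤ a) (z : ℂ) (hz : ‖z‖ = 1) :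
    ∑ e ∈ ({0, 1, -1} : Finset ℤ), ‖CHG_co a z e‖ = Real.exp a := by
  have hs : 0 ≤ Real.sinh a / 2 := by
    have := Real.sinh_nonneg_iff.2 ha
    linarith
  have h0 : ‖CHG_co a z 0‖ = Real.cosh a := by
    unfold CHG_co
    rw [if_pos rfl, Complex.norm_real, Real.norm_of_nonneg (Real.cosh_pos a).le]
  have h1 : ‖CHG_co a z 1‖ = Real.sinh a / 2 := by
    unfold CHG_co
    rw [if_neg (by decide), if_pos rfl, norm_mul, Complex.norm_real, Real.norm_of_nonneg hs, hz,
      mul_one]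
  have h2 : ‖CHG_co a z (-1)‖ = Real.sinh a / 2 := by
    unfold CHG_co
    rw [if_neg (by decide), if_neg (by decide), norm_mul, Complex.norm_real,
      Real.norm_of_nonneg hs, RCLike.norm_conj, hz, mul_one]
  rw [sum_insert (by decide), sum_insert (by decide), sum_singleton, h0, h1, h2,
    ← Real.cosh_add_sinh a]
  ring

private theorem CHG_split (a : ℝ) (z x : ℂ) (hx : ‖x‖ = 1) :
    (((Real.cosh a + (z * x).re * Real.sinh a : ℝ)) : ℂ) =
      ∑ e ∈ ({0, 1, -1} : Finset ℤ), CHG_co a z e * x ^ e := by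
  have h1 : x⁻¹ = (starRingEnd ℂ) x := by
    rw [Complex.inv_def, Complex.normSq_eq_norm_sq, hx]
    simp
  rw [sum_insert (by decide), sum_insert (by decide), sum_singleton]
  unfold CHG_co
  rw [if_pos rfl, if_neg (by decide : (1 : ℤ) ≠ 0), if_pos rfl, if_neg (by decide : (-1 : ℤ) ≠ 0),
    if_neg (by decide : (-1 : ℤ) ≠ 1), zpow_zero, zpow_one, zpow_neg_one, h1]
  have h2 : (((z * x).re : ℝ) : ℂ) = (z * x + (starRingEnd ℂ) (z * x)) / 2 := by
    rw [Complex.re_eq_add_conj]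
  push_cast
  rw [h2, map_mul]
  ring

private theorem CHG_sum {Q : ℕ} [NeZero Q] {J : ℕ} (g : Fin J → ZMod Q) :
    ∏ j, (ZMod.stdAddChar (g j) : ℂ) = ZMod.stdAddChar (∑ j, g j) := by
  have h : ∀ s : Finset (Fin J), ∏ j ∈ s, (ZMod.stdAddChar (g j) : ℂ) =
      ZMod.stdAddChar (∑ j ∈ s, g j) := by
    intro s
    induction s using Finset.induction_on with
    | empty => rw [Finset.prod_empty, Finset.sum_empty, AddChar.map_zero_eq_one]
    | insert a s ha ih =>
      rw [Finset.prod_insert ha, Finset.sum_insert ha, AddChar.map_add_eq_mul, ih]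
  exact h Finset.univ

theorem thm_CHG : St_CHG := by
  intro Q _ ι Ω c M R J h hΩ hinj hM hR hRh hRM hdis
  have hΩ0 : (0 : ℝ) < #Ω := by exact_mod_cast hΩ.card_pos
  obtain ⟨S, hS⟩ : ∃ S : Fin J → ℂ, ∀ j, S j = ∑ w ∈ Ω, ZMod.stdAddChar (h j * (c w : ZMod Q)) :=
    ⟨_, fun _ => rfl⟩
  obtain ⟨r, hr⟩ : ∃ r : Fin J → ℝ, ∀ j, r j = ‖S j‖ / #Ω := ⟨_, fun _ => rfl⟩
  have hψ : ∀ x : ZMod Q, ‖ZMod.stdAddChar x‖ = 1 := fun x => AddChar.norm_apply _ x
  have hr0 : ∀ j, 0 ≤ r j := fun j => by rw [hr]; positivity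
  have hr1 : ∀ j, r j ≤ 1 := by
    intro j
    rw [hr, div_le_one hΩ0, hS]
    refine (norm_sum_le _ _).trans ?_
    rw [Finset.sum_congr rfl fun w _ => hψ _, sum_const, nsmul_eq_mul, mul_one]
  -- the phases
  have hz : ∀ j, ∃ z : ℂ, ‖z‖ = 1 ∧ z * S j = (‖S j‖ : ℂ) := by
    intro j
    by_cases h0 : S j = 0
    · exact ⟨1, norm_one, by rw [h0, norm_zero]; simp⟩
    · refine ⟨(‖S j‖ : ℂ) / S j, ?_, div_mul_cancel₀ _ h0⟩
      rw [norm_div, Complex.norm_real, norm_norm, div_self (norm_ne_zero_iff.2 h0)]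
  choose z hz1 hz2 using hz
  obtain ⟨Y, hY⟩ : ∃ Y : ℕ → ℝ, ∀ n, Y n = ∑ j, r j *
      (z j * ZMod.stdAddChar (h j * (n : ZMod Q))).re := ⟨_, fun _ => rfl⟩
  -- the mean
  have hmean : ∑ w ∈ Ω, (1 / (#Ω : ℝ)) * Y (c w) = ∑ j, r j ^ 2 := by
    rw [← Finset.mul_sum]
    simp only [hY]
    rw [Finset.sum_comm, Finset.mul_sum]
    refine Finset.sum_congr rfl fun j _ => ?_
    rw [← Finset.mul_sum, ← Complex.re_sum, ← Finset.mul_sum, ← hS, hz2, Complex.ofReal_re]
    have : ‖S j‖ = r j * #Ω := by rw [hr, div_mul_cancel₀ _ hΩ0.ne']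
    rw [this]
    field_simp
  have hjen := convexOn_exp.map_sum_le (t := Ω) (w := fun _ => 1 / (#Ω : ℝ)) (p := fun w => Y (c w))
    (fun _ _ => by positivity) (by
      rw [sum_const, nsmul_eq_mul]
      field_simp) (fun _ _ => Set.mem_univ _)
  simp only [smul_eq_mul] at hjen
  rw [hmean, ← Finset.mul_sum] at hjen
  -- the sum over all integers below `M`
  have hpos : ∑ w ∈ Ω, Real.exp (Y (c w)) ≤ ∑ n ∈ range M, Real.exp (Y n) := by
    rw [← Finset.sum_image (f := fun n => Real.exp (Y n)) (g := c) hinj]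
    refine Finset.sum_le_sum_of_subset_of_nonneg ?_ fun _ _ _ => (Real.exp_pos _).le
    intro n hn
    obtain ⟨w, hw, rfl⟩ := Finset.mem_image.1 hn
    exact mem_range.2 (hM w hw)
  have hrie : ∀ n : ℕ, Real.exp (Y n) ≤ ∏ j, (Real.cosh (r j) +
      (z j * ZMod.stdAddChar (h j * (n : ZMod Q))).re * Real.sinh (r j)) := by
    intro n
    rw [hY, Real.exp_sum]
    refine Finset.prod_le_prod (fun _ _ => (Real.exp_pos _).le) fun j _ => ?_
    refine CHG_exp _ _ ?_
    refine (Complex.abs_re_le_norm _).trans (le_of_eq ?_)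
    rw [norm_mul, hz1, hψ, mul_one]
  -- the expansion
  have hexp : ((∑ n ∈ range M, ∏ j, (Real.cosh (r j) +
      (z j * ZMod.stdAddChar (h j * (n : ZMod Q))).re * Real.sinh (r j)) : ℝ) : ℂ) =
      ∑ p ∈ Fintype.piFinset fun _ : Fin J => ({0, 1, -1} : Finset ℤ),
        (∏ j, CHG_co (r j) (z j) (p j)) *
          ∑ n ∈ range M, (ZMod.stdAddChar (∑ j, (p j : ZMod Q) * h j)) ^ n := by
    have h1 : ∀ n : ℕ, ((∏ j, (Real.cosh (r j) +
        (z j * ZMod.stdAddChar (h j * (n : ZMod Q))).re * Real.sinh (r j)) : ℝ) : ℂ) =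
        ∑ p ∈ Fintype.piFinset fun _ : Fin J => ({0, 1, -1} : Finset ℤ),
          (∏ j, CHG_co (r j) (z j) (p j)) *
            (ZMod.stdAddChar (∑ j, (p j : ZMod Q) * h j)) ^ n := by
      intro n
      rw [Complex.ofReal_prod, Finset.prod_congr rfl fun j _ => CHG_split (r j) (z j) _ (hψ _),
        Finset.prod_univ_sum]
      refine Finset.sum_congr rfl fun p _ => ?_
      rw [Finset.prod_mul_distrib]
      congr 1
      have h2 : ∀ j, (ZMod.stdAddChar (h j * (n : ZMod Q)) : ℂ) ^ (p j) =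
          ZMod.stdAddChar ((p j : ZMod Q) * (h j * (n : ZMod Q))) := by
        intro j
        rw [← AddChar.map_zsmul_eq_zpow, zsmul_eq_mul]
      rw [Finset.prod_congr rfl fun j _ => h2 j, CHG_sum,
        ← AddChar.map_nsmul_eq_pow, nsmul_eq_mul]
      congr 1
      rw [Finset.mul_sum]
      exact Finset.sum_congr rfl fun j _ => by ring
    rw [Complex.ofReal_sum, Finset.sum_congr rfl fun n _ => h1 n, Finset.sum_comm]
    exact Finset.sum_congr rfl fun p _ => by rw [Finset.mul_sum]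
  -- the bound
  have hbd : ∑ n ∈ range M, ∏ j, (Real.cosh (r j) +
      (z j * ZMod.stdAddChar (h j * (n : ZMod Q))).re * Real.sinh (r j)) ≤
      M * ∏ j, Real.cosh (r j) + R * ∏ j, Real.exp (r j) := by
    refine (le_abs_self _).trans ?_
    rw [← Real.norm_eq_abs, ← Complex.norm_real, hexp]
    refine (norm_sum_le _ _).trans ?_
    have h1 : ∀ p ∈ Fintype.piFinset fun _ : Fin J => ({0, 1, -1} : Finset ℤ),
        ‖(∏ j, CHG_co (r j) (z j) (p j)) *
          ∑ n ∈ range M, (ZMod.stdAddChar (∑ j, (p j : ZMod Q) * h j)) ^ n‖ ≤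
        (if p = 0 then M * ∏ j, Real.cosh (r j) else 0) +
          R * ∏ j, ‖CHG_co (r j) (z j) (p j)‖ := by
      intro p hp
      rw [norm_mul, norm_prod]
      have hnn : 0 ≤ ∏ j, ‖CHG_co (r j) (z j) (p j)‖ := Finset.prod_nonneg fun _ _ => norm_nonneg _
      by_cases h0 : p = 0
      · rw [if_pos h0]
        have h2 : ‖∑ n ∈ range M, (ZMod.stdAddChar (∑ j, (p j : ZMod Q) * h j)) ^ n‖ ≤ M := by
          refine (norm_sum_le _ _).trans ?_
          rw [Finset.sum_congr rfl fun n _ => by rw [norm_pow, hψ, one_pow], sum_const,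
            card_range, nsmul_eq_mul, mul_one]
        have h3 : ∏ j, ‖CHG_co (r j) (z j) (p j)‖ = ∏ j, Real.cosh (r j) := by
          refine Finset.prod_congr rfl fun j _ => ?_
          have h7 : p j = 0 := by rw [h0]; rfl
          rw [h7]
          unfold CHG_co
          rw [if_pos rfl, Complex.norm_real, Real.norm_of_nonneg (Real.cosh_pos _).le]
        have h4 : (∏ j, ‖CHG_co (r j) (z j) (p j)‖) *
            ‖∑ n ∈ range M, (ZMod.stdAddChar (∑ j, (p j : ZMod Q) * h j)) ^ n‖ ≤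
            (∏ j, ‖CHG_co (r j) (z j) (p j)‖) * M := mul_le_mul_of_nonneg_left h2 hnn
        have h5 : (0 : ℝ) ≤ R * ∏ j, ‖CHG_co (r j) (z j) (p j)‖ := by positivity
        rw [h3] at h4 h5 ⊢
        linarith
      · rw [if_neg h0, zero_add, mul_comm]
        refine mul_le_mul_of_nonneg_right ?_ hnn
        refine CHG_geo _ R M hR ?_ ?_ (hψ _)
        · rw [← AddChar.map_nsmul_eq_pow, nsmul_eq_mul, Finset.mul_sum]
          have h6 : ∑ j, (R : ZMod Q) * ((p j : ZMod Q) * h j) = 0 :=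
            Finset.sum_eq_zero fun j _ => by
              rw [mul_left_comm, hRh, mul_zero]
          rw [h6, AddChar.map_zero_eq_one]
        · intro h6
          refine hdis p (fun j => ?_) h0 ?_
          · have h7 := Fintype.mem_piFinset.1 hp j
            simpa using h7
          · apply ZMod.injective_stdAddChar
            rw [h6, AddChar.map_zero_eq_one]
    refine (Finset.sum_le_sum h1).trans ?_
    have h8 := Finset.prod_univ_sum (fun _ : Fin J => ({0, 1, -1} : Finset ℤ))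
      (fun j e => ‖CHG_co (r j) (z j) e‖)
    rw [Finset.sum_add_distrib, Finset.sum_ite_eq', ← Finset.mul_sum, ← h8]
    rw [if_pos (Fintype.mem_piFinset.2 fun _ => by simp)]
    refine le_of_eq ?_
    congr 2
    exact Finset.prod_congr rfl fun j _ => CHG_norm _ (hr0 j) _ (hz1 j)
  -- the end
  have hcosh : ∏ j, Real.cosh (r j) ≤ Real.exp (∑ j, r j ^ 2 / 2) := by
    rw [Real.exp_sum]
    exact Finset.prod_le_prod (fun _ _ => (Real.cosh_pos _).le) fun j _ =>
      Real.cosh_le_exp_half_sq (r j)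
  have h3J : ∏ j, Real.exp (r j) ≤ (3 : ℝ) ^ J := by
    calc ∏ j, Real.exp (r j) ≤ ∏ _j : Fin J, (3 : ℝ) := by
          refine Finset.prod_le_prod (fun _ _ => (Real.exp_pos _).le) fun j _ => ?_
          refine (Real.exp_le_exp.2 (hr1 j)).trans ?_
          have := Real.exp_one_lt_d9
          linarith
      _ = (3 : ℝ) ^ J := by rw [Finset.prod_const, card_univ, Fintype.card_fin]
  obtain ⟨u, hu⟩ : ∃ u, u = ∑ j, r j ^ 2 := ⟨_, rfl⟩
  have hu2 : ∑ j, r j ^ 2 / 2 = u / 2 := by rw [hu, Finset.sum_div]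
  have hu0 : 0 ≤ u := by
    rw [hu]
    exact Finset.sum_nonneg fun _ _ => sq_nonneg _
  rw [hu2] at hcosh
  have hM3 : (R : ℝ) * 3 ^ J ≤ M := by exact_mod_cast hRM
  have htot : ∑ w ∈ Ω, Real.exp (Y (c w)) ≤ 2 * M * Real.exp (u / 2) := by
    refine (hpos.trans (Finset.sum_le_sum fun n _ => hrie n)).trans (hbd.trans ?_)
    have e1 : (M : ℝ) * ∏ j, Real.cosh (r j) ≤ M * Real.exp (u / 2) :=
      mul_le_mul_of_nonneg_left hcosh (Nat.cast_nonneg M)
    have e2 : (R : ℝ) * ∏ j, Real.exp (r j) ≤ M := by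
      refine le_trans (mul_le_mul_of_nonneg_left h3J (Nat.cast_nonneg R)) hM3
    have e3 : (M : ℝ) ≤ M * Real.exp (u / 2) := by
      refine le_mul_of_one_le_right (Nat.cast_nonneg M) ?_
      rw [← Real.exp_zero]
      exact Real.exp_le_exp.2 (by linarith)
    linarith
  rw [← hu] at hjen
  have hfin : Real.exp u ≤ 2 * M / #Ω * Real.exp (u / 2) := by
    refine hjen.trans ?_
    calc 1 / (#Ω : ℝ) * ∑ w ∈ Ω, Real.exp (Y (c w)) ≤ 1 / (#Ω : ℝ) * (2 * M * Real.exp (u / 2)) :=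
          mul_le_mul_of_nonneg_left htot (by positivity)
      _ = 2 * M / #Ω * Real.exp (u / 2) := by ring
  have hfin2 : Real.exp (u / 2) ≤ 2 * M / #Ω := by
    have e1 : Real.exp u = Real.exp (u / 2) * Real.exp (u / 2) := by
      rw [← Real.exp_add]
      congr 1
      ring
    rw [e1] at hfin
    exact le_of_mul_le_mul_right hfin (Real.exp_pos _)
  have hlog : u / 2 ≤ Real.log (2 * M / #Ω) :=
    (Real.le_log_iff_exp_le (lt_of_lt_of_le (Real.exp_pos _) hfin2)).2 hfin2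
  have hgoal : ∑ j, (‖∑ w ∈ Ω, ZMod.stdAddChar (h j * (c w : ZMod Q))‖ / #Ω) ^ 2 = u := by
    rw [hu]
    exact Finset.sum_congr rfl fun j _ => by rw [hr, hS]
  rw [hgoal]
  linarith

end Pool.Agent.SLD
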