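import Pool.Agent.SLD.StA

/-!
SLD, block CMG: composition of bounds.
-/

set_option autoImplicit false

namespace Pool.Agent.SLD

open Finset Filter Topology
open Pool.Agent.Collatz3 (cw)

/-- the norm of a composition -/
lemma CMG_norm (hC : St_CMP) (Q : ℕ) [NeZero Q] (hQ : Odd Q) (j k S : ℕ) (h : ZMod Q) :
    ∑ s ∈ range S, ‖F Q (j + k) s h‖ ≤
      ∑ t ∈ range S, ‖F Q j t h‖ * ∑ r ∈ range (S - t), ‖F Q k r (3 ^ j * hf Q ^ t * h)‖ := by
  have h1 : ∀ s, ‖F Q (j + k) s h‖ ≤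
      ∑ t ∈ range (s + 1), ‖F Q j t h‖ * ‖F Q k (s - t) (3 ^ j * hf Q ^ t * h)‖ := by
    intro s
    rw [(hC Q hQ).2.2.1 j k s h]
    refine (norm_sum_le _ _).trans (le_of_eq ?_)
    exact Finset.sum_congr rfl fun t _ => norm_mul _ _
  calc ∑ s ∈ range S, ‖F Q (j + k) s h‖ ≤ ∑ s ∈ range S, ∑ t ∈ range (s + 1),
        ‖F Q j t h‖ * ‖F Q k (s - t) (3 ^ j * hf Q ^ t * h)‖ := Finset.sum_le_sum fun s _ => h1 s
    _ = ∑ t ∈ range S, ∑ r ∈ range (S - t), ‖F Q j t h‖ * ‖F Q k r (3 ^ j * hf Q ^ t * h)‖ :=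
        Finset.sum_range_diag_flip S fun t r => ‖F Q j t h‖ * ‖F Q k r (3 ^ j * hf Q ^ t * h)‖
    _ = _ := Finset.sum_congr rfl fun t _ => by rw [Finset.mul_sum]

/-- [CMG] -/
theorem thm_CMG (hC : St_CMP) : St_CMG := by
  intro Q _ hQ h j k l al _ β ν b hβ _ hb h1 h2 h3 S
  obtain ⟨-, -, -, hp, h11, -⟩ := hC Q hQ
  have e1 : ∑ s ∈ range S, ‖F Q (j + k) s h‖ ≤ β + ν := by
    refine (CMG_norm hC Q hQ j k S h).trans ?_
    have e2 : ∀ t ∈ range S,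
        ‖F Q j t h‖ * ∑ r ∈ range (S - t), ‖F Q k r (3 ^ j * hf Q ^ t * h)‖ ≤
          β * ‖F Q j t h‖ + if al t then 0 else p j t := by
      intro t _
      by_cases ht : al t
      · rw [if_pos ht, add_zero, mul_comm]
        exact mul_le_mul_of_nonneg_right (h1 t ht _) (norm_nonneg _)
      · rw [if_neg ht]
        have e3 : ‖F Q j t h‖ * ∑ r ∈ range (S - t), ‖F Q k r (3 ^ j * hf Q ^ t * h)‖ ≤
            ‖F Q j t h‖ * 1 := mul_le_mul_of_nonneg_left (h11 k _ _) (norm_nonneg _)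
        have e4 : 0 ≤ β * ‖F Q j t h‖ := mul_nonneg hβ (norm_nonneg _)
        linarith [hp j t h]
    refine (Finset.sum_le_sum e2).trans ?_
    rw [Finset.sum_add_distrib, ← Finset.mul_sum]
    have e5 : β * ∑ t ∈ range S, ‖F Q j t h‖ ≤ β * 1 := mul_le_mul_of_nonneg_left (h11 j h S) hβ
    linarith [h2 S]
  refine (CMG_norm hC Q hQ (j + k) l S h).trans ?_
  calc ∑ t ∈ range S, ‖F Q (j + k) t h‖ *
        ∑ r ∈ range (S - t), ‖F Q l r (3 ^ (j + k) * hf Q ^ t * h)‖ ≤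
        ∑ t ∈ range S, ‖F Q (j + k) t h‖ * b :=
        Finset.sum_le_sum fun t _ => mul_le_mul_of_nonneg_left (h3 t _) (norm_nonneg _)
    _ = (∑ t ∈ range S, ‖F Q (j + k) t h‖) * b := by rw [Finset.sum_mul]
    _ ≤ (β + ν) * b := mul_le_mul_of_nonneg_right e1 hb

end Pool.Agent.SLD
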