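import Pool.Agent.SLD.StA

/-!
SLD, module CMP: composition of the Fourier coefficients (helper5).
-/

set_option autoImplicit false

namespace Pool.Agent.SLD

open Finset
open Pool.Agent.Collatz3 (cw)

private theorem CMP_cw (u v : List ℕ) :
    cw (u ++ v) = 3 ^ u.length * cw v + 2 ^ v.sum * cw u := by
  induction u with
  | nil => simp [cw]
  | cons i u ih =>
    rw [List.cons_append, cw, cw, ih, List.sum_append, List.length_cons]
    ring

private theorem CMP_hf (Q : ℕ) [NeZero Q] (hQ : Odd Q) : (2 : ZMod Q) * hf Q = 1 := by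
  obtain ⟨m, hm⟩ := hQ
  have h1 : 2 * ((Q + 1) / 2) = Q + 1 := by omega
  have h2 : ((2 * ((Q + 1) / 2) : ℕ) : ZMod Q) = ((Q + 1 : ℕ) : ZMod Q) := by rw [h1]
  unfold hf
  push_cast at h2
  rw [ZMod.natCast_self, zero_add] at h2
  exact h2

private theorem CMP_X (Q : ℕ) [NeZero Q] (hQ : Odd Q) (u v : List ℕ) :
    X Q (u ++ v) = X Q u + 3 ^ u.length * hf Q ^ u.sum * X Q v := by
  unfold X
  rw [CMP_cw, List.sum_append]
  have h1 : (2 : ZMod Q) ^ v.sum * hf Q ^ v.sum = 1 := by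
    rw [← mul_pow, CMP_hf Q hQ, one_pow]
  push_cast
  rw [pow_add]
  linear_combination (cw u : ZMod Q) * hf Q ^ u.sum * h1

private theorem CMP_F (hW : St_WRD) (Q : ℕ) [NeZero Q] (hQ : Odd Q) (j k s : ℕ) (h : ZMod Q) :
    F Q (j + k) s h =
      ∑ t ∈ range (s + 1), F Q j t h * F Q k (s - t) (3 ^ j * hf Q ^ t * h) := by
  obtain ⟨hm, -, hc, -⟩ := hW
  unfold F
  rw [hc j k s (fun w => ZMod.stdAddChar (h * X Q w)), Finset.sum_div]
  refine Finset.sum_congr rfl fun t ht => ?_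
  have hts : t ≤ s := by
    rw [Finset.mem_range] at ht
    omega
  have h1 : (2 : ℂ) ^ s = 2 ^ t * 2 ^ (s - t) := by
    rw [← pow_add, Nat.add_sub_cancel' hts]
  rw [h1, div_mul_div_comm, Finset.sum_mul_sum]
  congr 1
  refine Finset.sum_congr rfl fun u hu => Finset.sum_congr rfl fun v _ => ?_
  obtain ⟨h2, -, h3⟩ := (hm j t u).1 hu
  rw [CMP_X Q hQ, h2, h3, ← AddChar.map_add_eq_mul]
  congr 1
  ring

private theorem CMP_norm (Q : ℕ) [NeZero Q] (k s : ℕ) (h : ZMod Q) : ‖F Q k s h‖ ≤ p k s := by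
  unfold F p
  rw [norm_div, norm_pow, Complex.norm_ofNat]
  refine div_le_div_of_nonneg_right ?_ (by positivity)
  refine (norm_sum_le _ _).trans ?_
  rw [Finset.sum_congr rfl fun w _ => AddChar.norm_apply (ZMod.stdAddChar (N := Q)) (h * X Q w)]
  simp

theorem thm_CMP (hW : St_WRD) : St_CMP := by
  intro Q _ hQ
  have hd : ∀ (k : ℕ) (h : ZMod Q), GB Q k 1 h := fun k h S =>
    (Finset.sum_le_sum fun s _ => CMP_norm Q k s h).trans (hW.2.1 k S)
  refine ⟨CMP_hf Q hQ, CMP_X Q hQ, CMP_F hW Q hQ, CMP_norm Q, hd, fun k l b h hb S => ?_⟩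
  calc ∑ s ∈ range S, ‖F Q (k + l) s h‖
      ≤ ∑ s ∈ range S, ∑ t ∈ range (s + 1),
          ‖F Q k t h‖ * ‖F Q l (s - t) (3 ^ k * hf Q ^ t * h)‖ := by
        refine Finset.sum_le_sum fun s _ => ?_
        rw [CMP_F hW Q hQ]
        refine (norm_sum_le _ _).trans (Finset.sum_le_sum fun t _ => ?_)
        rw [norm_mul]
    _ = ∑ t ∈ range S, ∑ s ∈ range (S - t),
          ‖F Q k t h‖ * ‖F Q l s (3 ^ k * hf Q ^ t * h)‖ :=
        Finset.sum_range_diag_flip S
          (fun t s => ‖F Q k t h‖ * ‖F Q l s (3 ^ k * hf Q ^ t * h)‖)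
    _ ≤ ∑ t ∈ range S, ‖F Q k t h‖ := by
        refine Finset.sum_le_sum fun t _ => ?_
        rw [← Finset.mul_sum]
        exact mul_le_of_le_one_right (norm_nonneg _) (hd l _ _)
    _ ≤ b := hb S

end Pool.Agent.SLD
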