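import Pool.Agent.SLD.StA
import Pool.Agent.Collatz3.VBasic

/-!
SLD [COL] (helper35): the collision bound.
-/

set_option autoImplicit false

namespace Pool.Agent.SLD

open Finset
open Pool.Agent.Collatz3 (cw)

/-- Orthogonality. -/
lemma COL_orth (Q : ℕ) [NeZero Q] {ι : Type} (Ω : Finset ι) (y : ι → ZMod Q) :
    ∑ h : ZMod Q, ‖∑ u ∈ Ω, ZMod.stdAddChar (h * y u)‖ ^ 2 =
      (Q : ℝ) * ∑ u ∈ Ω, (#{v ∈ Ω | y v = y u} : ℝ) := by
  have hs : ∀ b : ZMod Q, ∑ h : ZMod Q, ZMod.stdAddChar (h * b) = if b = 0 then (Q : ℂ) else 0 := by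
    intro b
    have h1 := AddChar.sum_mulShift (R := ZMod Q) (R' := ℂ) b (ZMod.isPrimitive_stdAddChar Q)
    rw [ZMod.card] at h1
    exact_mod_cast h1
  have key : ((∑ h : ZMod Q, ‖∑ u ∈ Ω, ZMod.stdAddChar (h * y u)‖ ^ 2 : ℝ) : ℂ) =
      (((Q : ℝ) * ∑ u ∈ Ω, (#{v ∈ Ω | y v = y u} : ℝ) : ℝ) : ℂ) := by
    push_cast
    calc ∑ h : ZMod Q, ((‖∑ u ∈ Ω, ZMod.stdAddChar (h * y u)‖ : ℝ) : ℂ) ^ 2
        = ∑ h : ZMod Q, ∑ u ∈ Ω, ∑ v ∈ Ω, ZMod.stdAddChar (h * (y u - y v)) := by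
          refine Finset.sum_congr rfl fun h _ => ?_
          rw [← Complex.mul_conj', map_sum, Finset.sum_mul_sum]
          refine Finset.sum_congr rfl fun u _ => Finset.sum_congr rfl fun v _ => ?_
          rw [← AddChar.map_neg_eq_conj, ← AddChar.map_add_eq_mul]
          congr 1
          ring
      _ = ∑ u ∈ Ω, ∑ v ∈ Ω, ∑ h : ZMod Q, ZMod.stdAddChar (h * (y u - y v)) := by
          rw [Finset.sum_comm]
          refine Finset.sum_congr rfl fun u _ => ?_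
          rw [Finset.sum_comm]
      _ = ∑ u ∈ Ω, ∑ v ∈ Ω, (if y v = y u then (Q : ℂ) else 0) := by
          refine Finset.sum_congr rfl fun u _ => Finset.sum_congr rfl fun v _ => ?_
          rw [hs]
          by_cases h : y v = y u
          · rw [if_pos h, if_pos (by rw [h, sub_self])]
          · rw [if_neg h, if_neg (fun h' => h (sub_eq_zero.1 h').symm)]
      _ = (Q : ℂ) * ∑ u ∈ Ω, (#{v ∈ Ω | y v = y u} : ℂ) := by
          rw [Finset.mul_sum]
          refine Finset.sum_congr rfl fun u _ => ?_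
          rw [← Finset.sum_filter, Finset.sum_const, nsmul_eq_mul, mul_comm]
  exact_mod_cast key

/-- The number of the elements of a residue class below a bound. -/
lemma COL_class {ι : Type} (Ω : Finset ι) (c : ι → ℕ) (hc : Set.InjOn c Ω) (Q M a : ℕ)
    (hQ : 0 < Q) (hM : ∀ u ∈ Ω, c u < M) (hr : ∀ u ∈ Ω, c u % Q = a) : #Ω ≤ M / Q + 1 := by
  have h1 : #Ω ≤ #(Finset.range (M / Q + 1)) := by
    refine Finset.card_le_card_of_injOn (fun u => c u / Q) (fun u hu => ?_) (fun u hu v hv h => ?_)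
    · simp only [Finset.coe_range, Set.mem_Iio]
      exact Nat.lt_succ_of_le (Nat.div_le_div_right (hM u hu).le)
    · refine hc hu hv ?_
      have h2 : c u / Q = c v / Q := h
      rw [← Nat.div_add_mod (c u) Q, ← Nat.div_add_mod (c v) Q, hr u hu, hr v hv, h2]
  rwa [Finset.card_range] at h1

theorem thm_COL (h1 : St_WRD) (h2 : St_CMP) : St_COL := by
  intro Q _ hQ k t K hK hQt
  obtain ⟨hmem, hsum, -, -⟩ := h1
  obtain ⟨hhf, -⟩ := h2 Q hQ
  have hQ0 : 0 < Q := hQ.pos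
  set Ω := {u ∈ W k t | cw u < K * 2 ^ t} with hΩ
  have hW : (#(W k t) : ℝ) ≤ 2 ^ t := by
    have e1 : p k t ≤ 1 := by
      refine le_trans ?_ (hsum k (t + 1))
      refine Finset.single_le_sum (f := fun s => p k s) (fun s _ => ?_) (Finset.self_mem_range_succ t)
      unfold p
      positivity
    unfold p at e1
    rwa [div_le_one (by positivity)] at e1
  have hΩc : (#Ω : ℝ) ≤ 2 ^ t := by
    refine le_trans ?_ hW
    exact_mod_cast Finset.card_le_card (Finset.filter_subset _ _)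
  have hcol : ∀ u ∈ Ω, (#{v ∈ Ω | X Q v = X Q u} : ℝ) ≤ K * 2 ^ t / Q + 1 := by
    intro u hu
    have e1 : #{v ∈ Ω | X Q v = X Q u} ≤ (K * 2 ^ t) / Q + 1 := by
      refine COL_class _ cw (fun v hv w hw h => ?_) Q _ (cw u % Q) hQ0 (fun v hv => ?_)
        (fun v hv => ?_)
      · simp only [hΩ, Finset.coe_filter, Finset.mem_filter, Set.mem_setOf_eq] at hv hw
        obtain ⟨a1, a2, a3⟩ := (hmem k t v).1 hv.1.1
        obtain ⟨b1, b2, b3⟩ := (hmem k t w).1 hw.1.1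
        exact Pool.Agent.Collatz3.Mix.cw_inj a1 b1 a2 b2 (a3.trans b3.symm) h
      · simp only [hΩ, Finset.mem_filter] at hv
        exact hv.1.2
      · simp only [hΩ, Finset.mem_filter] at hv hu
        obtain ⟨a1, a2, a3⟩ := (hmem k t v).1 hv.1.1
        obtain ⟨b1, b2, b3⟩ := (hmem k t u).1 hu.1
        have e2 : (cw v : ZMod Q) * hf Q ^ v.sum = (cw u : ZMod Q) * hf Q ^ u.sum := hv.2
        rw [a3, b3] at e2
        have e3 : (2 : ZMod Q) ^ t * hf Q ^ t = 1 := by rw [← mul_pow, hhf, one_pow]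
        have e4 : (cw v : ZMod Q) = (cw u : ZMod Q) := by
          calc (cw v : ZMod Q) = (cw v : ZMod Q) * hf Q ^ t * 2 ^ t := by
                rw [mul_assoc, mul_comm (hf Q ^ t), e3, mul_one]
            _ = (cw u : ZMod Q) * hf Q ^ t * 2 ^ t := by rw [e2]
            _ = (cw u : ZMod Q) := by rw [mul_assoc, mul_comm (hf Q ^ t), e3, mul_one]
        exact (ZMod.natCast_eq_natCast_iff' _ _ _).1 e4
    calc (#{v ∈ Ω | X Q v = X Q u} : ℝ) ≤ ((K * 2 ^ t / Q + 1 : ℕ) : ℝ) := by exact_mod_cast e1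
      _ ≤ K * 2 ^ t / Q + 1 := by
        rw [Nat.cast_add, Nat.cast_one]
        refine add_le_add ?_ le_rfl
        have := @Nat.cast_div_le ℝ _ _ _ (K * 2 ^ t) Q
        push_cast at this
        exact this
  have hQR : (0 : ℝ) < Q := by exact_mod_cast hQ0
  have hQt' : (Q : ℝ) ≤ 2 ^ t := by exact_mod_cast hQt
  have h2t : (0 : ℝ) < 2 ^ t := by positivity
  have e5 : ∑ h : ZMod Q, ‖(∑ u ∈ Ω, ZMod.stdAddChar (h * X Q u)) / 2 ^ t‖ ^ 2 =
      (∑ h : ZMod Q, ‖∑ u ∈ Ω, ZMod.stdAddChar (h * X Q u)‖ ^ 2) / (2 ^ t) ^ 2 := by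
    rw [Finset.sum_div]
    refine Finset.sum_congr rfl fun h _ => ?_
    rw [norm_div, div_pow, norm_pow]
    norm_num
  rw [e5, COL_orth, div_le_iff₀ (by positivity)]
  calc (Q : ℝ) * ∑ u ∈ Ω, (#{v ∈ Ω | X Q v = X Q u} : ℝ)
      ≤ (Q : ℝ) * ∑ _u ∈ Ω, ((K : ℝ) * 2 ^ t / Q + 1) :=
        mul_le_mul_of_nonneg_left (Finset.sum_le_sum hcol) hQR.le
    _ = #Ω * (K * 2 ^ t + Q) := by
        rw [Finset.sum_const, nsmul_eq_mul]
        field_simp
    _ ≤ 2 ^ t * (K * 2 ^ t + 2 ^ t) := by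
        refine mul_le_mul hΩc (add_le_add le_rfl hQt') (by positivity) h2t.le
    _ = (K + 1) * (2 ^ t) ^ 2 := by ring

end Pool.Agent.SLD
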