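import Pool.Agent.SLD.StA

/-!
SLD, module D3S: one step of the decay, 3-part.
-/

set_option autoImplicit false

namespace Pool.Agent.SLD

open Finset Filter Topology
open Pool.Agent.Collatz3 (cw)

private lemma D3S_mono {Q : ℕ} [NeZero Q] {k : ℕ} {b b' : ℝ} {h : ZMod Q} (hb : b ≤ b')
    (H : GB Q k b h) : GB Q k b' h := fun S => (H S).trans hb

private lemma D3S_three : (3 : ℝ) ≤ 2 ^ ((8 : ℝ) / 5) := by
  have h1 : (3 : ℝ) = (3 ^ (5 : ℝ)) ^ ((1 : ℝ) / 5) := by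
    rw [← Real.rpow_mul (by norm_num)]
    norm_num
  have h2 : (2 : ℝ) ^ ((8 : ℝ) / 5) = (2 ^ (8 : ℝ)) ^ ((1 : ℝ) / 5) := by
    rw [← Real.rpow_mul (by norm_num)]
    norm_num
  rw [h1, h2]
  refine Real.rpow_le_rpow (by positivity) ?_ (by norm_num)
  have e1 : (3 : ℝ) ^ (5 : ℝ) = 243 := by
    rw [show (5 : ℝ) = ((5 : ℕ) : ℝ) by norm_num, Real.rpow_natCast]
    norm_num
  have e2 : (2 : ℝ) ^ (8 : ℝ) = 256 := by
    rw [show (8 : ℝ) = ((8 : ℕ) : ℝ) by norm_num, Real.rpow_natCast]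
    norm_num
  rw [e1, e2]
  norm_num

private lemma D3S_size (n q k J smin : ℕ) (hq : (q : ℝ) ≤ 2 ^ ((n : ℝ) / 20))
    (hk : 9 * n ≤ 10 * k) (hk1 : 1 ≤ k) (hJ : 100 * J ≤ n) (hs : 19 * k ≤ 10 * smin) :
    3 ^ n * q * 3 ^ J ≤ k ^ 2 * 2 ^ smin := by
  have h1 : ((3 : ℝ) ^ (n + J)) ≤ 2 ^ ((8 : ℝ) / 5 * ((n + J : ℕ) : ℝ)) := by
    rw [Real.rpow_mul (by norm_num), Real.rpow_natCast]
    exact pow_le_pow_left₀ (by norm_num) D3S_three _
  have hk' : 9 * (n : ℝ) ≤ 10 * k := by exact_mod_cast hk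
  have hJ' : 100 * (J : ℝ) ≤ n := by exact_mod_cast hJ
  have hs' : 19 * (k : ℝ) ≤ 10 * smin := by exact_mod_cast hs
  have h2 : (3 : ℝ) ^ (n + J) * q ≤ 2 ^ smin := by
    calc (3 : ℝ) ^ (n + J) * q ≤ 2 ^ ((8 : ℝ) / 5 * ((n + J : ℕ) : ℝ)) * 2 ^ ((n : ℝ) / 20) :=
          mul_le_mul h1 hq (Nat.cast_nonneg _) (by positivity)
      _ = 2 ^ ((8 : ℝ) / 5 * ((n + J : ℕ) : ℝ) + (n : ℝ) / 20) :=
          (Real.rpow_add (by norm_num) _ _).symm
      _ ≤ 2 ^ ((smin : ℕ) : ℝ) := by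
          refine Real.rpow_le_rpow_of_exponent_le (by norm_num) ?_
          push_cast
          linarith
      _ = 2 ^ smin := Real.rpow_natCast _ _
  have h3 : 3 ^ (n + J) * q ≤ 2 ^ smin := by exact_mod_cast h2
  calc 3 ^ n * q * 3 ^ J = 3 ^ (n + J) * q := by rw [pow_add]; ring
    _ ≤ 2 ^ smin := h3
    _ ≤ k ^ 2 * 2 ^ smin := Nat.le_mul_of_pos_left _ (by positivity)

private lemma D3S_beta (n k J : ℕ) (ρ : ℝ) (hn : 200 ≤ n)
    (hk : 9 * n ≤ 10 * k) (hkn : k ≤ n) (hJ : n ≤ 200 * J) (hρ : (k : ℝ) * ρ ^ k ≤ 1) :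
    Real.sqrt (4 * Real.log (2 * (k : ℝ) ^ 5) / J) + 2 * (2 * ρ ^ k + 5 / k) ≤
      100 * Real.sqrt (Real.log n / n) := by
  have hn' : (200 : ℝ) ≤ n := by exact_mod_cast hn
  have hk' : 9 * (n : ℝ) ≤ 10 * k := by exact_mod_cast hk
  have hkn' : (k : ℝ) ≤ n := by exact_mod_cast hkn
  have hJ' : (n : ℝ) ≤ 200 * J := by exact_mod_cast hJ
  have hn0 : (0 : ℝ) < n := by linarith
  have hk0 : (0 : ℝ) < k := by linarith
  have hJ0 : (0 : ℝ) < J := by linarith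
  have hlog1 : 1 ≤ Real.log n := by
    rw [Real.le_log_iff_exp_le hn0]
    have := Real.exp_one_lt_d9
    linarith
  have hlog : Real.log (2 * (k : ℝ) ^ 5) ≤ 6 * Real.log n := by
    have h1 : (2 : ℝ) * k ^ 5 ≤ (n : ℝ) ^ 6 := by
      have h2 : (k : ℝ) ^ 5 ≤ (n : ℝ) ^ 5 := pow_le_pow_left₀ hk0.le hkn' 5
      calc (2 : ℝ) * k ^ 5 ≤ n * n ^ 5 := mul_le_mul (by linarith) h2 (by positivity) hn0.le
        _ = (n : ℝ) ^ 6 := by ring
    calc Real.log (2 * (k : ℝ) ^ 5) ≤ Real.log ((n : ℝ) ^ 6) := Real.log_le_log (by positivity) h1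
      _ = 6 * Real.log n := by rw [Real.log_pow]; norm_num
  set s := Real.sqrt (Real.log n / n) with hs
  have hs1 : 1 / (n : ℝ) ≤ s := by
    rw [hs]
    apply Real.le_sqrt_of_sq_le
    rw [div_pow, one_pow, div_le_div_iff₀ (by positivity) hn0]
    nlinarith
  have h1 : Real.sqrt (4 * Real.log (2 * (k : ℝ) ^ 5) / J) ≤ 70 * s := by
    have h2 : 4 * Real.log (2 * (k : ℝ) ^ 5) / J ≤ 70 ^ 2 * (Real.log n / n) := by
      rw [mul_div_assoc', div_le_div_iff₀ hJ0 hn0]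
      have h3 : 4 * Real.log (2 * (k : ℝ) ^ 5) * n ≤ 24 * Real.log n * (200 * J) := by
        refine mul_le_mul (by linarith) hJ' hn0.le (by positivity)
      nlinarith [mul_pos (lt_of_lt_of_le one_pos hlog1) hJ0]
    calc Real.sqrt (4 * Real.log (2 * (k : ℝ) ^ 5) / J)
        ≤ Real.sqrt (70 ^ 2 * (Real.log n / n)) := Real.sqrt_le_sqrt h2
      _ = 70 * s := by
          rw [Real.sqrt_mul (by norm_num), Real.sqrt_sq (by norm_num)]
  have h2 : ρ ^ k ≤ 2 * (1 / (n : ℝ)) := by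
    have h3 : ρ ^ k ≤ 1 / k := by
      rw [le_div_iff₀ hk0, mul_comm]
      exact hρ
    refine h3.trans ?_
    rw [mul_one_div, div_le_div_iff₀ hk0 hn0]
    linarith
  have h3 : 5 / (k : ℝ) ≤ 6 * (1 / (n : ℝ)) := by
    rw [mul_one_div, div_le_div_iff₀ hk0 hn0]
    linarith
  have h4 : 0 ≤ s := Real.sqrt_nonneg _
  linarith

theorem thm_D3S (h1 : St_BLK) (h2 : St_CMG) (h3 : St_TAL) : St_D3S := by
  obtain ⟨⟨ρ, hρ0, hρ1, hρ⟩, -⟩ := h3
  have hev : ∀ᶠ k : ℕ in atTop, (k : ℝ) * ρ ^ k < 1 :=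
    (tendsto_self_mul_const_pow_of_lt_one hρ0.le hρ1).eventually (gt_mem_nhds one_pos)
  obtain ⟨k₁, hk₁⟩ := eventually_atTop.1 hev
  refine ⟨100, by norm_num, max 200 (2 * k₁), ?_⟩
  intro Q _ hQ h n q hord h3q hn hq
  have hn200 : 200 ≤ n := (le_max_left _ _).trans hn
  have hnk₁ : 2 * k₁ ≤ n := (le_max_right _ _).trans hn
  set k := (9 * n + 9) / 10 with hk
  set J := n / 100 with hJ
  have e1 : 9 * n ≤ 10 * k := by omega
  have e2 : k ≤ n := by omega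
  have e3 : 1 ≤ k := by omega
  have e4 : 100 * J ≤ n := by omega
  have e5 : n ≤ 200 * J := by omega
  have e6 : 1 ≤ J := by omega
  have e7 : k₁ ≤ k := by omega
  have e8 : 19 * k ≤ 10 * ((19 * k + 9) / 10) := by omega
  obtain ⟨j, hj, hall⟩ := h1 Q hQ h k J ((19 * k + 9) / 10) 0 (fun _ => True) (ρ ^ k) e3 e6
    (by rw [hord]; exact D3S_size n q k J _ hq e1 e3 e4 e8)
    (Or.inl (by
      rw [hord]
      exact (pow_dvd_pow 3 (by omega)).trans (dvd_mul_right _ _)))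
    (hρ k).1 (hρ k).2.2
  refine ⟨j, hj, fun K b hb hK => ?_⟩
  have hβ := D3S_beta n k J ρ hn200 e1 e2 e5 (hk₁ k e7).le
  have h5 := h2 Q hQ h j k K (fun _ => True)
    (Real.sqrt (4 * Real.log (2 * (k : ℝ) ^ 5) / J) + 2 * (2 * ρ ^ k + 5 / k)) 0 b
    (by positivity) le_rfl hb hall (fun S => by simp) hK
  rw [add_zero] at h5
  exact D3S_mono (mul_le_mul_of_nonneg_right hβ hb) h5

end Pool.Agent.SLD
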