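import Pool.Agent.SLD.StA

/-!
# SLD, module DE3: decay, 3-part
-/

set_option autoImplicit false

namespace Pool.Agent.SLD

open Finset

theorem DE3_mono {Q : ℕ} [NeZero Q] {k : ℕ} {b b' : ℝ} {h : ZMod Q} (hb : b ≤ b')
    (H : GB Q k b h) : GB Q k b' h := fun S => (H S).trans hb

theorem DE3_sqrt {x y : ℝ} (h : y / 16 ≤ x) :
    Real.sqrt (Real.sqrt y) / 2 ≤ Real.sqrt (Real.sqrt x) := by
  have h1 : Real.sqrt (Real.sqrt (y / 16)) = Real.sqrt (Real.sqrt y) / 2 := by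
    rw [Real.sqrt_div' _ (by norm_num), show (16 : ℝ) = 4 ^ 2 by norm_num,
      Real.sqrt_sq (by norm_num), Real.sqrt_div' _ (by norm_num),
      show (4 : ℝ) = 2 ^ 2 by norm_num, Real.sqrt_sq (by norm_num)]
  rw [← h1]
  exact Real.sqrt_le_sqrt (Real.sqrt_le_sqrt h)

theorem DE3_log {n : ℝ} (hn : 1 ≤ n) :
    Real.sqrt (Real.log n / n) ≤ 2 / Real.sqrt (Real.sqrt n) := by
  have hs : 0 < Real.sqrt n := Real.sqrt_pos.mpr (by linarith)
  have hss : 0 < Real.sqrt (Real.sqrt n) := Real.sqrt_pos.mpr hs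
  have h1 : Real.log n ≤ 4 * Real.sqrt n := by
    have h2 : Real.log n = 2 * Real.log (Real.sqrt n) := by
      rw [Real.log_sqrt (by linarith)]
      ring
    rw [h2]
    linarith [Real.log_le_sub_one_of_pos hs]
  rw [Real.sqrt_le_left (by positivity), div_pow, Real.sq_sqrt hs.le,
    div_le_div_iff₀ (by linarith) hs]
  have h3 : Real.sqrt n * Real.sqrt n = n := Real.mul_self_sqrt (by linarith)
  nlinarith

theorem DE3_iter (hS : St_D3S) (hO : St_ORD) (hC : St_CMP) (i : ℕ) :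
    ∃ c : ℝ, 0 < c ∧ c ≤ 1 / 20 ∧ ∃ D : ℝ, 0 < D ∧ ∃ N : ℕ, ∀ (Q : ℕ) [NeZero Q], Odd Q →
      ∀ (h : ZMod Q) (n q K : ℕ), addOrderOf h = 3 ^ n * q → ¬ 3 ∣ q → N ≤ n → 1 ≤ n →
        (q : ℝ) ≤ 2 ^ (c * n) → (n : ℝ) - c * n ≤ K →
          GB Q K (D / (Real.sqrt (Real.sqrt n)) ^ i) h := by
  induction i with
  | zero =>
    refine ⟨1 / 20, by norm_num, le_rfl, 1, one_pos, 0, ?_⟩
    intro Q _ hQ h n q K _ _ _ _ _ _
    rw [pow_zero, div_one]
    exact (hC Q hQ).2.2.2.2.1 K h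
  | succ i ih =>
    obtain ⟨c, hc, hc1, D, hD, N, ih⟩ := ih
    obtain ⟨C, hC0, n₀, hS⟩ := hS
    refine ⟨c * (2 / 25), by positivity, by linarith, 2 * C * D * 2 ^ i, by positivity,
      n₀ + 13 * N + 100, ?_⟩
    intro Q _ hQ h n q K ho hq hn hn1 hqn hK
    have hnR : (100 : ℝ) ≤ n := by
      have h1 : 100 ≤ n := by omega
      exact_mod_cast h1
    obtain ⟨j, hj, H⟩ := hS Q hQ h n q ho hq (by omega) (by
      refine hqn.trans (Real.rpow_le_rpow_of_exponent_le (by norm_num) ?_)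
      nlinarith)
    have hj' : j * 100 < n := by
      have := Nat.div_mul_le_self n 100
      omega
    have hm1 : 25 * (j + (9 * n + 9) / 10) ≤ 23 * n := by omega
    have hm2 : 9 * n ≤ 10 * (j + (9 * n + 9) / 10) := by omega
    set m : ℕ := j + (9 * n + 9) / 10 with hm
    have hm1R : (25 : ℝ) * m ≤ 23 * n := by exact_mod_cast hm1
    have hmK : m ≤ K := by
      have h1 : (m : ℝ) ≤ K := by nlinarith
      exact_mod_cast h1
    have hmn : m ≤ n := by omega
    have hsub : ((n - m : ℕ) : ℝ) = n - m := Nat.cast_sub hmn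
    have hsubK : ((K - m : ℕ) : ℝ) = K - m := Nat.cast_sub hmK
    have hn' : (2 : ℝ) / 25 * n ≤ ((n - m : ℕ) : ℝ) := by
      rw [hsub]
      linarith
    have hcn : c * (2 / 25) * n ≤ c * ((n - m : ℕ) : ℝ) := by
      rw [mul_assoc]
      exact mul_le_mul_of_nonneg_left hn' hc.le
    have h1 := H (K - m) (D / (Real.sqrt (Real.sqrt ((n - m : ℕ) : ℝ))) ^ i) (by positivity)
      (fun t => ih Q hQ _ (n - m) q (K - m) ((hO Q hQ h n q ho hq).1 m t hmn) hq (by omega)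
        (by omega) (hqn.trans (Real.rpow_le_rpow_of_exponent_le (by norm_num) hcn)) (by
          rw [hsubK]
          have : ((n - m : ℕ) : ℝ) - c * ((n - m : ℕ) : ℝ) ≤ (n : ℝ) - m - c * (2 / 25) * n := by
            rw [← hsub]
            linarith
          linarith))
    have h2 : m + (K - m) = K := by omega
    rw [h2] at h1
    refine DE3_mono ?_ h1
    have hnpos : (0 : ℝ) < n := by linarith
    have hx : 0 < Real.sqrt (Real.sqrt n) := Real.sqrt_pos.mpr (Real.sqrt_pos.mpr hnpos)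
    have hx' := DE3_sqrt (y := (n : ℝ)) (x := ((n - m : ℕ) : ℝ)) (by linarith)
    have h3 : D / (Real.sqrt (Real.sqrt ((n - m : ℕ) : ℝ))) ^ i ≤
        D * 2 ^ i / (Real.sqrt (Real.sqrt n)) ^ i := by
      have h4 : D * 2 ^ i / (Real.sqrt (Real.sqrt n)) ^ i =
          D / (Real.sqrt (Real.sqrt n) / 2) ^ i := by
        rw [div_pow]
        field_simp
      rw [h4]
      exact div_le_div_of_nonneg_left hD.le (by positivity)
        (pow_le_pow_left₀ (by positivity) hx' i)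
    have h5 := DE3_log (n := (n : ℝ)) (by linarith)
    calc C * Real.sqrt (Real.log n / n) * (D / (Real.sqrt (Real.sqrt ((n - m : ℕ) : ℝ))) ^ i)
        ≤ C * (2 / Real.sqrt (Real.sqrt n)) * (D * 2 ^ i / (Real.sqrt (Real.sqrt n)) ^ i) := by
          gcongr
      _ = 2 * C * D * 2 ^ i / (Real.sqrt (Real.sqrt n)) ^ (i + 1) := by
          rw [pow_succ]
          field_simp

theorem thm_DE3 (hS : St_D3S) (hO : St_ORD) (hC : St_CMP) : St_DE3 := by
  intro L
  obtain ⟨c, hc, -, D, hD, N, H⟩ := DE3_iter hS hO hC (4 * (L + 1))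
  refine ⟨c, hc, N + ⌈D⌉₊ + 1, ?_⟩
  intro Q _ hQ h n q K ho hq hn hqn hK
  refine DE3_mono ?_ (H Q hQ h n q K ho hq (by omega) (by omega) hqn hK)
  have hnD : D ≤ n := by
    refine (Nat.le_ceil D).trans ?_
    have : ⌈D⌉₊ ≤ n := by omega
    exact_mod_cast this
  have hn1 : (0 : ℝ) < n := by linarith
  have h1 : (Real.sqrt (Real.sqrt n)) ^ (4 * (L + 1)) = (n : ℝ) ^ (L + 1) := by
    rw [pow_mul]
    congr 1
    have h2 : Real.sqrt (Real.sqrt n) ^ 2 = Real.sqrt n := Real.sq_sqrt (Real.sqrt_nonneg _)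
    calc Real.sqrt (Real.sqrt (n : ℝ)) ^ 4 = (Real.sqrt (Real.sqrt (n : ℝ)) ^ 2) ^ 2 := by ring
      _ = (n : ℝ) := by rw [h2, Real.sq_sqrt hn1.le]
  rw [h1, div_le_div_iff₀ (by positivity) (by positivity), one_mul, pow_succ, mul_comm]
  exact mul_le_mul_of_nonneg_left hnD (by positivity)

end Pool.Agent.SLD
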