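import Pool.Agent.SLD.StA

/-!
SLD, module DEQ: decay, order prime to 3 (helper5).
-/

set_option autoImplicit false

namespace Pool.Agent.SLD

open Finset

private theorem DEQ_ev (A B : ℕ) (a : ℝ) (ha : 1 / 2 ≤ a) (ha1 : a < 1) :
    ∃ r₀ : ℕ, ∀ r : ℕ, r₀ ≤ r → (A : ℝ) * ((r : ℝ) + 1) ^ B * a ^ r ≤ 1 := by
  have h0 : |a| < 1 := by
    rw [abs_lt]
    constructor <;> linarith
  have h1 := tendsto_pow_const_mul_const_pow_of_abs_lt_one B h0
  have h2 : ∀ᶠ n : ℕ in Filter.atTop, (n : ℝ) ^ B * a ^ n < 1 / (2 * A + 1) :=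
    h1.eventually (gt_mem_nhds (by positivity))
  obtain ⟨n₀, hn₀⟩ := Filter.eventually_atTop.1 h2
  refine ⟨n₀, fun r hr => ?_⟩
  have h3 := hn₀ (r + 1) (by omega)
  push_cast at h3
  have ha0 : 0 < a := by linarith
  have h4 : ((r : ℝ) + 1) ^ B * a ^ r ≤ 2 * (((r : ℝ) + 1) ^ B * a ^ (r + 1)) := by
    rw [pow_succ]
    have h5 : 0 ≤ ((r : ℝ) + 1) ^ B * a ^ r := by positivity
    nlinarith
  have hA : (0 : ℝ) ≤ A := Nat.cast_nonneg A
  calc (A : ℝ) * ((r : ℝ) + 1) ^ B * a ^ r = A * (((r : ℝ) + 1) ^ B * a ^ r) := by ring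
    _ ≤ A * (2 * (1 / (2 * A + 1))) := by
        refine mul_le_mul_of_nonneg_left (h4.trans ?_) hA
        linarith
    _ ≤ 1 := by
        rw [mul_one_div, mul_div_assoc', div_le_one (by positivity)]
        linarith

private theorem DEQ_mono (Q : ℕ) [NeZero Q] (K : ℕ) (b b' : ℝ) (h : ZMod Q) (hb : b ≤ b')
    (H : GB Q K b h) : GB Q K b' h := fun S => (H S).trans hb

private theorem DEQ_ord (hO : St_ORD) (Q : ℕ) [NeZero Q] (hQ : Odd Q) (h : ZMod Q)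
    (h3 : ¬ 3 ∣ addOrderOf h) (m t : ℕ) :
    addOrderOf (3 ^ m * hf Q ^ t * h) = addOrderOf h :=
  ((hO Q hQ h 0 (addOrderOf h) (by simp) h3).2.1 m t (Nat.zero_le m))

/-- iteration -/
private theorem DEQ_it (hC : St_CMP) (hO : St_ORD) (Q : ℕ) [NeZero Q] (hQ : Odd Q) (N M : ℕ)
    (β : ℝ) (hβ : 0 ≤ β) (h3 : ¬ 3 ∣ N)
    (step : ∀ h : ZMod Q, addOrderOf h = N → ∃ m ≤ M, ∀ (K : ℕ) (b : ℝ), 0 ≤ b →
      (∀ t : ℕ, GB Q K b (3 ^ m * hf Q ^ t * h)) → GB Q (m + K) (β * b) h) :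
    ∀ (r K : ℕ) (h : ZMod Q), addOrderOf h = N → r * M ≤ K → GB Q K (β ^ r) h := by
  intro r
  induction r with
  | zero =>
    intro K h _ _
    rw [pow_zero]
    exact (hC Q hQ).2.2.2.2.1 K h
  | succ r ih =>
    intro K h hN hK
    obtain ⟨m, hm, hs⟩ := step h hN
    have h1 : r * M + M ≤ K := by rwa [Nat.succ_mul] at hK
    have h2 : K = m + (K - m) := by omega
    rw [h2, pow_succ']
    refine hs (K - m) (β ^ r) (pow_nonneg hβ r) fun t => ih (K - m) _ ?_ (by omega)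
    rw [DEQ_ord hO Q hQ h (by rwa [hN]), hN]

theorem thm_DEQ (hA : St_DQA) (hB : St_DQB) (hO : St_ORD) (hC : St_CMP) : St_DEQ := by
  intro L
  obtain ⟨C, hC0, Q₁, hA⟩ := hA
  -- the threshold for `ℓ`
  obtain ⟨ℓ₀, hℓ₀⟩ : ∃ ℓ₀ : ℝ, ∀ ℓ : ℝ, ℓ₀ ≤ ℓ → C ^ 6 * Real.log ℓ ^ 3 ≤ ℓ := by
    have h1 := (Asymptotics.isLittleO_iff.1 (Real.isLittleO_pow_log_id_atTop (n := 3)))
      (show (0 : ℝ) < 1 / C ^ 6 by positivity)
    obtain ⟨ℓ₀, h2⟩ := Filter.eventually_atTop.1 h1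
    refine ⟨max ℓ₀ 1, fun ℓ hℓ => ?_⟩
    have h3 := h2 ℓ ((le_max_left _ _).trans hℓ)
    have h4 : (1 : ℝ) ≤ ℓ := (le_max_right _ _).trans hℓ
    rw [id, Real.norm_eq_abs, Real.norm_eq_abs, abs_of_nonneg (show (0 : ℝ) ≤ ℓ by linarith)] at h3
    have h5 := (le_abs_self _).trans h3
    rw [div_mul_eq_mul_div, one_mul, le_div_iff₀ (by positivity)] at h5
    linarith
  set Q₂ : ℕ := max Q₁ ⌈Real.exp (max ℓ₀ 8)⌉₊ with hQ₂
  obtain ⟨c₂, hc₂, hB⟩ := hB Q₂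
  set a : ℝ := 1 - min c₂ (1 / 2) with ha
  have ha1 : a < 1 := by
    have : 0 < min c₂ (1 / 2) := lt_min hc₂ (by norm_num)
    linarith
  have ha2 : 1 / 2 ≤ a := by
    have : min c₂ (1 / 2) ≤ 1 / 2 := min_le_right _ _
    linarith
  have ha3 : 1 - c₂ ≤ a := by
    have : min c₂ (1 / 2) ≤ c₂ := min_le_left _ _
    linarith
  obtain ⟨r₀, hr₀⟩ := DEQ_ev (16 ^ L) (2 * L) (1 / 2) le_rfl (by norm_num)
  obtain ⟨r₁, hr₁⟩ := DEQ_ev (2 ^ L) L a ha2 ha1
  refine ⟨1 / (4 * (6 * L + 1)), by positivity, 16 * (r₀ + 1) ^ 2 + 2 * (r₁ + 1), ?_⟩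
  intro Q _ hQ h K h3 h1N hK hKN
  set N := addOrderOf h with hN
  have hKpos : 0 < K := by
    have : 0 < 2 * (r₁ + 1) := by omega
    omega
  have hKr : (0 : ℝ) < K := by exact_mod_cast hKpos
  rcases Nat.lt_or_ge N Q₂ with hNQ | hNQ
  · -- bounded order
    have hstep : ∀ h' : ZMod Q, addOrderOf h' = N → ∃ m ≤ 2, ∀ (K : ℕ) (b : ℝ), 0 ≤ b →
        (∀ t : ℕ, GB Q K b (3 ^ m * hf Q ^ t * h')) → GB Q (m + K) (a * b) h' := by
      intro h' hh'
      refine ⟨2, le_rfl, fun K' b hb H => ?_⟩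
      have h5 := hB Q hQ h' (by rw [hh']; exact h3) (by rw [hh']; exact h1N)
        (by rw [hh']; exact hNQ.le) K' b hb H
      exact DEQ_mono Q _ _ _ h' (mul_le_mul_of_nonneg_right ha3 hb) h5
    have h6 := DEQ_it hC hO Q hQ N 2 a (by linarith) h3 hstep (K / 2) K h rfl
      (Nat.div_mul_le_self K 2)
    refine DEQ_mono Q _ _ _ h ?_ h6
    have hr : r₁ ≤ K / 2 := by omega
    have h7 := hr₁ (K / 2) hr
    have h8 : (K : ℝ) ≤ 2 * (((K / 2 : ℕ) : ℝ) + 1) := by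
      have : K ≤ 2 * (K / 2 + 1) := by omega
      exact_mod_cast this
    rw [le_div_iff₀ (by positivity)]
    refine le_trans ?_ h7
    have h9 : (K : ℝ) ^ L ≤ (2 : ℝ) ^ L * (((K / 2 : ℕ) : ℝ) + 1) ^ L := by
      rw [← mul_pow]
      exact pow_le_pow_left₀ hKr.le h8 L
    have h10 : 0 ≤ a ^ (K / 2) := pow_nonneg (by linarith) _
    push_cast
    nlinarith
  · -- large order
    have hN1 : Q₁ ≤ N := (le_max_left _ _).trans hNQ
    have hN2 : Real.exp (max ℓ₀ 8) ≤ N :=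
      (Nat.le_ceil _).trans (by exact_mod_cast (le_max_right _ _).trans hNQ)
    have hℓ : max ℓ₀ 8 ≤ Real.log N := by
      rw [Real.le_log_iff_exp_le (lt_of_lt_of_le (Real.exp_pos _) hN2)]
      exact hN2
    set ℓ := Real.log N with hℓdef
    have hℓ1 : ℓ₀ ≤ ℓ := (le_max_left _ _).trans hℓ
    have hℓ2 : 8 ≤ ℓ := (le_max_right _ _).trans hℓ
    have hℓp : 0 < ℓ := by linarith
    set β : ℝ := C * Real.sqrt (Real.log ℓ / ℓ) with hβ
    have hβ0 : 0 ≤ β := by positivity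
    have hlog : 0 ≤ Real.log ℓ := Real.log_nonneg (by linarith)
    have hβ6 : β ^ 6 ≤ 1 / ℓ ^ 2 := by
      have e1 : β ^ 6 = C ^ 6 * Real.log ℓ ^ 3 / ℓ ^ 3 := by
        have e2 : Real.sqrt (Real.log ℓ / ℓ) ^ 6 = (Real.log ℓ / ℓ) ^ 3 := by
          rw [show (6 : ℕ) = 2 * 3 by norm_num, pow_mul, Real.sq_sqrt (by positivity)]
        rw [hβ, mul_pow, e2, div_pow, mul_div_assoc]
      rw [e1, div_le_div_iff₀ (by positivity) (by positivity)]
      have := hℓ₀ ℓ hℓ1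
      nlinarith [pow_pos hℓp 2]
    have hβ1 : β ≤ 1 / 2 := by
      have e3 : β ^ 6 ≤ (1 / 2) ^ 6 := by
        refine hβ6.trans ?_
        rw [one_div_pow, one_div_le_one_div (by positivity) (by positivity)]
        nlinarith
      exact le_of_pow_le_pow_left₀ (by norm_num) (by norm_num) e3
    set M := ⌊4 * ℓ⌋₊ with hM
    have hMle : (M : ℝ) ≤ 4 * ℓ := Nat.floor_le (by positivity)
    have hM0 : 0 < M := by
      rw [hM, Nat.floor_pos]
      linarith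
    have hstep : ∀ h' : ZMod Q, addOrderOf h' = N → ∃ m ≤ M, ∀ (K : ℕ) (b : ℝ), 0 ≤ b →
        (∀ t : ℕ, GB Q K b (3 ^ m * hf Q ^ t * h')) → GB Q (m + K) (β * b) h' := by
      intro h' hh'
      obtain ⟨m, hm, H⟩ := hA Q hQ h' (by rw [hh']; exact h3) (by rw [hh']; exact hN1)
      rw [hh'] at hm H
      exact ⟨m, Nat.le_floor hm, H⟩
    have h6 := DEQ_it hC hO Q hQ N M β hβ0 h3 hstep (K / M) K h rfl (Nat.div_mul_le_self K M)
    refine DEQ_mono Q _ _ _ h ?_ h6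
    set r := K / M with hr
    rw [le_div_iff₀ (by positivity)]
    rcases le_or_gt (ℓ ^ 2) K with hcase | hcase
    · have hK2 : K < (r + 1) * M := by
        rw [hr]
        have h7 := Nat.div_add_mod K M
        have h8 := Nat.mod_lt K hM0
        nlinarith
      have hK3 : (K : ℝ) < ((r : ℝ) + 1) * (4 * ℓ) := by
        have : (K : ℝ) < ((r : ℝ) + 1) * M := by exact_mod_cast hK2
        nlinarith
      have hK4 : (K : ℝ) < 16 * ((r : ℝ) + 1) ^ 2 := by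
        have h9 : (K : ℝ) ^ 2 < (((r : ℝ) + 1) * (4 * ℓ)) ^ 2 :=
          pow_lt_pow_left₀ hK3 hKr.le (by norm_num)
        have h10 : (((r : ℝ) + 1) * (4 * ℓ)) ^ 2 ≤ 16 * ((r : ℝ) + 1) ^ 2 * K := by
          have h11 : 0 ≤ 16 * ((r : ℝ) + 1) ^ 2 := by positivity
          nlinarith
        have h12 : (K : ℝ) * K < 16 * ((r : ℝ) + 1) ^ 2 * K := by nlinarith
        exact lt_of_mul_lt_mul_right h12 hKr.le
      have hrr : r₀ ≤ r := by
        by_contra hcon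
        push Not at hcon
        have h13 : K < 16 * (r + 1) ^ 2 := by exact_mod_cast hK4
        have h14 : 16 * (r + 1) ^ 2 ≤ 16 * (r₀ + 1) ^ 2 :=
          Nat.mul_le_mul_left _ (Nat.pow_le_pow_left (by omega) 2)
        omega
      have h15 := hr₀ r hrr
      refine le_trans ?_ h15
      have h16 : β ^ r ≤ (1 / 2) ^ r := pow_le_pow_left₀ hβ0 hβ1 r
      have h17 : (K : ℝ) ^ L ≤ (16 : ℝ) ^ L * ((r : ℝ) + 1) ^ (2 * L) := by
        rw [pow_mul, ← mul_pow]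
        exact pow_le_pow_left₀ hKr.le hK4.le L
      push_cast
      calc β ^ r * (K : ℝ) ^ L ≤ (1 / 2) ^ r * ((16 : ℝ) ^ L * ((r : ℝ) + 1) ^ (2 * L)) :=
            mul_le_mul h16 h17 (by positivity) (by positivity)
        _ = (16 : ℝ) ^ L * ((r : ℝ) + 1) ^ (2 * L) * (1 / 2) ^ r := by ring
    · have h7 : (6 * L + 1) * M ≤ K := by
        have h8 : ((6 * (L : ℝ) + 1)) * M ≤ K := by
          have h9 : (0 : ℝ) < 6 * L + 1 := by positivity
          calc (6 * (L : ℝ) + 1) * M ≤ (6 * L + 1) * (4 * ℓ) :=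
                mul_le_mul_of_nonneg_left hMle h9.le
            _ ≤ (6 * L + 1) * (4 * (1 / (4 * (6 * L + 1)) * K)) := by
                refine mul_le_mul_of_nonneg_left ?_ h9.le
                linarith
            _ = K := by field_simp
        exact_mod_cast h8
      have h8 : 6 * L ≤ r := by
        rw [hr, Nat.le_div_iff_mul_le hM0]
        nlinarith
      have h9 : β ^ r ≤ β ^ (6 * L) := pow_le_pow_of_le_one hβ0 (by linarith) h8
      have h10 : β ^ (6 * L) ≤ (1 / (K : ℝ)) ^ L := by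
        rw [pow_mul]
        refine pow_le_pow_left₀ (by positivity) (hβ6.trans ?_) L
        rw [one_div_le_one_div (by positivity) hKr]
        exact hcase.le
      calc β ^ r * (K : ℝ) ^ L ≤ (1 / (K : ℝ)) ^ L * (K : ℝ) ^ L :=
            mul_le_mul_of_nonneg_right (h9.trans h10) (by positivity)
        _ = 1 := by
            rw [← mul_pow, one_div_mul_cancel hKr.ne', one_pow]

end Pool.Agent.SLD
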