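import Pool.Agent.SLD.StA

/-!
SLD, module DIS (helper91): dissociation of the frequencies `3 ^ j * hf Q ^ t_j * h`.
-/

set_option autoImplicit false

namespace Pool.Agent.SLD

open Finset

theorem DIS_two {Q : ℕ} (hQ : Odd Q) : (2 : ZMod Q) * hf Q = 1 := by
  obtain ⟨m, rfl⟩ := hQ
  unfold hf
  have h1 : (2 * m + 1 + 1) / 2 = m + 1 := by omega
  rw [h1]
  have h2 : ((2 * m + 1 : ℕ) : ZMod (2 * m + 1)) = 0 := ZMod.natCast_self _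
  have h3 : (2 : ZMod (2 * m + 1)) * ((m + 1 : ℕ) : ZMod (2 * m + 1)) =
      ((2 * m + 1 : ℕ) : ZMod (2 * m + 1)) + 1 := by
    push_cast
    ring
  rw [h3, h2, zero_add]

/-- the integer `2 ^ t` times the sum, `t` the maximum -/
def DIS_U {J : ℕ} (t : Fin J → ℕ) (ε : Fin J → ℤ) : ℤ :=
  ∑ j, ε j * 3 ^ (j : ℕ) * 2 ^ (univ.sup t - t j)

theorem DIS_mul {Q : ℕ} (hQ : Odd Q) (h : ZMod Q) {J : ℕ} (t : Fin J → ℕ) (ε : Fin J → ℤ) :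
    (2 : ZMod Q) ^ univ.sup t * ∑ j, (ε j : ZMod Q) * (3 ^ (j : ℕ) * hf Q ^ t j * h) =
      (DIS_U t ε : ZMod Q) * h := by
  unfold DIS_U
  rw [Int.cast_sum, Finset.sum_mul, Finset.mul_sum]
  refine Finset.sum_congr rfl fun j _ => ?_
  have h1 : t j ≤ univ.sup t := Finset.le_sup (f := t) (mem_univ j)
  have h2 : (2 : ZMod Q) ^ univ.sup t = 2 ^ (univ.sup t - t j) * 2 ^ t j := by
    rw [← pow_add, Nat.sub_add_cancel h1]
  have h3 : (2 : ZMod Q) ^ t j * hf Q ^ t j = 1 := by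
    rw [← mul_pow, DIS_two hQ, one_pow]
  rw [h2]
  push_cast
  linear_combination (2 ^ (univ.sup t - t j) * (ε j : ZMod Q) * 3 ^ (j : ℕ) * h) * h3

theorem DIS_ndvd {J : ℕ} (t : Fin J → ℕ) (ε : Fin J → ℤ)
    (hε : ∀ j, ε j = 0 ∨ ε j = 1 ∨ ε j = -1) (h0 : ε ≠ 0) : ¬ (3 : ℤ) ^ J ∣ DIS_U t ε := by
  intro hdvd
  have hne : (univ.filter fun j => ε j ≠ 0).Nonempty := by
    obtain ⟨j, hj⟩ := Function.ne_iff.1 h0
    exact ⟨j, by simpa using hj⟩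
  obtain ⟨j₁, hj₁, hmin⟩ := Finset.exists_min_image _ (fun j : Fin J => (j : ℕ)) hne
  rw [mem_filter] at hj₁
  have h1 : (3 : ℤ) ^ ((j₁ : ℕ) + 1) ∣ DIS_U t ε :=
    (pow_dvd_pow 3 (Nat.succ_le_of_lt j₁.isLt)).trans hdvd
  have h2 : DIS_U t ε = ε j₁ * 3 ^ (j₁ : ℕ) * 2 ^ (univ.sup t - t j₁) +
      ∑ j ∈ univ.erase j₁, ε j * 3 ^ (j : ℕ) * 2 ^ (univ.sup t - t j) := by
    unfold DIS_U
    exact (Finset.add_sum_erase univ
      (fun j => ε j * 3 ^ (j : ℕ) * 2 ^ (univ.sup t - t j)) (mem_univ j₁)).symm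
  have h3 : (3 : ℤ) ^ ((j₁ : ℕ) + 1) ∣
      ∑ j ∈ univ.erase j₁, ε j * 3 ^ (j : ℕ) * 2 ^ (univ.sup t - t j) := by
    refine Finset.dvd_sum fun j hj => ?_
    by_cases h4 : ε j = 0
    · rw [h4, zero_mul, zero_mul]
      exact dvd_zero _
    · have h5 := hmin j (by rw [mem_filter]; exact ⟨mem_univ _, h4⟩)
      have h6 : (j₁ : ℕ) ≠ j := fun h => (Finset.ne_of_mem_erase hj) (Fin.ext h.symm)
      have h7 : (j₁ : ℕ) + 1 ≤ j := by omega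
      exact Dvd.dvd.mul_right (Dvd.dvd.mul_left (pow_dvd_pow 3 h7) _) _
  rw [h2] at h1
  have h4 : (3 : ℤ) ^ ((j₁ : ℕ) + 1) ∣ ε j₁ * 3 ^ (j₁ : ℕ) * 2 ^ (univ.sup t - t j₁) :=
    (dvd_add_left h3).1 h1
  have h5 : (3 : ℤ) ∣ ε j₁ * 2 ^ (univ.sup t - t j₁) := by
    rw [pow_succ, show ε j₁ * 3 ^ (j₁ : ℕ) * 2 ^ (univ.sup t - t j₁) =
      3 ^ (j₁ : ℕ) * (ε j₁ * 2 ^ (univ.sup t - t j₁)) by ring] at h4
    exact (mul_dvd_mul_iff_left (pow_ne_zero _ (by norm_num))).1 h4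
  have h3p : Prime (3 : ℤ) := Int.prime_three
  rcases h3p.dvd_or_dvd h5 with h6 | h6
  · rcases hε j₁ with h | h | h
    · exact hj₁.2 h
    · rw [h] at h6
      norm_num at h6
    · rw [h] at h6
      norm_num at h6
  · have h7 := h3p.dvd_of_dvd_pow h6
    norm_num at h7

theorem DIS_abs {J : ℕ} (t : Fin J → ℕ) (ε : Fin J → ℤ)
    (hε : ∀ j, ε j = 0 ∨ ε j = 1 ∨ ε j = -1) (T : ℕ) (hT : ∀ j, t j ≤ T) :
    |DIS_U t ε| ≤ J * 3 ^ J * 2 ^ T := by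
  unfold DIS_U
  refine (Finset.abs_sum_le_sum_abs _ _).trans ?_
  have h1 : ∀ j ∈ (univ : Finset (Fin J)),
      |ε j * 3 ^ (j : ℕ) * 2 ^ (univ.sup t - t j)| ≤ (3 : ℤ) ^ J * 2 ^ T := by
    intro j _
    rw [abs_mul, abs_mul, abs_of_nonneg (a := (3 : ℤ) ^ (j : ℕ)) (by positivity),
      abs_of_nonneg (a := (2 : ℤ) ^ (univ.sup t - t j)) (by positivity)]
    have h2 : |ε j| ≤ 1 := by
      rcases hε j with h | h | h <;> rw [h] <;> norm_num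
    have h3 : (3 : ℤ) ^ (j : ℕ) ≤ 3 ^ J := pow_le_pow_right₀ (by norm_num) j.isLt.le
    have h4 : univ.sup t - t j ≤ T := (Nat.sub_le _ _).trans (Finset.sup_le fun i _ => hT i)
    have h5 : (2 : ℤ) ^ (univ.sup t - t j) ≤ 2 ^ T := pow_le_pow_right₀ (by norm_num) h4
    calc |ε j| * 3 ^ (j : ℕ) * 2 ^ (univ.sup t - t j) ≤ 1 * 3 ^ J * 2 ^ T := by gcongr
      _ = 3 ^ J * 2 ^ T := by ring
  refine (Finset.sum_le_sum h1).trans ?_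
  rw [Finset.sum_const, card_univ, Fintype.card_fin, nsmul_eq_mul, mul_assoc]

theorem thm_DIS : St_DIS := by
  intro Q _ hQ h J t ε hord hε h0 hsum
  have h1 := DIS_mul hQ h t ε
  rw [hsum, mul_zero] at h1
  have h2 : (addOrderOf h : ℤ) ∣ DIS_U t ε := by
    rw [addOrderOf_dvd_iff_zsmul_eq_zero, zsmul_eq_mul]
    exact h1.symm
  have h3 := DIS_ndvd t ε hε h0
  rcases hord with hord | ⟨T, hT, hlt⟩
  · exact h3 ((by exact_mod_cast hord : (3 : ℤ) ^ J ∣ (addOrderOf h : ℤ)).trans h2)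
  · have h4 : DIS_U t ε ≠ 0 := fun h5 => h3 (by rw [h5]; exact dvd_zero _)
    have h5 : (addOrderOf h : ℤ) ≤ |DIS_U t ε| :=
      Int.le_of_dvd (abs_pos.2 h4) ((dvd_abs _ _).2 h2)
    have h6 := DIS_abs t ε hε T hT
    have h7 : ((J * 3 ^ J * 2 ^ T : ℕ) : ℤ) < (addOrderOf h : ℤ) := by exact_mod_cast hlt
    push_cast at h7
    linarith

end Pool.Agent.SLD
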