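import Pool.Agent.SLD.StA

/-!
SLD, module DQA: one decay step, order prime to 3 and large
-/

set_option autoImplicit false

namespace Pool.Agent.SLD

open Finset Filter Topology

private theorem DQA_gb_mono {Q : ℕ} [NeZero Q] {k : ℕ} {b b' : ℝ} {h : ZMod Q} (hb : b ≤ b')
    (H : GB Q k b h) : GB Q k b' h := fun S => (H S).trans hb

private theorem DQA_p_nonneg (k s : ℕ) : 0 ≤ p k s := by
  unfold p
  positivity

private theorem DQA_exp10 : (6144 : ℝ) ≤ Real.exp 10 := by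
  have h1 := Real.exp_one_gt_d9
  have h2 : Real.exp 10 = Real.exp 1 ^ 10 := by
    rw [← Real.exp_nat_mul]
    norm_num
  rw [h2]
  have h3 : (2.7 : ℝ) ^ 10 ≤ Real.exp 1 ^ 10 := by
    apply pow_le_pow_left₀ (by norm_num)
    linarith
  refine le_trans ?_ h3
  norm_num

theorem thm_DQA (h1 : St_BLK) (h2 : St_CMG) (h3 : St_TAL) : St_DQA := by
  obtain ⟨⟨ρ, hρ0, hρ1, hρ⟩, htl⟩ := h3
  obtain ⟨Cr, hCr⟩ : ∃ Cr : ℝ, ∀ k : ℕ, (k : ℝ) * ρ ^ k ≤ Cr := by
    obtain ⟨Cr, hCr⟩ := (tendsto_self_mul_const_pow_of_lt_one hρ0.le hρ1).bddAbove_range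
    exact ⟨Cr, fun k => hCr ⟨k, rfl⟩⟩
  have hCr0 : 0 ≤ Cr := by
    have := hCr 0
    simpa using this
  refine ⟨47 + 2 * Cr, by linarith, ⌈Real.exp 500⌉₊, ?_⟩
  intro Q _ hQ h h3N hN
  set N := addOrderOf h with hNdef
  have hN1 : Real.exp 500 ≤ (N : ℝ) := (Nat.le_ceil _).trans (by exact_mod_cast hN)
  have hN0 : (0 : ℝ) < N := lt_of_lt_of_le (Real.exp_pos _) hN1
  set l := Real.log (N : ℝ) with hl
  have hexp : Real.exp l = N := Real.exp_log hN0
  have hl500 : 500 ≤ l := by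
    rw [hl, Real.le_log_iff_exp_le hN0]
    exact hN1
  set J := ⌊l / 10⌋₊ with hJ
  set k := ⌈2 * l⌉₊ with hk
  have hJ1 : (J : ℝ) ≤ l / 10 := Nat.floor_le (by linarith)
  have hJ2 : l / 10 < (J : ℝ) + 1 := Nat.lt_floor_add_one _
  have hk1 : 2 * l ≤ (k : ℝ) := Nat.le_ceil _
  have hk2 : (k : ℝ) < 2 * l + 1 := Nat.ceil_lt_add_one (by linarith)
  have hJ3 : l / 20 ≤ (J : ℝ) := by linarith
  have hJpos : (0 : ℝ) < J := by linarith
  have hkpos : (0 : ℝ) < k := by linarith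
  have hJ0 : 1 ≤ J := by
    have : 0 < J := by exact_mod_cast hJpos
    omega
  have hk0 : 1 ≤ k := by
    have : 0 < k := by exact_mod_cast hkpos
    omega
  have he10 : Real.exp 10 ^ J ≤ N := by
    rw [← Real.exp_nat_mul, ← hexp]
    apply Real.exp_le_exp.2
    linarith
  have h3J : (3 : ℝ) ^ J ≤ N := by
    refine le_trans (pow_le_pow_left₀ (by norm_num) ?_ J) he10
    linarith [DQA_exp10]
  -- first numerical condition
  have hsm : (N : ℝ) * 3 ^ J ≤ (k : ℝ) ^ 2 * 2 ^ ((3 * k + 1) / 2) := by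
    have e1 : (N : ℝ) * 3 ^ J ≤ Real.exp (2 * l) := by
      have : Real.exp (2 * l) = N * N := by
        rw [two_mul, Real.exp_add, hexp]
      rw [this]
      exact mul_le_mul_of_nonneg_left h3J hN0.le
    have e2 : Real.exp (2 * l) ≤ (2 : ℝ) ^ ((3 * k + 1) / 2) := by
      have e3 : (2 : ℝ) ^ ((3 * k + 1) / 2) =
          Real.exp (((3 * k + 1) / 2 : ℕ) * Real.log 2) := by
        rw [Real.exp_nat_mul, Real.exp_log (by norm_num)]
      rw [e3]
      apply Real.exp_le_exp.2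
      have e4 : 3 * l ≤ (((3 * k + 1) / 2 : ℕ) : ℝ) := by
        have e5 : 3 * k ≤ 2 * ((3 * k + 1) / 2) := by omega
        have e6 : (3 : ℝ) * k ≤ 2 * (((3 * k + 1) / 2 : ℕ) : ℝ) := by exact_mod_cast e5
        linarith
      have e7 := Real.log_two_gt_d9
      nlinarith
    have e8 : (1 : ℝ) ≤ (k : ℝ) ^ 2 := by
      apply one_le_pow₀
      exact_mod_cast hk0
    have e9 : (0 : ℝ) < 2 ^ ((3 * k + 1) / 2) := by positivity
    nlinarith [e1.trans e2]
  have hsm' : N * 3 ^ J ≤ k ^ 2 * 2 ^ ((3 * k + 1) / 2) := by exact_mod_cast hsm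
  -- second numerical condition
  have hT : (J : ℝ) * 3 ^ J * 2 ^ (10 * J) < N := by
    refine lt_of_lt_of_le ?_ he10
    have e1 : (J : ℝ) < 2 ^ J := by exact_mod_cast Nat.lt_two_pow_self
    have e2 : (2 : ℝ) ^ J * 3 ^ J * 2 ^ (10 * J) = 6144 ^ J := by
      rw [pow_mul, ← mul_pow, ← mul_pow]
      norm_num
    have e3 : (6144 : ℝ) ^ J ≤ Real.exp 10 ^ J := pow_le_pow_left₀ (by norm_num) DQA_exp10 J
    refine lt_of_lt_of_le ?_ e3
    rw [← e2]
    have e4 : (0 : ℝ) < 3 ^ J := by positivity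
    have e5 : (0 : ℝ) < 2 ^ (10 * J) := by positivity
    exact mul_lt_mul_of_pos_right (mul_lt_mul_of_pos_right e1 e4) e5
  have hT' : J * 3 ^ J * 2 ^ (10 * J) < N := by exact_mod_cast hT
  -- tails
  have hlow : ∑ s ∈ range ((3 * k + 1) / 2), p k s ≤ ρ ^ k := by
    refine le_trans ?_ (hρ k).1
    refine sum_le_sum_of_subset_of_nonneg ?_ fun s _ _ => DQA_p_nonneg k s
    intro s hs
    rw [mem_range] at hs ⊢
    omega
  obtain ⟨j, hj, hjb⟩ := h1 Q hQ h k J ((3 * k + 1) / 2) (10 * J) (fun t => t ≤ 10 * J) (ρ ^ k)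
    hk0 hJ0 hsm' (Or.inr ⟨fun t ht => ht, hT'⟩) hlow (hρ k).2.2
  refine ⟨j + k, ?_, ?_⟩
  · push_cast
    have : (j : ℝ) < J := by exact_mod_cast hj
    linarith
  intro K b hb hGB
  set β := Real.sqrt (4 * Real.log (2 * (k : ℝ) ^ 5) / J) + 2 * (2 * ρ ^ k + 5 / k) with hβ
  have hβ0 : 0 ≤ β := by
    rw [hβ]
    positivity
  have hal : ∀ S : ℕ, ∑ t ∈ range S, (if t ≤ 10 * J then 0 else p j t) ≤ (1 / 2 : ℝ) ^ J := by
    intro S
    refine le_trans (le_of_eq ?_) (htl j J S hj.le)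
    have e1 : Ico (10 * J + 1) S = (range S).filter fun t => ¬ t ≤ 10 * J := by
      ext t
      simp only [mem_Ico, mem_filter, mem_range]
      omega
    rw [e1, sum_filter]
    refine sum_congr rfl fun t _ => ?_
    by_cases ht : t ≤ 10 * J
    · rw [if_pos ht, if_neg (not_not.2 ht)]
    · rw [if_neg ht, if_pos ht]
  have hfin := h2 Q hQ h j k K (fun t => t ≤ 10 * J) β ((1 / 2 : ℝ) ^ J) b hβ0 (by positivity) hb
    hjb hal hGB
  refine DQA_gb_mono (mul_le_mul_of_nonneg_right ?_ hb) hfin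
  -- the final estimate
  set x := Real.sqrt (Real.log l / l) with hx
  have hlpos : 0 < l := by linarith
  have hlogl : 1 ≤ Real.log l := by
    rw [Real.le_log_iff_exp_le hlpos]
    have := Real.exp_one_lt_d9
    linarith
  have h486 : Real.log 486 ≤ Real.log l := Real.log_le_log (by norm_num) (by linarith)
  have hxl : 1 / l ≤ x := by
    rw [hx]
    apply Real.le_sqrt_of_sq_le
    rw [div_pow, one_pow, sq]
    rw [div_le_div_iff₀ (by positivity) hlpos]
    nlinarith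
  have ht1 : Real.sqrt (4 * Real.log (2 * (k : ℝ) ^ 5) / J) ≤ 22 * x := by
    have e1 : Real.log (2 * (k : ℝ) ^ 5) ≤ 6 * Real.log l := by
      have e2 : 2 * (k : ℝ) ^ 5 ≤ 486 * l ^ 5 := by
        have e3 : (k : ℝ) ≤ 3 * l := by linarith
        have e4 : (k : ℝ) ^ 5 ≤ (3 * l) ^ 5 := pow_le_pow_left₀ hkpos.le e3 5
        calc 2 * (k : ℝ) ^ 5 ≤ 2 * (3 * l) ^ 5 := by linarith
          _ = 486 * l ^ 5 := by ring
      have e5 : Real.log (2 * (k : ℝ) ^ 5) ≤ Real.log (486 * l ^ 5) :=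
        Real.log_le_log (by positivity) e2
      have e6 : Real.log (486 * l ^ 5) = Real.log 486 + 5 * Real.log l := by
        rw [Real.log_mul (by norm_num) (by positivity), Real.log_pow]
        norm_num
      rw [e6] at e5
      linarith
    have e6 : 4 * Real.log (2 * (k : ℝ) ^ 5) / J ≤ 22 ^ 2 * (Real.log l / l) := by
      rw [div_le_iff₀ hJpos]
      have e7 : Real.log l / l * l = Real.log l := by
        field_simp
      have e8 : 0 ≤ Real.log l / l := by positivity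
      have e9 := mul_le_mul_of_nonneg_left hJ3 e8
      have e10 : Real.log l / l * (l / 20) = Real.log l / 20 := by
        field_simp
      rw [e10] at e9
      have e11 : 22 ^ 2 * (Real.log l / l) * (J : ℝ) = 484 * (Real.log l / l * (J : ℝ)) := by ring
      rw [e11]
      linarith
    calc Real.sqrt (4 * Real.log (2 * (k : ℝ) ^ 5) / J)
        ≤ Real.sqrt (22 ^ 2 * (Real.log l / l)) := Real.sqrt_le_sqrt e6
      _ = 22 * x := by
        rw [Real.sqrt_mul (by norm_num), Real.sqrt_sq (by norm_num)]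
  have ht2 : 2 * (2 * ρ ^ k + 5 / k) ≤ (2 * Cr + 5) * (1 / l) := by
    have e1 : ρ ^ k ≤ Cr / k := by
      rw [le_div_iff₀ hkpos]
      have := hCr k
      linarith
    have e2 : (1 : ℝ) / k ≤ 1 / (2 * l) := one_div_le_one_div_of_le (by linarith) hk1
    have e3 : Cr / k ≤ Cr * (1 / (2 * l)) := by
      rw [div_eq_mul_one_div]
      exact mul_le_mul_of_nonneg_left e2 hCr0
    have e4 : (5 : ℝ) / k ≤ 5 * (1 / (2 * l)) := by
      rw [div_eq_mul_one_div]
      exact mul_le_mul_of_nonneg_left e2 (by norm_num)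
    have e5 : 2 * (2 * (Cr * (1 / (2 * l))) + 5 * (1 / (2 * l))) = (2 * Cr + 5) * (1 / l) := by
      field_simp
    linarith
  have ht3 : (1 / 2 : ℝ) ^ J ≤ 20 * (1 / l) := by
    have e1 : (J : ℝ) < 2 ^ J := by exact_mod_cast Nat.lt_two_pow_self
    have e2 : (1 / 2 : ℝ) ^ J = 1 / 2 ^ J := by
      rw [div_pow, one_pow]
    rw [e2]
    have e3 : (1 : ℝ) / 2 ^ J ≤ 1 / (l / 20) :=
      one_div_le_one_div_of_le (by positivity) (hJ3.trans e1.le)
    have e4 : (1 : ℝ) / (l / 20) = 20 * (1 / l) := by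
      field_simp
    linarith
  have hx2 : (2 * Cr + 5) * (1 / l) ≤ (2 * Cr + 5) * x :=
    mul_le_mul_of_nonneg_left hxl (by linarith)
  have hx3 : 20 * (1 / l) ≤ 20 * x := mul_le_mul_of_nonneg_left hxl (by norm_num)
  rw [hβ]
  linarith

end Pool.Agent.SLD
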