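import Pool.Agent.SLD.StA

/-!
SLD: [DQB] one decay step, order prime to 3 and bounded (helper52).
-/

set_option autoImplicit false
set_option linter.unusedVariables false

namespace Pool.Agent.SLD

open Finset Filter Topology
open Pool.Agent.Collatz3 (cw)

private theorem DQB_min (S : Finset ℂ) (f : ℂ → ℝ) (h : ∀ z ∈ S, 0 < f z) :
    ∃ c : ℝ, 0 < c ∧ ∀ z ∈ S, c ≤ f z := by
  rcases S.eq_empty_or_nonempty with h0 | h0
  · exact ⟨1, one_pos, fun z hz => absurd (h0 ▸ hz) (Finset.notMem_empty z)⟩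
  · obtain ⟨z, hz, hz2⟩ := S.exists_min_image f h0
    exact ⟨f z, h z hz, hz2⟩

private theorem DQB_lt (z : ℂ) (h1 : ‖z‖ = 1) (h2 : z ≠ 1) : 0 < 2 - ‖1 + z‖ := by
  have h3 : z.re ^ 2 + z.im ^ 2 = 1 := by
    have h4 := Complex.sq_norm z
    rw [h1, Complex.normSq_apply] at h4
    nlinarith
  have h4 : ‖1 + z‖ ^ 2 = (1 + z.re) ^ 2 + z.im ^ 2 := by
    rw [Complex.sq_norm, Complex.normSq_apply, Complex.add_re, Complex.add_im, Complex.one_re,
      Complex.one_im]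
    ring
  have h5 : z.re < 1 := by
    by_contra h6
    have h7 : z.re = 1 := by nlinarith [sq_nonneg z.im]
    have h8 : z.im = 0 := by
      rw [h7] at h3
      have h9 : z.im ^ 2 = 0 := by linarith
      exact pow_eq_zero_iff (two_ne_zero) |>.1 h9
    exact h2 (Complex.ext h7 h8)
  have h6 : ‖1 + z‖ ^ 2 < 2 ^ 2 := by
    rw [h4]
    nlinarith
  have h7 := lt_of_pow_lt_pow_left₀ 2 (by norm_num) h6
  linarith

/-- the roots of unity of order at most `Q₁` -/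
private theorem DQB_unif (Q₁ : ℕ) : ∃ c : ℝ, 0 < c ∧ ∀ (z : ℂ) (q : ℕ), 0 < q → q ≤ Q₁ →
    z ^ q = 1 → ‖z‖ = 1 → z ≠ 1 → ‖1 + z‖ ≤ 2 - c := by
  classical
  obtain ⟨c, hc, h⟩ := DQB_min (((Icc 1 Q₁).biUnion fun q =>
    (Polynomial.nthRoots q (1 : ℂ)).toFinset).filter fun z => ‖z‖ = 1 ∧ z ≠ 1)
    (fun z => 2 - ‖1 + z‖) (by
      intro z hz
      rw [Finset.mem_filter] at hz
      exact DQB_lt z hz.2.1 hz.2.2)
  refine ⟨c, hc, fun z q hq hq1 hz hz1 hz2 => ?_⟩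
  have h1 := h z (by
    rw [Finset.mem_filter, Finset.mem_biUnion]
    refine ⟨⟨q, Finset.mem_Icc.2 ⟨hq, hq1⟩, ?_⟩, hz1, hz2⟩
    rw [Multiset.mem_toFinset, Polynomial.mem_nthRoots hq]
    exact hz)
  linarith

private theorem DQB_W : W 2 3 = {[1, 2], [2, 1]} := by decide

/-- the Fourier coefficient of the words `12` and `21` -/
private theorem DQB_F (Q : ℕ) [NeZero Q] (h : ZMod Q) (h2 : (2 : ZMod Q) * hf Q = 1) :
    ‖F Q 2 3 h‖ = ‖1 + ZMod.stdAddChar (h * hf Q ^ 2)‖ / 8 := by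
  have hX : X Q [1, 2] = hf Q ^ 2 + X Q [2, 1] := by
    unfold X
    have e1 : cw [1, 2] = 7 := by decide
    have e2 : cw [2, 1] = 5 := by decide
    have e3 : ([1, 2] : List ℕ).sum = 3 := by decide
    have e4 : ([2, 1] : List ℕ).sum = 3 := by decide
    rw [e1, e2, e3, e4]
    push_cast
    calc (7 : ZMod Q) * hf Q ^ 3 = (2 * hf Q) * hf Q ^ 2 + 5 * hf Q ^ 3 := by ring
      _ = hf Q ^ 2 + 5 * hf Q ^ 3 := by rw [h2, one_mul]
  have hne : ([1, 2] : List ℕ) ∉ ({[2, 1]} : Finset (List ℕ)) := by decide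
  unfold F
  rw [DQB_W, Finset.sum_insert hne, Finset.sum_singleton, hX, mul_add, AddChar.map_add_eq_mul,
    norm_div]
  have e5 : (ZMod.stdAddChar (h * hf Q ^ 2) : ℂ) * ZMod.stdAddChar (h * X Q [2, 1]) +
      ZMod.stdAddChar (h * X Q [2, 1]) =
      ZMod.stdAddChar (h * X Q [2, 1]) * (1 + ZMod.stdAddChar (h * hf Q ^ 2)) := by ring
  rw [e5, norm_mul, AddChar.norm_apply, one_mul, norm_pow]
  norm_num

theorem thm_DQB (h1 : St_WRD) (h2 : St_CMP) (h3 : St_CMG) : St_DQB := by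
  classical
  intro Q₁
  obtain ⟨c, hc, hu⟩ := DQB_unif Q₁
  refine ⟨min (c / 8) 1, lt_min (by positivity) one_pos, ?_⟩
  intro Q _ hQ h hh3 hh1 hhQ K b hb hGB
  obtain ⟨hf2, -, -, hp, -, -⟩ := h2 Q hQ
  have hc0 : 0 ≤ 1 - min (c / 8) 1 := by
    have := min_le_right (c / 8) (1 : ℝ)
    linarith
  -- the root of unity
  have hz1 : (ZMod.stdAddChar (h * hf Q ^ 2) : ℂ) ^ addOrderOf h = 1 := by
    rw [← AddChar.map_nsmul_eq_pow, ← smul_mul_assoc, addOrderOf_nsmul_eq_zero, zero_mul,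
      AddChar.map_zero_eq_one]
  have hz2 : (ZMod.stdAddChar (h * hf Q ^ 2) : ℂ) ≠ 1 := by
    intro h4
    have h5 : h * hf Q ^ 2 = 0 := by
      apply ZMod.injective_stdAddChar
      rw [h4, AddChar.map_zero_eq_one]
    have h6 : h = 0 := by
      calc h = h * hf Q ^ 2 * 2 ^ 2 := by
            rw [mul_assoc, ← mul_pow, mul_comm (hf Q) 2, hf2, one_pow, mul_one]
        _ = 0 := by rw [h5, zero_mul]
    rw [h6, addOrderOf_zero] at hh1
    exact lt_irrefl _ hh1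
  have h4 := hu _ (addOrderOf h) (by omega) hhQ hz1 (AddChar.norm_apply _ _) hz2
  have hF : ‖F Q 2 3 h‖ ≤ p 2 3 - min (c / 8) 1 := by
    have h5 : p 2 3 = 1 / 4 := by
      unfold p
      rw [DQB_W]
      have h6 : #({[1, 2], [2, 1]} : Finset (List ℕ)) = 2 := by decide
      rw [h6]
      norm_num
    rw [DQB_F Q h hf2, h5]
    have h6 := min_le_left (c / 8) (1 : ℝ)
    linarith
  -- the sum over all words with two letters
  have hmain : ∀ S : ℕ, ∑ s ∈ range S, ‖F Q 2 s h‖ ≤ 1 - min (c / 8) 1 := by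
    intro S
    have h5 : ∑ s ∈ range S, ‖F Q 2 s h‖ ≤ ∑ s ∈ range (max S 4), ‖F Q 2 s h‖ :=
      Finset.sum_le_sum_of_subset_of_nonneg
        (Finset.range_subset_range.2 (le_max_left _ _)) fun s _ _ => norm_nonneg _
    have h6 : (3 : ℕ) ∈ range (max S 4) := Finset.mem_range.2 (by
      have := le_max_right S 4
      omega)
    have h7 := h1.2.1 2 (max S 4)
    rw [← Finset.add_sum_erase _ _ h6] at h5 h7
    have h8 : ∑ s ∈ (range (max S 4)).erase 3, ‖F Q 2 s h‖ ≤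
        ∑ s ∈ (range (max S 4)).erase 3, p 2 s := Finset.sum_le_sum fun s _ => hp 2 s h
    linarith
  have h5 := h3 Q hQ h 0 2 K (fun t => t = 0) (1 - min (c / 8) 1) 0 b hc0 le_rfl hb ?_ ?_ ?_
  · rw [zero_add, add_zero] at h5
    exact h5
  · intro t ht S
    rw [ht, pow_zero, pow_zero, one_mul, one_mul]
    exact hmain S
  · intro S
    refine le_of_eq (Finset.sum_eq_zero fun t _ => ?_)
    by_cases h6 : t = 0
    · rw [if_pos h6]
    · rw [if_neg h6]
      unfold p W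
      rw [if_neg h6]
      simp
  · intro t
    rw [zero_add]
    exact hGB t

end Pool.Agent.SLD
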