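import Pool.Agent.SLD.StB

/-!
SLD, block FIE: all moduli, density form, for eventually invariant sets (helper87, adapting FIN).
-/

set_option autoImplicit false

namespace Pool.Agent.SLD

open Finset Filter Topology
open Pool.Agent.Collatz3 (cw)

private theorem FIE_1 {q R : ℝ} (h : q ^ 2 ≤ R) (h4 : ¬ q ≤ 4) : 4 * q ≤ R := by
  push Not at h4
  nlinarith

private theorem FIE_2 {u q₁ : ℝ} (hu : 0 < u) (h : 1 ≤ q₁) : u ≤ u * q₁ := by nlinarith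

private theorem FIE_3 {q : ℝ} (h : 1 ≤ q) : q ≤ q ^ 2 := by nlinarith

/-- `4 R u ≤ R ^ 2` for `4 u ≤ R` -/
private theorem FIE_4 {R u : ℝ} (hR : 0 < R) (h : 4 * u ≤ R) : 4 * R * u ≤ R ^ 2 := by nlinarith

private theorem FIE_5 {R Z X' w : ℝ} (hw : 1 ≤ w) (hR : 16 ≤ R) (h1 : -(2 * w) ≤ X' - w * Z)
    (h3 : 4 * R ≤ Z) : R ≤ X' := by
  have h4 : w * (4 * R) ≤ w * Z := mul_le_mul_of_nonneg_left h3 (by linarith)
  nlinarith

private theorem FIE_6 {ε R Z : ℝ} (hε : 0 < ε) (h : 4 * R ≤ Z) : ε * R ≤ ε / 4 * Z := by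
  nlinarith

private theorem FIE_7 {R : ℝ} (h : 16 ≤ R) : R / 2 ≤ R ^ 2 := by nlinarith

/-- [FIE] -/
theorem thm_FIE (hT : St_TWE) (hA : St_ALE) : St_FIE := by
  obtain ⟨δ₁, hδ₁, C₁, hC⟩ := hA 1
  set δ : ℝ := min (δ₁ / 4) (1 / 4) with hδ
  have hδ0 : 0 < δ := lt_min (by positivity) (by norm_num)
  refine ⟨δ, hδ0, ?_⟩
  intro σ K A d hσ hI hlim ε hε
  rw [Metric.tendsto_atTop] at hlim
  obtain ⟨Y₀, hY₀⟩ := hlim (ε / 16) (by positivity)
  set R₀ : ℝ := 16 + Y₀ + Real.exp (16 * |C₁| / ε) + |d| / ε + (K + 1) / ε +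
    (K : ℝ) ^ (1 / δ₁) with hR₀
  have hexp : 0 < Real.exp (16 * |C₁| / ε) := Real.exp_pos _
  have hKε : 0 ≤ ((K : ℝ) + 1) / ε := by positivity
  have hKδ : 0 ≤ (K : ℝ) ^ (1 / δ₁) := by positivity
  have hdε : 0 ≤ |d| / ε := by positivity
  have hY : (0 : ℝ) ≤ Y₀ := Nat.cast_nonneg _
  refine ⟨⌈R₀ ^ 2⌉₊, ?_⟩
  intro X q r hX hq hqX
  -- the root of X
  set R : ℝ := Real.sqrt X with hR
  have hX1 : R₀ ^ 2 ≤ (X : ℝ) := (Nat.le_ceil _).trans (by exact_mod_cast hX)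
  have hRR₀ : R₀ ≤ R := Real.le_sqrt_of_sq_le hX1
  have hR16 : 16 ≤ R := by linarith
  have hKR1 : (K : ℝ) + 1 ≤ ε * R := by
    have : ((K : ℝ) + 1) / ε ≤ R := by linarith
    rw [div_le_iff₀ hε] at this
    linarith
  have hKR2 : (K : ℝ) ≤ R ^ δ₁ := by
    have h1 : (K : ℝ) ^ (1 / δ₁) ≤ R := by linarith
    calc (K : ℝ) = ((K : ℝ) ^ (1 / δ₁)) ^ δ₁ := by
          rw [← Real.rpow_mul (Nat.cast_nonneg _), one_div, inv_mul_cancel₀ hδ₁.ne',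
            Real.rpow_one]
      _ ≤ R ^ δ₁ := Real.rpow_le_rpow hKδ h1 hδ₁.le
  have hRX : R ^ 2 = X := Real.sq_sqrt (Nat.cast_nonneg _)
  have hR0 : 0 < R := by linarith
  have hX0 : (0 : ℝ) < X := by rw [← hRX]; positivity
  have hq1 : (1 : ℝ) ≤ q := by exact_mod_cast hq
  have hq0 : (0 : ℝ) < q := by linarith
  have hXR : ∀ e : ℝ, (X : ℝ) ^ e = R ^ (2 * e) := fun e => by
    rw [← hRX, ← Real.rpow_natCast R 2, ← Real.rpow_mul hR0.le]
    norm_num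
  have hqR : (q : ℝ) ^ 2 ≤ R := by
    have h1 : (q : ℝ) ≤ R ^ ((1 : ℝ) / 2) := by
      refine hqX.trans ?_
      rw [hXR]
      refine Real.rpow_le_rpow_of_exponent_le (by linarith) ?_
      linarith [min_le_right (δ₁ / 4) (1 / 4 : ℝ)]
    calc (q : ℝ) ^ 2 ≤ (R ^ ((1 : ℝ) / 2)) ^ 2 := pow_le_pow_left₀ hq0.le h1 2
      _ = R := by
        rw [← Real.rpow_natCast (R ^ ((1 : ℝ) / 2)) 2, ← Real.rpow_mul hR0.le]
        norm_num
  have hqR4 : 4 * (q : ℝ) ≤ R := by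
    by_cases h : (q : ℝ) ≤ 4
    · linarith
    · exact FIE_1 hqR h
  have hqR1 : (q : ℝ) ^ 2 ≤ R ^ δ₁ := by
    have h1 : (q : ℝ) ≤ R ^ (δ₁ / 2) := by
      refine hqX.trans ?_
      rw [hXR]
      refine Real.rpow_le_rpow_of_exponent_le (by linarith) ?_
      linarith [min_le_left (δ₁ / 4) (1 / 4 : ℝ)]
    calc (q : ℝ) ^ 2 ≤ (R ^ (δ₁ / 2)) ^ 2 := pow_le_pow_left₀ hq0.le h1 2
      _ = R ^ δ₁ := by
        rw [← Real.rpow_natCast (R ^ (δ₁ / 2)) 2, ← Real.rpow_mul hR0.le]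
        norm_num
  -- the odd part
  obtain ⟨i, q₁, hq₁, hqi⟩ := Nat.exists_eq_two_pow_mul_odd (n := q) (by omega)
  have hq₁1 : 1 ≤ q₁ := hq₁.pos
  have hq₁0 : (0 : ℝ) < q₁ := by exact_mod_cast hq₁1
  have hqi' : (q : ℝ) = 2 ^ i * q₁ := by rw [hqi]; push_cast; ring
  have h2i : (2 : ℝ) ^ i ≤ q := by
    rw [hqi']
    have : (1 : ℝ) ≤ q₁ := by exact_mod_cast hq₁1
    exact FIE_2 (by positivity) this
  have h2i0 : (0 : ℝ) < 2 ^ i := by positivity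
  obtain ⟨a, X', b, hai, hN, hX'⟩ := hT σ r K A X i q₁ hσ hI hq₁
  have h3a1 : (1 : ℝ) ≤ 3 ^ a := one_le_pow₀ (by norm_num)
  have h3a0 : (0 : ℝ) < 3 ^ a := by positivity
  -- the modulus
  have hQ : ((3 ^ a * q₁ : ℕ) : ℝ) ≤ (q : ℝ) ^ 2 := by
    have h1 : (3 : ℝ) ^ a ≤ (2 ^ i) ^ 2 := by
      calc (3 : ℝ) ^ a ≤ 3 ^ i := pow_le_pow_right₀ (by norm_num) hai
        _ ≤ 4 ^ i := pow_le_pow_left₀ (by norm_num) (by norm_num) i
        _ = (2 ^ i) ^ 2 := by rw [← pow_mul, mul_comm, pow_mul]; norm_num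
    have h2 : (q₁ : ℝ) ≤ q₁ ^ 2 := by
      exact FIE_3 (by exact_mod_cast hq₁1)
    rw [hqi', mul_pow]
    push_cast
    exact mul_le_mul h1 h2 hq₁0.le (by positivity)
  -- the new range
  have hXi : 4 * R ≤ X / 2 ^ i := by
    rw [le_div_iff₀ h2i0, ← hRX]
    exact FIE_4 hR0 ((mul_le_mul_of_nonneg_left h2i (by norm_num)).trans hqR4)
  have hX'R : R ≤ X' := by
    have h1 := (abs_le.1 hX').1
    have h2 : (3 : ℝ) ^ a * X / 2 ^ i = 3 ^ a * (X / 2 ^ i) := by ring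
    rw [h2] at h1
    exact FIE_5 h3a1 hR16 h1 hXi
  have hX'0 : (0 : ℝ) < X' := by linarith
  have hX'2 : 2 ≤ X' := by
    have : (2 : ℝ) ≤ X' := by linarith
    exact_mod_cast this
  have hQodd : Odd (3 ^ a * q₁) := (Odd.pow (by decide)).mul hq₁
  have hQX' : ((3 ^ a * q₁ : ℕ) : ℝ) ≤ (X' : ℝ) ^ δ₁ :=
    hQ.trans (hqR1.trans (Real.rpow_le_rpow hR0.le hX'R hδ₁.le))
  have hQ0 : (0 : ℝ) < ((3 ^ a * q₁ : ℕ) : ℝ) := by positivity
  have hKX' : (K : ℝ) ≤ (X' : ℝ) ^ δ₁ :=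
    hKR2.trans (Real.rpow_le_rpow hR0.le hX'R hδ₁.le)
  have e1 := hC σ b K A X' (3 ^ a * q₁) hσ hI hX'2 hKX' hQodd hQX'
  -- the density
  have hX'Y : Y₀ ≤ X' := by
    have : (Y₀ : ℝ) ≤ X' := by linarith
    exact_mod_cast this
  have e2 := hY₀ X' hX'Y
  rw [Real.dist_eq] at e2
  -- the logarithm
  have hlog : 16 * |C₁| / ε ≤ Real.log X' := by
    rw [← Real.log_exp (16 * |C₁| / ε)]
    exact Real.log_le_log hexp (by linarith)
  have hlog0 : 0 < Real.log X' := Real.log_pos (by linarith)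
  set Y : ℝ := (X' : ℝ) / ((3 ^ a * q₁ : ℕ) : ℝ) with hYdef
  have hYpos : 0 < Y := by positivity
  have e3 : C₁ * X' / (((3 ^ a * q₁ : ℕ) : ℝ) * Real.log X' ^ 1) ≤ ε / 16 * Y := by
    have h1 : C₁ * X' / (((3 ^ a * q₁ : ℕ) : ℝ) * Real.log X' ^ 1) = C₁ / Real.log X' * Y := by
      rw [hYdef, pow_one]
      field_simp
    rw [h1]
    refine mul_le_mul_of_nonneg_right ?_ hYpos.le
    rw [div_le_iff₀ hlog0]
    rw [div_le_iff₀ hε] at hlog
    linarith [le_abs_self C₁]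
  have e4 : |(N σ A X' 1 0 : ℝ) / ((3 ^ a * q₁ : ℕ) : ℝ) - d * Y| ≤ ε / 16 * Y := by
    have h1 : (N σ A X' 1 0 : ℝ) / ((3 ^ a * q₁ : ℕ) : ℝ) - d * Y =
        ((N σ A X' 1 0 : ℝ) / X' - d) * Y := by
      rw [hYdef]
      field_simp
    rw [h1, abs_mul, abs_of_pos hYpos]
    exact mul_le_mul_of_nonneg_right e2.le hYpos.le
  have e5 : |Y - X / q| ≤ 2 * 2 ^ i / q := by
    have h1 : Y - X / q = ((X' : ℝ) - 3 ^ a * X / 2 ^ i) / ((3 ^ a * q₁ : ℕ) : ℝ) := by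
      rw [hYdef, hqi']
      push_cast
      field_simp
    rw [h1, abs_div, abs_of_pos hQ0, div_le_iff₀ hQ0]
    refine hX'.trans (le_of_eq ?_)
    rw [hqi']
    push_cast
    field_simp
  have e6 : 2 * 2 ^ i / (q : ℝ) ≤ (R / 2) / q := div_le_div_of_nonneg_right (by linarith) hq0.le
  have e7 : Y ≤ 2 * (X / q) := by
    have h1 := (abs_le.1 (e5.trans e6)).2
    have h2 : (R / 2) / (q : ℝ) ≤ X / q := by
      refine div_le_div_of_nonneg_right ?_ hq0.le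
      rw [← hRX]
      exact FIE_7 hR16
    linarith
  have e8 : |d| * (2 * 2 ^ i / (q : ℝ)) ≤ ε / 2 * (X / q) := by
    have h1 : |d| ≤ ε * R := by
      have : |d| / ε ≤ R := by linarith
      rw [div_le_iff₀ hε] at this
      linarith
    calc |d| * (2 * 2 ^ i / (q : ℝ)) ≤ |d| * ((R / 2) / q) :=
          mul_le_mul_of_nonneg_left e6 (abs_nonneg _)
      _ ≤ (ε * R) * ((R / 2) / q) := mul_le_mul_of_nonneg_right h1 (by positivity)
      _ = ε / 2 * (X / q) := by rw [← hRX]; ring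
  have e9 : |(N σ A X q r : ℝ) - d * (X / q)| ≤ ε * (X / q) := by
    have hNq : (N σ A X q r : ℝ) = (N σ A X (2 ^ i * q₁) r : ℝ) := by rw [hqi]
    have h1 : |d * Y - d * (X / q)| ≤ ε / 2 * (X / q) := by
      rw [← mul_sub, abs_mul]
      exact (mul_le_mul_of_nonneg_left e5 (abs_nonneg _)).trans e8
    have h2 := e1.trans e3
    rw [← hNq] at hN
    have hK4 : (K : ℝ) + 1 ≤ ε / 4 * (X / q) := by
      refine hKR1.trans ?_
      have h5 : 4 * R ≤ X / q := by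
        rw [le_div_iff₀ hq0, ← hRX]
        exact FIE_4 hR0 hqR4
      exact FIE_6 hε h5
    have h3 : |(N σ A X q r : ℝ) - d * (X / q)| ≤
        ε / 4 * (X / q) + ε / 16 * Y + ε / 16 * Y + ε / 2 * (X / q) := by
      have a0 := abs_le.1 hN
      have a1 := abs_le.1 h1
      have a2 := abs_le.1 h2
      have a3 := abs_le.1 e4
      rw [abs_le]
      constructor
      · linarith [a0.1, a1.1, a2.1, a3.1]
      · linarith [a0.2, a1.2, a2.2, a3.2]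
    have h4 : ε / 16 * Y ≤ ε / 16 * (2 * (X / q)) := mul_le_mul_of_nonneg_left e7 (by positivity)
    linarith
  have f1 : d * (X : ℝ) / q = d * (X / q) := by ring
  have f2 : ε * (X : ℝ) / q = ε * (X / q) := by ring
  rw [f1, f2]
  exact e9

end Pool.Agent.SLD
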