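import Pool.Agent.SLD.StA

/-!
SLD, HO2: hand-off, second part (helper39)
-/

set_option autoImplicit false

namespace Pool.Agent.SLD

open Finset
open Pool.Agent.Collatz3 (cw)

private lemma HO2_hf (Q : ℕ) (h : Odd Q) : (2 : ZMod Q) * hf Q = 1 := by
  obtain ⟨m, rfl⟩ := h
  unfold hf
  have h1 : (2 * m + 1 + 1) / 2 = m + 1 := by omega
  rw [h1]
  have h2 : (2 : ZMod (2 * m + 1)) * ((m + 1 : ℕ) : ZMod (2 * m + 1)) =
      ((2 * m + 1 : ℕ) : ZMod (2 * m + 1)) + 1 := by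
    push_cast
    ring
  rw [h2, ZMod.natCast_self, zero_add]

private lemma HO2_Pcongr (Q k s : ℕ) (x y : ℤ) (h : (Q : ℤ) ∣ x - y) :
    P Q k s x = P Q k s y := by
  unfold P
  have h1 : {w ∈ W k s | (Q : ℤ) ∣ 2 ^ s * x - (cw w : ℤ)} =
      {w ∈ W k s | (Q : ℤ) ∣ 2 ^ s * y - (cw w : ℤ)} := by
    refine Finset.filter_congr fun w _ => dvd_iff_dvd_of_dvd_sub ?_
    have : 2 ^ s * x - (cw w : ℤ) - (2 ^ s * y - (cw w : ℤ)) = 2 ^ s * (x - y) := by ring
    rw [this]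
    exact Dvd.dvd.mul_left h _
  rw [h1]

/-! ### The oscillation is at most 2 -/

private lemma HO2_sum (N Q' k s : ℕ) (hN : 0 < N) (hd : Q' ∣ N) (hodd : Odd N) :
    ∑ x ∈ range N, P Q' k s x = (N / Q' : ℕ) * p k s := by
  classical
  have hQ' : 0 < Q' := Nat.pos_of_dvd_of_pos hd hN
  have hcop : Nat.Coprime (2 ^ s) Q' :=
    Nat.Coprime.pow_left s (Nat.coprime_two_left.2 (hodd.of_dvd_nat hd))
  have h1 : ∀ w : List ℕ, #((range N).filter fun x : ℕ =>
      (Q' : ℤ) ∣ 2 ^ s * (x : ℤ) - (cw w : ℤ)) = N / Q' := by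
    intro w
    obtain ⟨u, hu⟩ : ∃ u : ℕ, 2 ^ s * u ≡ cw w [MOD Q'] := by
      refine ⟨((Q' + 1) / 2) ^ s * cw w, ?_⟩
      have e1 : (2 : ZMod Q') * ((((Q' + 1) / 2 : ℕ)) : ZMod Q') = 1 :=
        HO2_hf Q' (hodd.of_dvd_nat hd)
      rw [← ZMod.natCast_eq_natCast_iff]
      push_cast
      rw [← mul_assoc, ← mul_pow, e1, one_pow, one_mul]
    have h2 : ((range N).filter fun x : ℕ => (Q' : ℤ) ∣ 2 ^ s * (x : ℤ) - (cw w : ℤ)) =
        (range N).filter fun x : ℕ => x ≡ u [MOD Q'] := by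
      refine Finset.filter_congr fun x _ => ?_
      constructor
      · intro h
        have h3 : 2 ^ s * x ≡ cw w [MOD Q'] := by
          refine (Nat.modEq_iff_dvd.2 ?_).symm
          push_cast
          exact h
        have h4 : 2 ^ s * x ≡ 2 ^ s * u [MOD Q'] := h3.trans hu.symm
        exact Nat.ModEq.cancel_left_of_coprime (Nat.Coprime.symm hcop) h4
      · intro h
        have h3 : 2 ^ s * x ≡ cw w [MOD Q'] := (h.mul_left _).trans hu
        have h4 := Nat.modEq_iff_dvd.1 h3.symm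
        push_cast at h4
        exact h4
    rw [h2]
    have h3 := Nat.count_modEq_card (r := Q') N hQ' u
    rw [Nat.count_eq_card_filter_range] at h3
    rw [h3, Nat.mod_eq_zero_of_dvd hd]
    simp
  unfold P p
  rw [← Finset.sum_div, mul_div_assoc']
  congr 1
  have h2 : ∀ x ∈ range N, (#{w ∈ W k s | (Q' : ℤ) ∣ 2 ^ s * (x : ℤ) - (cw w : ℤ)} : ℝ) =
      ∑ w ∈ W k s, if (Q' : ℤ) ∣ 2 ^ s * (x : ℤ) - (cw w : ℤ) then (1 : ℝ) else 0 := by
    intro x _
    rw [Finset.sum_boole]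
  rw [Finset.sum_congr rfl h2, Finset.sum_comm]
  have h3 : ∀ w ∈ W k s, (∑ x ∈ range N, if (Q' : ℤ) ∣ 2 ^ s * (x : ℤ) - (cw w : ℤ) then
      (1 : ℝ) else 0) = (N / Q' : ℕ) := by
    intro w _
    rw [Finset.sum_boole, h1 w]
  rw [Finset.sum_congr rfl h3, Finset.sum_const, nsmul_eq_mul, mul_comm]

private lemma HO2_osc (hW : St_WRD) (N Q' k S : ℕ) (hN : 0 < N) (hd : Q' ∣ N) (hodd : Odd N) :
    Osc N Q' k S ≤ 2 := by
  have hQ' : 0 < Q' := Nat.pos_of_dvd_of_pos hd hN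
  have hNr : (0 : ℝ) < N := by exact_mod_cast hN
  have hQr : (0 : ℝ) < Q' := by exact_mod_cast hQ'
  have hP : ∀ Q s (x : ℤ), 0 ≤ P Q k s x := by
    intro Q s x
    unfold P
    positivity
  have h1 : ∀ s, ∑ x ∈ range N, |P N k s x - (Q' : ℝ) / N * P Q' k s x| ≤ 2 * p k s := by
    intro s
    calc _ ≤ ∑ x ∈ range N, (P N k s x + (Q' : ℝ) / N * P Q' k s x) := by
          refine Finset.sum_le_sum fun x _ => ?_
          have e1 := hP N s x
          have e2 := hP Q' s x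
          have e3 : 0 ≤ (Q' : ℝ) / N * P Q' k s x := by positivity
          rw [abs_le]
          constructor <;> linarith
      _ = 2 * p k s := by
          rw [Finset.sum_add_distrib, ← Finset.mul_sum, HO2_sum N N k s hN dvd_rfl hodd,
            HO2_sum N Q' k s hN hd hodd, Nat.div_self hN, Nat.cast_div hd hQr.ne']
          field_simp
          push_cast
          ring
  unfold Osc
  calc _ ≤ ∑ s ∈ range S, 2 * p k s := Finset.sum_le_sum fun s _ => h1 s
    _ ≤ 2 := by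
        rw [← Finset.mul_sum]
        have := hW.2.1 k S
        linarith

/-! ### Counting -/

private lemma HO2_card (N Y : ℕ) (hodd : Odd N) (T : Finset ℕ)
    (h1 : ∀ m ∈ T, m ≤ Y ∧ Odd m) (h2 : ∀ m ∈ T, ∀ m' ∈ T, (N : ℤ) ∣ (m : ℤ) - m') :
    #T ≤ Y / (2 * N) + 1 := by
  calc #T ≤ #(range (Y / (2 * N) + 1)) := by
        refine Finset.card_le_card_of_injOn (fun m => m / (2 * N)) ?_ ?_
        · intro m hm
          simp only [Finset.coe_range, Set.mem_Iio]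
          exact Nat.lt_succ_of_le (Nat.div_le_div_right (h1 m hm).1)
        · intro m hm m' hm' hmm
          dsimp only at hmm
          have e1 := h2 m hm m' hm'
          have e2 : (2 : ℤ) ∣ (m : ℤ) - m' := by
            obtain ⟨a, ha⟩ := (h1 m hm).2
            obtain ⟨a', ha'⟩ := (h1 m' hm').2
            exact ⟨(a : ℤ) - a', by rw [ha, ha']; push_cast; ring⟩
          have e3 : ((2 * N : ℕ) : ℤ) ∣ (m : ℤ) - m' := by
            push_cast
            refine IsCoprime.mul_dvd ?_ e2 e1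
            rw [Int.isCoprime_iff_gcd_eq_one]
            exact (Nat.coprime_two_left.2 hodd)
          have e4 : m' ≡ m [MOD 2 * N] := Nat.modEq_iff_dvd.2 e3
          rw [← Nat.div_add_mod m (2 * N), ← Nat.div_add_mod m' (2 * N), hmm]
          congr 1
          exact e4.symm
    _ = _ := Finset.card_range _

open Classical in
private lemma HO2_Cn (σ b : ℤ) (hσ : σ = 1 ∨ σ = -1) (A : Set ℤ) (X Q k s : ℕ) (w : List ℕ)
    (hl : w.length = k) (hs : w.sum = s) :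
    Cn σ A X Q b w =
      #(((Icc 1 (3 ^ k * X / 2 ^ s)).filter (fun m : ℕ => Odd m ∧ σ * (m : ℤ) ∈ A)).filter
        fun m : ℕ => (3 : ℤ) ^ k * Q ∣ 2 ^ s * (σ * (m : ℤ)) - (cw w : ℤ) - 3 ^ k * b) := by
  have hσ2 : σ * σ = 1 := by rcases hσ with rfl | rfl <;> norm_num
  have hinj : Function.Injective fun m : ℕ => σ * (m : ℤ) := by
    intro m m' h
    dsimp only at h
    have : σ * (σ * (m : ℤ)) = σ * (σ * (m' : ℤ)) := by rw [h]
    rw [← mul_assoc, ← mul_assoc, hσ2, one_mul, one_mul] at this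
    exact_mod_cast this
  have h2s : 0 < 2 ^ s := by positivity
  have hodd : ∀ m : ℕ, Odd (σ * (m : ℤ)) ↔ Odd m := by
    intro m
    rcases hσ with rfl | rfl
    · rw [one_mul]
      exact_mod_cast Iff.rfl
    · rw [neg_one_mul, odd_neg]
      exact_mod_cast Iff.rfl
  have hset : {m : ℤ | Odd m ∧ 1 ≤ σ * m ∧ σ * m * 2 ^ w.sum ≤ 3 ^ w.length * X ∧
      (3 : ℤ) ^ w.length * Q ∣ 2 ^ w.sum * m - (cw w : ℤ) - 3 ^ w.length * b ∧ m ∈ A} =
      (fun m : ℕ => σ * (m : ℤ)) '' ((((Icc 1 (3 ^ k * X / 2 ^ s)).filter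
        (fun m : ℕ => Odd m ∧ σ * (m : ℤ) ∈ A)).filter fun m : ℕ =>
          (3 : ℤ) ^ k * Q ∣ 2 ^ s * (σ * (m : ℤ)) - (cw w : ℤ) - 3 ^ k * b : Finset ℕ) :
          Set ℕ) := by
    rw [hl, hs]
    ext m'
    simp only [Set.mem_ofPred_eq, Set.mem_image, Finset.coe_filter, Finset.mem_filter,
      Finset.mem_Icc]
    constructor
    · rintro ⟨h1, h2, h3, h4, h5⟩
      have e1 : ((σ * m').toNat : ℤ) = σ * m' := Int.toNat_of_nonneg (by omega)
      have e2 : σ * ((σ * m').toNat : ℤ) = m' := by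
        rw [e1, ← mul_assoc, hσ2, one_mul]
      refine ⟨(σ * m').toNat, ⟨⟨⟨?_, ?_⟩, ?_, ?_⟩, ?_⟩, e2⟩
      · have : (1 : ℤ) ≤ ((σ * m').toNat : ℤ) := by rw [e1]; exact h2
        exact_mod_cast this
      · rw [Nat.le_div_iff_mul_le h2s]
        have : (((σ * m').toNat * 2 ^ s : ℕ) : ℤ) ≤ ((3 ^ k * X : ℕ) : ℤ) := by
          push_cast
          rw [e1]
          exact h3
        exact_mod_cast this
      · rw [← hodd, e2]
        exact h1
      · rw [e2]
        exact h5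
      · rw [e2]
        exact h4
    · rintro ⟨m, ⟨⟨⟨h1, h2⟩, h3, h4⟩, h5⟩, rfl⟩
      have e1 : σ * (σ * (m : ℤ)) = m := by rw [← mul_assoc, hσ2, one_mul]
      refine ⟨(hodd m).2 h3, ?_, ?_, h5, h4⟩
      · rw [e1]
        exact_mod_cast h1
      · rw [e1]
        rw [Nat.le_div_iff_mul_le h2s] at h2
        exact_mod_cast h2
  unfold Cn
  rw [hset, Set.ncard_image_of_injective _ hinj, Set.ncard_coe_finset]

private lemma HO2_bind (S : Finset ℕ) (f : ℕ → ℤ) (p : ℤ → Prop) (g : ℤ → ℝ)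
    (hf : Function.Injective f) (inst : ∀ P : Prop, Decidable P) [DecidablePred p] :
    ∑ m ∈ (do let a ← S; pure (f a) : Finset ℤ) with p m, g m =
      ∑ m ∈ S.filter fun m => p (f m), g (f m) := by
  classical
  have h1 : (do let a ← S; pure (f a) : Finset ℤ) = S.image f := by
    ext x
    simp
  rw [h1, Finset.sum_filter, Finset.sum_filter, Finset.sum_image fun x _ y _ h => hf h]

theorem thm_HO2 (hW : St_WRD) : St_HO2 := by
  classical
  intro σ b A X Q k hσ hQ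
  have hσ2 : σ * σ = 1 := by rcases hσ with rfl | rfl <;> norm_num
  have hQpos : 0 < Q := hQ.pos
  have hQr : (0 : ℝ) < Q := by exact_mod_cast hQpos
  obtain ⟨N, hN⟩ : ∃ N : ℕ, N = 3 ^ k * Q := ⟨_, rfl⟩
  obtain ⟨Q', hQ'⟩ : ∃ Q' : ℕ, Q' = 3 ^ (k / 4) := ⟨_, rfl⟩
  have hNpos : 0 < N := by rw [hN]; positivity
  have hNr : (0 : ℝ) < N := by exact_mod_cast hNpos
  have hNodd : Odd N := by
    rw [hN]
    exact (Odd.pow (by decide)).mul hQ
  have h3k : Q' ∣ 3 ^ k := by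
    rw [hQ']
    exact pow_dvd_pow 3 (Nat.div_le_self k 4)
  have hd : Q' ∣ N := by
    rw [hN]
    exact Dvd.dvd.mul_right h3k Q
  rw [← hN, ← hQ']
  obtain ⟨D, hD⟩ : ∃ D : ℕ → ℤ → ℝ, ∀ s x, D s x = P N k s x - (Q' : ℝ) / N * P Q' k s x :=
    ⟨fun s x => P N k s x - (Q' : ℝ) / N * P Q' k s x, fun _ _ => rfl⟩
  have hDper : ∀ s (x y : ℤ), (N : ℤ) ∣ x - y → D s x = D s y := by
    intro s x y h
    rw [hD, hD, HO2_Pcongr N k s x y h,
      HO2_Pcongr Q' k s x y ((Int.natCast_dvd_natCast.2 hd).trans h)]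
  obtain ⟨Ms, hMs⟩ : ∃ Ms : ℕ → Finset ℕ, ∀ s, Ms s =
      (Icc 1 (3 ^ k * X / 2 ^ s)).filter (fun m : ℕ => Odd m ∧ σ * (m : ℤ) ∈ A) :=
    ⟨_, fun _ => rfl⟩
  -- the shift
  have hc : ∀ s : ℕ, ∃ c : ℤ, (N : ℤ) ∣ 2 ^ s * c - 1 := by
    intro s
    have h1 : (2 : ZMod N) ^ s * hf N ^ s = 1 := by rw [← mul_pow, HO2_hf N hNodd, one_pow]
    rw [hf] at h1
    obtain ⟨c₀, hc₀⟩ : ∃ c₀ : ℕ, c₀ = (N + 1) / 2 := ⟨_, rfl⟩
    rw [← hc₀] at h1
    refine ⟨(c₀ : ℤ) ^ s, ?_⟩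
    rw [← ZMod.intCast_zmod_eq_zero_iff_dvd]
    push_cast
    rw [sub_eq_zero]
    exact h1
  choose c hc using hc
  obtain ⟨β, hβ⟩ : ∃ β : ℕ → ℤ, ∀ s, β s = 3 ^ k * b * c s := ⟨_, fun _ => rfl⟩
  -- the sum of the Cn
  have h1 : ∀ s, ∑ w ∈ W k s, (Cn σ A X Q b w : ℝ) =
      2 ^ s * ∑ m ∈ Ms s, P N k s (σ * (m : ℤ) - β s) := by
    intro s
    have e1 : ∀ w ∈ W k s, (Cn σ A X Q b w : ℝ) = ∑ m ∈ Ms s,
        if (N : ℤ) ∣ 2 ^ s * (σ * (m : ℤ) - β s) - (cw w : ℤ) then (1 : ℝ) else 0 := by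
      intro w hw
      obtain ⟨hl, -, hs⟩ := (hW.1 k s w).1 hw
      rw [HO2_Cn σ b hσ A X Q k s w hl hs, hMs, Finset.sum_boole]
      congr 2
      ext m
      simp only [Finset.mem_filter]
      refine and_congr_right fun _ => ?_
      have e2 : (N : ℤ) = 3 ^ k * Q := by rw [hN]; push_cast; rfl
      rw [← e2]
      refine dvd_iff_dvd_of_dvd_sub ?_
      have e3 : 2 ^ s * (σ * (m : ℤ)) - (cw w : ℤ) - 3 ^ k * b -
          (2 ^ s * (σ * (m : ℤ) - β s) - (cw w : ℤ)) = 3 ^ k * b * (2 ^ s * c s - 1) := by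
        rw [hβ]
        ring
      rw [e3]
      exact Dvd.dvd.mul_left (hc s) _
    rw [Finset.sum_congr rfl e1, Finset.sum_comm, Finset.mul_sum]
    refine Finset.sum_congr rfl fun m _ => ?_
    rw [Finset.sum_boole, P]
    field_simp
  -- the main term
  have h2 : M σ A X k / Q = ∑ s ∈ range (21 * k / 10 + 1), 2 ^ s * ∑ m ∈ Ms s,
      (Q' : ℝ) / N * P Q' k s (σ * (m : ℤ) - β s) := by
    unfold M
    rw [Finset.sum_div]
    refine Finset.sum_congr rfl fun s _ => ?_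
    have e1 : ∑ m ∈ Ms s, (Q' : ℝ) / N * P Q' k s (σ * (m : ℤ) - β s) =
        (Q' : ℝ) / N * ∑ m ∈ Ms s, P Q' k s (σ * (m : ℤ)) := by
      rw [Finset.mul_sum]
      refine Finset.sum_congr rfl fun m _ => ?_
      congr 1
      refine HO2_Pcongr Q' k s _ _ ?_
      have e2 : σ * (m : ℤ) - β s - σ * (m : ℤ) = -(3 ^ k * b * c s) := by
        rw [hβ]
        ring
      rw [e2, dvd_neg, mul_assoc]
      refine Dvd.dvd.mul_right ?_ _
      exact_mod_cast h3k
    have e4 : ∑ m ∈ (do let a ← Icc 1 (3 ^ k * X / 2 ^ s); pure (a : ℤ) : Finset ℤ) with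
        Odd m ∧ σ * m ∈ A, P (3 ^ (k / 4)) k s (σ * m) =
        ∑ m ∈ Ms s, P Q' k s (σ * (m : ℤ)) := by
      rw [HO2_bind (Icc 1 (3 ^ k * X / 2 ^ s)) (fun a : ℕ => (a : ℤ)) (fun m => Odd m ∧ σ * m ∈ A)
        (fun m => P (3 ^ (k / 4)) k s (σ * m)) Nat.cast_injective fun P => Classical.propDecidable P,
        hMs, hQ']
      refine Finset.sum_congr (Finset.filter_congr fun m _ => ?_) fun m _ => rfl
      refine and_congr_left fun _ => ?_
      exact_mod_cast Iff.rfl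
    rw [e1, e4, hN]
    have e3 : (3 : ℝ) ^ (k / 4) = (Q' : ℝ) := by rw [hQ']; push_cast; rfl
    rw [e3]
    push_cast
    field_simp
  rw [h2, ← Finset.sum_sub_distrib]
  have h3 : ∀ s, ∑ w ∈ W k s, (Cn σ A X Q b w : ℝ) - 2 ^ s * ∑ m ∈ Ms s,
      (Q' : ℝ) / N * P Q' k s (σ * (m : ℤ) - β s) =
      2 ^ s * ∑ m ∈ Ms s, D s (σ * (m : ℤ) - β s) := by
    intro s
    rw [h1, ← mul_sub, ← Finset.sum_sub_distrib]
    congr 1
    exact Finset.sum_congr rfl fun m _ => (hD _ _).symm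
  rw [Finset.sum_congr rfl fun s _ => h3 s]
  -- the estimate for one s
  have h4 : ∀ s, |2 ^ s * ∑ m ∈ Ms s, D s (σ * (m : ℤ) - β s)| ≤
      ((X : ℝ) / (2 * Q) + 2 ^ s) * ∑ x ∈ range N, |D s x| := by
    intro s
    obtain ⟨r, hr⟩ : ∃ r : ℕ → ℕ, ∀ m, r m = ((σ * (m : ℤ) - β s) % N).toNat := ⟨_, fun _ => rfl⟩
    have hr0 : ∀ m : ℕ, ((r m : ℕ) : ℤ) = (σ * (m : ℤ) - β s) % N := by
      intro m
      rw [hr]
      exact Int.toNat_of_nonneg (Int.emod_nonneg _ (by exact_mod_cast hNpos.ne'))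
    have hr1 : ∀ m : ℕ, r m < N := by
      intro m
      have : ((r m : ℕ) : ℤ) < N := by
        rw [hr0]
        exact Int.emod_lt_of_pos _ (by exact_mod_cast hNpos)
      exact_mod_cast this
    have hr2 : ∀ m : ℕ, (N : ℤ) ∣ (σ * (m : ℤ) - β s) - (r m : ℤ) := by
      intro m
      rw [hr0]
      exact Int.dvd_self_sub_emod
    have e1 : ∑ m ∈ Ms s, |D s (σ * (m : ℤ) - β s)| =
        ∑ x ∈ range N, ∑ m ∈ Ms s with r m = x, |D s x| := by
      rw [← Finset.sum_fiberwise_of_maps_to (s := Ms s) (t := range N) (g := r)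
        fun m _ => Finset.mem_range.2 (hr1 m)]
      refine Finset.sum_congr rfl fun x _ => Finset.sum_congr rfl fun m hm => ?_
      rw [hDper s _ _ (hr2 m), (Finset.mem_filter.1 hm).2]
    have e2 : ∀ x : ℕ, (#{m ∈ Ms s | r m = x} : ℝ) ≤ X / (2 ^ s * (2 * Q)) + 1 := by
      intro x
      have f1 := HO2_card N (3 ^ k * X / 2 ^ s) hNodd {m ∈ Ms s | r m = x} (by
        intro m hm
        have f2 := (Finset.mem_filter.1 hm).1
        rw [hMs, Finset.mem_filter, Finset.mem_Icc] at f2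
        exact ⟨f2.1.2, f2.2.1⟩) (by
        intro m hm m' hm'
        have f2 := hr2 m
        have f3 := hr2 m'
        rw [(Finset.mem_filter.1 hm).2] at f2
        rw [(Finset.mem_filter.1 hm').2] at f3
        have f4 : (N : ℤ) ∣ σ * ((m : ℤ) - m') := by
          have f5 := dvd_sub f2 f3
          have f6 : σ * (m : ℤ) - β s - (x : ℤ) - (σ * (m' : ℤ) - β s - (x : ℤ)) =
              σ * ((m : ℤ) - m') := by ring
          rwa [f6] at f5
        have f5 := Dvd.dvd.mul_left f4 σ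
        rwa [← mul_assoc, hσ2, one_mul] at f5)
      have f2 : ((3 ^ k * X / 2 ^ s / (2 * N) : ℕ) : ℝ) ≤ X / (2 ^ s * (2 * Q)) := by
        refine (Nat.cast_div_le).trans ?_
        push_cast
        have f3 : ((3 ^ k * X / 2 ^ s : ℕ) : ℝ) ≤ 3 ^ k * X / 2 ^ s := by
          refine (Nat.cast_div_le).trans ?_
          push_cast
          exact le_rfl
        calc _ ≤ (3 ^ k * (X : ℝ) / 2 ^ s) / (2 * N) := by gcongr
          _ = _ := by
              rw [hN]
              push_cast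
              field_simp
      calc (#{m ∈ Ms s | r m = x} : ℝ) ≤ ((3 ^ k * X / 2 ^ s / (2 * N) + 1 : ℕ) : ℝ) := by
            exact_mod_cast f1
        _ ≤ _ := by
            push_cast
            linarith
    rw [abs_mul, abs_of_nonneg (by positivity : (0 : ℝ) ≤ 2 ^ s)]
    calc _ ≤ 2 ^ s * ∑ m ∈ Ms s, |D s (σ * (m : ℤ) - β s)| := by
          gcongr
          exact Finset.abs_sum_le_sum_abs _ _
      _ = 2 ^ s * ∑ x ∈ range N, (#{m ∈ Ms s | r m = x} : ℝ) * |D s x| := by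
          rw [e1]
          congr 1
          exact Finset.sum_congr rfl fun x _ => by rw [Finset.sum_const, nsmul_eq_mul]
      _ ≤ 2 ^ s * ∑ x ∈ range N, (X / (2 ^ s * (2 * Q)) + 1) * |D s x| := by
          gcongr with x _
          exact e2 x
      _ = _ := by
          rw [← Finset.mul_sum, ← mul_assoc]
          congr 1
          field_simp
  refine (Finset.abs_sum_le_sum_abs _ _).trans ((Finset.sum_le_sum fun s _ => h4 s).trans ?_)
  have h5 := HO2_osc hW N Q' k (21 * k / 10 + 1) hNpos hd hNodd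
  have h6 : Osc N Q' k (21 * k / 10 + 1) =
      ∑ s ∈ range (21 * k / 10 + 1), ∑ x ∈ range N, |D s x| := by
    unfold Osc
    exact Finset.sum_congr rfl fun s _ => Finset.sum_congr rfl fun x _ => by rw [hD]
  have h7 : 0 ≤ Osc N Q' k (21 * k / 10 + 1) := by
    rw [h6]
    positivity
  calc _ ≤ ∑ s ∈ range (21 * k / 10 + 1),
        ((X : ℝ) / (2 * Q) + 2 ^ (21 * k / 10)) * ∑ x ∈ range N, |D s x| := by
        refine Finset.sum_le_sum fun s hs => ?_
        refine mul_le_mul_of_nonneg_right ?_ (Finset.sum_nonneg fun _ _ => abs_nonneg _)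
        have := Finset.mem_range.1 hs
        have e1 : (2 : ℝ) ^ s ≤ 2 ^ (21 * k / 10) := pow_le_pow_right₀ (by norm_num) (by omega)
        linarith
    _ = ((X : ℝ) / (2 * Q) + 2 ^ (21 * k / 10)) * Osc N Q' k (21 * k / 10 + 1) := by
        rw [← Finset.mul_sum, h6]
    _ ≤ _ := by
        have e1 : (X : ℝ) / (2 * Q) ≤ X / Q := by
          apply div_le_div_of_nonneg_left (by positivity) hQr
          linarith
        have e2 : (0 : ℝ) < 2 ^ (21 * k / 10) := by positivity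
        nlinarith

end Pool.Agent.SLD
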