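import Pool.Agent.SLD.StA

/-!
SLD, HOF: the hand-off with a class, from HO1 and HO2 (helper87).
-/

set_option autoImplicit false

namespace Pool.Agent.SLD

open Finset
open Pool.Agent.Collatz3 (cw)

/-- `2 ^ (21 k / 10) ≤ X ^ (49 / 50)` for `k = kk X` -/
theorem HOF_pow (X : ℕ) (hX : 2 ≤ X) :
    (2 : ℝ) ^ (21 * kk X / 10) ≤ (X : ℝ) ^ ((49 : ℝ) / 50) := by
  have hX1 : (1 : ℝ) ≤ (X : ℝ) := by
    have : 1 ≤ X := by omega
    exact_mod_cast this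
  have hX0 : (0 : ℝ) ≤ (X : ℝ) := by linarith
  set L := Nat.log 2 X with hL
  have h2L : (2 : ℝ) ^ L ≤ (X : ℝ) := by
    have : 2 ^ L ≤ X := Nat.pow_log_le_self 2 (by omega)
    exact_mod_cast this
  have hk : kk X = 5 * L / 11 := rfl
  have hle : 22 * (21 * kk X / 10) ≤ 21 * L := by
    rw [hk]
    omega
  have hle' : ((21 * kk X / 10 : ℕ) : ℝ) ≤ (L : ℝ) * (21 / 22) := by
    have : ((22 * (21 * kk X / 10) : ℕ) : ℝ) ≤ ((21 * L : ℕ) : ℝ) := by exact_mod_cast hle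
    rw [Nat.cast_mul, Nat.cast_mul] at this
    norm_num at this ⊢
    linarith
  calc (2 : ℝ) ^ (21 * kk X / 10) = (2 : ℝ) ^ (((21 * kk X / 10 : ℕ) : ℝ)) := by
        rw [Real.rpow_natCast]
    _ ≤ (2 : ℝ) ^ ((L : ℝ) * (21 / 22)) := Real.rpow_le_rpow_of_exponent_le (by norm_num) hle'
    _ = ((2 : ℝ) ^ L) ^ ((21 : ℝ) / 22) := by
        rw [Real.rpow_mul (by norm_num), Real.rpow_natCast]
    _ ≤ (X : ℝ) ^ ((21 : ℝ) / 22) := Real.rpow_le_rpow (by positivity) h2L (by norm_num)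
    _ ≤ (X : ℝ) ^ ((49 : ℝ) / 50) := Real.rpow_le_rpow_of_exponent_le hX1 (by norm_num)

/-- the hand-off with a class -/
theorem thm_HOF (h1 : St_HO1) (h2 : St_HO2) : St_HOF := by
  intro B
  obtain ⟨C, hC⟩ := h1 B
  refine ⟨|C| + 2, ?_⟩
  intro σ b A X a q₀ hσ hA hX hq₀ _
  have hQ : Odd (3 ^ a * q₀) := (Odd.pow (by decide)).mul hq₀
  have e1 := hC σ b A X (3 ^ a * q₀) hσ hA hX hQ
  have e2 := h2 σ b A X (3 ^ a * q₀) (kk X) hσ hQ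
  have hmod : 3 ^ kk X * (3 ^ a * q₀) = 3 ^ (kk X + a) * q₀ := by
    rw [pow_add, mul_assoc]
  rw [hmod] at e2
  push_cast at e1 e2
  have hp := HOF_pow X hX
  set S₀ : ℝ := ∑ s ∈ range (21 * kk X / 10 + 1), ∑ w ∈ W (kk X) s,
    (Cn σ A X (3 ^ a * q₀) b w : ℝ) with hS₀
  have e3 := abs_sub_le (E σ A X (3 ^ a * q₀) b : ℝ) S₀ (M σ A X (kk X) / (3 ^ a * q₀))
  have hCle : C ≤ |C| := le_abs_self C
  have hY : (0 : ℝ) ≤ (X : ℝ) ^ ((49 : ℝ) / 50) := by positivity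
  have hZ : (0 : ℝ) ≤ (X : ℝ) / (3 ^ a * q₀) / (kk X : ℝ) ^ B := by positivity
  have t1 : C * ((X : ℝ) / (3 ^ a * q₀)) / (kk X : ℝ) ^ B ≤
      (|C| + 2) * ((X : ℝ) / (3 ^ a * q₀)) / (kk X : ℝ) ^ B := by
    rw [mul_div_assoc, mul_div_assoc]
    exact mul_le_mul_of_nonneg_right (by linarith) hZ
  have t2 : C * (X : ℝ) ^ ((49 : ℝ) / 50) + 2 * 2 ^ (21 * kk X / 10) ≤
      (|C| + 2) * (X : ℝ) ^ ((49 : ℝ) / 50) := by
    have := mul_le_mul_of_nonneg_right hCle hY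
    linarith
  linarith

end Pool.Agent.SLD
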