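import Pool.Agent.SLD.StA

/-!
# SLD, module LIN: Linnik form
-/

set_option autoImplicit false

namespace Pool.Agent.SLD

open Finset

theorem LIN_le (σ : ℤ) (hσ : σ = 1 ∨ σ = -1) (A : Set ℤ) (X q : ℕ) (r : ℤ) :
    N σ A X q r ≤ X := by
  have hss : σ * σ = 1 := by rcases hσ with rfl | rfl <;> norm_num
  unfold N
  calc Set.ncard {n : ℤ | 1 ≤ σ * n ∧ σ * n ≤ X ∧ (q : ℤ) ∣ n - r ∧ n ∈ A}
      ≤ Set.ncard ((fun m : ℕ => σ * (m : ℤ)) '' (Finset.Icc 1 X : Finset ℕ)) := by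
        refine Set.ncard_le_ncard ?_ ((Finset.finite_toSet _).image _)
        rintro n ⟨h1, h2, -, -⟩
        refine ⟨(σ * n).toNat, ?_, ?_⟩
        · rw [Finset.coe_Icc, Set.mem_Icc]
          omega
        · show σ * ((σ * n).toNat : ℤ) = n
          rw [Int.toNat_of_nonneg (by omega), ← mul_assoc, hss, one_mul]
    _ ≤ Set.ncard ((Finset.Icc 1 X : Finset ℕ) : Set ℕ) :=
        Set.ncard_image_le (Finset.finite_toSet _)
    _ = X := by rw [Set.ncard_coe_finset, Nat.card_Icc]; omega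

theorem thm_LIN (hT : St_TWO) (hA : St_ALN) : St_LIN := by
  obtain ⟨δ, hδ, C, hA⟩ := hA 1
  set C₁ : ℝ := max C 1 with hC₁
  have hC1 : 1 ≤ C₁ := le_max_right _ _
  have hCC : C ≤ C₁ := le_max_left _ _
  set C₀ : ℝ := 4 / δ + 4 * C₁ with hC₀
  have hδ4 : 0 < 4 / δ := by positivity
  have hC04 : 4 ≤ C₀ := by linarith
  refine ⟨C₀, by linarith, ?_⟩
  intro σ A c X₁ hσ hI hc hN X q r hq hX₁ hX
  have hc1 : c ≤ 1 := by
    have h1 := hN (max X₁ 1) (le_max_left _ _)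
    have h2 : ((N σ A (max X₁ 1) 1 0 : ℕ) : ℝ) ≤ ((max X₁ 1 : ℕ) : ℝ) := by
      exact_mod_cast LIN_le σ hσ A (max X₁ 1) 1 0
    have h3 : (1 : ℝ) ≤ ((max X₁ 1 : ℕ) : ℝ) := by
      exact_mod_cast le_max_right X₁ 1
    by_contra h4
    push Not at h4
    nlinarith
  have hq1R : (1 : ℝ) ≤ q := by exact_mod_cast hq
  -- the size of `X`
  have hexp : Real.exp C₀ ≤ Real.exp (C₀ / c) := by
    refine Real.exp_le_exp.mpr ?_
    rw [le_div_iff₀ hc]
    nlinarith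
  have he4 : (4 : ℝ) ≤ Real.exp C₀ := by
    have := Real.add_one_le_exp C₀
    linarith
  have hqC : (q : ℝ) ^ 2 ≤ (q : ℝ) ^ C₀ := by
    have h1 : (q : ℝ) ^ (2 : ℕ) = (q : ℝ) ^ ((2 : ℕ) : ℝ) := (Real.rpow_natCast _ _).symm
    rw [h1]
    exact Real.rpow_le_rpow_of_exponent_le hq1R (by push_cast; linarith)
  have hqC0 : 0 < (q : ℝ) ^ C₀ := Real.rpow_pos_of_pos (by linarith) _
  have hX4 : 4 * (q : ℝ) ^ 2 ≤ X := by
    refine le_trans ?_ hX
    exact mul_le_mul (he4.trans hexp) hqC (by positivity) (Real.exp_pos _).le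
  have hXpos : (0 : ℝ) < X := by nlinarith
  have hsq : 2 * (q : ℝ) ≤ Real.sqrt X := by
    rw [Real.le_sqrt (by positivity) hXpos.le]
    nlinarith
  have hss : Real.sqrt X * Real.sqrt X = X := Real.mul_self_sqrt hXpos.le
  -- two
  obtain ⟨i, q₁, hq₁, hqi⟩ := Nat.exists_eq_two_pow_mul_odd (show q ≠ 0 by omega)
  obtain ⟨a, X', b, ha, hNN, hX'⟩ := hT σ r A X i q₁ hσ hI hq₁
  rw [← hqi] at hNN
  have hq₁0 : 0 < q₁ := hq₁.pos
  have hq₁R : (1 : ℝ) ≤ q₁ := by exact_mod_cast hq₁0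
  have hv : (0 : ℝ) < 2 ^ i := by positivity
  have hv1 : (1 : ℝ) ≤ 2 ^ i := one_le_pow₀ (by norm_num)
  have hu : (0 : ℝ) < 3 ^ a := by positivity
  have hu1 : (1 : ℝ) ≤ 3 ^ a := one_le_pow₀ (by norm_num)
  have hqv : (q : ℝ) = 2 ^ i * q₁ := by rw [hqi]; push_cast; ring
  have hvq : (2 : ℝ) ^ i ≤ q := by rw [hqv]; nlinarith
  have hy : 3 ^ a * (X : ℝ) / (2 * 2 ^ i) ≤ X' := by
    have h1 := (abs_le.mp hX').1
    have h2 : 4 * (2 : ℝ) ^ i ≤ X := by nlinarith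
    have h3 : 2 * (3 : ℝ) ^ a ≤ 3 ^ a * (X : ℝ) / (2 * 2 ^ i) := by
      rw [le_div_iff₀ (by positivity)]
      nlinarith
    have h4 : 3 ^ a * (X : ℝ) / 2 ^ i = 2 * (3 ^ a * (X : ℝ) / (2 * 2 ^ i)) := by
      field_simp
    linarith
  have hys : Real.sqrt X ≤ X' := by
    refine le_trans ?_ hy
    rw [le_div_iff₀ (by positivity)]
    have h5 : Real.sqrt X * (2 * 2 ^ i) ≤ Real.sqrt X * Real.sqrt X :=
      mul_le_mul_of_nonneg_left (by linarith) (Real.sqrt_nonneg _)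
    nlinarith
  have hX₁' : X₁ ≤ X' := by
    have h1 : (X₁ : ℝ) ≤ Real.sqrt X := by
      rw [Real.le_sqrt (by positivity) hXpos.le]
      exact_mod_cast hX₁
    exact_mod_cast h1.trans hys
  have hX'2 : 2 ≤ X' := by
    have h1 : (2 : ℝ) ≤ X' := by linarith
    exact_mod_cast h1
  have hypos : (0 : ℝ) < X' := by
    have : (2 : ℝ) ≤ X' := by exact_mod_cast hX'2
    linarith
  -- the logarithm
  have hlogX : C₀ / c ≤ Real.log X := by
    rw [Real.le_log_iff_exp_le hXpos]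
    refine le_trans ?_ hX
    have h1 : (1 : ℝ) ≤ (q : ℝ) ^ C₀ := by nlinarith
    nlinarith [Real.exp_pos (C₀ / c)]
  have hlogy : 2 * C₁ / c ≤ Real.log X' := by
    have h1 : Real.log (Real.sqrt X) ≤ Real.log X' :=
      Real.log_le_log (Real.sqrt_pos.mpr hXpos) hys
    rw [Real.log_sqrt hXpos.le] at h1
    have h2 : 2 * C₁ / c ≤ C₀ / c / 2 := by
      rw [div_div, div_le_div_iff₀ hc (by positivity)]
      nlinarith
    linarith
  have hlogpos : 0 < Real.log X' := lt_of_lt_of_le (by positivity) hlogy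
  -- the modulus
  have hQ : ((3 ^ a * q₁ : ℕ) : ℝ) ≤ (X' : ℝ) ^ δ := by
    have h1 : ((3 ^ a * q₁ : ℕ) : ℝ) ≤ (q : ℝ) ^ 2 := by
      push_cast
      have h2 : (3 : ℝ) ^ a ≤ (2 ^ i) ^ 2 := by
        calc (3 : ℝ) ^ a ≤ 3 ^ i := pow_le_pow_right₀ (by norm_num) ha
          _ ≤ 4 ^ i := pow_le_pow_left₀ (by norm_num) (by norm_num) i
          _ = (2 ^ i) ^ 2 := by rw [← pow_mul, mul_comm, pow_mul]; norm_num
      rw [hqv, mul_pow]
      exact mul_le_mul h2 (by nlinarith) (by positivity) (by positivity)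
    refine h1.trans ?_
    have h3 : (q : ℝ) ^ (C₀ / 2) ≤ X' := by
      refine le_trans ?_ hys
      rw [Real.le_sqrt (by positivity) hXpos.le, ← Real.rpow_natCast, ← Real.rpow_mul (by linarith)]
      have h4 : C₀ / 2 * ((2 : ℕ) : ℝ) = C₀ := by push_cast; ring
      rw [h4]
      have h5 : (1 : ℝ) ≤ Real.exp (C₀ / c) := Real.one_le_exp (by positivity)
      nlinarith
    calc (q : ℝ) ^ 2 = (q : ℝ) ^ ((2 : ℕ) : ℝ) := (Real.rpow_natCast _ _).symm
      _ ≤ (q : ℝ) ^ (C₀ / 2 * δ) := by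
        refine Real.rpow_le_rpow_of_exponent_le hq1R ?_
        push_cast
        have h6 : 4 / δ * δ = 4 := div_mul_cancel₀ _ hδ.ne'
        nlinarith
      _ = ((q : ℝ) ^ (C₀ / 2)) ^ δ := Real.rpow_mul (by linarith) _ _
      _ ≤ (X' : ℝ) ^ δ := Real.rpow_le_rpow (by positivity) h3 hδ.le
  have hodd : Odd (3 ^ a * q₁) := (Odd.pow (by decide)).mul hq₁
  have h1 := hA σ b A X' (3 ^ a * q₁) hσ hI hX'2 hodd hQ
  have h2 := hN X' hX₁'
  rw [hNN]
  have hQpos : (0 : ℝ) < ((3 ^ a * q₁ : ℕ) : ℝ) := by exact_mod_cast hodd.pos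
  set Q : ℝ := ((3 ^ a * q₁ : ℕ) : ℝ) with hQd
  rw [pow_one] at h1
  have h3 := (abs_le.mp h1).1
  have h4 : c * X' / Q ≤ (N σ A X' 1 0 : ℝ) / Q := div_le_div_of_nonneg_right h2 hQpos.le
  have h5 : C * X' / (Q * Real.log X') ≤ c / 2 * (X' / Q) := by
    have h6 : C * X' / (Q * Real.log X') = C / Real.log X' * (X' / Q) := by
      field_simp
    rw [h6]
    refine mul_le_mul_of_nonneg_right ?_ (by positivity)
    rw [div_le_iff₀ hlogpos]
    rw [div_le_iff₀ hc] at hlogy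
    nlinarith
  have h7 : (X : ℝ) / (2 * q) ≤ X' / Q := by
    rw [le_div_iff₀ hQpos]
    refine le_trans (le_of_eq ?_) hy
    rw [hQd, hqv]
    push_cast
    field_simp
  have h8 : c / 4 * (X / q) = c / 2 * (X / (2 * q)) := by
    field_simp
    ring
  rw [h8]
  have h9 : c / 2 * ((X : ℝ) / (2 * q)) ≤ c / 2 * (X' / Q) :=
    mul_le_mul_of_nonneg_left h7 (by positivity)
  have h10 : c * X' / Q = c * (X' / Q) := by ring
  linarith

end Pool.Agent.SLD
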