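import Pool.Agent.SLD.StA

/-!
SLD, module MIX (helper25): fine-scale mixing, assembly.
-/

set_option autoImplicit false

namespace Pool.Agent.SLD

open Finset

lemma MIX_le (a k : ℕ) (h : (3 : ℝ) ^ a ≤ Real.exp k) : a ≤ k := by
  have h1 : Real.exp k ≤ (3 : ℝ) ^ k := by
    have h2 : Real.exp (k : ℝ) = Real.exp 1 ^ k := by
      rw [← Real.exp_nat_mul, mul_one]
    rw [h2]
    refine pow_le_pow_left₀ (Real.exp_pos _).le ?_ k
    have := Real.exp_one_lt_d9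
    linarith
  exact (pow_le_pow_iff_right₀ (by norm_num : (1 : ℝ) < 3)).1 (h.trans h1)

lemma MIX_ind (h1 : St_TEL) (k a q₀ S : ℕ) (hq : Odd q₀) (x y : ℝ)
    (hx : Osc (3 ^ (k / 4) * q₀) (3 ^ (k / 4)) k S ≤ x)
    (hy : ∀ j, k / 4 < j → j ≤ k + a → Osc (3 ^ j * q₀) (3 ^ (j - 1) * q₀) k S ≤ y) (n : ℕ)
    (hn : k / 4 + n ≤ k + a) : Osc (3 ^ (k / 4 + n) * q₀) (3 ^ (k / 4)) k S ≤ x + n * y := by
  induction n with
  | zero => simpa using hx
  | succ n ih =>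
    have h2 := ih (by omega)
    have h3 := hy (k / 4 + (n + 1)) (by omega) hn
    have h4 := h1 (3 ^ (k / 4 + (n + 1)) * q₀) (3 ^ (k / 4 + n) * q₀) (3 ^ (k / 4)) k S
      (Nat.mul_pos (by positivity) hq.pos)
      (Nat.mul_dvd_mul_right (pow_dvd_pow 3 (by omega)) q₀)
      ((pow_dvd_pow 3 (by omega)).mul_right q₀)
    have h5 : k / 4 + (n + 1) - 1 = k / 4 + n := by omega
    rw [h5] at h3
    push_cast
    linarith

theorem thm_MIX (h1 : St_TEL) (h2 : St_STP) (h3 : St_STQ) : St_MIX := by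
  intro B
  obtain ⟨δ₂, hδ₂, C₂, h2⟩ := h2 (B + 1)
  obtain ⟨δ₁, hδ₁, C₁, h3⟩ := h3 B
  refine ⟨min (min δ₁ δ₂) 1, lt_min (lt_min hδ₁ hδ₂) one_pos, C₁ + 2 * max C₂ 0, ?_⟩
  intro k a q₀ hk hq hq3 hle
  have hk0 : (0 : ℝ) < k := by exact_mod_cast hk
  have hexp : ∀ δ : ℝ, min (min δ₁ δ₂) 1 ≤ δ → (3 : ℝ) ^ a * q₀ ≤ Real.exp (δ * k) := fun δ hδ =>
    hle.trans (Real.exp_le_exp.2 (mul_le_mul_of_nonneg_right hδ hk0.le))
  have hq1 : (1 : ℝ) ≤ q₀ := by exact_mod_cast hq.pos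
  have h3a : (1 : ℝ) ≤ 3 ^ a := one_le_pow₀ (by norm_num)
  have ha : a ≤ k := by
    refine MIX_le a k ?_
    have h4 := hexp 1 (min_le_right _ _)
    rw [one_mul] at h4
    refine le_trans ?_ h4
    exact le_mul_of_one_le_right (by linarith) hq1
  have hx := h3 k q₀ hk hq hq3 (by
    refine le_trans ?_ (hexp δ₁ ((min_le_left _ _).trans (min_le_left _ _)))
    exact le_mul_of_one_le_left (by linarith) h3a)
  have hy : ∀ j, k / 4 < j → j ≤ k + a →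
      Osc (3 ^ j * q₀) (3 ^ (j - 1) * q₀) k (21 * k / 10 + 1) ≤ max C₂ 0 / (k : ℝ) ^ (B + 1) := by
    intro j hj hj2
    refine (h2 k a q₀ j hk hq hq3 (hexp δ₂ ((min_le_left _ _).trans (min_le_right _ _))) hj
      hj2).trans ?_
    exact div_le_div_of_nonneg_right (le_max_left _ _) (by positivity)
  have key := MIX_ind h1 k a q₀ (21 * k / 10 + 1) hq _ _ hx hy (k + a - k / 4) (by omega)
  have e1 : k / 4 + (k + a - k / 4) = k + a := by omega
  rw [e1] at key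
  refine key.trans ?_
  have h5 : ((k + a - k / 4 : ℕ) : ℝ) ≤ 2 * k := by
    have : k + a - k / 4 ≤ 2 * k := by omega
    exact_mod_cast this
  have h6 : 0 ≤ max C₂ 0 / (k : ℝ) ^ (B + 1) := div_nonneg (le_max_right _ _) (by positivity)
  calc C₁ / (k : ℝ) ^ B + ((k + a - k / 4 : ℕ) : ℝ) * (max C₂ 0 / (k : ℝ) ^ (B + 1))
      ≤ C₁ / (k : ℝ) ^ B + 2 * k * (max C₂ 0 / (k : ℝ) ^ (B + 1)) := by
        have := mul_le_mul_of_nonneg_right h5 h6
        linarith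
    _ = (C₁ + 2 * max C₂ 0) / (k : ℝ) ^ B := by
        rw [pow_succ]
        field_simp

end Pool.Agent.SLD
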