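import Pool.Agent.SLD.StA

/-!
SLD, module ORD (helper42): the orders of `3 ^ m * hf Q ^ t * h`.
-/

set_option autoImplicit false

namespace Pool.Agent.SLD

open Finset

theorem ORD_two {Q : ℕ} (hQ : Odd Q) : (2 : ZMod Q) * hf Q = 1 := by
  obtain ⟨m, rfl⟩ := hQ
  unfold hf
  have h1 : (2 * m + 1 + 1) / 2 = m + 1 := by omega
  rw [h1]
  have h2 : ((2 * m + 1 : ℕ) : ZMod (2 * m + 1)) = 0 := ZMod.natCast_self _
  have h3 : (2 : ZMod (2 * m + 1)) * ((m + 1 : ℕ) : ZMod (2 * m + 1)) =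
      ((2 * m + 1 : ℕ) : ZMod (2 * m + 1)) + 1 := by
    push_cast
    ring
  rw [h3, h2, zero_add]

theorem ORD_unit {Q : ℕ} {u : ZMod Q} (hu : IsUnit u) (x : ZMod Q) :
    addOrderOf (u * x) = addOrderOf x := by
  have h1 : Function.Injective (AddMonoidHom.mulLeft u) := fun a b hab => hu.mul_left_cancel hab
  exact addOrderOf_injective (AddMonoidHom.mulLeft u) h1 x

theorem thm_ORD : St_ORD := by
  intro Q _ hQ h n q ho hq
  have hQ0 : 0 < Q := Nat.pos_of_ne_zero (NeZero.ne Q)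
  have hu : IsUnit (hf Q) := IsUnit.of_mul_eq_one 2 (by rw [mul_comm]; exact ORD_two hQ)
  have hfin : IsOfFinAddOrder h := isOfFinAddOrder_of_finite h
  have key : ∀ m t : ℕ, addOrderOf (3 ^ m * hf Q ^ t * h) =
      3 ^ n * q / Nat.gcd (3 ^ n * q) (3 ^ m) := by
    intro m t
    have h1 : (3 : ZMod Q) ^ m * hf Q ^ t * h = hf Q ^ t * ((3 ^ m : ℕ) • h) := by
      rw [nsmul_eq_mul]
      push_cast
      ring
    rw [h1, ORD_unit (hu.pow t), hfin.addOrderOf_nsmul, ho]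
  refine ⟨fun m t hm => ?_, fun m t hm => ?_, ?_⟩
  · have h1 : 3 ^ n * q = 3 ^ m * (3 ^ (n - m) * q) := by
      rw [← mul_assoc, ← pow_add, Nat.add_sub_cancel' hm]
    rw [key, h1, Nat.gcd_eq_right (Dvd.intro _ rfl), Nat.mul_div_cancel_left _ (by positivity)]
  · have h1 : 3 ^ m = 3 ^ n * 3 ^ (m - n) := by
      rw [← pow_add, Nat.add_sub_cancel' hm]
    have h2 : Nat.gcd q (3 ^ (m - n)) = 1 :=
      Nat.Coprime.pow_right _ ((Nat.Prime.coprime_iff_not_dvd Nat.prime_three).2 hq).symm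
    rw [key, h1, Nat.gcd_mul_left, h2, mul_one, Nat.mul_div_cancel_left _ (by positivity)]
  · have h1 : addOrderOf h ∣ Q := addOrderOf_dvd_of_nsmul_eq_zero (by
      rw [nsmul_eq_mul, ZMod.natCast_self, zero_mul])
    rw [ho] at h1
    exact hQ.of_dvd_nat ((Dvd.intro_left _ rfl).trans h1)

end Pool.Agent.SLD
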