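import Pool.Agent.SLD.StA

/-!
SLD, block PLN: Plancherel in `ZMod Q` for two moduli.
-/

set_option autoImplicit false

namespace Pool.Agent.SLD

open Finset Filter Topology
open Pool.Agent.Collatz3 (cw)

lemma PLN_mem (Q Q' m : ℕ) [NeZero Q] (hQ : Q = Q' * m) (z : ZMod Q) :
    (m : ZMod Q) * z = 0 ↔ Q' ∣ z.val := by
  have hm : 0 < m := Nat.pos_of_ne_zero fun h => NeZero.ne Q (by rw [hQ, h, mul_zero])
  have h1 : (m : ZMod Q) * z = ((m * z.val : ℕ) : ZMod Q) := by
    rw [Nat.cast_mul, ZMod.natCast_zmod_val]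
  rw [h1, ZMod.natCast_eq_zero_iff]
  have e : m * Q' ∣ m * z.val ↔ Q' ∣ z.val := Nat.mul_dvd_mul_iff_left hm
  have e2 : m * Q' = Q := by rw [mul_comm, ← hQ]
  rw [e2] at e
  exact e

/-- the kernel of the multiplication by `m` -/
lemma PLN_card (Q Q' m : ℕ) [NeZero Q] (hQ : Q = Q' * m) :
    (univ.filter fun z : ZMod Q => (m : ZMod Q) * z = 0).card = m := by
  have hm : 0 < m := Nat.pos_of_ne_zero fun h => NeZero.ne Q (by rw [hQ, h, mul_zero])
  have hQ' : 0 < Q' := Nat.pos_of_ne_zero fun h => NeZero.ne Q (by rw [hQ, h, zero_mul])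
  have hv : ∀ k < m, (((Q' * k : ℕ) : ZMod Q)).val = Q' * k := fun k hk => by
    rw [ZMod.val_natCast, Nat.mod_eq_of_lt]
    calc Q' * k < Q' * m := Nat.mul_lt_mul_of_pos_left hk hQ'
      _ = Q := hQ.symm
  have h : (range m).card = (univ.filter fun z : ZMod Q => (m : ZMod Q) * z = 0).card := by
    refine Finset.card_bij (fun k _ => ((Q' * k : ℕ) : ZMod Q)) ?_ ?_ ?_
    · intro k hk
      rw [mem_filter, PLN_mem Q Q' m hQ, hv k (mem_range.1 hk)]
      exact ⟨mem_univ _, dvd_mul_right _ _⟩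
    · intro k hk l hl hkl
      have h1 := congrArg ZMod.val hkl
      rw [hv k (mem_range.1 hk), hv l (mem_range.1 hl)] at h1
      exact Nat.eq_of_mul_eq_mul_left hQ' h1
    · intro z hz
      rw [mem_filter, PLN_mem Q Q' m hQ] at hz
      obtain ⟨k, hk⟩ := hz.2
      refine ⟨k, mem_range.2 ?_, ?_⟩
      · have h1 := ZMod.val_lt z
        rw [hk] at h1
        conv_rhs at h1 => rw [hQ]
        exact Nat.lt_of_mul_lt_mul_left h1
      · rw [← hk, ZMod.natCast_zmod_val]
  rw [← h, card_range]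

/-- the sum of a character over the kernel of the multiplication by `m` -/
lemma PLN_ker (Q Q' m : ℕ) [NeZero Q] (hQ : Q = Q' * m) (h : ZMod Q) :
    ∑ z : ZMod Q with (m : ZMod Q) * z = 0, ZMod.stdAddChar (h * z) =
      if (Q' : ZMod Q) * h = 0 then (m : ℂ) else 0 := by
  by_cases h0 : (Q' : ZMod Q) * h = 0
  · rw [if_pos h0]
    have h1 : ∀ z ∈ univ.filter fun z : ZMod Q => (m : ZMod Q) * z = 0,
        (ZMod.stdAddChar (h * z) : ℂ) = 1 := by
      intro z hz
      rw [mem_filter, PLN_mem Q Q' m hQ] at hz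
      obtain ⟨k, hk⟩ := hz.2
      have h2 : z = ((Q' * k : ℕ) : ZMod Q) := by rw [← hk, ZMod.natCast_zmod_val]
      have h3 : h * z = 0 := by
        rw [h2]
        push_cast
        calc h * ((Q' : ZMod Q) * k) = ((Q' : ZMod Q) * h) * k := by ring
          _ = 0 := by rw [h0, zero_mul]
      rw [h3, AddChar.map_zero_eq_one]
    rw [sum_congr rfl h1, sum_const, PLN_card Q Q' m hQ, nsmul_eq_mul, mul_one]
  · rw [if_neg h0]
    have hne : (ZMod.stdAddChar (h * (Q' : ZMod Q)) : ℂ) ≠ 1 := by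
      intro h1
      apply h0
      have h2 : (ZMod.stdAddChar (h * (Q' : ZMod Q)) : ℂ) = ZMod.stdAddChar (0 : ZMod Q) := by
        rw [h1, AddChar.map_zero_eq_one]
      rw [mul_comm]
      exact ZMod.injective_stdAddChar h2
    have hQm : (m : ZMod Q) * (Q' : ZMod Q) = 0 := by
      rw [← Nat.cast_mul, mul_comm, ← hQ, ZMod.natCast_self]
    have h2 : ∑ z : ZMod Q with (m : ZMod Q) * z = 0, (ZMod.stdAddChar (h * z) : ℂ) =
        ZMod.stdAddChar (h * (Q' : ZMod Q)) *
          ∑ z : ZMod Q with (m : ZMod Q) * z = 0, (ZMod.stdAddChar (h * z) : ℂ) := by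
      rw [mul_sum]
      refine Finset.sum_bij (fun z _ => z - (Q' : ZMod Q)) ?_ ?_ ?_ ?_
      · intro z hz
        rw [mem_filter] at hz ⊢
        exact ⟨mem_univ _, by rw [mul_sub, hz.2, hQm, sub_zero]⟩
      · intro z _ z' _ h
        exact sub_left_injective h
      · intro z hz
        rw [mem_filter] at hz
        exact ⟨z + Q', mem_filter.2 ⟨mem_univ _, by rw [mul_add, hz.2, hQm, add_zero]⟩, by ring⟩
      · intro z _
        rw [← AddChar.map_add_eq_mul]
        congr 1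
        ring
    have h3 : (1 - (ZMod.stdAddChar (h * (Q' : ZMod Q)) : ℂ)) *
        ∑ z : ZMod Q with (m : ZMod Q) * z = 0, (ZMod.stdAddChar (h * z) : ℂ) = 0 := by
      rw [sub_mul, one_mul, ← h2, sub_self]
    rcases mul_eq_zero.1 h3 with h4 | h4
    · exact absurd (sub_eq_zero.1 h4).symm hne
    · exact h4

/-- Plancherel -/
lemma PLN_pars (Q : ℕ) [NeZero Q] (f : ZMod Q → ℂ) :
    ∑ h : ZMod Q, ‖∑ x, f x * ZMod.stdAddChar (h * x)‖ ^ 2 = Q * ∑ x, ‖f x‖ ^ 2 := by
  have h1 : ∀ h : ZMod Q, ((‖∑ x, f x * ZMod.stdAddChar (h * x)‖ ^ 2 : ℝ) : ℂ) =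
      ∑ x, ∑ x', f x * (starRingEnd ℂ) (f x') * ZMod.stdAddChar (h * (x - x')) := by
    intro h
    rw [← Complex.normSq_eq_norm_sq, ← Complex.mul_conj, map_sum, Finset.sum_mul_sum]
    refine Finset.sum_congr rfl fun x _ => Finset.sum_congr rfl fun x' _ => ?_
    have e : (ZMod.stdAddChar (h * (x - x')) : ℂ) =
        ZMod.stdAddChar (h * x) * (starRingEnd ℂ) (ZMod.stdAddChar (h * x')) := by
      rw [mul_sub, sub_eq_add_neg, AddChar.map_add_eq_mul, AddChar.map_neg_eq_conj]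
    rw [e, map_mul (starRingEnd ℂ)]
    ring
  have h2 : (((∑ h : ZMod Q, ‖∑ x, f x * ZMod.stdAddChar (h * x)‖ ^ 2 : ℝ)) : ℂ) =
      ((Q * ∑ x, ‖f x‖ ^ 2 : ℝ) : ℂ) := by
    rw [Complex.ofReal_sum]
    simp only [h1]
    rw [Finset.sum_comm]
    push_cast
    rw [Finset.mul_sum]
    refine Finset.sum_congr rfl fun x _ => ?_
    rw [Finset.sum_comm]
    have h3 : ∀ x' : ZMod Q, ∑ h : ZMod Q,
        f x * (starRingEnd ℂ) (f x') * ZMod.stdAddChar (h * (x - x')) =
          if x' = x then f x * (starRingEnd ℂ) (f x') * Q else 0 := by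
      intro x'
      rw [← Finset.mul_sum, AddChar.sum_mulShift _ (ZMod.isPrimitive_stdAddChar Q)]
      by_cases h : x' = x
      · rw [if_pos h, if_pos (by rw [h, sub_self]), ZMod.card]
      · rw [if_neg h, if_neg (fun h' => h (sub_eq_zero.1 h').symm)]
        simp
    simp only [h3, Finset.sum_ite_eq', Finset.mem_univ, if_true]
    rw [Complex.mul_conj, Complex.normSq_eq_norm_sq]
    push_cast
    ring
  exact_mod_cast h2

/-- [PLN] -/
theorem thm_PLN : St_PLN := by
  intro Q Q' _ hdvd ι Ω y a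
  obtain ⟨m, hm⟩ := hdvd
  have hm0 : 0 < m := Nat.pos_of_ne_zero fun h => NeZero.ne Q (by rw [hm, h, mul_zero])
  have hQ'0 : 0 < Q' := Nat.pos_of_ne_zero fun h => NeZero.ne Q (by rw [hm, h, zero_mul])
  have hdiv : Q / Q' = m := by rw [hm]; exact Nat.mul_div_cancel_left m hQ'0
  rw [hdiv]
  set f : ZMod Q → ℂ := fun x => (∑ w ∈ Ω with y w = x, a w) - (Q' : ℂ) / Q *
    (∑ w ∈ Ω with (m : ZMod Q) * (y w - x) = 0, a w) with hf
  have h1 : ∀ h : ZMod Q, ∑ x, (∑ w ∈ Ω with y w = x, a w) * ZMod.stdAddChar (h * x) =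
      ∑ w ∈ Ω, a w * ZMod.stdAddChar (h * y w) := by
    intro h
    simp only [Finset.sum_filter, Finset.sum_mul, ite_mul, zero_mul]
    rw [Finset.sum_comm]
    refine Finset.sum_congr rfl fun w _ => ?_
    simp
  have h2 : ∀ h : ZMod Q, ∑ x, (∑ w ∈ Ω with (m : ZMod Q) * (y w - x) = 0, a w) *
      ZMod.stdAddChar (h * x) = (∑ w ∈ Ω, a w * ZMod.stdAddChar (h * y w)) *
        if (Q' : ZMod Q) * h = 0 then (m : ℂ) else 0 := by
    intro h
    simp only [Finset.sum_filter, Finset.sum_mul, ite_mul, zero_mul]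
    rw [Finset.sum_comm]
    refine Finset.sum_congr rfl fun w _ => ?_
    rw [← Equiv.sum_comp (Equiv.subLeft (y w))]
    have e1 : ∀ z : ZMod Q, (if (m : ZMod Q) * (y w - (Equiv.subLeft (y w)) z) = 0 then
        a w * (ZMod.stdAddChar (h * (Equiv.subLeft (y w)) z) : ℂ) else 0) =
        a w * ZMod.stdAddChar (h * y w) * (if (m : ZMod Q) * z = 0 then
          (ZMod.stdAddChar ((-h) * z) : ℂ) else 0) := by
      intro z
      have e2 : y w - (Equiv.subLeft (y w)) z = z := by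
        simp
      have e3 : h * (Equiv.subLeft (y w)) z = h * y w + (-h) * z := by
        simp only [Equiv.subLeft_apply]
        ring
      rw [e2, e3, AddChar.map_add_eq_mul]
      by_cases hz : (m : ZMod Q) * z = 0
      · rw [if_pos hz, if_pos hz]
        ring
      · rw [if_neg hz, if_neg hz, mul_zero]
    simp only [e1]
    rw [← Finset.mul_sum, ← Finset.sum_filter, PLN_ker Q Q' m hm (-h)]
    simp only [mul_neg, neg_eq_zero]
  have hQm : (Q' : ℂ) / Q * m = 1 := by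
    have : (Q : ℂ) ≠ 0 := by exact_mod_cast NeZero.ne Q
    rw [div_mul_eq_mul_div, div_eq_one_iff_eq this]
    exact_mod_cast hm.symm
  have h3 : ∀ h : ZMod Q, ∑ x, f x * ZMod.stdAddChar (h * x) =
      if (Q' : ZMod Q) * h ≠ 0 then ∑ w ∈ Ω, a w * ZMod.stdAddChar (h * y w) else 0 := by
    intro h
    simp only [hf, sub_mul, Finset.sum_sub_distrib]
    rw [h1]
    simp only [mul_assoc ((Q' : ℂ) / Q)]
    rw [← Finset.mul_sum, h2]
    by_cases h0 : (Q' : ZMod Q) * h = 0
    · rw [if_pos h0, if_neg (not_not.2 h0)]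
      linear_combination (-(∑ w ∈ Ω, a w * ZMod.stdAddChar (h * y w))) * hQm
    · rw [if_neg h0, if_pos h0]
      ring
  have h4 := PLN_pars Q f
  have h5 : (∑ x, ‖f x‖) ^ 2 ≤ Q * ∑ x, ‖f x‖ ^ 2 := by
    have := sq_sum_le_card_mul_sum_sq (s := (univ : Finset (ZMod Q))) (f := fun x => ‖f x‖)
    rwa [Finset.card_univ, ZMod.card] at this
  apply Real.le_sqrt_of_sq_le
  refine h5.trans ?_
  rw [← h4]
  simp only [h3]
  rw [Finset.sum_filter]
  refine le_of_eq (Finset.sum_congr rfl fun h _ => ?_)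
  by_cases h0 : (Q' : ZMod Q) * h ≠ 0
  · rw [if_pos h0, if_pos h0]
  · rw [if_neg h0, if_neg h0]
    simp

end Pool.Agent.SLD
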