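import Pool.Agent.SLD.StA

/-!
SLD, STG: the general mixing step (helper39)
-/

set_option autoImplicit false

namespace Pool.Agent.SLD

open Finset
open Pool.Agent.Collatz3 (cw)

/-- the good words of sum `t` -/
private def STG_good (k K smin t : ℕ) : Finset (List ℕ) :=
  if t < smin then ∅ else {u ∈ W k t | cw u < K * 2 ^ t}

/-- the other words of sum `t` -/
private def STG_bad (k K smin t : ℕ) : Finset (List ℕ) :=
  if t < smin then W k t else {u ∈ W k t | ¬ cw u < K * 2 ^ t}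

private lemma STG_split (k K smin t : ℕ) (f : List ℕ → ℂ) :
    ∑ u ∈ W k t, f u = ∑ u ∈ STG_good k K smin t, f u + ∑ u ∈ STG_bad k K smin t, f u := by
  unfold STG_good STG_bad
  split_ifs with h
  · simp
  · exact (Finset.sum_filter_add_sum_filter_not _ _ _).symm

private lemma STG_good_sub (k K smin t : ℕ) : STG_good k K smin t ⊆ W k t := by
  unfold STG_good
  split_ifs with h
  · simp
  · exact Finset.filter_subset _ _

/-- the kernel -/
private noncomputable def STG_phi (Q Q' : ℕ) (y x : ZMod Q) : ℂ :=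
  (if y = x then 1 else 0) -
    (Q' : ℂ) / Q * (if ((Q / Q' : ℕ) : ZMod Q) * (y - x) = 0 then 1 else 0)

private lemma STG_dvd (Q Q' : ℕ) [NeZero Q] (h : Q' ∣ Q) (a : ℤ) :
    ((Q / Q' : ℕ) : ZMod Q) * (a : ZMod Q) = 0 ↔ (Q' : ℤ) ∣ a := by
  obtain ⟨m, rfl⟩ := h
  have hQ : Q' * m ≠ 0 := NeZero.ne _
  have hQ' : 0 < Q' := Nat.pos_of_ne_zero (left_ne_zero_of_mul hQ)
  have hm : 0 < m := Nat.pos_of_ne_zero (right_ne_zero_of_mul hQ)
  rw [Nat.mul_div_cancel_left m hQ']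
  have h1 : ((m : ℕ) : ZMod (Q' * m)) * (a : ZMod (Q' * m)) = (((m : ℤ) * a : ℤ) : ZMod (Q' * m)) := by
    push_cast
    rfl
  rw [h1, ZMod.intCast_zmod_eq_zero_iff_dvd]
  have h2 : ((Q' * m : ℕ) : ℤ) = (m : ℤ) * Q' := by push_cast; ring
  rw [h2]
  exact mul_dvd_mul_iff_left (by exact_mod_cast hm.ne')

private lemma STG_X (Q : ℕ) [NeZero Q] (h2 : (2 : ZMod Q) * hf Q = 1) (w : List ℕ) (s : ℕ)
    (hw : w.sum = s) (x : ZMod Q) : 2 ^ s * (X Q w - x) = (cw w : ZMod Q) - 2 ^ s * x := by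
  have h3 : (2 : ZMod Q) ^ s * hf Q ^ s = 1 := by rw [← mul_pow, h2, one_pow]
  rw [X, hw, mul_sub]
  have : (2 : ZMod Q) ^ s * ((cw w : ZMod Q) * hf Q ^ s) = (cw w : ZMod Q) := by
    calc _ = (cw w : ZMod Q) * (2 ^ s * hf Q ^ s) := by ring
      _ = _ := by rw [h3, mul_one]
  rw [this]

private lemma STG_dvd1 (Q : ℕ) [NeZero Q] (h2 : (2 : ZMod Q) * hf Q = 1) (w : List ℕ) (s : ℕ)
    (hw : w.sum = s) (x : ℤ) :
    (Q : ℤ) ∣ 2 ^ s * x - (cw w : ℤ) ↔ X Q w = (x : ZMod Q) := by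
  have h3 : (2 : ZMod Q) ^ s * hf Q ^ s = 1 := by rw [← mul_pow, h2, one_pow]
  have hu : IsUnit ((2 : ZMod Q) ^ s) := IsUnit.of_mul_eq_one _ h3
  rw [← ZMod.intCast_zmod_eq_zero_iff_dvd]
  push_cast
  rw [← sub_eq_zero (a := X Q w), ← hu.mul_right_eq_zero (b := X Q w - (x : ZMod Q)),
    STG_X Q h2 w s hw, ← neg_eq_zero, neg_sub]

private lemma STG_dvd2 (Q Q' : ℕ) [NeZero Q] (h : Q' ∣ Q) (h2 : (2 : ZMod Q) * hf Q = 1)
    (w : List ℕ) (s : ℕ) (hw : w.sum = s) (x : ℤ) :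
    (Q' : ℤ) ∣ 2 ^ s * x - (cw w : ℤ) ↔
      ((Q / Q' : ℕ) : ZMod Q) * (X Q w - (x : ZMod Q)) = 0 := by
  have h3 : (2 : ZMod Q) ^ s * hf Q ^ s = 1 := by rw [← mul_pow, h2, one_pow]
  have hu : IsUnit ((2 : ZMod Q) ^ s) := IsUnit.of_mul_eq_one _ h3
  rw [← STG_dvd Q Q' h]
  push_cast
  rw [← hu.mul_right_eq_zero (b := ((Q / Q' : ℕ) : ZMod Q) * (X Q w - (x : ZMod Q))),
    mul_left_comm, STG_X Q h2 w s hw, ← neg_eq_zero, ← mul_neg, neg_sub]

private lemma STG_range (Q : ℕ) [NeZero Q] (f : ZMod Q → ℝ) :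
    ∑ x ∈ range Q, f (x : ZMod Q) = ∑ x : ZMod Q, f x := by
  refine Finset.sum_nbij' (fun n : ℕ => (n : ZMod Q)) (fun x : ZMod Q => x.val) ?_ ?_ ?_ ?_ ?_
  · intro a _
    exact Finset.mem_univ _
  · intro x _
    exact Finset.mem_range.2 (ZMod.val_lt x)
  · intro a ha
    exact ZMod.val_cast_of_lt (Finset.mem_range.1 ha)
  · intro x _
    exact ZMod.natCast_zmod_val x
  · intro a _
    rfl

private lemma STG_D (hW : St_WRD) (Q Q' : ℕ) [NeZero Q] (h : Q' ∣ Q)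
    (h2 : (2 : ZMod Q) * hf Q = 1) (k s : ℕ) (x : ℤ) :
    ((P Q k s x - (Q' : ℝ) / Q * P Q' k s x : ℝ) : ℂ) =
      (∑ w ∈ W k s, STG_phi Q Q' (X Q w) (x : ZMod Q)) / 2 ^ s := by
  classical
  have h1 : ∀ w ∈ W k s, STG_phi Q Q' (X Q w) (x : ZMod Q) =
      (if (Q : ℤ) ∣ 2 ^ s * x - (cw w : ℤ) then 1 else 0) -
        (Q' : ℂ) / Q * (if (Q' : ℤ) ∣ 2 ^ s * x - (cw w : ℤ) then 1 else 0) := by
    intro w hw
    have hs := ((hW.1 k s w).1 hw).2.2
    unfold STG_phi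
    congr 1
    · exact if_congr (STG_dvd1 Q h2 w s hs x).symm rfl rfl
    · congr 1
      exact if_congr (STG_dvd2 Q Q' h h2 w s hs x).symm rfl rfl
  rw [Finset.sum_congr rfl h1, Finset.sum_sub_distrib, ← Finset.mul_sum]
  unfold P
  simp only [Finset.sum_boole]
  push_cast
  ring

private lemma STG_card (Q Q' : ℕ) [NeZero Q] (h : Q' ∣ Q) (y : ZMod Q) :
    #{x : ZMod Q | ((Q / Q' : ℕ) : ZMod Q) * (y - x) = 0} ≤ Q / Q' := by
  classical
  have hQ : 0 < Q := Nat.pos_of_ne_zero (NeZero.ne Q)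
  have hQ' : 0 < Q' := Nat.pos_of_dvd_of_pos h hQ
  have hd : ∀ x : ZMod Q, ((Q / Q' : ℕ) : ZMod Q) * (y - x) = 0 → Q' ∣ (y - x).val := by
    intro x hx
    have h1 : ((((y - x).val : ℕ) : ℤ) : ZMod Q) = y - x := by
      rw [Int.cast_natCast, ZMod.natCast_zmod_val]
    rw [← h1, STG_dvd Q Q' h] at hx
    exact_mod_cast hx
  calc _ ≤ #(range (Q / Q')) := by
        refine Finset.card_le_card_of_injOn (fun x => (y - x).val / Q') ?_ ?_
        · intro x hx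
          simp only [Finset.coe_filter, Finset.mem_univ, true_and, Set.mem_ofPred_eq] at hx
          simp only [Finset.coe_range, Set.mem_Iio]
          exact Nat.div_lt_div_of_lt_of_dvd h (ZMod.val_lt _)
        · intro x hx x' hx' hxx
          simp only [Finset.coe_filter, Finset.mem_univ, true_and, Set.mem_ofPred_eq] at hx hx'
          have h1 := hd x hx
          have h2 := hd x' hx'
          dsimp only at hxx
          have h3 : (y - x).val = (y - x').val := by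
            rw [← Nat.div_mul_cancel h1, ← Nat.div_mul_cancel h2, hxx]
          have h4 := ZMod.val_injective Q h3
          exact sub_right_injective h4
    _ = Q / Q' := Finset.card_range _

private lemma STG_phi_le (Q Q' : ℕ) [NeZero Q] (h : Q' ∣ Q) (y : ZMod Q) :
    ∑ x : ZMod Q, ‖STG_phi Q Q' y x‖ ≤ 2 := by
  classical
  have hQ : 0 < Q := Nat.pos_of_ne_zero (NeZero.ne Q)
  have hQ' : 0 < Q' := Nat.pos_of_dvd_of_pos h hQ
  have hQr : (0 : ℝ) < Q := by exact_mod_cast hQ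
  have hQr' : (0 : ℝ) < Q' := by exact_mod_cast hQ'
  have h1 : ∀ x : ZMod Q, ‖STG_phi Q Q' y x‖ ≤ (if y = x then 1 else 0) +
      (Q' : ℝ) / Q * (if ((Q / Q' : ℕ) : ZMod Q) * (y - x) = 0 then 1 else 0) := by
    intro x
    unfold STG_phi
    refine (norm_sub_le _ _).trans (add_le_add ?_ ?_)
    · split_ifs <;> simp
    · rw [norm_mul, norm_div, Complex.norm_natCast, Complex.norm_natCast]
      refine mul_le_mul_of_nonneg_left ?_ (by positivity)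
      split_ifs <;> simp
  calc _ ≤ ∑ x : ZMod Q, ((if y = x then (1 : ℝ) else 0) +
        (Q' : ℝ) / Q * (if ((Q / Q' : ℕ) : ZMod Q) * (y - x) = 0 then 1 else 0)) :=
        Finset.sum_le_sum fun x _ => h1 x
    _ = 1 + (Q' : ℝ) / Q * (#{x : ZMod Q | ((Q / Q' : ℕ) : ZMod Q) * (y - x) = 0} : ℝ) := by
        rw [Finset.sum_add_distrib, ← Finset.mul_sum, Finset.sum_ite_eq, if_pos (Finset.mem_univ _),
          Finset.sum_boole]
    _ ≤ 1 + (Q' : ℝ) / Q * ((Q / Q' : ℕ) : ℝ) := by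
        have := STG_card Q Q' h y
        gcongr
    _ = 2 := by
        rw [Nat.cast_div h hQr'.ne']
        field_simp
        norm_num

private lemma STG_conv (S : ℕ) (b q : ℕ → ℝ) (hb : ∀ t, 0 ≤ b t)
    (hq : ∀ S', ∑ r ∈ range S', q r ≤ 1) :
    ∑ s ∈ range S, ∑ t ∈ range (s + 1), b t * q (s - t) ≤ ∑ t ∈ range S, b t := by
  have h1 : ∑ s ∈ range S, ∑ t ∈ range (s + 1), b t * q (s - t) =
      ∑ t ∈ range S, ∑ s ∈ Ico t S, b t * q (s - t) := by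
    refine Finset.sum_comm' ?_
    intro s t
    simp only [Finset.mem_range, Finset.mem_Ico]
    omega
  rw [h1]
  refine Finset.sum_le_sum fun t _ => ?_
  rw [← Finset.mul_sum, Finset.sum_Ico_eq_sum_range]
  have h2 : ∑ i ∈ range (S - t), q (t + i - t) = ∑ i ∈ range (S - t), q i :=
    Finset.sum_congr rfl fun i _ => by rw [Nat.add_sub_cancel_left]
  rw [h2]
  have := mul_le_mul_of_nonneg_left (hq (S - t)) (hb t)
  linarith

/-- the bad part -/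
private lemma STG_badpart (hW : St_WRD) (hB : St_BAD) (Q Q' : ℕ) [NeZero Q] (h : Q' ∣ Q)
    (k₁ k₂ K smin S : ℕ) (hK : 1 ≤ K) :
    ∑ s ∈ range S, ∑ x : ZMod Q, ‖(∑ t ∈ range (s + 1), ∑ u ∈ STG_bad k₁ K smin t,
      ∑ v ∈ W k₂ (s - t), STG_phi Q Q' (X Q (u ++ v)) x) / 2 ^ s‖ ≤
      2 * ((k₁ : ℝ) / K + ∑ s ∈ range smin, p k₁ s) := by
  classical
  have h1 : ∀ s, ∑ x : ZMod Q, ‖(∑ t ∈ range (s + 1), ∑ u ∈ STG_bad k₁ K smin t,
      ∑ v ∈ W k₂ (s - t), STG_phi Q Q' (X Q (u ++ v)) x) / 2 ^ s‖ ≤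
      2 * ∑ t ∈ range (s + 1), ((#(STG_bad k₁ K smin t) : ℝ) / 2 ^ t) * p k₂ (s - t) := by
    intro s
    have h2 : ∀ x : ZMod Q, ‖(∑ t ∈ range (s + 1), ∑ u ∈ STG_bad k₁ K smin t,
        ∑ v ∈ W k₂ (s - t), STG_phi Q Q' (X Q (u ++ v)) x) / 2 ^ s‖ ≤
        (∑ t ∈ range (s + 1), ∑ u ∈ STG_bad k₁ K smin t,
        ∑ v ∈ W k₂ (s - t), ‖STG_phi Q Q' (X Q (u ++ v)) x‖) / 2 ^ s := by
      intro x
      rw [norm_div, norm_pow, Complex.norm_ofNat]
      gcongr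
      refine (norm_sum_le _ _).trans (Finset.sum_le_sum fun t _ => ?_)
      refine (norm_sum_le _ _).trans (Finset.sum_le_sum fun u _ => ?_)
      exact norm_sum_le _ _
    refine (Finset.sum_le_sum fun x _ => h2 x).trans ?_
    rw [← Finset.sum_div, Finset.sum_comm, Finset.sum_div, Finset.mul_sum]
    refine Finset.sum_le_sum fun t ht => ?_
    have h3 : ∑ x : ZMod Q, ∑ u ∈ STG_bad k₁ K smin t, ∑ v ∈ W k₂ (s - t),
        ‖STG_phi Q Q' (X Q (u ++ v)) x‖ ≤ #(STG_bad k₁ K smin t) * (#(W k₂ (s - t)) * 2) := by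
      rw [Finset.sum_comm, ← nsmul_eq_mul]
      refine Finset.sum_le_card_nsmul _ _ _ fun u _ => ?_
      rw [Finset.sum_comm, ← nsmul_eq_mul]
      exact Finset.sum_le_card_nsmul _ _ _ fun v _ => STG_phi_le Q Q' h _
    have h4 : (2 : ℝ) ^ s = 2 ^ t * 2 ^ (s - t) := by
      rw [← pow_add]
      congr 1
      have := Finset.mem_range.1 ht
      omega
    calc _ ≤ (#(STG_bad k₁ K smin t) * (#(W k₂ (s - t)) * 2) : ℝ) / 2 ^ s := by
          gcongr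
      _ = _ := by
          rw [h4, p]
          field_simp
  refine (Finset.sum_le_sum fun s _ => h1 s).trans ?_
  rw [← Finset.mul_sum]
  refine mul_le_mul_of_nonneg_left ?_ (by norm_num)
  refine (STG_conv S (fun t => (#(STG_bad k₁ K smin t) : ℝ) / 2 ^ t) (p k₂)
    (fun t => by positivity) (hW.2.1 k₂)).trans ?_
  have h5 : ∀ t, (#(STG_bad k₁ K smin t) : ℝ) / 2 ^ t ≤
      (#{w ∈ W k₁ t | K * 2 ^ t ≤ cw w} : ℝ) / 2 ^ t + if t < smin then p k₁ t else 0 := by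
    intro t
    unfold STG_bad
    split_ifs with h
    · have : (0 : ℝ) ≤ (#{w ∈ W k₁ t | K * 2 ^ t ≤ cw w} : ℝ) / 2 ^ t := by positivity
      rw [p]
      linarith
    · simp only [not_lt, add_zero, le_refl]
  refine (Finset.sum_le_sum fun t _ => h5 t).trans ?_
  rw [Finset.sum_add_distrib]
  refine add_le_add (hB k₁ K S hK) ?_
  rw [← Finset.sum_filter]
  refine Finset.sum_le_sum_of_subset_of_nonneg ?_ ?_
  · intro t ht
    exact Finset.mem_range.2 (Finset.mem_filter.1 ht).2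
  · intro t _ _
    rw [p]
    positivity

/-- the good part -/
private lemma STG_goodpart (hP : St_PLN) (hC : St_COL) (hW : St_WRD) (hM : St_CMP) (Q Q' : ℕ)
    [NeZero Q] (hodd : Odd Q) (h : Q' ∣ Q) (k₁ k₂ K smin s : ℕ) (g : ℝ) (hK : 1 ≤ K)
    (hQ : Q ≤ 2 ^ smin) (hg : 0 ≤ g)
    (hF : ∀ h : ZMod Q, (Q' : ZMod Q) * h ≠ 0 → ∀ t s : ℕ,
      ‖F Q k₂ s (3 ^ k₁ * hf Q ^ t * h)‖ ≤ g) :
    ∑ x : ZMod Q, ‖(∑ t ∈ range (s + 1), ∑ u ∈ STG_good k₁ K smin t,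
      ∑ v ∈ W k₂ (s - t), STG_phi Q Q' (X Q (u ++ v)) x) / 2 ^ s‖ ≤
      ((s : ℝ) + 1) * g * Real.sqrt (K + 1) := by
  classical
  obtain ⟨-, hX, -, -, -, -⟩ := hM Q hodd
  obtain ⟨Ω, hΩ⟩ : ∃ Ω : Finset (Σ _ : ℕ, List ℕ × List ℕ), Ω = (range (s + 1)).sigma
    (fun t => STG_good k₁ K smin t ×ˢ W k₂ (s - t)) := ⟨_, rfl⟩
  have hsum : ∀ f : (Σ _ : ℕ, List ℕ × List ℕ) → ℂ, ∑ w ∈ Ω, f w =
      ∑ t ∈ range (s + 1), ∑ u ∈ STG_good k₁ K smin t, ∑ v ∈ W k₂ (s - t), f ⟨t, u, v⟩ := by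
    intro f
    rw [hΩ, Finset.sum_sigma]
    exact Finset.sum_congr rfl fun t _ => Finset.sum_product _ _ _
  have hpl := hP Q Q' h _ Ω (fun w => X Q (w.2.1 ++ w.2.2)) (fun _ => 1 / 2 ^ s)
  have h1 : ∀ x : ZMod Q, (∑ t ∈ range (s + 1), ∑ u ∈ STG_good k₁ K smin t,
      ∑ v ∈ W k₂ (s - t), STG_phi Q Q' (X Q (u ++ v)) x) / 2 ^ s =
      (∑ w ∈ Ω with X Q (w.2.1 ++ w.2.2) = x, 1 / 2 ^ s) - (Q' : ℂ) / Q *
        (∑ w ∈ Ω with ((Q / Q' : ℕ) : ZMod Q) * (X Q (w.2.1 ++ w.2.2) - x) = 0, 1 / 2 ^ s) := by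
    intro x
    rw [Finset.sum_filter, Finset.sum_filter, Finset.mul_sum, ← Finset.sum_sub_distrib, hsum,
      Finset.sum_div]
    refine Finset.sum_congr rfl fun t _ => ?_
    rw [Finset.sum_div]
    refine Finset.sum_congr rfl fun u _ => ?_
    rw [Finset.sum_div]
    refine Finset.sum_congr rfl fun v _ => ?_
    unfold STG_phi
    dsimp only
    split_ifs <;> simp
    all_goals ring
  rw [Finset.sum_congr rfl fun x _ => by rw [h1 x]]
  refine hpl.trans ?_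
  rw [Real.sqrt_le_left (by positivity)]
  -- the Fourier coefficients
  have h2 : ∀ h : ZMod Q, ∑ w ∈ Ω, (1 / 2 ^ s : ℂ) *
      ZMod.stdAddChar (h * X Q (w.2.1 ++ w.2.2)) =
      ∑ t ∈ range (s + 1), ((∑ u ∈ STG_good k₁ K smin t, ZMod.stdAddChar (h * X Q u)) / 2 ^ t) *
        F Q k₂ (s - t) (3 ^ k₁ * hf Q ^ t * h) := by
    intro h
    rw [hsum]
    refine Finset.sum_congr rfl fun t ht => ?_
    have h4 : (2 : ℂ) ^ s = 2 ^ t * 2 ^ (s - t) := by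
      rw [← pow_add]
      congr 1
      have := Finset.mem_range.1 ht
      omega
    rw [F, div_mul_div_comm, ← h4, Finset.sum_mul_sum, Finset.sum_div]
    refine Finset.sum_congr rfl fun u hu => ?_
    rw [Finset.sum_div]
    refine Finset.sum_congr rfl fun v _ => ?_
    obtain ⟨e1, -, e2⟩ := (hW.1 k₁ t u).1 (STG_good_sub _ _ _ _ hu)
    rw [hX, e1, e2, mul_add, AddChar.map_add_eq_mul]
    have h5 : h * (3 ^ k₁ * hf Q ^ t * X Q v) = 3 ^ k₁ * hf Q ^ t * h * X Q v := by ring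
    rw [h5]
    ring
  have h3 : ∀ h : ZMod Q, (Q' : ZMod Q) * h ≠ 0 →
      ‖∑ w ∈ Ω, (1 / 2 ^ s : ℂ) * ZMod.stdAddChar (h * X Q (w.2.1 ++ w.2.2))‖ ^ 2 ≤
      ((s : ℝ) + 1) * ∑ t ∈ range (s + 1),
        g ^ 2 * ‖(∑ u ∈ STG_good k₁ K smin t, ZMod.stdAddChar (h * X Q u)) / 2 ^ t‖ ^ 2 := by
    intro h hh
    rw [h2]
    have e1 : ‖∑ t ∈ range (s + 1), ((∑ u ∈ STG_good k₁ K smin t,
        ZMod.stdAddChar (h * X Q u)) / 2 ^ t) * F Q k₂ (s - t) (3 ^ k₁ * hf Q ^ t * h)‖ ≤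
        ∑ t ∈ range (s + 1), ‖((∑ u ∈ STG_good k₁ K smin t,
        ZMod.stdAddChar (h * X Q u)) / 2 ^ t)‖ * g := by
      refine (norm_sum_le _ _).trans (Finset.sum_le_sum fun t _ => ?_)
      rw [norm_mul]
      exact mul_le_mul_of_nonneg_left (hF h hh t _) (norm_nonneg _)
    calc _ ≤ (∑ t ∈ range (s + 1), ‖((∑ u ∈ STG_good k₁ K smin t,
        ZMod.stdAddChar (h * X Q u)) / 2 ^ t)‖ * g) ^ 2 := by
          gcongr
      _ ≤ #(range (s + 1)) * ∑ t ∈ range (s + 1), (‖((∑ u ∈ STG_good k₁ K smin t,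
        ZMod.stdAddChar (h * X Q u)) / 2 ^ t)‖ * g) ^ 2 := sq_sum_le_card_mul_sum_sq
      _ = _ := by
          rw [Finset.card_range]
          push_cast
          congr 1
          exact Finset.sum_congr rfl fun t _ => by ring
  calc _ ≤ ∑ h : ZMod Q with (Q' : ZMod Q) * h ≠ 0, ((s : ℝ) + 1) * ∑ t ∈ range (s + 1),
        g ^ 2 * ‖(∑ u ∈ STG_good k₁ K smin t, ZMod.stdAddChar (h * X Q u)) / 2 ^ t‖ ^ 2 :=
        Finset.sum_le_sum fun h hh => h3 h (Finset.mem_filter.1 hh).2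
    _ ≤ ∑ h : ZMod Q, ((s : ℝ) + 1) * ∑ t ∈ range (s + 1),
        g ^ 2 * ‖(∑ u ∈ STG_good k₁ K smin t, ZMod.stdAddChar (h * X Q u)) / 2 ^ t‖ ^ 2 := by
        refine Finset.sum_le_sum_of_subset_of_nonneg (Finset.filter_subset _ _) ?_
        intro h _ _
        positivity
    _ = ((s : ℝ) + 1) * ∑ t ∈ range (s + 1), g ^ 2 * ∑ h : ZMod Q,
        ‖(∑ u ∈ STG_good k₁ K smin t, ZMod.stdAddChar (h * X Q u)) / 2 ^ t‖ ^ 2 := by
        rw [← Finset.mul_sum, Finset.sum_comm]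
        congr 1
        exact Finset.sum_congr rfl fun t _ => by rw [Finset.mul_sum]
    _ ≤ ((s : ℝ) + 1) * ∑ t ∈ range (s + 1), g ^ 2 * ((K : ℝ) + 1) := by
        refine mul_le_mul_of_nonneg_left (Finset.sum_le_sum fun t _ =>
          mul_le_mul_of_nonneg_left ?_ (sq_nonneg g)) (by positivity)
        unfold STG_good
        split_ifs with ht
        · simp only [Finset.sum_empty, zero_div, norm_zero]
          rw [Finset.sum_const]
          simp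
          positivity
        · exact hC Q hodd k₁ t K hK (hQ.trans (Nat.pow_le_pow_right (by norm_num) (not_lt.1 ht)))
    _ = (((s : ℝ) + 1) * g * Real.sqrt (K + 1)) ^ 2 := by
        rw [Finset.sum_const, Finset.card_range, nsmul_eq_mul, mul_pow, mul_pow,
          Real.sq_sqrt (by positivity)]
        push_cast
        ring

theorem thm_STG (hP : St_PLN) (hC : St_COL) (hW : St_WRD) (hM : St_CMP) (hB : St_BAD) :
    St_STG := by
  classical
  intro Q Q' _ hodd h k₁ k₂ K smin S g hK hQ hg hF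
  obtain ⟨h2, -, -, -, -, -⟩ := hM Q hodd
  have h3 : ∀ s, ∑ x ∈ range Q, |P Q (k₁ + k₂) s x - (Q' : ℝ) / Q * P Q' (k₁ + k₂) s x| =
      ∑ x : ZMod Q, ‖(∑ w ∈ W (k₁ + k₂) s, STG_phi Q Q' (X Q w) x) / 2 ^ s‖ := by
    intro s
    rw [← STG_range Q fun x => ‖(∑ w ∈ W (k₁ + k₂) s, STG_phi Q Q' (X Q w) x) / 2 ^ s‖]
    refine Finset.sum_congr rfl fun x _ => ?_
    have h4 := STG_D hW Q Q' h h2 (k₁ + k₂) s x
    rw [Int.cast_natCast] at h4
    rw [← h4, Complex.norm_real, Real.norm_eq_abs]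
  have h4 : ∀ s, ∑ x : ZMod Q, ‖(∑ w ∈ W (k₁ + k₂) s, STG_phi Q Q' (X Q w) x) / 2 ^ s‖ ≤
      (∑ x : ZMod Q, ‖(∑ t ∈ range (s + 1), ∑ u ∈ STG_bad k₁ K smin t,
      ∑ v ∈ W k₂ (s - t), STG_phi Q Q' (X Q (u ++ v)) x) / 2 ^ s‖) +
      ((s : ℝ) + 1) * g * Real.sqrt (K + 1) := by
    intro s
    refine le_trans ?_ (add_le_add le_rfl
      (STG_goodpart hP hC hW hM Q Q' hodd h k₁ k₂ K smin s g hK hQ hg hF))
    rw [← Finset.sum_add_distrib]
    refine Finset.sum_le_sum fun x _ => ?_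
    rw [hW.2.2.1 k₁ k₂ s fun w => STG_phi Q Q' (X Q w) x]
    have e1 : ∑ t ∈ range (s + 1), ∑ u ∈ W k₁ t, ∑ v ∈ W k₂ (s - t),
        STG_phi Q Q' (X Q (u ++ v)) x = (∑ t ∈ range (s + 1), ∑ u ∈ STG_bad k₁ K smin t,
        ∑ v ∈ W k₂ (s - t), STG_phi Q Q' (X Q (u ++ v)) x) +
        ∑ t ∈ range (s + 1), ∑ u ∈ STG_good k₁ K smin t,
        ∑ v ∈ W k₂ (s - t), STG_phi Q Q' (X Q (u ++ v)) x := by
      rw [← Finset.sum_add_distrib]
      refine Finset.sum_congr rfl fun t _ => ?_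
      rw [STG_split k₁ K smin t, add_comm]
    rw [e1, add_div]
    exact norm_add_le _ _
  unfold Osc
  calc _ ≤ ∑ s ∈ range S, ((∑ x : ZMod Q, ‖(∑ t ∈ range (s + 1),
      ∑ u ∈ STG_bad k₁ K smin t, ∑ v ∈ W k₂ (s - t), STG_phi Q Q' (X Q (u ++ v)) x) / 2 ^ s‖) +
      ((s : ℝ) + 1) * g * Real.sqrt (K + 1)) := by
        refine Finset.sum_le_sum fun s _ => ?_
        rw [h3]
        exact h4 s
    _ ≤ 2 * ((k₁ : ℝ) / K + ∑ s ∈ range smin, p k₁ s) +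
      ∑ s ∈ range S, (S : ℝ) * (g * Real.sqrt (K + 1)) := by
        rw [Finset.sum_add_distrib]
        refine add_le_add (STG_badpart hW hB Q Q' h k₁ k₂ K smin S hK) ?_
        refine Finset.sum_le_sum fun s hs => ?_
        rw [mul_assoc]
        refine mul_le_mul_of_nonneg_right ?_ (by positivity)
        have := Finset.mem_range.1 hs
        exact_mod_cast this
    _ = _ := by
        rw [Finset.sum_const, Finset.card_range, nsmul_eq_mul]
        ring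

end Pool.Agent.SLD
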