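import Pool.Agent.SLD.StA

/-!
SLD, STP: the levels above `k / 4` (helper86)
-/

set_option autoImplicit false

namespace Pool.Agent.SLD

open Finset Filter Topology
open Pool.Agent.Collatz3 (cw)

private lemma STP_p_nonneg (k s : ℕ) : 0 ≤ p k s := by
  unfold p
  positivity

private lemma STP_F_le (hW : St_WRD) (hC : St_CMP) (Q : ℕ) [NeZero Q] (hQ : Odd Q) (k s : ℕ)
    (h : ZMod Q) : ‖F Q k s h‖ ≤ 1 := by
  have h1 := (hC Q hQ).2.2.2.1 k s h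
  have h2 : p k s ≤ ∑ s' ∈ range (s + 1), p k s' :=
    Finset.single_le_sum (f := fun s' => p k s') (fun i _ => STP_p_nonneg k i)
      (Finset.mem_range.mpr (Nat.lt_succ_self s))
  exact h1.trans (h2.trans (hW.2.1 k (s + 1)))

private lemma STP_F_of_GB (Q : ℕ) [NeZero Q] (k s : ℕ) (b : ℝ) (h : ZMod Q) (hb : GB Q k b h) :
    ‖F Q k s h‖ ≤ b := by
  have h2 : ‖F Q k s h‖ ≤ ∑ s' ∈ range (s + 1), ‖F Q k s' h‖ :=
    Finset.single_le_sum (f := fun s' => ‖F Q k s' h‖) (fun i _ => norm_nonneg _)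
      (Finset.mem_range.mpr (Nat.lt_succ_self s))
  exact h2.trans (hb (s + 1))

/-- a rough bound for small `k` -/
private lemma STP_small (hG : St_STG) (hW : St_WRD) (hC : St_CMP) (Q Q' : ℕ) [NeZero Q]
    (hQ : Odd Q) (hQQ : Q' ∣ Q) (k S : ℕ) : Osc Q Q' k S ≤ 2 + 2 * (S : ℝ) ^ 2 := by
  have h1 := hG Q Q' hQ hQQ 0 k 1 Q S 1 le_rfl Nat.lt_two_pow_self.le (by norm_num)
    (fun h _ t s => STP_F_le hW hC Q hQ k s _)
  rw [Nat.zero_add] at h1
  have h2 : ∑ s ∈ range Q, p 0 s ≤ 1 := hW.2.1 0 Q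
  have h3 : Real.sqrt (((1 : ℕ) : ℝ) + 1) ≤ 2 := by
    rw [Real.sqrt_le_left (by norm_num)]
    norm_num
  have h4 : (S : ℝ) ^ 2 * 1 * Real.sqrt (((1 : ℕ) : ℝ) + 1) ≤ (S : ℝ) ^ 2 * 1 * 2 :=
    mul_le_mul_of_nonneg_left h3 (by positivity)
  have h5 : (((0 : ℕ) : ℝ) / ((1 : ℕ) : ℝ)) = 0 := by simp
  rw [h5] at h1
  linarith

/-- the order of an element of level `j` -/
private lemma STP_order (q₀ j : ℕ) (hj : 1 ≤ j) (hq3 : ¬ 3 ∣ q₀) [NeZero (3 ^ j * q₀)]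
    (h : ZMod (3 ^ j * q₀)) (hh : ((3 ^ (j - 1) * q₀ : ℕ) : ZMod (3 ^ j * q₀)) * h ≠ 0) :
    ∃ q : ℕ, addOrderOf h = 3 ^ j * q ∧ q ∣ q₀ := by
  have hd : addOrderOf h ∣ 3 ^ j * q₀ := by
    have := addOrderOf_dvd_card (x := h)
    rwa [ZMod.card] at this
  have hcop : Nat.Coprime (3 ^ j) q₀ :=
    Nat.Coprime.pow_left j ((Nat.Prime.coprime_iff_not_dvd Nat.prime_three).mpr hq3)
  have hd2 : (addOrderOf h).gcd (3 ^ j) * (addOrderOf h).gcd q₀ = addOrderOf h := by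
    rw [← Nat.Coprime.gcd_mul _ hcop]
    exact Nat.gcd_eq_left hd
  obtain ⟨i, hij, hi⟩ := (Nat.dvd_prime_pow Nat.prime_three).mp
    (Nat.gcd_dvd_right (addOrderOf h) (3 ^ j))
  rcases Nat.lt_or_ge i j with hlt | hge
  · exfalso
    apply hh
    have h1 : addOrderOf h ∣ 3 ^ (j - 1) * q₀ := by
      rw [← hd2, hi]
      exact mul_dvd_mul (pow_dvd_pow 3 (by omega)) (Nat.gcd_dvd_right _ _)
    have h2 := addOrderOf_dvd_iff_nsmul_eq_zero.mp h1
    rwa [nsmul_eq_mul] at h2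
  · have hie : i = j := le_antisymm hij hge
    refine ⟨(addOrderOf h).gcd q₀, ?_, Nat.gcd_dvd_right _ _⟩
    exact hd2.symm.trans (congrArg (fun x => x * (addOrderOf h).gcd q₀)
      (hi.trans (congrArg (fun x => 3 ^ x) hie)))

private lemma STP_log3 : Real.log 3 ≤ 1.585 * Real.log 2 := by
  have h : (3 : ℝ) ^ 100 ≤ 2 ^ 158 * (1412 / 1000) := by norm_num
  have h' : ((1412 : ℝ) / 1000) ^ 2 ≤ 2 := by norm_num
  have h2 := Real.log_le_log (by positivity) h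
  have h3 := Real.log_le_log (by positivity) h'
  rw [Real.log_mul (by positivity) (by positivity), Real.log_pow, Real.log_pow] at h2
  rw [Real.log_pow] at h3
  push_cast at h2 h3
  linarith

private lemma STP_bdd (B : ℕ) (ρ : ℝ) (h0 : 0 < ρ) (h1 : ρ < 1) :
    ∃ C : ℝ, 0 ≤ C ∧ ∀ m : ℕ, (5 * (m : ℝ) + 5) ^ B * ρ ^ m ≤ C := by
  have h2 : Tendsto (fun m : ℕ => (m : ℝ) ^ B * ρ ^ m) atTop (𝓝 0) :=
    tendsto_pow_const_mul_const_pow_of_lt_one B h0.le h1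
  obtain ⟨C, hC⟩ := h2.bddAbove_range
  have hC' : ∀ m : ℕ, (m : ℝ) ^ B * ρ ^ m ≤ C := fun m => hC ⟨m, rfl⟩
  have hC0 : 0 ≤ C := by
    have := hC' 1
    have h3 : (0 : ℝ) ≤ ((1 : ℕ) : ℝ) ^ B * ρ ^ 1 := by positivity
    linarith
  refine ⟨5 ^ B * (C / ρ), by positivity, fun m => ?_⟩
  have h4 := hC' (m + 1)
  have h5 : (5 * (m : ℝ) + 5) ^ B * ρ ^ m = 5 ^ B * ((((m + 1 : ℕ) : ℝ)) ^ B * ρ ^ (m + 1) / ρ) := by
    have : (5 * (m : ℝ) + 5) = 5 * ((m + 1 : ℕ) : ℝ) := by push_cast; ring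
    rw [this, mul_pow, pow_succ ρ m]
    field_simp
  rw [h5]
  exact mul_le_mul_of_nonneg_left ((div_le_div_iff_of_pos_right h0).mpr h4) (by positivity)

theorem thm_STP (hG : St_STG) (hD : St_DE3) (hO : St_ORD) (hT : St_TAL) (hW : St_WRD)
    (hC : St_CMP) : St_STP := by
  intro B
  obtain ⟨⟨ρ, hρ0, hρ1, hρ⟩, -⟩ := hT
  obtain ⟨c, hc, n₀, hD'⟩ := hD (2 * B + 4)
  obtain ⟨C₁, hC₁0, hC₁⟩ := STP_bdd B ρ hρ0 hρ1
  set δ : ℝ := min (1 / 1000) (c / 100) with hδ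
  have hδ0 : 0 < δ := by
    rw [hδ]
    positivity
  have hδ1 : δ ≤ 1 / 1000 := min_le_left _ _
  have hδ2 : δ ≤ c / 100 := min_le_right _ _
  set k₀ : ℕ := max 400 (40 * n₀) with hk₀
  refine ⟨δ, hδ0, (2 + 32 * (k₀ : ℝ) ^ 2) * (k₀ : ℝ) ^ B + (2 + 2 * C₁ + 32 * 40 ^ (2 * B + 4)), ?_⟩
  intro k a q₀ j hk hq₀ hq3 haq hkj hjk
  have hkR : (1 : ℝ) ≤ k := by exact_mod_cast hk
  have hkpos : (0 : ℝ) < k := by linarith
  have hq₀pos : 0 < q₀ := hq₀.pos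
  have hQodd : Odd (3 ^ j * q₀) := (Odd.pow (by decide)).mul hq₀
  have : NeZero (3 ^ j * q₀) := ⟨(Nat.mul_pos (pow_pos (by norm_num) _) hq₀pos).ne'⟩
  have hQQ : 3 ^ (j - 1) * q₀ ∣ 3 ^ j * q₀ := mul_dvd_mul_right (pow_dvd_pow 3 (by omega)) _
  have hSR : ((21 * k / 10 + 1 : ℕ) : ℝ) ≤ 4 * k := by
    have : 21 * k / 10 + 1 ≤ 4 * k := by omega
    exact_mod_cast this
  have hkB : (0 : ℝ) < (k : ℝ) ^ B := by positivity
  have hC2 : (0 : ℝ) ≤ 2 + 2 * C₁ + 32 * 40 ^ (2 * B + 4) := by positivity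
  rcases Nat.lt_or_ge k k₀ with hsmall | hbig
  · -- small `k`
    have h1 := STP_small hG hW hC (3 ^ j * q₀) (3 ^ (j - 1) * q₀) hQodd hQQ k (21 * k / 10 + 1)
    have hkk : (k : ℝ) ≤ k₀ := by exact_mod_cast hsmall.le
    have h2 : 2 + 2 * ((21 * k / 10 + 1 : ℕ) : ℝ) ^ 2 ≤ 2 + 32 * (k₀ : ℝ) ^ 2 := by
      have h3 : ((21 * k / 10 + 1 : ℕ) : ℝ) ^ 2 ≤ (4 * k) ^ 2 :=
        pow_le_pow_left₀ (Nat.cast_nonneg _) hSR 2
      have h4 : (k : ℝ) ^ 2 ≤ (k₀ : ℝ) ^ 2 := pow_le_pow_left₀ hkpos.le hkk 2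
      rw [mul_pow] at h3
      linarith
    rw [le_div_iff₀ hkB]
    have h5 : (k : ℝ) ^ B ≤ (k₀ : ℝ) ^ B := pow_le_pow_left₀ hkpos.le hkk B
    calc Osc (3 ^ j * q₀) (3 ^ (j - 1) * q₀) k (21 * k / 10 + 1) * (k : ℝ) ^ B
        ≤ (2 + 32 * (k₀ : ℝ) ^ 2) * (k : ℝ) ^ B :=
          mul_le_mul_of_nonneg_right (h1.trans h2) hkB.le
      _ ≤ (2 + 32 * (k₀ : ℝ) ^ 2) * (k₀ : ℝ) ^ B :=
          mul_le_mul_of_nonneg_left h5 (by positivity)
      _ ≤ _ := by linarith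
  · -- large `k`
    have hk400 : 400 ≤ k := (le_max_left _ _).trans hbig
    have hkn₀ : 40 * n₀ ≤ k := (le_max_right _ _).trans hbig
    have hk4j : k < 4 * j := by omega
    have hk4jR : (k : ℝ) < 4 * j := by exact_mod_cast hk4j
    -- logarithms
    have hlog2 : 0.6931471803 < Real.log 2 := Real.log_two_gt_d9
    have hlog2' : Real.log 2 < 0.6931471808 := Real.log_two_lt_d9
    have hlog3 := STP_log3
    have hlog3' : 1 < Real.log 3 := by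
      rw [Real.lt_log_iff_exp_lt (by norm_num)]
      exact Real.exp_one_lt_d9.trans (by norm_num)
    have hq₀R : (0 : ℝ) < q₀ := by exact_mod_cast hq₀pos
    have hq₀1 : (1 : ℝ) ≤ q₀ := by exact_mod_cast hq₀pos
    have hlaq : a * Real.log 3 + Real.log q₀ ≤ δ * k := by
      have := Real.log_le_log (by positivity) haq
      rwa [Real.log_exp, Real.log_mul (by positivity) (by positivity), Real.log_pow] at this
    have hlq0 : 0 ≤ Real.log q₀ := Real.log_nonneg hq₀1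
    have haR : (0 : ℝ) ≤ a := Nat.cast_nonneg _
    have ha1 : (a : ℝ) ≤ δ * k := by
      have : (a : ℝ) * 1 ≤ a * Real.log 3 := mul_le_mul_of_nonneg_left hlog3'.le haR
      linarith
    have hlq1 : Real.log q₀ ≤ δ * k := by
      have : 0 ≤ a * Real.log 3 := by positivity
      linarith
    have ha2 : (a : ℝ) ≤ 1 / 1000 * k := ha1.trans (mul_le_mul_of_nonneg_right hδ1 hkpos.le)
    have ha3 : 1000 * a ≤ k := by
      have : (1000 : ℝ) * a ≤ k := by linarith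
      exact_mod_cast this
    -- the splitting
    set k₁ : ℕ := 17 * j / 20 with hk₁
    have hk₁k : k₁ ≤ k := by omega
    obtain ⟨k₂, hk₂⟩ : ∃ k₂, k = k₁ + k₂ := ⟨k - k₁, by omega⟩
    have hk₁j : k₁ ≤ j := by omega
    have hn1 : 40 * (j - k₁) ≥ k := by omega
    have hn1R : (k : ℝ) ≤ 40 * ((j - k₁ : ℕ) : ℝ) := by exact_mod_cast hn1
    have hnpos : (0 : ℝ) < ((j - k₁ : ℕ) : ℝ) := by linarith
    have hn₀ : n₀ ≤ j - k₁ := by omega
    have hk5 : k ≤ 5 * k₁ + 5 := by omega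
    -- the number of letters
    set K : ℕ := k ^ (B + 2) with hK
    have hK1 : 1 ≤ K := Nat.one_le_pow _ _ (by omega)
    -- the modulus
    have hsmin : 3 ^ j * q₀ ≤ 2 ^ ((19 * k₁ + 9) / 10) := by
      have h1 : (((19 * k₁ + 9) / 10 : ℕ) : ℝ) ≥ 1.615 * j - 1.805 := by
        have h2 : 200 * ((19 * k₁ + 9) / 10) + 361 ≥ 323 * j := by omega
        have h3 : (200 : ℝ) * (((19 * k₁ + 9) / 10 : ℕ) : ℝ) + 361 ≥ 323 * j := by exact_mod_cast h2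
        linarith
      have hj100 : (100 : ℝ) ≤ j := by
        have : 100 ≤ j := by omega
        exact_mod_cast this
      have h4 : Real.log ((3 ^ j * q₀ : ℕ) : ℝ) ≤
          Real.log ((2 ^ ((19 * k₁ + 9) / 10) : ℕ) : ℝ) := by
        push_cast
        rw [Real.log_mul (by positivity) (by positivity), Real.log_pow, Real.log_pow]
        have h5 : Real.log q₀ ≤ 0.004 * j := by
          have : δ * k ≤ 1 / 1000 * k := mul_le_mul_of_nonneg_right hδ1 hkpos.le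
          linarith
        have h6 : (j : ℝ) * Real.log 3 ≤ j * (1.585 * Real.log 2) :=
          mul_le_mul_of_nonneg_left hlog3 (by linarith)
        have h7 : (1.615 * (j : ℝ) - 1.805) * Real.log 2 ≤
            (((19 * k₁ + 9) / 10 : ℕ) : ℝ) * Real.log 2 :=
          mul_le_mul_of_nonneg_right h1 (by linarith)
        have h8 : (0.03 * (j : ℝ) - 1.805) * 0.693 ≤ (0.03 * (j : ℝ) - 1.805) * Real.log 2 :=
          mul_le_mul_of_nonneg_left (by linarith) (by linarith)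
        linarith
      have h8 : ((3 ^ j * q₀ : ℕ) : ℝ) ≤ ((2 ^ ((19 * k₁ + 9) / 10) : ℕ) : ℝ) :=
        (Real.log_le_log_iff (by exact_mod_cast Nat.mul_pos (pow_pos (by norm_num) _) hq₀pos)
          (by exact_mod_cast pow_pos (by norm_num) _)).mp h4
      exact_mod_cast h8
    -- decay
    have hdec : ∀ h : ZMod (3 ^ j * q₀), ((3 ^ (j - 1) * q₀ : ℕ) : ZMod (3 ^ j * q₀)) * h ≠ 0 →
        ∀ t s : ℕ, ‖F (3 ^ j * q₀) k₂ s (3 ^ k₁ * hf (3 ^ j * q₀) ^ t * h)‖ ≤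
          1 / ((j - k₁ : ℕ) : ℝ) ^ (2 * B + 4) := by
      intro h hh t s
      obtain ⟨q, hq, hqq⟩ := STP_order q₀ j (by omega) hq3 h hh
      have hq3' : ¬ 3 ∣ q := fun h3 => hq3 (h3.trans hqq)
      have hord := (hO (3 ^ j * q₀) hQodd h j q hq hq3').1 k₁ t hk₁j
      refine STP_F_of_GB _ _ _ _ _ (hD' (3 ^ j * q₀) hQodd _ (j - k₁) q k₂ hord hq3' hn₀ ?_ ?_)
      · have hqpos : 0 < q := Nat.pos_of_dvd_of_pos hqq hq₀pos
        have hqR : (0 : ℝ) < q := by exact_mod_cast hqpos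
        have h1 : Real.log q ≤ c * ((j - k₁ : ℕ) : ℝ) * Real.log 2 := by
          have h2 : Real.log q ≤ Real.log q₀ :=
            Real.log_le_log hqR (by exact_mod_cast Nat.le_of_dvd hq₀pos hqq)
          have h3 : δ * k ≤ c / 100 * k := mul_le_mul_of_nonneg_right hδ2 hkpos.le
          have h4 : c * k ≤ c * (40 * ((j - k₁ : ℕ) : ℝ)) := mul_le_mul_of_nonneg_left hn1R hc.le
          have h5 : 0.4 * (c * ((j - k₁ : ℕ) : ℝ)) ≤ Real.log 2 * (c * ((j - k₁ : ℕ) : ℝ)) :=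
            mul_le_mul_of_nonneg_right (by linarith) (by positivity)
          have h6 : c * ((j - k₁ : ℕ) : ℝ) * Real.log 2 =
            Real.log 2 * (c * ((j - k₁ : ℕ) : ℝ)) := mul_comm _ _
          linarith
        rw [← Real.log_le_log_iff hqR (by positivity), Real.log_rpow (by norm_num)]
        exact h1
      · have h1 : ((j - k₁ : ℕ) : ℝ) ≤ k₂ + a := by
          have : j - k₁ ≤ k₂ + a := by omega
          exact_mod_cast this
        have h3 : δ * k ≤ c / 100 * k := mul_le_mul_of_nonneg_right hδ2 hkpos.le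
        have h4 : c * k ≤ c * (40 * ((j - k₁ : ℕ) : ℝ)) := mul_le_mul_of_nonneg_left hn1R hc.le
        have h5 : 0 ≤ c * ((j - k₁ : ℕ) : ℝ) := by positivity
        linarith
    have hmain := hG (3 ^ j * q₀) (3 ^ (j - 1) * q₀) hQodd hQQ k₁ k₂ K ((19 * k₁ + 9) / 10)
      (21 * k / 10 + 1) (1 / ((j - k₁ : ℕ) : ℝ) ^ (2 * B + 4)) hK1 hsmin (by positivity) hdec
    rw [← hk₂] at hmain
    refine hmain.trans ?_
    -- the three terms
    have hKR : (K : ℝ) = (k : ℝ) ^ (B + 2) := by rw [hK]; push_cast; rfl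
    have t1 : (k₁ : ℝ) / K ≤ 1 / (k : ℝ) ^ B := by
      have hk₁R : (k₁ : ℝ) ≤ k := by exact_mod_cast hk₁k
      rw [hKR, div_le_div_iff₀ (by positivity) hkB, one_mul, pow_add]
      have h1 : (k₁ : ℝ) ≤ (k : ℝ) ^ 2 := by
        have : (k : ℝ) * 1 ≤ k * k := mul_le_mul_of_nonneg_left hkR hkpos.le
        rw [pow_two]
        linarith
      calc (k₁ : ℝ) * (k : ℝ) ^ B ≤ (k : ℝ) ^ 2 * (k : ℝ) ^ B :=
            mul_le_mul_of_nonneg_right h1 hkB.le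
        _ = (k : ℝ) ^ B * (k : ℝ) ^ 2 := mul_comm _ _
    have t2 : ∑ s ∈ range ((19 * k₁ + 9) / 10), p k₁ s ≤ C₁ / (k : ℝ) ^ B := by
      refine (hρ k₁).1.trans ?_
      rw [le_div_iff₀ hkB]
      have h1 : (k : ℝ) ^ B ≤ (5 * (k₁ : ℝ) + 5) ^ B :=
        pow_le_pow_left₀ hkpos.le (by exact_mod_cast hk5) B
      calc ρ ^ k₁ * (k : ℝ) ^ B ≤ ρ ^ k₁ * (5 * (k₁ : ℝ) + 5) ^ B :=
            mul_le_mul_of_nonneg_left h1 (by positivity)
        _ = (5 * (k₁ : ℝ) + 5) ^ B * ρ ^ k₁ := mul_comm _ _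
        _ ≤ C₁ := hC₁ k₁
    have t3 : ((21 * k / 10 + 1 : ℕ) : ℝ) ^ 2 * (1 / ((j - k₁ : ℕ) : ℝ) ^ (2 * B + 4)) *
        Real.sqrt (K + 1) ≤ 32 * 40 ^ (2 * B + 4) / (k : ℝ) ^ B := by
      have h1 : ((21 * k / 10 + 1 : ℕ) : ℝ) ^ 2 ≤ 16 * (k : ℝ) ^ 2 := by
        have := pow_le_pow_left₀ (Nat.cast_nonneg _) hSR 2
        rw [mul_pow] at this
        linarith
      have h2 : 1 / ((j - k₁ : ℕ) : ℝ) ^ (2 * B + 4) ≤
          40 ^ (2 * B + 4) / (k : ℝ) ^ (2 * B + 4) := by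
        rw [div_le_div_iff₀ (by positivity) (by positivity), one_mul, ← mul_pow]
        exact pow_le_pow_left₀ hkpos.le hn1R _
      have hK1R : (1 : ℝ) ≤ K := by exact_mod_cast hK1
      have h3 : Real.sqrt (K + 1) ≤ 2 * (k : ℝ) ^ (B + 2) := by
        rw [Real.sqrt_le_left (by positivity), ← hKR]
        have : (K : ℝ) * 1 ≤ K * K := mul_le_mul_of_nonneg_left hK1R (Nat.cast_nonneg _)
        rw [mul_pow, pow_two (K : ℝ)]
        linarith
      calc ((21 * k / 10 + 1 : ℕ) : ℝ) ^ 2 * (1 / ((j - k₁ : ℕ) : ℝ) ^ (2 * B + 4)) *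
            Real.sqrt (K + 1)
          ≤ (16 * (k : ℝ) ^ 2) * (40 ^ (2 * B + 4) / (k : ℝ) ^ (2 * B + 4)) *
            (2 * (k : ℝ) ^ (B + 2)) := by
            refine mul_le_mul (mul_le_mul h1 h2 (by positivity) (by positivity)) h3
              (Real.sqrt_nonneg _) (by positivity)
        _ = 32 * 40 ^ (2 * B + 4) / (k : ℝ) ^ B := by
            rw [mul_div_assoc', div_mul_eq_mul_div, div_eq_div_iff (by positivity) (by positivity)]
            ring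
    calc 2 * ((k₁ : ℝ) / K + ∑ s ∈ range ((19 * k₁ + 9) / 10), p k₁ s) +
          ((21 * k / 10 + 1 : ℕ) : ℝ) ^ 2 * (1 / ((j - k₁ : ℕ) : ℝ) ^ (2 * B + 4)) *
            Real.sqrt (K + 1)
        ≤ 2 * (1 / (k : ℝ) ^ B + C₁ / (k : ℝ) ^ B) + 32 * 40 ^ (2 * B + 4) / (k : ℝ) ^ B := by
          linarith
      _ = (2 + 2 * C₁ + 32 * 40 ^ (2 * B + 4)) / (k : ℝ) ^ B := by ring
      _ ≤ _ := by
          rw [div_le_div_iff_of_pos_right hkB]
          have : (0 : ℝ) ≤ (2 + 32 * (k₀ : ℝ) ^ 2) * (k₀ : ℝ) ^ B := by positivity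
          linarith

end Pool.Agent.SLD
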