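import Pool.Agent.SLD.StA

/-!
SLD, STQ: the modulus `q₀` (helper86)
-/

set_option autoImplicit false

namespace Pool.Agent.SLD

open Finset Filter Topology
open Pool.Agent.Collatz3 (cw)

private lemma STQ_p_nonneg (k s : ℕ) : 0 ≤ p k s := by
  unfold p
  positivity

private lemma STQ_F_le (hW : St_WRD) (hC : St_CMP) (Q : ℕ) [NeZero Q] (hQ : Odd Q) (k s : ℕ)
    (h : ZMod Q) : ‖F Q k s h‖ ≤ 1 := by
  have h1 := (hC Q hQ).2.2.2.1 k s h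
  have h2 : p k s ≤ ∑ s' ∈ range (s + 1), p k s' :=
    Finset.single_le_sum (f := fun s' => p k s') (fun i _ => STQ_p_nonneg k i)
      (Finset.mem_range.mpr (Nat.lt_succ_self s))
  exact h1.trans (h2.trans (hW.2.1 k (s + 1)))

private lemma STQ_F_of_GB (Q : ℕ) [NeZero Q] (k s : ℕ) (b : ℝ) (h : ZMod Q) (hb : GB Q k b h) :
    ‖F Q k s h‖ ≤ b := by
  have h2 : ‖F Q k s h‖ ≤ ∑ s' ∈ range (s + 1), ‖F Q k s' h‖ :=
    Finset.single_le_sum (f := fun s' => ‖F Q k s' h‖) (fun i _ => norm_nonneg _)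
      (Finset.mem_range.mpr (Nat.lt_succ_self s))
  exact h2.trans (hb (s + 1))

/-- a rough bound for small `k` -/
private lemma STQ_small (hG : St_STG) (hW : St_WRD) (hC : St_CMP) (Q Q' : ℕ) [NeZero Q]
    (hQ : Odd Q) (hQQ : Q' ∣ Q) (k S : ℕ) : Osc Q Q' k S ≤ 2 + 2 * (S : ℝ) ^ 2 := by
  have h1 := hG Q Q' hQ hQQ 0 k 1 Q S 1 le_rfl Nat.lt_two_pow_self.le (by norm_num)
    (fun h _ t s => STQ_F_le hW hC Q hQ k s _)
  rw [Nat.zero_add] at h1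
  have h2 : ∑ s ∈ range Q, p 0 s ≤ 1 := hW.2.1 0 Q
  have h3 : Real.sqrt (((1 : ℕ) : ℝ) + 1) ≤ 2 := by
    rw [Real.sqrt_le_left (by norm_num)]
    norm_num
  have h4 : (S : ℝ) ^ 2 * 1 * Real.sqrt (((1 : ℕ) : ℝ) + 1) ≤ (S : ℝ) ^ 2 * 1 * 2 :=
    mul_le_mul_of_nonneg_left h3 (by positivity)
  have h5 : (((0 : ℕ) : ℝ) / ((1 : ℕ) : ℝ)) = 0 := by simp
  rw [h5] at h1
  linarith

/-- the order of an element -/
private lemma STQ_order (q₀ j : ℕ) (hq3 : ¬ 3 ∣ q₀) [NeZero (3 ^ j * q₀)]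
    (h : ZMod (3 ^ j * q₀)) (hh : ((3 ^ j : ℕ) : ZMod (3 ^ j * q₀)) * h ≠ 0) :
    ∃ i q : ℕ, i ≤ j ∧ 1 < q ∧ addOrderOf h = 3 ^ i * q ∧ q ∣ q₀ := by
  have hd : addOrderOf h ∣ 3 ^ j * q₀ := by
    have := addOrderOf_dvd_card (x := h)
    rwa [ZMod.card] at this
  have hcop : Nat.Coprime (3 ^ j) q₀ :=
    Nat.Coprime.pow_left j ((Nat.Prime.coprime_iff_not_dvd Nat.prime_three).mpr hq3)
  have hd2 : (addOrderOf h).gcd (3 ^ j) * (addOrderOf h).gcd q₀ = addOrderOf h := by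
    rw [← Nat.Coprime.gcd_mul _ hcop]
    exact Nat.gcd_eq_left hd
  obtain ⟨i, hij, hi⟩ := (Nat.dvd_prime_pow Nat.prime_three).mp
    (Nat.gcd_dvd_right (addOrderOf h) (3 ^ j))
  have hpos : 0 < addOrderOf h := addOrderOf_pos h
  have hq0 : (addOrderOf h).gcd q₀ ≠ 0 := (Nat.gcd_pos_of_pos_left _ hpos).ne'
  have hq1 : (addOrderOf h).gcd q₀ ≠ 1 := by
    intro h1
    apply hh
    have h2 : addOrderOf h ∣ 3 ^ j := by
      rw [h1, mul_one] at hd2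
      rw [← hd2]
      exact Nat.gcd_dvd_right _ _
    have h3 := addOrderOf_dvd_iff_nsmul_eq_zero.mp h2
    rwa [nsmul_eq_mul] at h3
  exact ⟨i, (addOrderOf h).gcd q₀, hij, by omega,
    hd2.symm.trans (congrArg (fun x => x * (addOrderOf h).gcd q₀) hi), Nat.gcd_dvd_right _ _⟩

private lemma STQ_log3 : Real.log 3 ≤ 1.585 * Real.log 2 := by
  have h : (3 : ℝ) ^ 100 ≤ 2 ^ 158 * (1412 / 1000) := by norm_num
  have h' : ((1412 : ℝ) / 1000) ^ 2 ≤ 2 := by norm_num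
  have h2 := Real.log_le_log (by positivity) h
  have h3 := Real.log_le_log (by positivity) h'
  rw [Real.log_mul (by positivity) (by positivity), Real.log_pow, Real.log_pow] at h2
  rw [Real.log_pow] at h3
  push_cast at h2 h3
  linarith

private lemma STQ_bdd (B : ℕ) (ρ : ℝ) (h0 : 0 < ρ) (h1 : ρ < 1) :
    ∃ C : ℝ, 0 ≤ C ∧ ∀ m : ℕ, (5 * (m : ℝ) + 5) ^ B * ρ ^ m ≤ C := by
  have h2 : Tendsto (fun m : ℕ => (m : ℝ) ^ B * ρ ^ m) atTop (𝓝 0) :=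
    tendsto_pow_const_mul_const_pow_of_lt_one B h0.le h1
  obtain ⟨C, hC⟩ := h2.bddAbove_range
  have hC' : ∀ m : ℕ, (m : ℝ) ^ B * ρ ^ m ≤ C := fun m => hC ⟨m, rfl⟩
  have hC0 : 0 ≤ C := by
    have := hC' 1
    have h3 : (0 : ℝ) ≤ ((1 : ℕ) : ℝ) ^ B * ρ ^ 1 := by positivity
    linarith
  refine ⟨5 ^ B * (C / ρ), by positivity, fun m => ?_⟩
  have h4 := hC' (m + 1)
  have h5 : (5 * (m : ℝ) + 5) ^ B * ρ ^ m = 5 ^ B * ((((m + 1 : ℕ) : ℝ)) ^ B * ρ ^ (m + 1) / ρ) := by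
    have : (5 * (m : ℝ) + 5) = 5 * ((m + 1 : ℕ) : ℝ) := by push_cast; ring
    rw [this, mul_pow, pow_succ ρ m]
    field_simp
  rw [h5]
  exact mul_le_mul_of_nonneg_left ((div_le_div_iff_of_pos_right h0).mpr h4) (by positivity)

theorem thm_STQ (hG : St_STG) (hD : St_DEQ) (hO : St_ORD) (hT : St_TAL) (hW : St_WRD)
    (hC : St_CMP) : St_STQ := by
  intro B
  obtain ⟨⟨ρ, hρ0, hρ1, hρ⟩, -⟩ := hT
  obtain ⟨c, hc, n₀, hD'⟩ := hD (2 * B + 4)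
  obtain ⟨C₁, hC₁0, hC₁⟩ := STQ_bdd B ρ hρ0 hρ1
  set δ : ℝ := min (1 / 1000) (c / 2) with hδ
  have hδ0 : 0 < δ := by
    rw [hδ]
    positivity
  have hδ1 : δ ≤ 1 / 1000 := min_le_left _ _
  have hδ2 : δ ≤ c / 2 := min_le_right _ _
  set k₀ : ℕ := max 400 (2 * n₀) with hk₀
  refine ⟨δ, hδ0, (2 + 32 * (k₀ : ℝ) ^ 2) * (k₀ : ℝ) ^ B + (2 + 2 * C₁ + 32 * 2 ^ (2 * B + 4)), ?_⟩
  intro k q₀ hk hq₀ hq3 haq
  have hkR : (1 : ℝ) ≤ k := by exact_mod_cast hk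
  have hkpos : (0 : ℝ) < k := by linarith
  have hq₀pos : 0 < q₀ := hq₀.pos
  have hQodd : Odd (3 ^ (k / 4) * q₀) := (Odd.pow (by decide)).mul hq₀
  have : NeZero (3 ^ (k / 4) * q₀) := ⟨(Nat.mul_pos (pow_pos (by norm_num) _) hq₀pos).ne'⟩
  have hQQ : 3 ^ (k / 4) ∣ 3 ^ (k / 4) * q₀ := Dvd.intro _ rfl
  have hSR : ((21 * k / 10 + 1 : ℕ) : ℝ) ≤ 4 * k := by
    have : 21 * k / 10 + 1 ≤ 4 * k := by omega
    exact_mod_cast this
  have hkB : (0 : ℝ) < (k : ℝ) ^ B := by positivity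
  have hC2 : (0 : ℝ) ≤ 2 + 2 * C₁ + 32 * 2 ^ (2 * B + 4) := by positivity
  rcases Nat.lt_or_ge k k₀ with hsmall | hbig
  · -- small `k`
    have h1 := STQ_small hG hW hC (3 ^ (k / 4) * q₀) (3 ^ (k / 4)) hQodd hQQ k (21 * k / 10 + 1)
    have hkk : (k : ℝ) ≤ k₀ := by exact_mod_cast hsmall.le
    have h2 : 2 + 2 * ((21 * k / 10 + 1 : ℕ) : ℝ) ^ 2 ≤ 2 + 32 * (k₀ : ℝ) ^ 2 := by
      have h3 : ((21 * k / 10 + 1 : ℕ) : ℝ) ^ 2 ≤ (4 * k) ^ 2 :=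
        pow_le_pow_left₀ (Nat.cast_nonneg _) hSR 2
      have h4 : (k : ℝ) ^ 2 ≤ (k₀ : ℝ) ^ 2 := pow_le_pow_left₀ hkpos.le hkk 2
      rw [mul_pow] at h3
      linarith
    rw [le_div_iff₀ hkB]
    have h5 : (k : ℝ) ^ B ≤ (k₀ : ℝ) ^ B := pow_le_pow_left₀ hkpos.le hkk B
    calc Osc (3 ^ (k / 4) * q₀) (3 ^ (k / 4)) k (21 * k / 10 + 1) * (k : ℝ) ^ B
        ≤ (2 + 32 * (k₀ : ℝ) ^ 2) * (k : ℝ) ^ B :=
          mul_le_mul_of_nonneg_right (h1.trans h2) hkB.le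
      _ ≤ (2 + 32 * (k₀ : ℝ) ^ 2) * (k₀ : ℝ) ^ B :=
          mul_le_mul_of_nonneg_left h5 (by positivity)
      _ ≤ _ := by linarith
  · -- large `k`
    have hk400 : 400 ≤ k := (le_max_left _ _).trans hbig
    have hkn₀ : 2 * n₀ ≤ k := (le_max_right _ _).trans hbig
    -- logarithms
    have hlog2 : 0.6931471803 < Real.log 2 := Real.log_two_gt_d9
    have hlog2' : Real.log 2 < 0.6931471808 := Real.log_two_lt_d9
    have hlog3 := STQ_log3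
    have hq₀R : (0 : ℝ) < q₀ := by exact_mod_cast hq₀pos
    have hlq1 : Real.log q₀ ≤ δ * k := by
      have := Real.log_le_log hq₀R haq
      rwa [Real.log_exp] at this
    -- the splitting
    set k₁ : ℕ := k / 4 with hk₁
    have hk₁k : k₁ ≤ k := by omega
    obtain ⟨k₂, hk₂⟩ : ∃ k₂, k = k₁ + k₂ := ⟨k - k₁, by omega⟩
    have hn1 : k ≤ 2 * k₂ := by omega
    have hn1R : (k : ℝ) ≤ 2 * (k₂ : ℝ) := by exact_mod_cast hn1
    have hnpos : (0 : ℝ) < (k₂ : ℝ) := by linarith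
    have hn₀ : n₀ ≤ k₂ := by omega
    have hk5 : k ≤ 5 * k₁ + 5 := by omega
    have hk8 : k ≤ 5 * k₁ := by omega
    have hk8R : (k : ℝ) ≤ 5 * k₁ := by exact_mod_cast hk8
    -- the number of letters
    set K : ℕ := k ^ (B + 2) with hK
    have hK1 : 1 ≤ K := Nat.one_le_pow _ _ (by omega)
    -- the modulus
    have hsmin : 3 ^ k₁ * q₀ ≤ 2 ^ ((19 * k₁ + 9) / 10) := by
      have h1 : (((19 * k₁ + 9) / 10 : ℕ) : ℝ) ≥ 1.9 * k₁ := by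
        have h2 : 10 * ((19 * k₁ + 9) / 10) ≥ 19 * k₁ := by omega
        have h3 : (10 : ℝ) * (((19 * k₁ + 9) / 10 : ℕ) : ℝ) ≥ 19 * k₁ := by exact_mod_cast h2
        linarith
      have h4 : Real.log ((3 ^ k₁ * q₀ : ℕ) : ℝ) ≤
          Real.log ((2 ^ ((19 * k₁ + 9) / 10) : ℕ) : ℝ) := by
        push_cast
        rw [Real.log_mul (by positivity) (by positivity), Real.log_pow, Real.log_pow]
        have h5 : Real.log q₀ ≤ 0.005 * k₁ := by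
          have : δ * k ≤ 1 / 1000 * k := mul_le_mul_of_nonneg_right hδ1 hkpos.le
          linarith
        have h6 : (k₁ : ℝ) * Real.log 3 ≤ k₁ * (1.585 * Real.log 2) :=
          mul_le_mul_of_nonneg_left hlog3 (Nat.cast_nonneg _)
        have h7 : (1.9 * (k₁ : ℝ)) * Real.log 2 ≤
            (((19 * k₁ + 9) / 10 : ℕ) : ℝ) * Real.log 2 :=
          mul_le_mul_of_nonneg_right h1 (by linarith)
        have h8 : (k₁ : ℝ) * 0.693 ≤ (k₁ : ℝ) * Real.log 2 :=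
          mul_le_mul_of_nonneg_left (by linarith) (Nat.cast_nonneg _)
        linarith
      have h8 : ((3 ^ k₁ * q₀ : ℕ) : ℝ) ≤ ((2 ^ ((19 * k₁ + 9) / 10) : ℕ) : ℝ) :=
        (Real.log_le_log_iff (by exact_mod_cast Nat.mul_pos (pow_pos (by norm_num) _) hq₀pos)
          (by exact_mod_cast pow_pos (by norm_num) _)).mp h4
      exact_mod_cast h8
    -- decay
    have hdec : ∀ h : ZMod (3 ^ k₁ * q₀), ((3 ^ k₁ : ℕ) : ZMod (3 ^ k₁ * q₀)) * h ≠ 0 →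
        ∀ t s : ℕ, ‖F (3 ^ k₁ * q₀) k₂ s (3 ^ k₁ * hf (3 ^ k₁ * q₀) ^ t * h)‖ ≤
          1 / (k₂ : ℝ) ^ (2 * B + 4) := by
      intro h hh t s
      obtain ⟨i, q, hij, hq1, hq, hqq⟩ := STQ_order q₀ k₁ hq3 h hh
      have hq3' : ¬ 3 ∣ q := fun h3 => hq3 (h3.trans hqq)
      have hord := (hO (3 ^ k₁ * q₀) hQodd h i q hq hq3').2.1 k₁ t hij
      refine STQ_F_of_GB _ _ _ _ _ (hD' (3 ^ k₁ * q₀) hQodd _ k₂ (by rw [hord]; exact hq3')
        (by rw [hord]; exact hq1) hn₀ ?_)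
      rw [hord]
      have hqpos : 0 < q := Nat.pos_of_dvd_of_pos hqq hq₀pos
      have hqR : (0 : ℝ) < q := by exact_mod_cast hqpos
      have h2 : Real.log q ≤ Real.log q₀ :=
        Real.log_le_log hqR (by exact_mod_cast Nat.le_of_dvd hq₀pos hqq)
      have h3 : δ * k ≤ c / 2 * k := mul_le_mul_of_nonneg_right hδ2 hkpos.le
      have h4 : c * k ≤ c * (2 * (k₂ : ℝ)) := mul_le_mul_of_nonneg_left hn1R hc.le
      linarith
    have hmain := hG (3 ^ k₁ * q₀) (3 ^ k₁) hQodd hQQ k₁ k₂ K ((19 * k₁ + 9) / 10)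
      (21 * k / 10 + 1) (1 / (k₂ : ℝ) ^ (2 * B + 4)) hK1 hsmin (by positivity) hdec
    rw [← hk₂] at hmain
    refine hmain.trans ?_
    -- the three terms
    have hKR : (K : ℝ) = (k : ℝ) ^ (B + 2) := by rw [hK]; push_cast; rfl
    have t1 : (k₁ : ℝ) / K ≤ 1 / (k : ℝ) ^ B := by
      have hk₁R : (k₁ : ℝ) ≤ k := by exact_mod_cast hk₁k
      rw [hKR, div_le_div_iff₀ (by positivity) hkB, one_mul, pow_add]
      have h1 : (k₁ : ℝ) ≤ (k : ℝ) ^ 2 := by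
        have : (k : ℝ) * 1 ≤ k * k := mul_le_mul_of_nonneg_left hkR hkpos.le
        rw [pow_two]
        linarith
      calc (k₁ : ℝ) * (k : ℝ) ^ B ≤ (k : ℝ) ^ 2 * (k : ℝ) ^ B :=
            mul_le_mul_of_nonneg_right h1 hkB.le
        _ = (k : ℝ) ^ B * (k : ℝ) ^ 2 := mul_comm _ _
    have t2 : ∑ s ∈ range ((19 * k₁ + 9) / 10), p k₁ s ≤ C₁ / (k : ℝ) ^ B := by
      refine (hρ k₁).1.trans ?_
      rw [le_div_iff₀ hkB]
      have h1 : (k : ℝ) ^ B ≤ (5 * (k₁ : ℝ) + 5) ^ B :=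
        pow_le_pow_left₀ hkpos.le (by exact_mod_cast hk5) B
      calc ρ ^ k₁ * (k : ℝ) ^ B ≤ ρ ^ k₁ * (5 * (k₁ : ℝ) + 5) ^ B :=
            mul_le_mul_of_nonneg_left h1 (by positivity)
        _ = (5 * (k₁ : ℝ) + 5) ^ B * ρ ^ k₁ := mul_comm _ _
        _ ≤ C₁ := hC₁ k₁
    have t3 : ((21 * k / 10 + 1 : ℕ) : ℝ) ^ 2 * (1 / (k₂ : ℝ) ^ (2 * B + 4)) *
        Real.sqrt (K + 1) ≤ 32 * 2 ^ (2 * B + 4) / (k : ℝ) ^ B := by
      have h1 : ((21 * k / 10 + 1 : ℕ) : ℝ) ^ 2 ≤ 16 * (k : ℝ) ^ 2 := by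
        have := pow_le_pow_left₀ (Nat.cast_nonneg _) hSR 2
        rw [mul_pow] at this
        linarith
      have h2 : 1 / (k₂ : ℝ) ^ (2 * B + 4) ≤
          2 ^ (2 * B + 4) / (k : ℝ) ^ (2 * B + 4) := by
        rw [div_le_div_iff₀ (by positivity) (by positivity), one_mul, ← mul_pow]
        exact pow_le_pow_left₀ hkpos.le hn1R _
      have hK1R : (1 : ℝ) ≤ K := by exact_mod_cast hK1
      have h3 : Real.sqrt (K + 1) ≤ 2 * (k : ℝ) ^ (B + 2) := by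
        rw [Real.sqrt_le_left (by positivity), ← hKR]
        have : (K : ℝ) * 1 ≤ K * K := mul_le_mul_of_nonneg_left hK1R (Nat.cast_nonneg _)
        rw [mul_pow, pow_two (K : ℝ)]
        linarith
      calc ((21 * k / 10 + 1 : ℕ) : ℝ) ^ 2 * (1 / (k₂ : ℝ) ^ (2 * B + 4)) *
            Real.sqrt (K + 1)
          ≤ (16 * (k : ℝ) ^ 2) * (2 ^ (2 * B + 4) / (k : ℝ) ^ (2 * B + 4)) *
            (2 * (k : ℝ) ^ (B + 2)) := by
            refine mul_le_mul (mul_le_mul h1 h2 (by positivity) (by positivity)) h3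
              (Real.sqrt_nonneg _) (by positivity)
        _ = 32 * 2 ^ (2 * B + 4) / (k : ℝ) ^ B := by
            rw [mul_div_assoc', div_mul_eq_mul_div, div_eq_div_iff (by positivity) (by positivity)]
            ring
    calc 2 * ((k₁ : ℝ) / K + ∑ s ∈ range ((19 * k₁ + 9) / 10), p k₁ s) +
          ((21 * k / 10 + 1 : ℕ) : ℝ) ^ 2 * (1 / (k₂ : ℝ) ^ (2 * B + 4)) *
            Real.sqrt (K + 1)
        ≤ 2 * (1 / (k : ℝ) ^ B + C₁ / (k : ℝ) ^ B) + 32 * 2 ^ (2 * B + 4) / (k : ℝ) ^ B := by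
          linarith
      _ = (2 + 2 * C₁ + 32 * 2 ^ (2 * B + 4)) / (k : ℝ) ^ B := by ring
      _ ≤ _ := by
          rw [div_le_div_iff_of_pos_right hkB]
          have : (0 : ℝ) ≤ (2 + 32 * (k₀ : ℝ) ^ 2) * (k₀ : ℝ) ^ B := by positivity
          linarith

end Pool.Agent.SLD
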