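import Pool.Agent.SLD.StC

/-!
SLD, module SVE: the sum of `1 / lcm` (helper77).
-/

set_option autoImplicit false

namespace Pool.Agent.SLD

open Finset Filter Topology

theorem SVE_har (y : ℕ) : ∑ n ∈ Icc 1 y, (1 : ℝ) / n ≤ 1 + Real.log y := by
  have h := harmonic_le_one_add_log y
  rw [harmonic_eq_sum_Icc] at h
  push_cast at h
  simpa only [one_div] using h

theorem thm_SVE : St_SVE := by
  intro y _
  set H : ℝ := ∑ n ∈ Icc 1 y, (1 : ℝ) / n with hH
  have hH0 : 0 ≤ H := Finset.sum_nonneg fun n _ => by positivity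
  have h1 : ∑ d ∈ Icc 1 y, ∑ e ∈ Icc 1 y, 1 / (d.lcm e : ℝ) ≤ H ^ 3 := by
    have h2 : H ^ 3 = ∑ x ∈ Icc 1 y ×ˢ (Icc 1 y ×ˢ Icc 1 y),
        (1 : ℝ) / x.1 * ((1 : ℝ) / x.2.1 * ((1 : ℝ) / x.2.2)) := by
      rw [Finset.sum_product, pow_succ', sq, hH, Finset.sum_mul]
      refine Finset.sum_congr rfl fun g _ => ?_
      rw [Finset.sum_product, Finset.sum_mul_sum, Finset.mul_sum]
      refine Finset.sum_congr rfl fun a _ => ?_
      rw [Finset.mul_sum]
    let φ : ℕ × ℕ → ℕ × ℕ × ℕ := fun p => (p.1.gcd p.2, p.1 / p.1.gcd p.2, p.2 / p.1.gcd p.2)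
    have hinj : Set.InjOn φ (Icc 1 y ×ˢ Icc 1 y : Finset (ℕ × ℕ)) := by
      rintro ⟨d, e⟩ - ⟨d', e'⟩ - h
      have h3 : d.gcd e = d'.gcd e' := congrArg Prod.fst h
      have h4 : d / d.gcd e = d' / d'.gcd e' := congrArg (fun x => x.2.1) h
      have h5 : e / d.gcd e = e' / d'.gcd e' := congrArg (fun x => x.2.2) h
      rw [Prod.mk.injEq]
      constructor
      · rw [← Nat.div_mul_cancel (Nat.gcd_dvd_left d e), h4, h3,
          Nat.div_mul_cancel (Nat.gcd_dvd_left d' e')]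
      · rw [← Nat.div_mul_cancel (Nat.gcd_dvd_right d e), h5, h3,
          Nat.div_mul_cancel (Nat.gcd_dvd_right d' e')]
    rw [← Finset.sum_product', h2]
    calc ∑ p ∈ Icc 1 y ×ˢ Icc 1 y, 1 / (p.1.lcm p.2 : ℝ) = ∑ p ∈ Icc 1 y ×ˢ Icc 1 y,
          (1 : ℝ) / (φ p).1 * ((1 : ℝ) / (φ p).2.1 * ((1 : ℝ) / (φ p).2.2)) := by
          refine Finset.sum_congr rfl fun p hp => ?_
          obtain ⟨d, e⟩ := p
          rw [Finset.mem_product, Finset.mem_Icc, Finset.mem_Icc] at hp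
          have hd : 0 < d := hp.1.1
          have he : 0 < e := hp.2.1
          have hg : 0 < d.gcd e := Nat.gcd_pos_of_pos_left _ hd
          have h3 : d.lcm e = d.gcd e * (d / d.gcd e * (e / d.gcd e)) := by
            refine Nat.eq_of_mul_eq_mul_left hg ?_
            rw [Nat.gcd_mul_lcm]
            obtain ⟨a, ha⟩ := Nat.gcd_dvd_left d e
            obtain ⟨b, hb⟩ := Nat.gcd_dvd_right d e
            have h4 : d / d.gcd e = a := Nat.div_eq_of_eq_mul_right hg ha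
            have h5 : e / d.gcd e = b := Nat.div_eq_of_eq_mul_right hg hb
            rw [h4, h5]
            calc d * e = (d.gcd e * a) * (d.gcd e * b) := by rw [← ha, ← hb]
              _ = _ := by ring
          change 1 / ((d.lcm e : ℕ) : ℝ) = 1 / ((d.gcd e : ℕ) : ℝ) *
            (1 / ((d / d.gcd e : ℕ) : ℝ) * (1 / ((e / d.gcd e : ℕ) : ℝ)))
          rw [h3, Nat.cast_mul, Nat.cast_mul, one_div_mul_one_div, one_div_mul_one_div]
      _ = ∑ x ∈ (Icc 1 y ×ˢ Icc 1 y).image φ,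
          (1 : ℝ) / x.1 * ((1 : ℝ) / x.2.1 * ((1 : ℝ) / x.2.2)) :=
          (Finset.sum_image (f := fun x : ℕ × ℕ × ℕ =>
            (1 : ℝ) / x.1 * ((1 : ℝ) / x.2.1 * ((1 : ℝ) / x.2.2))) hinj).symm
      _ ≤ _ := by
          refine Finset.sum_le_sum_of_subset_of_nonneg ?_ fun x _ _ => by positivity
          intro x hx
          obtain ⟨⟨d, e⟩, hp, rfl⟩ := Finset.mem_image.1 hx
          rw [Finset.mem_product, Finset.mem_Icc, Finset.mem_Icc] at hp
          have hd : 0 < d := hp.1.1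
          have he : 0 < e := hp.2.1
          have hg : 0 < d.gcd e := Nat.gcd_pos_of_pos_left _ hd
          simp only [φ, Finset.mem_product, Finset.mem_Icc]
          have h4 : 0 < d / d.gcd e := Nat.div_pos (Nat.gcd_le_left _ hd) hg
          have h5 : 0 < e / d.gcd e := Nat.div_pos (Nat.gcd_le_right _ he) hg
          exact ⟨⟨hg, (Nat.gcd_le_left _ hd).trans hp.1.2⟩,
            ⟨h4, (Nat.div_le_self _ _).trans hp.1.2⟩, ⟨h5, (Nat.div_le_self _ _).trans hp.2.2⟩⟩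
  refine h1.trans (pow_le_pow_left₀ hH0 (SVE_har y) 3)

end Pool.Agent.SLD
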