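import Pool.Agent.SLD.StC

/-!
SLD, block SVP: upper bound for the primes in an eventually invariant set.
-/

set_option autoImplicit false

namespace Pool.Agent.SLD

open Finset Filter Topology

open Classical in
/-- the counting function on the natural numbers -/
lemma SVP_N (σ : ℤ) (hσ : σ = 1 ∨ σ = -1) (A : Set ℤ) (X q : ℕ) :
    N σ A X q 0 = (((Icc 1 X).filter fun n : ℕ => σ * (n : ℤ) ∈ A).filter fun n => q ∣ n).card := by
  have hss : σ * σ = 1 := by rcases hσ with rfl | rfl <;> norm_num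
  have hne : σ ≠ 0 := by rcases hσ with rfl | rfl <;> norm_num
  have h1 : {n : ℤ | 1 ≤ σ * n ∧ σ * n ≤ X ∧ (q : ℤ) ∣ n - 0 ∧ n ∈ A} =
      (fun n : ℕ => σ * (n : ℤ)) ''
        (((Icc 1 X).filter fun n : ℕ => σ * (n : ℤ) ∈ A).filter fun n => q ∣ n : Finset ℕ) := by
    ext z
    simp only [Set.mem_ofPred_eq, Set.mem_image, Finset.coe_filter, Finset.mem_filter,
      Finset.mem_Icc, sub_zero]
    constructor
    · rintro ⟨a, b, c, d⟩
      have e1 : (((σ * z).toNat : ℕ) : ℤ) = σ * z := Int.toNat_of_nonneg (by linarith)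
      have e2 : σ * (((σ * z).toNat : ℕ) : ℤ) = z := by rw [e1, ← mul_assoc, hss, one_mul]
      refine ⟨(σ * z).toNat, ⟨⟨⟨?_, ?_⟩, ?_⟩, ?_⟩, e2⟩
      · omega
      · omega
      · rw [e2]; exact d
      · have : (q : ℤ) ∣ (((σ * z).toNat : ℕ) : ℤ) := by rw [e1]; exact c.mul_left σ
        exact_mod_cast this
    · rintro ⟨n, ⟨⟨⟨a, b⟩, c⟩, d⟩, rfl⟩
      have e1 : σ * (σ * (n : ℤ)) = n := by rw [← mul_assoc, hss, one_mul]
      refine ⟨?_, ?_, ?_, c⟩
      · rw [e1]; exact_mod_cast a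
      · rw [e1]; exact_mod_cast b
      · exact (by exact_mod_cast d : (q : ℤ) ∣ (n : ℤ)).mul_left σ
  unfold N
  rw [h1, Set.ncard_image_of_injective _ (fun a b h => by
    have := mul_left_cancel₀ hne h
    exact_mod_cast this), Set.ncard_coe_finset]

open Classical in
/-- the sieve -/
lemma SVP_sieve (S : Finset ℕ) (y : ℕ) (θ : ℕ → ℝ) (h1 : θ 1 = 1) (hy : 1 ≤ y) :
    ((S.filter fun p => p.Prime).card : ℝ) ≤
      y + ∑ d ∈ Icc 1 y, ∑ e ∈ Icc 1 y, θ d * θ e * ((S.filter fun n => d.lcm e ∣ n).card : ℝ) := by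
  have e1 : ((S.filter fun p => p.Prime).card : ℝ) ≤
      y + ((S.filter fun p => p.Prime ∧ y < p).card : ℝ) := by
    have : (S.filter fun p => p.Prime) ⊆ Icc 1 y ∪ (S.filter fun p => p.Prime ∧ y < p) := by
      intro p hp
      rw [mem_filter] at hp
      rw [mem_union, mem_Icc, mem_filter]
      by_cases h : y < p
      · exact Or.inr ⟨hp.1, hp.2, h⟩
      · exact Or.inl ⟨hp.2.one_lt.le, by omega⟩
    have h2 := (card_le_card this).trans (card_union_le _ _)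
    rw [Nat.card_Icc] at h2
    have h3 : (S.filter fun p => p.Prime).card ≤ y + (S.filter fun p => p.Prime ∧ y < p).card := by
      omega
    exact_mod_cast h3
  have e2 : ((S.filter fun p => p.Prime ∧ y < p).card : ℝ) ≤
      ∑ n ∈ S, (∑ d ∈ Icc 1 y, if d ∣ n then θ d else 0) ^ 2 := by
    have h2 : ((S.filter fun p => p.Prime ∧ y < p).card : ℝ) =
        ∑ p ∈ S.filter fun p => p.Prime ∧ y < p,
          (∑ d ∈ Icc 1 y, if d ∣ p then θ d else 0) ^ 2 := by
      rw [card_eq_sum_ones]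
      push_cast
      refine sum_congr rfl fun p hp => ?_
      rw [mem_filter] at hp
      have h3 : ∑ d ∈ Icc 1 y, (if d ∣ p then θ d else 0) = θ 1 := by
        rw [sum_eq_single_of_mem 1 (mem_Icc.2 ⟨le_rfl, hy⟩)]
        · rw [if_pos (one_dvd p)]
        · intro d hd hd1
          rw [if_neg]
          intro hdp
          rcases (Nat.dvd_prime hp.2.1).1 hdp with h | h
          · exact hd1 h
          · rw [mem_Icc] at hd
            omega
      rw [h3, h1]
      norm_num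
    rw [h2]
    exact sum_le_sum_of_subset_of_nonneg (filter_subset _ _) fun n _ _ => sq_nonneg _
  have e3 : ∑ n ∈ S, (∑ d ∈ Icc 1 y, if d ∣ n then θ d else 0) ^ 2 =
      ∑ d ∈ Icc 1 y, ∑ e ∈ Icc 1 y, θ d * θ e * ((S.filter fun n => d.lcm e ∣ n).card : ℝ) := by
    simp only [sq, sum_mul_sum]
    rw [sum_comm]
    refine sum_congr rfl fun d _ => ?_
    rw [sum_comm]
    refine sum_congr rfl fun e _ => ?_
    rw [card_eq_sum_ones, Nat.cast_sum, mul_sum, sum_filter]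
    refine sum_congr rfl fun n _ => ?_
    by_cases hd : d ∣ n
    · by_cases he : e ∣ n
      · rw [if_pos hd, if_pos he, if_pos (Nat.lcm_dvd hd he)]
        push_cast
        ring
      · rw [if_neg he, if_neg (fun h => he ((Nat.dvd_lcm_right d e).trans h)), mul_zero]
    · rw [if_neg hd, if_neg (fun h => hd ((Nat.dvd_lcm_left d e).trans h)), zero_mul]
  rw [← e3]
  linarith

/-- [SVP] -/
theorem thm_SVP (hA : St_ALE) (hW : St_SVW) (hE : St_SVE) : St_SVP := by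
  classical
  obtain ⟨δ₁, hδ₁, C₁, hC₁⟩ := hA 5
  obtain ⟨C₂, hC₂⟩ := hW
  set δ : ℝ := min δ₁ (1 / 2) with hδ
  have hδ0 : 0 < δ := lt_min hδ₁ (by norm_num)
  have hδ1 : δ ≤ δ₁ := min_le_left _ _
  have hδ2 : δ ≤ 1 / 2 := min_le_right _ _
  set X₁ : ℝ := (4 : ℝ) ^ (2 / δ) with hX₁
  have hX₁0 : 0 < X₁ := Real.rpow_pos_of_pos (by norm_num) _
  set C : ℝ := 4 * |C₂| / δ + (8 * |C₁| + 64 / 9 + (Real.log X₁) ^ 2) with hC
  refine ⟨δ, hδ0, C, ?_⟩
  intro σ K A X hσ hI hX hK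
  have hX2 : (2 : ℝ) ≤ X := by exact_mod_cast hX
  have hX0 : (0 : ℝ) < X := by linarith
  set L : ℝ := Real.log X with hL
  have hL0 : 0 < L := Real.log_pos (by linarith)
  set S : Finset ℕ := (Icc 1 X).filter fun n : ℕ => σ * (n : ℤ) ∈ A with hS
  have hP : Set.ncard {p : ℕ | p.Prime ∧ p ≤ X ∧ σ * (p : ℤ) ∈ A} =
      (S.filter fun p => p.Prime).card := by
    rw [← Set.ncard_coe_finset]
    congr 1
    ext p
    simp only [Set.mem_ofPred_eq, Finset.coe_filter, hS, Finset.mem_filter, Finset.mem_Icc]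
    constructor
    · rintro ⟨a, b, c⟩
      exact ⟨⟨⟨a.one_lt.le, b⟩, c⟩, a⟩
    · rintro ⟨⟨⟨_, b⟩, c⟩, a⟩
      exact ⟨a, b, c⟩
  rw [hP]
  have hN0 : (0 : ℝ) ≤ N σ A X 1 0 := Nat.cast_nonneg _
  have hNL : 0 ≤ (N σ A X 1 0 : ℝ) / L := by positivity
  have hXL : 0 ≤ (X : ℝ) / L ^ 2 := by positivity
  have hC2pos : 0 ≤ 4 * |C₂| / δ := by positivity
  have hCr : 0 ≤ 8 * |C₁| + 64 / 9 + (Real.log X₁) ^ 2 := by positivity
  by_cases hbig : (X : ℝ) ≤ X₁
  · -- small X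
    have h1 : ((S.filter fun p => p.Prime).card : ℝ) ≤ X := by
      have h2 : (S.filter fun p => p.Prime).card ≤ X := by
        refine (card_le_card (filter_subset _ _)).trans ?_
        refine (card_le_card (filter_subset _ _)).trans ?_
        rw [Nat.card_Icc]
        omega
      exact_mod_cast h2
    have h2 : L ≤ Real.log X₁ := Real.log_le_log hX0 hbig
    have h3 : (X : ℝ) ≤ (Real.log X₁) ^ 2 * (X / L ^ 2) := by
      rw [mul_div_assoc', le_div_iff₀ (by positivity), mul_comm]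
      exact mul_le_mul_of_nonneg_right (pow_le_pow_left₀ hL0.le h2 2) hX0.le
    calc ((S.filter fun p => p.Prime).card : ℝ) ≤ (Real.log X₁) ^ 2 * (X / L ^ 2) := h1.trans h3
      _ ≤ C * (X / L ^ 2) := by
        refine mul_le_mul_of_nonneg_right ?_ hXL
        rw [hC]
        linarith [abs_nonneg C₁]
      _ ≤ C * (N σ A X 1 0 / L + X / L ^ 2) := by
        refine mul_le_mul_of_nonneg_left (by linarith) ?_
        rw [hC]
        linarith
  · -- large X
    rw [not_le] at hbig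
    set Y : ℝ := (X : ℝ) ^ (δ / 2) with hY
    have hY4 : 4 ≤ Y := by
      calc (4 : ℝ) = X₁ ^ (δ / 2) := by
            rw [hX₁, ← Real.rpow_mul (by norm_num)]
            have : 2 / δ * (δ / 2) = 1 := by field_simp
            rw [this, Real.rpow_one]
        _ ≤ Y := Real.rpow_le_rpow hX₁0.le hbig.le (by positivity)
    set y : ℕ := ⌊Y⌋₊ with hy
    have hyY : (y : ℝ) ≤ Y := Nat.floor_le (by linarith)
    have hYy : Y < y + 1 := Nat.lt_floor_add_one Y
    have hy2 : 2 ≤ y := by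
      have : (2 : ℝ) < y := by linarith
      exact_mod_cast this.le
    have hy0 : (0 : ℝ) < y := by
      have : (2 : ℝ) ≤ y := by exact_mod_cast hy2
      linarith
    have hX1 : (1 : ℝ) ≤ X := by linarith
    have hyX4 : (y : ℝ) ≤ (X : ℝ) ^ ((1 : ℝ) / 4) :=
      hyY.trans (Real.rpow_le_rpow_of_exponent_le hX1 (by linarith))
    have hyX : (y : ℝ) ≤ X := hyX4.trans (by
      calc (X : ℝ) ^ ((1 : ℝ) / 4) ≤ (X : ℝ) ^ (1 : ℝ) :=
            Real.rpow_le_rpow_of_exponent_le hX1 (by norm_num)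
        _ = X := Real.rpow_one _)
    have hyy : (y : ℝ) ^ 2 ≤ (X : ℝ) ^ δ := by
      calc (y : ℝ) ^ 2 ≤ Y ^ 2 := pow_le_pow_left₀ hy0.le hyY 2
        _ = (X : ℝ) ^ δ := by
          rw [hY, ← Real.rpow_natCast, ← Real.rpow_mul hX0.le]
          congr 1
          push_cast
          ring
    -- the logarithm of y
    have hly : δ / 4 * L ≤ Real.log y := by
      have h1 : (X : ℝ) ^ (δ / 4) ≤ y := by
        have h2 : ((X : ℝ) ^ (δ / 4)) ^ 2 = Y := by
          rw [hY, ← Real.rpow_natCast, ← Real.rpow_mul hX0.le]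
          congr 1
          push_cast
          ring
        have h3 : 0 ≤ (X : ℝ) ^ (δ / 4) := Real.rpow_nonneg hX0.le _
        nlinarith
      have h2 := Real.log_le_log (Real.rpow_pos_of_pos hX0 _) h1
      rwa [Real.log_rpow hX0] at h2
    have hly0 : 0 < Real.log y := lt_of_lt_of_le (by positivity) hly
    have hlyL : Real.log y ≤ L := Real.log_le_log hy0 hyX
    have hL1 : 1 ≤ L := by
      have h1 : (4 : ℝ) ≤ X := by
        calc (4 : ℝ) ≤ Y := hY4
          _ ≤ (X : ℝ) ^ (1 : ℝ) := Real.rpow_le_rpow_of_exponent_le hX1 (by linarith)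
          _ = X := Real.rpow_one _
      have h2 : Real.exp 1 ≤ X := by linarith [Real.exp_one_lt_d9]
      rw [hL, ← Real.log_exp 1]
      exact Real.log_le_log (Real.exp_pos 1) h2
    obtain ⟨θ, hθ1, hθd, hθa, hθq⟩ := hC₂ y hy2
    have h1 := SVP_sieve S y θ hθ1 (by omega)
    -- every term
    have h2 : ∀ d ∈ Icc 1 y, ∀ e ∈ Icc 1 y,
        θ d * θ e * ((S.filter fun n => d.lcm e ∣ n).card : ℝ) ≤
          (N σ A X 1 0 : ℝ) * (θ d * θ e / (d.lcm e : ℝ)) +
            |C₁| * X / L ^ 5 * (1 / (d.lcm e : ℝ)) := by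
      intro d hd e he
      rw [mem_Icc] at hd he
      have hl1 : 1 ≤ d.lcm e := Nat.pos_of_ne_zero (Nat.lcm_ne_zero (by omega) (by omega))
      have hl0 : (0 : ℝ) < (d.lcm e : ℝ) := by exact_mod_cast hl1
      have hlast : 0 ≤ |C₁| * X / L ^ 5 * (1 / (d.lcm e : ℝ)) := by positivity
      by_cases h0 : θ d * θ e = 0
      · rw [h0]
        simp only [zero_mul, zero_div, mul_zero, zero_add]
        exact hlast
      · have hd0 := hθd d (left_ne_zero_of_mul h0)
        have he0 := hθd e (right_ne_zero_of_mul h0)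
        have hodd : Odd (d.lcm e) := by
          have h3 : d.lcm e ∣ d * e := Nat.lcm_dvd_mul d e
          exact Odd.of_dvd_nat (hd0.2.2.mul he0.2.2) h3
        have hle : ((d.lcm e : ℕ) : ℝ) ≤ (X : ℝ) ^ δ₁ := by
          have h3 : d.lcm e ≤ d * e := Nat.le_of_dvd (Nat.mul_pos (by omega) (by omega))
            (Nat.lcm_dvd_mul d e)
          have h4 : d * e ≤ y ^ 2 := by
            rw [sq]
            exact Nat.mul_le_mul hd.2 he.2
          calc ((d.lcm e : ℕ) : ℝ) ≤ (y : ℝ) ^ 2 := by exact_mod_cast h3.trans h4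
            _ ≤ (X : ℝ) ^ δ := hyy
            _ ≤ (X : ℝ) ^ δ₁ := Real.rpow_le_rpow_of_exponent_le hX1 hδ1
        have hK' : (K : ℝ) ≤ (X : ℝ) ^ δ₁ :=
          hK.trans (Real.rpow_le_rpow_of_exponent_le hX1 hδ1)
        have h5 := hC₁ σ 0 K A X (d.lcm e) hσ hI hX hK' hodd hle
        rw [SVP_N σ hσ A X (d.lcm e)] at h5
        have h6 : |θ d * θ e| ≤ 1 := by
          rw [abs_mul]
          calc |θ d| * |θ e| ≤ 1 * 1 := mul_le_mul (hθa d) (hθa e) (abs_nonneg _) (by norm_num)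
            _ = 1 := one_mul 1
        have h7 : θ d * θ e * (((S.filter fun n => d.lcm e ∣ n).card : ℝ) -
            (N σ A X 1 0 : ℝ) / ((d.lcm e : ℕ) : ℝ)) ≤ C₁ * X / (((d.lcm e : ℕ) : ℝ) * L ^ 5) := by
          calc _ ≤ |θ d * θ e * (((S.filter fun n => d.lcm e ∣ n).card : ℝ) -
                (N σ A X 1 0 : ℝ) / ((d.lcm e : ℕ) : ℝ))| := le_abs_self _
            _ = |θ d * θ e| * |((S.filter fun n => d.lcm e ∣ n).card : ℝ) -
                (N σ A X 1 0 : ℝ) / ((d.lcm e : ℕ) : ℝ)| := abs_mul _ _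
            _ ≤ 1 * |((S.filter fun n => d.lcm e ∣ n).card : ℝ) -
                (N σ A X 1 0 : ℝ) / ((d.lcm e : ℕ) : ℝ)| :=
                mul_le_mul_of_nonneg_right h6 (abs_nonneg _)
            _ ≤ _ := by rw [one_mul]; exact h5
        have h8 : C₁ * X / (((d.lcm e : ℕ) : ℝ) * L ^ 5) ≤
            |C₁| * X / L ^ 5 * (1 / (d.lcm e : ℝ)) := by
          have h9 : |C₁| * X / L ^ 5 * (1 / (d.lcm e : ℝ)) =
              |C₁| * X / (((d.lcm e : ℕ) : ℝ) * L ^ 5) := by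
            field_simp
          rw [h9]
          refine div_le_div_of_nonneg_right ?_ (by positivity)
          exact mul_le_mul_of_nonneg_right (le_abs_self _) hX0.le
        have h10 : θ d * θ e * (((S.filter fun n => d.lcm e ∣ n).card : ℝ) -
            (N σ A X 1 0 : ℝ) / ((d.lcm e : ℕ) : ℝ)) =
            θ d * θ e * ((S.filter fun n => d.lcm e ∣ n).card : ℝ) -
              (N σ A X 1 0 : ℝ) * (θ d * θ e / (d.lcm e : ℝ)) := by ring
        rw [h10] at h7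
        linarith
    have h3 : ∑ d ∈ Icc 1 y, ∑ e ∈ Icc 1 y,
        θ d * θ e * ((S.filter fun n => d.lcm e ∣ n).card : ℝ) ≤
        (N σ A X 1 0 : ℝ) * ∑ d ∈ Icc 1 y, ∑ e ∈ Icc 1 y, θ d * θ e / (d.lcm e : ℝ) +
          |C₁| * X / L ^ 5 * ∑ d ∈ Icc 1 y, ∑ e ∈ Icc 1 y, 1 / (d.lcm e : ℝ) := by
      rw [mul_sum, mul_sum, ← sum_add_distrib]
      refine sum_le_sum fun d hd => ?_
      rw [mul_sum, mul_sum, ← sum_add_distrib]
      exact sum_le_sum fun e he => h2 d hd e he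
    have h4 : (N σ A X 1 0 : ℝ) * ∑ d ∈ Icc 1 y, ∑ e ∈ Icc 1 y, θ d * θ e / (d.lcm e : ℝ) ≤
        4 * |C₂| / δ * (N σ A X 1 0 / L) := by
      have h5 : ∑ d ∈ Icc 1 y, ∑ e ∈ Icc 1 y, θ d * θ e / (d.lcm e : ℝ) ≤ 4 * |C₂| / δ / L := by
        refine hθq.trans ?_
        calc C₂ / Real.log y ≤ |C₂| / Real.log y :=
              div_le_div_of_nonneg_right (le_abs_self _) hly0.le
          _ ≤ |C₂| / (δ / 4 * L) := div_le_div_of_nonneg_left (abs_nonneg _) (by positivity) hly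
          _ = 4 * |C₂| / δ / L := by field_simp
      calc _ ≤ (N σ A X 1 0 : ℝ) * (4 * |C₂| / δ / L) := mul_le_mul_of_nonneg_left h5 hN0
        _ = _ := by ring
    have h5 : |C₁| * X / L ^ 5 * ∑ d ∈ Icc 1 y, ∑ e ∈ Icc 1 y, 1 / (d.lcm e : ℝ) ≤
        8 * |C₁| * (X / L ^ 2) := by
      have h6 : ∑ d ∈ Icc 1 y, ∑ e ∈ Icc 1 y, 1 / (d.lcm e : ℝ) ≤ 8 * L ^ 3 := by
        refine (hE y (by omega)).trans ?_
        calc (1 + Real.log y) ^ 3 ≤ (2 * L) ^ 3 :=
              pow_le_pow_left₀ (by linarith) (by linarith) 3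
          _ = 8 * L ^ 3 := by ring
      calc _ ≤ |C₁| * X / L ^ 5 * (8 * L ^ 3) := mul_le_mul_of_nonneg_left h6 (by positivity)
        _ = 8 * |C₁| * (X / L ^ 2) := by
          field_simp
    have h6 : (y : ℝ) ≤ 64 / 9 * (X / L ^ 2) := by
      have h7 : L ≤ (X : ℝ) ^ ((3 : ℝ) / 8) / (3 / 8) := Real.log_le_rpow_div hX0.le (by norm_num)
      have h8 : L ^ 2 ≤ 64 / 9 * (X : ℝ) ^ ((3 : ℝ) / 4) := by
        calc L ^ 2 ≤ ((X : ℝ) ^ ((3 : ℝ) / 8) / (3 / 8)) ^ 2 := pow_le_pow_left₀ hL0.le h7 2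
          _ = 64 / 9 * ((X : ℝ) ^ ((3 : ℝ) / 8)) ^ 2 := by ring
          _ = 64 / 9 * (X : ℝ) ^ ((3 : ℝ) / 4) := by
            rw [← Real.rpow_natCast, ← Real.rpow_mul hX0.le]
            norm_num
      rw [mul_div_assoc', le_div_iff₀ (by positivity)]
      calc (y : ℝ) * L ^ 2 ≤ (X : ℝ) ^ ((1 : ℝ) / 4) * (64 / 9 * (X : ℝ) ^ ((3 : ℝ) / 4)) :=
            mul_le_mul hyX4 h8 (by positivity) (Real.rpow_nonneg hX0.le _)
        _ = 64 / 9 * ((X : ℝ) ^ ((1 : ℝ) / 4) * (X : ℝ) ^ ((3 : ℝ) / 4)) := by ring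
        _ = 64 / 9 * X := by
            rw [← Real.rpow_add hX0]
            norm_num
    have h7 : C * (N σ A X 1 0 / L + X / L ^ 2) =
        4 * |C₂| / δ * (N σ A X 1 0 / L) + 4 * |C₂| / δ * (X / L ^ 2) +
          (8 * |C₁| + 64 / 9 + (Real.log X₁) ^ 2) * (N σ A X 1 0 / L) +
          (8 * |C₁| * (X / L ^ 2) + 64 / 9 * (X / L ^ 2) + (Real.log X₁) ^ 2 * (X / L ^ 2)) := by
      rw [hC]
      ring
    rw [h7]
    have t1 : 0 ≤ 4 * |C₂| / δ * (X / L ^ 2) := mul_nonneg hC2pos hXL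
    have t2 : 0 ≤ (8 * |C₁| + 64 / 9 + (Real.log X₁) ^ 2) * (N σ A X 1 0 / L) :=
      mul_nonneg hCr hNL
    have t3 : 0 ≤ (Real.log X₁) ^ 2 * (X / L ^ 2) := mul_nonneg (sq_nonneg _) hXL
    linarith

end Pool.Agent.SLD
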