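import Pool.Agent.SLD.StC
import Pool.Agent.MVX.Sel

/-!
SLD, module SVW (helper82): Selberg weights on odd numbers, from `Pool.Agent.MVX.thm_Sel`.
-/

set_option autoImplicit false

namespace Pool.Agent.SLD

open Finset
open Pool.Agent.MVX (pr GG)

/-- the sum over the powers of a prime -/
theorem SVW_geo {p : ℕ} (hp : 2 ≤ p) (N : ℕ) :
    ∑ k ∈ Icc 1 N, 1 / ((p ^ k : ℕ) : ℝ) ≤ 1 / ((p : ℝ) - 1) := by
  have hp2 : (2 : ℝ) ≤ p := by exact_mod_cast hp
  have hp0 : (0 : ℝ) < p := by linarith
  have hp1 : (0 : ℝ) < (p : ℝ) - 1 := by linarith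
  have h : ∑ k ∈ Icc 1 N, 1 / ((p ^ k : ℕ) : ℝ) = (1 - 1 / (p : ℝ) ^ N) / ((p : ℝ) - 1) := by
    induction N with
    | zero => simp
    | succ N ih =>
      rw [sum_Icc_succ_top (by omega), ih, Nat.cast_pow]
      field_simp
      ring
  rw [h]
  refine div_le_div_of_nonneg_right ?_ hp1.le
  have : 0 < 1 / (p : ℝ) ^ N := by positivity
  linarith

/-- the numbers with given prime factors -/
theorem SVW_fib (N : ℕ) (s : Finset ℕ) : (∀ p ∈ s, p.Prime) →
    ∑ n ∈ (Icc 1 N).filter (fun n => n.primeFactors = s), 1 / (n : ℝ) ≤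
      ∏ p ∈ s, 1 / ((p : ℝ) - 1) := by
  induction s using Finset.induction_on with
  | empty =>
    intro _
    rw [prod_empty]
    have h1 : (Icc 1 N).filter (fun n => n.primeFactors = ∅) ⊆ {1} := by
      intro n hn
      rw [mem_filter, mem_Icc, Nat.primeFactors_eq_empty] at hn
      rw [mem_singleton]
      omega
    calc ∑ n ∈ (Icc 1 N).filter (fun n => n.primeFactors = ∅), 1 / (n : ℝ)
        ≤ ∑ n ∈ ({1} : Finset ℕ), 1 / (n : ℝ) :=
          sum_le_sum_of_subset_of_nonneg h1 fun n _ _ => by positivity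
      _ = 1 := by rw [sum_singleton]; norm_num
  | insert p s hps ih =>
    intro hP
    have hp : p.Prime := hP p (mem_insert_self _ _)
    have ih' := ih fun p' hp' => hP p' (mem_insert_of_mem hp')
    rw [prod_insert hps]
    obtain ⟨φ, hφ⟩ : ∃ φ : ℕ → ℕ × ℕ, φ = fun n => (n.factorization p, n / p ^ n.factorization p) :=
      ⟨_, rfl⟩
    have key : ∀ n, n ≠ 0 → p ^ n.factorization p * (n / p ^ n.factorization p) = n := fun n _ =>
      Nat.ordProj_mul_ordCompl_eq_self n p
    have hmaps : ∀ n ∈ (Icc 1 N).filter (fun n => n.primeFactors = insert p s),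
        φ n ∈ Icc 1 N ×ˢ (Icc 1 N).filter (fun n => n.primeFactors = s) := by
      intro n hn
      rw [mem_filter, mem_Icc] at hn
      obtain ⟨⟨hn1, hnN⟩, hnp⟩ := hn
      have hn0 : n ≠ 0 := by omega
      have hdvd : p ∣ n := by
        have : p ∈ n.primeFactors := by rw [hnp]; exact mem_insert_self _ _
        exact Nat.dvd_of_mem_primeFactors this
      rw [hφ, mem_product, mem_Icc, mem_filter, mem_Icc]
      refine ⟨⟨?_, ?_⟩, ⟨?_, ?_⟩, ?_⟩
      · exact (hp.dvd_iff_one_le_factorization hn0).1 hdvd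
      · exact (Nat.factorization_lt p hn0).le.trans hnN
      · exact Nat.ordCompl_pos p hn0
      · exact (Nat.ordCompl_le n p).trans hnN
      · show (n / p ^ n.factorization p).primeFactors = s
        rw [← Nat.support_factorization, Nat.factorization_ordCompl, Finsupp.support_erase,
          Nat.support_factorization, hnp, erase_insert hps]
    have hinj : Set.InjOn φ ((Icc 1 N).filter (fun n => n.primeFactors = insert p s)) := by
      intro n hn m hm hnm
      rw [mem_coe, mem_filter, mem_Icc] at hn hm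
      rw [hφ] at hnm
      have e1 : n.factorization p = m.factorization p := congrArg Prod.fst hnm
      have e2 : n / p ^ n.factorization p = m / p ^ m.factorization p := congrArg Prod.snd hnm
      rw [← key n (by omega), ← key m (by omega), e2, e1]
    have hval : ∀ n ∈ (Icc 1 N).filter (fun n => n.primeFactors = insert p s),
        1 / (n : ℝ) = (1 / ((p ^ (φ n).1 : ℕ) : ℝ)) * (1 / ((φ n).2 : ℝ)) := by
      intro n hn
      rw [mem_filter, mem_Icc] at hn
      have hn0 : n ≠ 0 := by omega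
      rw [hφ]
      show 1 / (n : ℝ) = (1 / ((p ^ n.factorization p : ℕ) : ℝ)) *
        (1 / ((n / p ^ n.factorization p : ℕ) : ℝ))
      rw [div_mul_div_comm, ← Nat.cast_mul, key n hn0, one_mul]
    rw [sum_congr rfl hval]
    calc ∑ n ∈ (Icc 1 N).filter (fun n => n.primeFactors = insert p s),
          (1 / ((p ^ (φ n).1 : ℕ) : ℝ)) * (1 / ((φ n).2 : ℝ))
        = ∑ z ∈ ((Icc 1 N).filter (fun n => n.primeFactors = insert p s)).image φ,
          (1 / ((p ^ z.1 : ℕ) : ℝ)) * (1 / (z.2 : ℝ)) :=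
          (sum_image (f := fun z : ℕ × ℕ => (1 / ((p ^ z.1 : ℕ) : ℝ)) * (1 / (z.2 : ℝ)))
            hinj).symm
      _ ≤ ∑ z ∈ Icc 1 N ×ˢ (Icc 1 N).filter (fun n => n.primeFactors = s),
          (1 / ((p ^ z.1 : ℕ) : ℝ)) * (1 / (z.2 : ℝ)) := by
          refine sum_le_sum_of_subset_of_nonneg ?_ fun z _ _ => by positivity
          intro z hz
          rw [mem_image] at hz
          obtain ⟨n, hn, rfl⟩ := hz
          exact hmaps n hn
      _ = (∑ k ∈ Icc 1 N, 1 / ((p ^ k : ℕ) : ℝ)) *
          ∑ m ∈ (Icc 1 N).filter (fun n => n.primeFactors = s), 1 / (m : ℝ) := by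
          rw [sum_product, sum_mul_sum]
      _ ≤ _ := mul_le_mul (SVW_geo hp.two_le N) ih' (sum_nonneg fun m _ => by positivity)
          (by
            have : (2 : ℝ) ≤ p := by exact_mod_cast hp.two_le
            exact div_nonneg zero_le_one (by linarith))

/-- the odd numbers give half of the harmonic sum -/
theorem SVW_log (y : ℕ) (hy : 1 ≤ y) :
    Real.log y / 2 ≤ ∑ n ∈ (Icc 1 y).filter Odd, 1 / (n : ℝ) := by
  have h1 : Real.log y ≤ ∑ n ∈ Icc 1 y, 1 / (n : ℝ) := by
    have h2 := log_add_one_le_harmonic y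
    rw [harmonic_eq_sum_Icc] at h2
    push_cast at h2
    have h3 : Real.log y ≤ Real.log ((y : ℝ) + 1) := by
      refine Real.log_le_log ?_ (by linarith)
      exact_mod_cast hy
    refine h3.trans (h2.trans (le_of_eq ?_))
    exact sum_congr rfl fun n _ => (one_div _).symm
  have h4 : ∑ n ∈ (Icc 1 y).filter (fun n => ¬ Odd n), 1 / (n : ℝ) ≤
      ∑ n ∈ (Icc 1 y).filter Odd, 1 / (n : ℝ) := by
    calc ∑ n ∈ (Icc 1 y).filter (fun n => ¬ Odd n), 1 / (n : ℝ)
        ≤ ∑ n ∈ (Icc 1 y).filter (fun n => ¬ Odd n), 1 / ((n - 1 : ℕ) : ℝ) := by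
          refine sum_le_sum fun n hn => ?_
          rw [mem_filter, mem_Icc, Nat.not_odd_iff_even] at hn
          obtain ⟨⟨ha, hb⟩, k, hk⟩ := hn
          refine one_div_le_one_div_of_le ?_ ?_
          · have : 0 < n - 1 := by omega
            exact_mod_cast this
          · exact_mod_cast Nat.sub_le n 1
      _ = ∑ m ∈ ((Icc 1 y).filter (fun n => ¬ Odd n)).image (fun n : ℕ => (n - 1 : ℕ)), 1 / (m : ℝ) := by
          refine (sum_image (f := fun m : ℕ => 1 / (m : ℝ)) ?_).symm
          intro a ha b hb hab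
          rw [mem_coe, mem_filter, mem_Icc] at ha hb
          have hab' : a - 1 = b - 1 := hab
          omega
      _ ≤ _ := by
          refine sum_le_sum_of_subset_of_nonneg ?_ fun z _ _ => by positivity
          intro m hm
          rw [mem_image] at hm
          obtain ⟨n, hn, rfl⟩ := hm
          rw [mem_filter, mem_Icc, Nat.not_odd_iff_even] at hn
          obtain ⟨⟨ha, hb⟩, k, hk⟩ := hn
          rw [mem_filter, mem_Icc]
          refine ⟨⟨by omega, by omega⟩, ⟨k - 1, by omega⟩⟩
  have h5 := sum_filter_add_sum_filter_not (Icc 1 y) Odd fun n : ℕ => 1 / (n : ℝ)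
  linarith

/-- the lower bound for the Selberg sum -/
theorem SVW_GG (g : ℕ → ℝ) (hg : ∀ p : ℕ, p.Prime → 0 < g p ∧ g p < 1)
    (hg' : ∀ p : ℕ, p.Prime → p ≠ 2 → g p = 1 / p) (N : ℕ) :
    ∑ n ∈ (Icc 1 N).filter Odd, 1 / (n : ℝ) ≤
      ∑ d ∈ (Icc 1 N).filter Squarefree, ∏ p ∈ d.primeFactors, g p / (1 - g p) := by
  have hmaps : ∀ n ∈ (Icc 1 N).filter Odd,
      (∏ p ∈ n.primeFactors, p) ∈ (Icc 1 N).filter Squarefree := by
    intro n hn
    rw [mem_filter, mem_Icc] at hn
    have hd := Nat.prod_primeFactors_dvd n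
    rw [mem_filter, mem_Icc]
    refine ⟨⟨?_, (Nat.le_of_dvd (by omega) hd).trans hn.1.2⟩, ?_⟩
    · exact Nat.pos_of_dvd_of_pos hd (by omega)
    · rw [Nat.squarefree_iff_prime_squarefree]
      intro p hp hpp
      have h1 : (∏ p ∈ n.primeFactors, p).factorization p ≤ 1 := by
        rw [Nat.factorization_prod fun p' hp' => (Nat.prime_of_mem_primeFactors hp').ne_zero]
        rw [Finsupp.finsetSum_apply]
        calc ∑ p' ∈ n.primeFactors, p'.factorization p
            ≤ ∑ p' ∈ n.primeFactors, if p' = p then 1 else 0 := by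
              refine sum_le_sum fun p' hp' => ?_
              rw [(Nat.prime_of_mem_primeFactors hp').factorization, Finsupp.single_apply]
          _ ≤ 1 := by
              rw [sum_ite_eq']
              split_ifs <;> norm_num
      have h2 : 2 ≤ (∏ p ∈ n.primeFactors, p).factorization p := by
        have h3 : (∏ p ∈ n.primeFactors, p) ≠ 0 :=
          prod_ne_zero_iff.2 fun p' hp' => (Nat.prime_of_mem_primeFactors hp').ne_zero
        rw [← hp.pow_dvd_iff_le_factorization h3, pow_two]
        exact hpp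
      omega
  rw [← sum_fiberwise_of_maps_to hmaps]
  refine sum_le_sum fun d hd => ?_
  rw [mem_filter, mem_Icc] at hd
  have hpos : 0 ≤ ∏ p ∈ d.primeFactors, g p / (1 - g p) := prod_nonneg fun p hp => by
    have h1 := hg p (Nat.prime_of_mem_primeFactors hp)
    exact div_nonneg h1.1.le (by linarith [h1.2])
  by_cases h2 : 2 ∣ d
  · refine le_trans (le_of_eq ?_) hpos
    refine sum_eq_zero fun n hn => ?_
    exfalso
    rw [mem_filter, mem_filter] at hn
    have h3 : 2 ∣ n := by
      rw [← hn.2] at h2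
      exact h2.trans (Nat.prod_primeFactors_dvd n)
    have h4 := hn.1.2
    rw [← Nat.not_even_iff_odd] at h4
    exact h4 (even_iff_two_dvd.2 h3)
  · have h3 : ∏ p ∈ d.primeFactors, g p / (1 - g p) = ∏ p ∈ d.primeFactors, 1 / ((p : ℝ) - 1) := by
      refine prod_congr rfl fun p hp => ?_
      have hpp := Nat.prime_of_mem_primeFactors hp
      have hp2 : p ≠ 2 := by
        rintro rfl
        exact h2 (Nat.dvd_of_mem_primeFactors hp)
      rw [hg' p hpp hp2]
      have h4 : (2 : ℝ) ≤ p := by exact_mod_cast hpp.two_le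
      have h5 : (p : ℝ) ≠ 0 := by positivity
      have h6 : (p : ℝ) - 1 ≠ 0 := by linarith
      field_simp
    rw [h3]
    refine le_trans ?_ (SVW_fib N d.primeFactors fun p hp => Nat.prime_of_mem_primeFactors hp)
    refine sum_le_sum_of_subset_of_nonneg ?_ fun z _ _ => by positivity
    intro n hn
    rw [mem_filter, mem_filter] at hn
    rw [mem_filter]
    refine ⟨hn.1.1, ?_⟩
    rw [← hn.2, Nat.primeFactors_prod fun p hp => Nat.prime_of_mem_primeFactors hp]

theorem SVW_two_dvd (d e : ℕ) : 2 ∣ d.lcm e ↔ 2 ∣ d ∨ 2 ∣ e := by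
  constructor
  · intro h
    exact Nat.prime_two.dvd_or_dvd (h.trans (Nat.lcm_dvd_mul d e))
  · rintro (h | h)
    · exact h.trans (Nat.dvd_lcm_left d e)
    · exact h.trans (Nat.dvd_lcm_right d e)

/-- `pr g` for odd squarefree numbers -/
theorem SVW_pr (g : ℕ → ℝ) (hg' : ∀ p : ℕ, p.Prime → p ≠ 2 → g p = 1 / p) (d e : ℕ)
    (hd : Squarefree d) (he : Squarefree e) (hdo : Odd d) (heo : Odd e) :
    pr g (d.lcm e) = 1 / (d.lcm e : ℝ) := by
  have hd0 : d ≠ 0 := hd.ne_zero
  have he0 : e ≠ 0 := he.ne_zero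
  have hsq : Squarefree (d.lcm e) := by
    rw [Nat.squarefree_iff_factorization_le_one (Nat.lcm_ne_zero hd0 he0)]
    intro p
    rw [Nat.factorization_lcm hd0 he0, Finsupp.sup_apply]
    exact max_le ((Nat.squarefree_iff_factorization_le_one hd0).1 hd p)
      ((Nat.squarefree_iff_factorization_le_one he0).1 he p)
  unfold pr
  have h1 : ∏ p ∈ (d.lcm e).primeFactors, g p = ∏ p ∈ (d.lcm e).primeFactors, (1 / (p : ℝ)) := by
    refine prod_congr rfl fun p hp => ?_
    refine hg' p (Nat.prime_of_mem_primeFactors hp) ?_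
    rintro rfl
    rcases (SVW_two_dvd d e).1 (Nat.dvd_of_mem_primeFactors hp) with hp | hp
    · rw [← Nat.not_even_iff_odd] at hdo
      exact hdo (even_iff_two_dvd.2 hp)
    · rw [← Nat.not_even_iff_odd] at heo
      exact heo (even_iff_two_dvd.2 hp)
  rw [h1, prod_div_distrib, prod_const_one, ← Nat.cast_prod,
    Nat.prod_primeFactors_of_squarefree hsq]

theorem thm_SVW : St_SVW := by
  refine ⟨3, fun y hy => ?_⟩
  have hyr : (2 : ℝ) ≤ y := by exact_mod_cast hy
  have hy0 : (0 : ℝ) < y := by linarith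
  have hy4 : (0 : ℝ) < 1 / (y : ℝ) ^ 4 := by positivity
  have hy41 : 1 / (y : ℝ) ^ 4 < 1 := by
    rw [div_lt_one (by positivity)]
    exact one_lt_pow₀ (by linarith) (by norm_num)
  obtain ⟨g, hgd⟩ : ∃ g : ℕ → ℝ, g = fun p : ℕ => if p = 2 then 1 / (y : ℝ) ^ 4 else 1 / (p : ℝ) := ⟨_, rfl⟩
  have hg2 : g 2 = 1 / (y : ℝ) ^ 4 := by rw [hgd]; exact if_pos rfl
  have hg' : ∀ p : ℕ, p.Prime → p ≠ 2 → g p = 1 / p := fun p _ hp => by
    rw [hgd]
    exact if_neg hp
  have hg : ∀ p : ℕ, p.Prime → 0 < g p ∧ g p < 1 := by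
    intro p hp
    by_cases h2 : p = 2
    · rw [h2, hg2]
      exact ⟨hy4, hy41⟩
    · rw [hg' p hp h2]
      have h3 : (1 : ℝ) < p := by exact_mod_cast hp.one_lt
      exact ⟨by positivity, (div_lt_one (by linarith)).2 h3⟩
  obtain ⟨θ, h1, hsupp, habs, hform, -⟩ := Pool.Agent.MVX.thm_Sel g hg y (by linarith)
  rw [Nat.floor_natCast] at hform
  have hGG : Real.log y / 2 ≤ GG g y := by
    unfold GG
    rw [Nat.floor_natCast]
    exact (SVW_log y (by omega)).trans (SVW_GG g hg hg' y)
  have hlog : 0 < Real.log y := Real.log_pos (by linarith)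
  classical
  refine ⟨fun d => if Odd d then θ d else 0, ?_, ?_, ?_, ?_⟩
  · show (if Odd 1 then θ 1 else 0) = 1
    rw [if_pos odd_one, h1]
  · intro d hd
    have hd' : (if Odd d then θ d else 0) ≠ 0 := hd
    by_cases ho : Odd d
    · rw [if_pos ho] at hd'
      obtain ⟨a, b, -⟩ := hsupp d hd'
      exact ⟨a, by exact_mod_cast b, ho⟩
    · rw [if_neg ho] at hd'
      exact absurd rfl hd'
  · intro d
    show |if Odd d then θ d else 0| ≤ 1
    split_ifs
    · exact habs d
    · rw [abs_zero]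
      exact zero_le_one
  · have hterm : ∀ d ∈ Icc 1 y, ∀ e ∈ Icc 1 y, (if Odd d then θ d else 0) *
        (if Odd e then θ e else 0) / (d.lcm e : ℝ) ≤
          θ d * θ e * pr g (d.lcm e) + 1 / (y : ℝ) ^ 4 := by
      intro d hd e he
      rw [mem_Icc] at hd he
      by_cases ho : Odd d ∧ Odd e
      · rw [if_pos ho.1, if_pos ho.2]
        by_cases hz : θ d = 0 ∨ θ e = 0
        · have h3 : θ d * θ e = 0 := mul_eq_zero.2 hz
          rw [h3, zero_div, zero_mul, zero_add]
          exact hy4.le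
        · push Not at hz
          rw [SVW_pr g hg' d e (hsupp d hz.1).2.2 (hsupp e hz.2).2.2 ho.1 ho.2, mul_one_div]
          linarith
      · have h3 : (if Odd d then θ d else 0) * (if Odd e then θ e else 0) = 0 := by
          rw [mul_eq_zero]
          by_contra hcon
          push Not at hcon
          apply ho
          constructor
          · by_contra h4
            exact hcon.1 (if_neg h4)
          · by_contra h4
            exact hcon.2 (if_neg h4)
        rw [h3, zero_div]
        have h4 : 0 ≤ pr g (d.lcm e) := prod_nonneg fun p hp =>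
          (hg p (Nat.prime_of_mem_primeFactors hp)).1.le
        have h5 : pr g (d.lcm e) ≤ 1 / (y : ℝ) ^ 4 := by
          have h2 : 2 ∈ (d.lcm e).primeFactors := by
            rw [Nat.mem_primeFactors]
            refine ⟨Nat.prime_two, (SVW_two_dvd d e).2 ?_, Nat.lcm_ne_zero (by omega) (by omega)⟩
            by_cases hde : Even d
            · exact Or.inl (even_iff_two_dvd.1 hde)
            · refine Or.inr (even_iff_two_dvd.1 ?_)
              by_contra hee
              exact ho ⟨Nat.not_even_iff_odd.1 hde, Nat.not_even_iff_odd.1 hee⟩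
          unfold pr
          rw [← mul_prod_erase _ _ h2, hg2]
          refine mul_le_of_le_one_right hy4.le (prod_le_one (fun p hp => ?_) fun p hp => ?_)
          · exact (hg p (Nat.prime_of_mem_primeFactors (mem_of_mem_erase hp))).1.le
          · exact (hg p (Nat.prime_of_mem_primeFactors (mem_of_mem_erase hp))).2.le
        have h6 : |θ d * θ e| ≤ 1 := by
          rw [abs_mul]
          exact mul_le_one₀ (habs d) (abs_nonneg _) (habs e)
        have h7 : -1 ≤ θ d * θ e := (abs_le.1 h6).1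
        nlinarith
    have hsum : ∑ d ∈ Icc 1 y, ∑ e ∈ Icc 1 y, (if Odd d then θ d else 0) *
        (if Odd e then θ e else 0) / (d.lcm e : ℝ) ≤
        ∑ d ∈ Icc 1 y, ∑ e ∈ Icc 1 y, θ d * θ e * pr g (d.lcm e) + (y : ℝ) * (y * (1 / (y : ℝ) ^ 4)) := by
      calc _ ≤ ∑ d ∈ Icc 1 y, ∑ e ∈ Icc 1 y, (θ d * θ e * pr g (d.lcm e) + 1 / (y : ℝ) ^ 4) :=
            sum_le_sum fun d hd => sum_le_sum fun e he => hterm d hd e he
        _ = _ := by
            simp only [sum_add_distrib, sum_const, Nat.card_Icc, nsmul_eq_mul, Nat.add_sub_cancel]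
    refine hsum.trans ?_
    have h3 : 1 / GG g y ≤ 2 / Real.log y := by
      have h4 : 0 < Real.log y / 2 := by linarith
      calc 1 / GG g y ≤ 1 / (Real.log y / 2) := one_div_le_one_div_of_le h4 hGG
        _ = 2 / Real.log y := by rw [one_div_div]
    have h4 : (y : ℝ) * (y * (1 / (y : ℝ) ^ 4)) ≤ 1 / Real.log y := by
      have h5 : (y : ℝ) * (y * (1 / (y : ℝ) ^ 4)) = 1 / (y : ℝ) ^ 2 := by
        field_simp
      rw [h5]
      refine one_div_le_one_div_of_le hlog ?_
      have h6 := Real.log_le_sub_one_of_pos hy0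
      nlinarith
    have h5 : (3 : ℝ) / Real.log y = 2 / Real.log y + 1 / Real.log y := by
      rw [← add_div]
      norm_num
    rw [h5]
    exact add_le_add (hform.trans h3) h4

end Pool.Agent.SLD
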