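import Pool.Agent.SLD.ALE
import Pool.Agent.SLD.ALN
import Pool.Agent.SLD.BAD
import Pool.Agent.SLD.BL1
import Pool.Agent.SLD.BLK
import Pool.Agent.SLD.CHG
import Pool.Agent.SLD.CMG
import Pool.Agent.SLD.CMP
import Pool.Agent.SLD.CNT
import Pool.Agent.SLD.COL
import Pool.Agent.SLD.D3S
import Pool.Agent.SLD.DE3
import Pool.Agent.SLD.DEQ
import Pool.Agent.SLD.DIS
import Pool.Agent.SLD.DQA
import Pool.Agent.SLD.DQB
import Pool.Agent.SLD.FIE
import Pool.Agent.SLD.FWD
import Pool.Agent.SLD.FWE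
import Pool.Agent.SLD.HE1
import Pool.Agent.SLD.HEF
import Pool.Agent.SLD.HO2
import Pool.Agent.SLD.MIX
import Pool.Agent.SLD.ODE
import Pool.Agent.SLD.ORD
import Pool.Agent.SLD.PLN
import Pool.Agent.SLD.STG
import Pool.Agent.SLD.STP
import Pool.Agent.SLD.STQ
import Pool.Agent.SLD.TAL
import Pool.Agent.SLD.TEL
import Pool.Agent.SLD.TWE
import Pool.Agent.SLD.WRD
import Pool.Agent.SLD.HO1
import Pool.Agent.SLD.HOF
import Pool.Agent.SLD.ODD
import Pool.Agent.SLD.TWO
import Pool.Agent.SLD.FIN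
import Pool.Agent.SLD.LIN
import Pool.Agent.SLD.LIE
import Pool.Agent.SLD.SVW
import Pool.Agent.SLD.SVE
import Pool.Agent.SLD.SVP

/-! SLD: all statements, without hypotheses. -/

set_option autoImplicit false

namespace Pool.Agent.SLD

theorem all_WRD : St_WRD := thm_WRD
theorem all_BAD : St_BAD := thm_BAD thm_WRD
theorem all_CMP : St_CMP := thm_CMP thm_WRD
theorem all_CMG : St_CMG := thm_CMG all_CMP
theorem all_BL1 : St_BL1 := thm_BL1 thm_CHG thm_DIS thm_WRD
theorem all_BLK : St_BLK := thm_BLK thm_WRD all_BAD all_CMP all_BL1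
theorem all_D3S : St_D3S := thm_D3S all_BLK all_CMG thm_TAL
theorem all_DE3 : St_DE3 := thm_DE3 all_D3S thm_ORD all_CMP
theorem all_DQA : St_DQA := thm_DQA all_BLK all_CMG thm_TAL
theorem all_DQB : St_DQB := thm_DQB thm_WRD all_CMP all_CMG
theorem all_DEQ : St_DEQ := thm_DEQ all_DQA all_DQB thm_ORD all_CMP
theorem all_COL : St_COL := thm_COL thm_WRD all_CMP
theorem all_STG : St_STG := thm_STG thm_PLN all_COL thm_WRD all_CMP all_BAD
theorem all_STP : St_STP := thm_STP all_STG all_DE3 thm_ORD thm_TAL thm_WRD all_CMP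
theorem all_STQ : St_STQ := thm_STQ all_STG all_DEQ thm_ORD thm_TAL thm_WRD all_CMP
theorem all_MIX : St_MIX := thm_MIX thm_TEL all_STP all_STQ
theorem all_HO2 : St_HO2 := thm_HO2 thm_WRD
theorem all_HE1 : St_HE1 := thm_HE1 thm_FWE thm_FWD thm_CNT thm_WRD thm_TAL
theorem all_HEF : St_HEF := thm_HEF all_HE1 all_HO2
theorem all_ODE : St_ODE := thm_ODE all_HEF all_MIX
theorem all_ALE : St_ALE := thm_ALE all_ODE
theorem all_TWE : St_TWE := thm_TWE thm_FWE
theorem all_FIE : St_FIE := thm_FIE all_TWE all_ALE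
theorem all_HO1 : St_HO1 := thm_HO1 thm_FWD thm_CNT thm_WRD thm_TAL
theorem all_HOF : St_HOF := thm_HOF all_HO1 all_HO2
theorem all_ODD : St_ODD := thm_ODD all_HOF all_MIX
theorem all_ALN : St_ALN := thm_ALN all_ODD
theorem all_FIN : St_FIN := thm_FIN thm_TWO all_ALN
theorem all_LIN : St_LIN := thm_LIN thm_TWO all_ALN
theorem all_LIE : St_LIE := thm_LIE all_TWE all_ALE
theorem all_SVP : St_SVP := thm_SVP all_ALE thm_SVW thm_SVE

end Pool.Agent.SLD
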