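import Mathlib
import Pool.Agent.Collatz3.Defs

/-!
SLD: strong level of distribution of 3x+1-invariant sets (helper30).  The paper proof is
`HUNT_071_SLD_helper30.md` in the team store.  Definitions.
-/

set_option autoImplicit false

namespace Pool.Agent.SLD

open Finset
open Pool.Agent.Collatz3 (cw)

/-- the words (lists) with `k` letters, all at least 1, and sum `s` -/
def W : ℕ → ℕ → Finset (List ℕ)
  | 0, s => if s = 0 then {[]} else ∅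
  | k + 1, s => (Icc 1 s).biUnion fun i => (W k (s - i)).image (List.cons i)

/-- the probability of the sum `s` for `k` independent letters of weights `2 ^ (-i)` -/
noncomputable def p (k s : ℕ) : ℝ := (#(W k s) : ℝ) / 2 ^ s

/-- one half in `ZMod Q` (`Q` odd) -/
def hf (Q : ℕ) : ZMod Q := (((Q + 1) / 2 : ℕ) : ZMod Q)

/-- `X_w = c_w / 2 ^ {S_w}` in `ZMod Q` -/
def X (Q : ℕ) (w : List ℕ) : ZMod Q := (cw w : ZMod Q) * hf Q ^ w.sum

/-- `F_k(h; s)`: the Fourier coefficient at `h` of the law of `X_w`, `w` with `k` letters and sum `s` -/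
noncomputable def F (Q : ℕ) [NeZero Q] (k s : ℕ) (h : ZMod Q) : ℂ :=
  (∑ w ∈ W k s, ZMod.stdAddChar (h * X Q w)) / 2 ^ s

/-- `G_k(h) ≤ b` -/
def GB (Q : ℕ) [NeZero Q] (k : ℕ) (b : ℝ) (h : ZMod Q) : Prop :=
  ∀ S : ℕ, ∑ s ∈ range S, ‖F Q k s h‖ ≤ b

/-- the weight of the words with `k` letters and sum `s` with `2 ^ s x = c_w` modulo `Q` -/
noncomputable def P (Q k s : ℕ) (x : ℤ) : ℝ :=
  (#{w ∈ W k s | (Q : ℤ) ∣ 2 ^ s * x - (cw w : ℤ)} : ℝ) / 2 ^ s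

/-- the oscillation between the moduli `Q` and `Q' ∣ Q`, words with `k` letters and sums below `S` -/
noncomputable def Osc (Q Q' k S : ℕ) : ℝ :=
  ∑ s ∈ range S, ∑ x ∈ range Q, |P Q k s x - (Q' : ℝ) / Q * P Q' k s x|

/-- the `3x+1` function -/
def T (n : ℤ) : ℤ := if 2 ∣ n then n / 2 else (3 * n + 1) / 2

/-- invariant sets -/
def Inv (A : Set ℤ) : Prop := ∀ n, n ∈ A ↔ T n ∈ A

/-- the number of odd `n ∈ A` of sign `σ` with `|n| ≤ X`, `n = b` modulo `Q` -/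
noncomputable def E (σ : ℤ) (A : Set ℤ) (X Q : ℕ) (b : ℤ) : ℕ :=
  Set.ncard {n : ℤ | Odd n ∧ 1 ≤ σ * n ∧ σ * n ≤ X ∧ (Q : ℤ) ∣ n - b ∧ n ∈ A}

/-- the number of `n ∈ A` of sign `σ` with `|n| ≤ X`, `n = r` modulo `q` -/
noncomputable def N (σ : ℤ) (A : Set ℤ) (X q : ℕ) (r : ℤ) : ℕ :=
  Set.ncard {n : ℤ | 1 ≤ σ * n ∧ σ * n ≤ X ∧ (q : ℤ) ∣ n - r ∧ n ∈ A}

open Classical in
/-- the main term of the hand-off with `k` letters -/
noncomputable def M (σ : ℤ) (A : Set ℤ) (X k : ℕ) : ℝ :=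
  ∑ s ∈ range (21 * k / 10 + 1), 2 ^ s * (3 ^ (k / 4) / 3 ^ k) *
    ∑ m ∈ (Icc 1 (3 ^ k * X / 2 ^ s)).filter (fun m => Odd m ∧ σ * (m : ℤ) ∈ A),
      P (3 ^ (k / 4)) k s (σ * (m : ℤ))

/-- the number of `m ∈ A` which are end points of the word `w` (up to the boundary) -/
noncomputable def Cn (σ : ℤ) (A : Set ℤ) (X Q : ℕ) (b : ℤ) (w : List ℕ) : ℕ :=
  Set.ncard {m : ℤ | Odd m ∧ 1 ≤ σ * m ∧ σ * m * 2 ^ w.sum ≤ 3 ^ w.length * X ∧
    (3 : ℤ) ^ w.length * Q ∣ 2 ^ w.sum * m - (cw w : ℤ) - 3 ^ w.length * b ∧ m ∈ A}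

/-- the number of letters of the hand-off -/
def kk (X : ℕ) : ℕ := 5 * Nat.log 2 X / 11

end Pool.Agent.SLD
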