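import Pool.Agent.SLD.StA

/-!
SLD, block FIN: all moduli, density form.
-/

set_option autoImplicit false

namespace Pool.Agent.SLD

open Finset Filter Topology
open Pool.Agent.Collatz3 (cw)

/-- [FIN] -/
theorem thm_FIN (hT : St_TWO) (hA : St_ALN) : St_FIN := by
  obtain ⟨δ₁, hδ₁, C₁, hC⟩ := hA 1
  set δ : ℝ := min (δ₁ / 4) (1 / 4) with hδ
  have hδ0 : 0 < δ := lt_min (by positivity) (by norm_num)
  refine ⟨δ, hδ0, ?_⟩
  intro σ A d hσ hI hlim ε hε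
  rw [Metric.tendsto_atTop] at hlim
  obtain ⟨Y₀, hY₀⟩ := hlim (ε / 8) (by positivity)
  set R₀ : ℝ := 16 + Y₀ + Real.exp (8 * |C₁| / ε) + |d| / ε with hR₀
  have hexp : 0 < Real.exp (8 * |C₁| / ε) := Real.exp_pos _
  have hdε : 0 ≤ |d| / ε := by positivity
  have hY : (0 : ℝ) ≤ Y₀ := Nat.cast_nonneg _
  refine ⟨⌈R₀ ^ 2⌉₊, ?_⟩
  intro X q r hX hq hqX
  -- the root of X
  set R : ℝ := Real.sqrt X with hR
  have hX1 : R₀ ^ 2 ≤ (X : ℝ) := (Nat.le_ceil _).trans (by exact_mod_cast hX)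
  have hRR₀ : R₀ ≤ R := Real.le_sqrt_of_sq_le hX1
  have hR16 : 16 ≤ R := by linarith
  have hRX : R ^ 2 = X := Real.sq_sqrt (Nat.cast_nonneg _)
  have hR0 : 0 < R := by linarith
  have hX0 : (0 : ℝ) < X := by rw [← hRX]; positivity
  have hq1 : (1 : ℝ) ≤ q := by exact_mod_cast hq
  have hq0 : (0 : ℝ) < q := by linarith
  have hXR : ∀ e : ℝ, (X : ℝ) ^ e = R ^ (2 * e) := fun e => by
    rw [← hRX, ← Real.rpow_natCast R 2, ← Real.rpow_mul hR0.le]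
    norm_num
  have hqR : (q : ℝ) ^ 2 ≤ R := by
    have h1 : (q : ℝ) ≤ R ^ ((1 : ℝ) / 2) := by
      refine hqX.trans ?_
      rw [hXR]
      refine Real.rpow_le_rpow_of_exponent_le (by linarith) ?_
      linarith [min_le_right (δ₁ / 4) (1 / 4 : ℝ)]
    calc (q : ℝ) ^ 2 ≤ (R ^ ((1 : ℝ) / 2)) ^ 2 := pow_le_pow_left₀ hq0.le h1 2
      _ = R := by
        rw [← Real.rpow_natCast (R ^ ((1 : ℝ) / 2)) 2, ← Real.rpow_mul hR0.le]
        norm_num
  have hqR4 : 4 * (q : ℝ) ≤ R := by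
    by_cases h : (q : ℝ) ≤ 4
    · linarith
    · nlinarith
  have hqR1 : (q : ℝ) ^ 2 ≤ R ^ δ₁ := by
    have h1 : (q : ℝ) ≤ R ^ (δ₁ / 2) := by
      refine hqX.trans ?_
      rw [hXR]
      refine Real.rpow_le_rpow_of_exponent_le (by linarith) ?_
      linarith [min_le_left (δ₁ / 4) (1 / 4 : ℝ)]
    calc (q : ℝ) ^ 2 ≤ (R ^ (δ₁ / 2)) ^ 2 := pow_le_pow_left₀ hq0.le h1 2
      _ = R ^ δ₁ := by
        rw [← Real.rpow_natCast (R ^ (δ₁ / 2)) 2, ← Real.rpow_mul hR0.le]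
        norm_num
  -- the odd part
  obtain ⟨i, q₁, hq₁, hqi⟩ := Nat.exists_eq_two_pow_mul_odd (n := q) (by omega)
  have hq₁1 : 1 ≤ q₁ := hq₁.pos
  have hq₁0 : (0 : ℝ) < q₁ := by exact_mod_cast hq₁1
  have hqi' : (q : ℝ) = 2 ^ i * q₁ := by rw [hqi]; push_cast; ring
  have h2i : (2 : ℝ) ^ i ≤ q := by
    rw [hqi']
    have : (1 : ℝ) ≤ q₁ := by exact_mod_cast hq₁1
    nlinarith [pow_pos (two_pos : (0 : ℝ) < 2) i]
  have h2i0 : (0 : ℝ) < 2 ^ i := by positivity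
  obtain ⟨a, X', b, hai, hN, hX'⟩ := hT σ r A X i q₁ hσ hI hq₁
  have h3a1 : (1 : ℝ) ≤ 3 ^ a := one_le_pow₀ (by norm_num)
  have h3a0 : (0 : ℝ) < 3 ^ a := by positivity
  -- the modulus
  have hQ : ((3 ^ a * q₁ : ℕ) : ℝ) ≤ (q : ℝ) ^ 2 := by
    have h1 : (3 : ℝ) ^ a ≤ (2 ^ i) ^ 2 := by
      calc (3 : ℝ) ^ a ≤ 3 ^ i := pow_le_pow_right₀ (by norm_num) hai
        _ ≤ 4 ^ i := pow_le_pow_left₀ (by norm_num) (by norm_num) i
        _ = (2 ^ i) ^ 2 := by rw [← pow_mul, mul_comm, pow_mul]; norm_num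
    have h2 : (q₁ : ℝ) ≤ q₁ ^ 2 := by
      have : (1 : ℝ) ≤ q₁ := by exact_mod_cast hq₁1
      nlinarith
    rw [hqi', mul_pow]
    push_cast
    exact mul_le_mul h1 h2 hq₁0.le (by positivity)
  -- the new range
  have hXi : 4 * R ≤ X / 2 ^ i := by
    rw [le_div_iff₀ h2i0, ← hRX]
    nlinarith
  have hX'R : R ≤ X' := by
    have h1 := (abs_le.1 hX').1
    have h2 : (3 : ℝ) ^ a * X / 2 ^ i = 3 ^ a * (X / 2 ^ i) := by ring
    have h3 : (3 : ℝ) ^ a * (4 * R) ≤ 3 ^ a * (X / 2 ^ i) := mul_le_mul_of_nonneg_left hXi h3a0.le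
    nlinarith
  have hX'0 : (0 : ℝ) < X' := by linarith
  have hX'2 : 2 ≤ X' := by
    have : (2 : ℝ) ≤ X' := by linarith
    exact_mod_cast this
  have hQodd : Odd (3 ^ a * q₁) := (Odd.pow (by decide)).mul hq₁
  have hQX' : ((3 ^ a * q₁ : ℕ) : ℝ) ≤ (X' : ℝ) ^ δ₁ :=
    hQ.trans (hqR1.trans (Real.rpow_le_rpow hR0.le hX'R hδ₁.le))
  have hQ0 : (0 : ℝ) < ((3 ^ a * q₁ : ℕ) : ℝ) := by positivity
  have e1 := hC σ b A X' (3 ^ a * q₁) hσ hI hX'2 hQodd hQX'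
  rw [← hN] at e1
  -- the density
  have hX'Y : Y₀ ≤ X' := by
    have : (Y₀ : ℝ) ≤ X' := by linarith
    exact_mod_cast this
  have e2 := hY₀ X' hX'Y
  rw [Real.dist_eq] at e2
  -- the logarithm
  have hlog : 8 * |C₁| / ε ≤ Real.log X' := by
    rw [← Real.log_exp (8 * |C₁| / ε)]
    exact Real.log_le_log hexp (by linarith)
  have hlog0 : 0 < Real.log X' := Real.log_pos (by linarith)
  set Y : ℝ := (X' : ℝ) / ((3 ^ a * q₁ : ℕ) : ℝ) with hYdef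
  have hYpos : 0 < Y := by positivity
  have e3 : C₁ * X' / (((3 ^ a * q₁ : ℕ) : ℝ) * Real.log X' ^ 1) ≤ ε / 8 * Y := by
    have h1 : C₁ * X' / (((3 ^ a * q₁ : ℕ) : ℝ) * Real.log X' ^ 1) = C₁ / Real.log X' * Y := by
      rw [hYdef, pow_one]
      field_simp
    rw [h1]
    refine mul_le_mul_of_nonneg_right ?_ hYpos.le
    rw [div_le_iff₀ hlog0]
    rw [div_le_iff₀ hε] at hlog
    linarith [le_abs_self C₁]
  have e4 : |(N σ A X' 1 0 : ℝ) / ((3 ^ a * q₁ : ℕ) : ℝ) - d * Y| ≤ ε / 8 * Y := by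
    have h1 : (N σ A X' 1 0 : ℝ) / ((3 ^ a * q₁ : ℕ) : ℝ) - d * Y =
        ((N σ A X' 1 0 : ℝ) / X' - d) * Y := by
      rw [hYdef]
      field_simp
    rw [h1, abs_mul, abs_of_pos hYpos]
    exact mul_le_mul_of_nonneg_right e2.le hYpos.le
  have e5 : |Y - X / q| ≤ 2 * 2 ^ i / q := by
    have h1 : Y - X / q = ((X' : ℝ) - 3 ^ a * X / 2 ^ i) / ((3 ^ a * q₁ : ℕ) : ℝ) := by
      rw [hYdef, hqi']
      push_cast
      field_simp
    rw [h1, abs_div, abs_of_pos hQ0, div_le_iff₀ hQ0]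
    refine hX'.trans (le_of_eq ?_)
    rw [hqi']
    push_cast
    field_simp
  have e6 : 2 * 2 ^ i / (q : ℝ) ≤ (R / 2) / q := div_le_div_of_nonneg_right (by linarith) hq0.le
  have e7 : Y ≤ 2 * (X / q) := by
    have h1 := (abs_le.1 (e5.trans e6)).2
    have h2 : (R / 2) / (q : ℝ) ≤ X / q := by
      refine div_le_div_of_nonneg_right ?_ hq0.le
      rw [← hRX]
      nlinarith
    linarith
  have e8 : |d| * (2 * 2 ^ i / (q : ℝ)) ≤ ε / 2 * (X / q) := by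
    have h1 : |d| ≤ ε * R := by
      have : |d| / ε ≤ R := by linarith
      rw [div_le_iff₀ hε] at this
      linarith
    calc |d| * (2 * 2 ^ i / (q : ℝ)) ≤ |d| * ((R / 2) / q) :=
          mul_le_mul_of_nonneg_left e6 (abs_nonneg _)
      _ ≤ (ε * R) * ((R / 2) / q) := mul_le_mul_of_nonneg_right h1 (by positivity)
      _ = ε / 2 * (X / q) := by rw [← hRX]; ring
  have e9 : |(N σ A X q r : ℝ) - d * (X / q)| ≤ ε * (X / q) := by
    have hNq : (N σ A X q r : ℝ) = (N σ A X (2 ^ i * q₁) r : ℝ) := by rw [hqi]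
    have h1 : |d * Y - d * (X / q)| ≤ ε / 2 * (X / q) := by
      rw [← mul_sub, abs_mul]
      exact (mul_le_mul_of_nonneg_left e5 (abs_nonneg _)).trans e8
    have h2 := e1.trans e3
    rw [← hNq] at h2
    have h3 : |(N σ A X q r : ℝ) - d * (X / q)| ≤ ε / 8 * Y + ε / 8 * Y + ε / 2 * (X / q) := by
      have a1 := abs_le.1 h1
      have a2 := abs_le.1 h2
      have a3 := abs_le.1 e4
      rw [abs_le]
      constructor
      · linarith [a1.1, a2.1, a3.1]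
      · linarith [a1.2, a2.2, a3.2]
    have h4 : ε / 8 * Y ≤ ε / 8 * (2 * (X / q)) := mul_le_mul_of_nonneg_left e7 (by positivity)
    linarith
  have f1 : d * (X : ℝ) / q = d * (X / q) := by ring
  have f2 : ε * (X : ℝ) / q = ε * (X / q) := by ring
  rw [f1, f2]
  exact e9

end Pool.Agent.SLD
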