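import Pool.Agent.SLD.Defs

/-!
SLD, statements (helper30), with proofs in the docstrings.  The paper proof is
`HUNT_071_SLD_helper30.md` in the team store (referee: helper86).  `ψ = ZMod.stdAddChar`.
-/

set_option autoImplicit false
set_option linter.unusedVariables false

namespace Pool.Agent.SLD

open Finset Filter Topology
open Pool.Agent.Collatz3 (cw)

/-! ### Words -/

/-- [WRD] PROOF.  Inductions on `k` (`j`).  (b) `∑_{s < S} p (k + 1) s ≤ ∑_{i ≥ 1} 2 ^ {-i} ∑_{s < S} p k s`.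
(c) cut the word after `j` letters; (d) is (c) for `f = 1`. -/
def St_WRD : Prop :=
  (∀ (k s : ℕ) (w : List ℕ), w ∈ W k s ↔ w.length = k ∧ (∀ i ∈ w, 1 ≤ i) ∧ w.sum = s) ∧
  (∀ k S : ℕ, ∑ s ∈ range S, p k s ≤ 1) ∧
  (∀ (j k s : ℕ) (f : List ℕ → ℂ), ∑ w ∈ W (j + k) s, f w =
    ∑ t ∈ range (s + 1), ∑ u ∈ W j t, ∑ v ∈ W k (s - t), f (u ++ v)) ∧
  (∀ j k s : ℕ, p (j + k) s = ∑ t ∈ range (s + 1), p j t * p k (s - t))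

/-- [TAL] tails.
PROOF.  For `0 < z < 2`: `∑_{s < S} p k s z ^ s ≤ (∑_{i ≥ 1} (z / 2) ^ i) ^ k = (z / (2 - z)) ^ k` (induction).  Lower tail: `z = 19 / 20`:
`z ^ s ≥ z ^ (19 k / 10)`, `(19/20) ^ (-1.9) * (19 / 21) < .998`.  Upper tail: `τ(k, S) = 1 - ∑_{s ≤ S} p k s` (for `S : ℤ`, `τ(k, S) = 1` for `S < 0`)
satisfies `τ(k + 1, S) = ∑_i 2 ^ {-i} τ(k, S - i)`, so `τ(k, S) ≤ z ^ {-S} (z / (2 - z)) ^ k` for `1 ≤ z < 2`; `z = 21 / 20`: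
`(21/20) ^ (-2.1) * (21 / 19) < .998`.  (You may also use `p k s = choose (s - 1) (k - 1) / 2 ^ s`, or that the sum of all `p k s` is 1.)
Last part: the same with `z = 3 / 2`: `3 ^ j (2 / 3) ^ (10 J) ≤ (1 / 2) ^ J`. -/
def St_TAL : Prop :=
  (∃ ρ : ℝ, 0 < ρ ∧ ρ < 1 ∧ ∀ k : ℕ,
    ∑ s ∈ range ((19 * k + 9) / 10), p k s ≤ ρ ^ k ∧
    1 - ρ ^ k ≤ ∑ s ∈ range (21 * k / 10 + 1), p k s ∧
    ∀ S : ℕ, ∑ s ∈ Ico (21 * k / 10 + 1) S, p k s ≤ ρ ^ k) ∧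
  ∀ j J S : ℕ, j ≤ J → ∑ t ∈ Ico (10 * J + 1) S, p j t ≤ (1 / 2) ^ J

/-- [BAD] PROOF.  `m_k = sup_S ∑_{s < S} ∑_{w ∈ W k s} cw w / 4 ^ s ≤ k / 3`: `cw (i :: w) = 3 cw w + 2 ^ {w.sum}`, `4 ^ {-(i + s)} (3 cw w + 2 ^ s)
= 4 ^ {-i} (3 cw w / 4 ^ s + 2 ^ {-s})`, `∑ 4 ^ {-i} = 1 / 3`.  Then Markov. -/
def St_BAD : Prop :=
  ∀ k K S : ℕ, 1 ≤ K →
    ∑ s ∈ range S, (#{w ∈ W k s | K * 2 ^ s ≤ cw w} : ℝ) / 2 ^ s ≤ (k : ℝ) / K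

/-- [CMP] composition.
PROOF.  (a) `cw (u ++ v) = 3 ^ {u.length} cw v + 2 ^ {v.sum} cw u` and `2 * hf Q = 1`.  (b) WRD (c) and (a).  (c) norms of characters are 1.
(d) WRD (b).  (e) by (b): `∑_s ‖F (k + l) s h‖ ≤ ∑_t ‖F k t h‖ * ∑_s ‖F l s _‖` and (d). -/
def St_CMP : Prop :=
  ∀ (Q : ℕ) [NeZero Q], Odd Q →
    (2 : ZMod Q) * hf Q = 1 ∧
    (∀ u v : List ℕ, X Q (u ++ v) = X Q u + 3 ^ u.length * hf Q ^ u.sum * X Q v) ∧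
    (∀ (j k s : ℕ) (h : ZMod Q), F Q (j + k) s h =
      ∑ t ∈ range (s + 1), F Q j t h * F Q k (s - t) (3 ^ j * hf Q ^ t * h)) ∧
    (∀ (k s : ℕ) (h : ZMod Q), ‖F Q k s h‖ ≤ p k s) ∧
    (∀ (k : ℕ) (h : ZMod Q), GB Q k 1 h) ∧
    ∀ (k l : ℕ) (b : ℝ) (h : ZMod Q), GB Q k b h → GB Q (k + l) b h

/-- [CMG] composition of bounds.
PROOF.  By CMP (b) twice `‖F (j + k + l) s h‖ ≤ ∑ ‖F j t h‖ ‖F k s₁ (3^j hf^t h)‖ ‖F l s₂ (3^(j+k) hf^(t + s₁) h)‖`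
over `t + s₁ + s₂ = s`.  Sum over `s`: for fixed `t`, `s₁` the last factor sums to at most `b`; then for `al t` the middle one
to at most `β` and `∑ ‖F j t h‖ ≤ 1`; for the other `t` the middle one to at most 1 and `‖F j t h‖ ≤ p j t`. -/
def St_CMG : Prop :=
  ∀ (Q : ℕ) [NeZero Q], Odd Q → ∀ (h : ZMod Q) (j k l : ℕ) (al : ℕ → Prop) [DecidablePred al]
    (β ν b : ℝ), 0 ≤ β → 0 ≤ ν → 0 ≤ b →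
    (∀ t, al t → ∀ S : ℕ, ∑ s ∈ range S, ‖F Q k s (3 ^ j * hf Q ^ t * h)‖ ≤ β) →
    (∀ S : ℕ, ∑ t ∈ range S, (if al t then 0 else p j t) ≤ ν) →
    (∀ t : ℕ, GB Q l b (3 ^ (j + k) * hf Q ^ t * h)) →
    GB Q (j + k + l) ((β + ν) * b) h

/-! ### Decay of the characters -/

/-- [CHG] Chang's inequality.
PROOF.  `r_j` = the `j`-th norm, `z_j` a phase with `Re (z_j * mean ψ(h_j c_w)) = r_j`.  `exp (a y) ≤ cosh a + y sinh a` for `a ≥ 0`, `|y| ≤ 1`.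
`(1/M) ∑_{c < M} exp (∑ r_j Re (z_j ψ(h_j c))) ≤ (1/M) ∑_c ∏_j (cosh r_j + sinh r_j (z_j ψ(h_j c) + conj)/2)`; expand the product over
`ε : Fin J → {0, 1, -1}`; the term `ε = 0` is `∏ cosh r_j ≤ exp (∑ r_j ^ 2 / 2)`; the others: `‖∑_{c < M} ψ(γ c)‖ ≤ R`, `γ = ∑ ε_j h_j ≠ 0`
(`R γ = 0`: full periods vanish), sum of all absolute coefficients `∏ (cosh r_j + sinh r_j) = exp (∑ r_j) ≤ 3 ^ J`, so together `≤ 1`.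
Total `≤ 2 exp (∑ r_j ^ 2 / 2)`.  By positivity and injectivity the mean over `Ω` is `≤ (M / #Ω) 2 exp (∑ r_j ^ 2 / 2)`; Jensen:
`exp (∑ r_j ^ 2) ≤` the mean over `Ω`.  Logarithms. -/
def St_CHG : Prop :=
  ∀ (Q : ℕ) [NeZero Q] (ι : Type) (Ω : Finset ι) (c : ι → ℕ) (M R J : ℕ) (h : Fin J → ZMod Q),
    Ω.Nonempty → Set.InjOn c Ω → (∀ w ∈ Ω, c w < M) → 0 < R → (∀ j, (R : ZMod Q) * h j = 0) →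
    R * 3 ^ J ≤ M →
    (∀ ε : Fin J → ℤ, (∀ j, ε j = 0 ∨ ε j = 1 ∨ ε j = -1) → ε ≠ 0 →
      ∑ j, (ε j : ZMod Q) * h j ≠ 0) →
    ∑ j, (‖∑ w ∈ Ω, ZMod.stdAddChar (h j * (c w : ZMod Q))‖ / #Ω) ^ 2 ≤
      2 * Real.log (2 * M / #Ω)

/-- [DIS] PROOF.  Let `t` be the maximum of the `t_j`; `2 ^ t` times the sum is `U h`, `U = ∑ ε_j 3 ^ j 2 ^ (t - t_j)` (`2 * hf Q = 1`).  If `j₁` is the
smallest index with `ε_j ≠ 0` then `U = 3 ^ j₁ U'`, `3 ∤ U'`; so `U ≠ 0`, and if `U h = 0` the order divides `U`: impossible if `3 ^ J`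
divides the order; and `|U| ≤ J 3 ^ J 2 ^ T`. -/
def St_DIS : Prop :=
  ∀ (Q : ℕ) [NeZero Q], Odd Q → ∀ (h : ZMod Q) (J : ℕ) (t : Fin J → ℕ) (ε : Fin J → ℤ),
    (3 ^ J ∣ addOrderOf h ∨ ∃ T : ℕ, (∀ j, t j ≤ T) ∧ J * 3 ^ J * 2 ^ T < addOrderOf h) →
    (∀ j, ε j = 0 ∨ ε j = 1 ∨ ε j = -1) → ε ≠ 0 →
    ∑ j, (ε j : ZMod Q) * (3 ^ (j : ℕ) * hf Q ^ t j * h) ≠ 0

/-- [BL1] one block, one sum.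
PROOF.  `Ω = {w ∈ W k s | cw w < k ^ 2 2 ^ s}`.  `cw` is injective on `W k s` (`Pool.Agent.Collatz3.Mix.cw_inj`).  If `#Ω < 2 ^ s / k ^ 3` nothing is claimed.  Else CHG with
`M = k ^ 2 2 ^ s`, `R = addOrderOf h`, `c = cw`, frequencies `hf Q ^ s * (3 ^ j * hf Q ^ t_j * h)` (`X Q w = cw w * hf Q ^ s`; DIS; `hf Q` is a unit), `r_j` = the norms in CHG:
`∑ r_j ^ 2 ≤ 2 log (2 M / #Ω) ≤ 2 log (2 k ^ 5)`, `‖F ..‖ ≤ (#Ω / 2 ^ s) r_j + (#(W k s) - #Ω) / 2 ^ s`. -/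
def St_BL1 : Prop :=
  ∀ (Q : ℕ) [NeZero Q], Odd Q → ∀ (h : ZMod Q) (k J s : ℕ) (t : Fin J → ℕ),
    1 ≤ k → 0 < addOrderOf h → addOrderOf h * 3 ^ J ≤ k ^ 2 * 2 ^ s →
    (3 ^ J ∣ addOrderOf h ∨ ∃ T : ℕ, (∀ j, t j ≤ T) ∧ J * 3 ^ J * 2 ^ T < addOrderOf h) →
    1 / (k : ℝ) ^ 3 ≤ (#{w ∈ W k s | cw w < k ^ 2 * 2 ^ s} : ℝ) / 2 ^ s →
    ∃ r : Fin J → ℝ, (∀ j : Fin J, 0 ≤ r j) ∧ ∑ j, r j ^ 2 ≤ 2 * Real.log (2 * (k : ℝ) ^ 5) ∧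
      ∀ j : Fin J, ‖F Q k s (3 ^ (j : ℕ) * hf Q ^ t j * h)‖ ≤
        (#{w ∈ W k s | cw w < k ^ 2 * 2 ^ s} : ℝ) / 2 ^ s * r j +
          (#{w ∈ W k s | k ^ 2 * 2 ^ s ≤ cw w} : ℝ) / 2 ^ s

/-- [BLK] one block.
PROOF.  For every `j < J` let `t_j` with `al (t_j)` maximize the supremum over `S` of the sum (finitely many values of `hf Q ^ t`; nothing to
prove if there is no `t` with `al t`).  Let `smin ≤ s ≤ 21 k / 10`, `Ω = {w ∈ W k s | cw w < k ^ 2 2 ^ s}`, `y_s = #Ω / 2 ^ s`, `bad_s` = the rest.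
If `y_s ≥ k ^ {-3}`: BL1: `∑_j r_j(s) ^ 2 ≤ 2 log (2 k ^ 5)`, and `‖F Q k s (3 ^ j hf ^ t_j h)‖ ≤ y_s r_j(s) + bad_s`.  By Cauchy-Schwarz (`∑ y_s ≤ 1`)
`∑_j (∑_s y_s r_j(s)) ^ 2 ≤ 2 log (2 k ^ 5)`, so for some `j` the inner sum is `≤ sqrt (2 log (2 k ^ 5) / J)`.  The rest: `∑ bad_s ≤ 1 / k` (BAD with
`K = k ^ 2`), the `s` with `y_s < k ^ {-3}`: `≤ (2.1 k + 1) / k ^ 3`; `s < smin` and `s > 21 k / 10`: `2 ν`. -/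
def St_BLK : Prop :=
  ∀ (Q : ℕ) [NeZero Q], Odd Q → ∀ (h : ZMod Q) (k J smin T : ℕ) (al : ℕ → Prop) (ν : ℝ),
    1 ≤ k → 1 ≤ J → addOrderOf h * 3 ^ J ≤ k ^ 2 * 2 ^ smin →
    (3 ^ J ∣ addOrderOf h ∨ ((∀ t, al t → t ≤ T) ∧ J * 3 ^ J * 2 ^ T < addOrderOf h)) →
    ∑ s ∈ range smin, p k s ≤ ν → (∀ S : ℕ, ∑ s ∈ Ico (21 * k / 10 + 1) S, p k s ≤ ν) →
    ∃ j < J, ∀ t, al t → ∀ S : ℕ, ∑ s ∈ range S, ‖F Q k s (3 ^ j * hf Q ^ t * h)‖ ≤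
      Real.sqrt (4 * Real.log (2 * (k : ℝ) ^ 5) / J) + 2 * (2 * ν + 5 / k)

/-- [ORD] PROOF.  `hf Q` is a unit; the order of `3 ^ m h` is the order of `h` divided by `gcd (3 ^ m, order)`. -/
def St_ORD : Prop :=
  ∀ (Q : ℕ) [NeZero Q], Odd Q → ∀ (h : ZMod Q) (n q : ℕ), addOrderOf h = 3 ^ n * q → ¬ 3 ∣ q →
    (∀ m t : ℕ, m ≤ n → addOrderOf (3 ^ m * hf Q ^ t * h) = 3 ^ (n - m) * q) ∧
    (∀ m t : ℕ, n ≤ m → addOrderOf (3 ^ m * hf Q ^ t * h) = q) ∧ Odd q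

/-- [D3S] one step, 3-part.
PROOF.  BLK with `k = (9 n + 9) / 10`, `J = n / 100`, `smin = (19 k + 9) / 10`, `al = True`, `ν = ρ ^ k` (TAL): `3 ^ n q 3 ^ J ≤ 2 ^ (1.601 n + n / 20) ≤ 2 ^ (1.71 n) ≤ 2 ^ smin`.
Then CMG with `ν = 0`. -/
def St_D3S : Prop :=
  ∃ C : ℝ, 0 < C ∧ ∃ n₀ : ℕ, ∀ (Q : ℕ) [NeZero Q], Odd Q → ∀ (h : ZMod Q) (n q : ℕ),
    addOrderOf h = 3 ^ n * q → ¬ 3 ∣ q → n₀ ≤ n → (q : ℝ) ≤ 2 ^ ((n : ℝ) / 20) →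
    ∃ j < n / 100, ∀ (K : ℕ) (b : ℝ), 0 ≤ b →
      (∀ t : ℕ, GB Q K b (3 ^ (j + (9 * n + 9) / 10) * hf Q ^ t * h)) →
      GB Q (j + (9 * n + 9) / 10 + K) (C * Real.sqrt (Real.log n / n) * b) h

/-- [DE3] decay, 3-part.
PROOF.  Iterate D3S `2 L + 2` times (orders: ORD; the level goes from `n` to `n' = n - j - k ∈ [.08 n, .1 n + 1]`, `n - K` stays the same; all conditions
hold at all levels for `c` small).  Factor `≤ (C² log n / (.08 ^ (2 L + 2) n)) ^ (L + 1) ≤ n ^ {-L}` for `n ≥ n₀`; end with CMP (d). -/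
def St_DE3 : Prop :=
  ∀ L : ℕ, ∃ c : ℝ, 0 < c ∧ ∃ n₀ : ℕ, ∀ (Q : ℕ) [NeZero Q], Odd Q → ∀ (h : ZMod Q) (n q K : ℕ),
    addOrderOf h = 3 ^ n * q → ¬ 3 ∣ q → n₀ ≤ n → (q : ℝ) ≤ 2 ^ (c * n) → (n : ℝ) - c * n ≤ K →
    GB Q K (1 / (n : ℝ) ^ L) h

/-- [DQA] one step, order prime to 3 and large.
PROOF.  `ℓ = log (addOrderOf h)`, `J = ⌊ℓ / 10⌋`, `T = 10 J`, `al t = (t ≤ 10 J)`, `k = ⌈2 ℓ⌉`, `smin = (3 k + 1) / 2 ≤ (19 k + 9) / 10`: `J 3 ^ J 2 ^ (10 J) < exp (10 J)`,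
`exp ℓ 3 ^ J ≤ exp (1.11 ℓ) ≤ 2 ^ (3 ℓ) ≤ 2 ^ smin`.  BLK with `ν = ρ ^ k`, CMG with `ν = (1 / 2) ^ J` (TAL, last part).  `m = j + k`. -/
def St_DQA : Prop :=
  ∃ C : ℝ, 0 < C ∧ ∃ Q₁ : ℕ, ∀ (Q : ℕ) [NeZero Q], Odd Q → ∀ h : ZMod Q,
    ¬ 3 ∣ addOrderOf h → Q₁ ≤ addOrderOf h →
    ∃ m : ℕ, (m : ℝ) ≤ 4 * Real.log (addOrderOf h) ∧ ∀ (K : ℕ) (b : ℝ), 0 ≤ b →
      (∀ t : ℕ, GB Q K b (3 ^ m * hf Q ^ t * h)) →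
      GB Q (m + K) (C * Real.sqrt (Real.log (Real.log (addOrderOf h)) / Real.log (addOrderOf h)) *
        b) h

/-- [DQB] one step, order prime to 3 and bounded.
PROOF.  `W 2 3 = {[1, 2], [2, 1]}`, `X [1, 2] - X [2, 1] = hf ^ 2`, so `‖F Q 2 3 h‖ ≤ (1 / 4) cos (π / q)`, `q = addOrderOf h` (odd; `‖1 + ψ(y)‖ = 2 |cos (π a / q)|`, `0 < a < q`).
`∑_s ‖F Q 2 s h‖ ≤ 1 - (1 / 4) (1 - cos (π / q))` (`p 2 3 = 1 / 4`); CMG with `j = 0`, or directly. -/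
def St_DQB : Prop :=
  ∀ Q₁ : ℕ, ∃ c : ℝ, 0 < c ∧ ∀ (Q : ℕ) [NeZero Q], Odd Q → ∀ h : ZMod Q,
    ¬ 3 ∣ addOrderOf h → 1 < addOrderOf h → addOrderOf h ≤ Q₁ →
    ∀ (K : ℕ) (b : ℝ), 0 ≤ b → (∀ t : ℕ, GB Q K b (3 ^ 2 * hf Q ^ t * h)) →
      GB Q (2 + K) ((1 - c) * b) h

/-- [DEQ] decay, order prime to 3.
PROOF.  ORD: the order stays the same.  Let `Q₂ ≥ Q₁` be such that the factor of DQA is `≤ 1 / 2` and `≤ ℓ ^ {-1/3}` for `addOrderOf h ≥ Q₂`, `ℓ = log (addOrderOf h)`.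
Order `< Q₂`: DQB `K / 2` times: `(1 - c) ^ (K / 2 - 1) ≤ K ^ {-L}` (note `c ≤ 1` may be assumed).  Order `≥ Q₂`: DQA at least `K / (4 ℓ) - 1` times; if `ℓ ≤ sqrt K` then
`2 ^ {-(sqrt K / 4 - 1)} ≤ K ^ {-L}`; else `ℓ ^ {-1/3} ≤ K ^ {-1/6}` and `K / (4 ℓ) - 1 ≥ 1 / (4 c) - 1 ≥ 6 L` times. -/
def St_DEQ : Prop :=
  ∀ L : ℕ, ∃ c : ℝ, 0 < c ∧ ∃ K₀ : ℕ, ∀ (Q : ℕ) [NeZero Q], Odd Q → ∀ (h : ZMod Q) (K : ℕ),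
    ¬ 3 ∣ addOrderOf h → 1 < addOrderOf h → K₀ ≤ K → Real.log (addOrderOf h) ≤ c * K →
    GB Q K (1 / (K : ℝ) ^ L) h

/-! ### Fine-scale mixing -/

/-- [PLN] Plancherel.
PROOF.  The left function `f` of `x` has the Fourier transform `∑_x f(x) ψ(h x) = ∑_w a_w ψ(h y_w)` if `Q' h ≠ 0` and `0` if `Q' h = 0` (the second sum is the
average of the first over the coset `x + Q' ZMod Q`, i.e. over the `y` with `(Q / Q') (y - x) = 0`).  `∑_x ‖f x‖ ≤ sqrt (Q ∑ ‖f x‖ ^ 2)`, `Q ∑_x ‖f x‖ ^ 2 = ∑_h ‖f^(h)‖ ^ 2`. -/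
def St_PLN : Prop :=
  ∀ (Q Q' : ℕ) [NeZero Q], Q' ∣ Q → ∀ (ι : Type) (Ω : Finset ι) (y : ι → ZMod Q) (a : ι → ℂ),
    ∑ x : ZMod Q, ‖(∑ w ∈ Ω with y w = x, a w) - (Q' : ℂ) / Q *
        (∑ w ∈ Ω with ((Q / Q' : ℕ) : ZMod Q) * (y w - x) = 0, a w)‖ ≤
      Real.sqrt (∑ h : ZMod Q with (Q' : ZMod Q) * h ≠ 0,
        ‖∑ w ∈ Ω, a w * ZMod.stdAddChar (h * y w)‖ ^ 2)

/-- [COL] collisions.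
PROOF.  `ψ` is orthogonal: the left side is `Q 4 ^ {-t} #{(u, u') : cw u = cw u' modulo Q}` (`hf Q` is a unit), `u`, `u'` in the filtered set; for every `u` there are at most
`K 2 ^ t / Q + 1` such `u'` (`cw` is injective on `W k t`, `Pool.Agent.Collatz3.Mix.cw_inj`; integers in `[0, K 2 ^ t)`), and `#(W k t) ≤ 2 ^ t` (WRD (b)).  `Q 4 ^ {-t} 2 ^ t (K 2 ^ t / Q + 1) ≤ K + 1`. -/
def St_COL : Prop :=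
  ∀ (Q : ℕ) [NeZero Q], Odd Q → ∀ k t K : ℕ, 1 ≤ K → Q ≤ 2 ^ t →
    ∑ h : ZMod Q, ‖(∑ u ∈ W k t with cw u < K * 2 ^ t, ZMod.stdAddChar (h * X Q u)) / 2 ^ t‖ ^ 2 ≤
      (K : ℝ) + 1

/-- [STG] general step.
PROOF.  `2 ^ s P Q k s x = #{w ∈ W k s | X Q w = x}` (`Q` odd) and `Q' ∣ 2 ^ s x - cw w ↔ (Q / Q') (X Q w - x) = 0`.  Cut the words after `k₁` letters: `w = u ++ v`, `u ∈ W k₁ t`,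
`v ∈ W k₂ (s - t)`.  The words with `t < smin` or `K 2 ^ t ≤ cw u` contribute at most `2 (∑_{t < smin} p k₁ t + k₁ / K)` (BAD).  For the others (good `u`) PLN for every `s`
with `a = 2 ^ {-s}`: the Fourier coefficient is `∑_{t ≤ s} Fg(h; t) F Q k₂ (s - t) (3 ^ k₁ hf ^ t h)`, `Fg` = the sum over good `u ∈ W k₁ t`.  Minkowski: the square root is
`≤ ∑_{t ≤ s} g (∑_h ‖Fg(h; t)‖ ^ 2) ^ (1/2) ≤ ∑_{t ≤ s} g sqrt (K + 1)` (COL, `Q ≤ 2 ^ smin ≤ 2 ^ t`).  At most `S ^ 2` pairs `(s, t)`. -/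
def St_STG : Prop :=
  ∀ (Q Q' : ℕ) [NeZero Q], Odd Q → Q' ∣ Q → ∀ (k₁ k₂ K smin S : ℕ) (g : ℝ), 1 ≤ K →
    Q ≤ 2 ^ smin → 0 ≤ g →
    (∀ h : ZMod Q, (Q' : ZMod Q) * h ≠ 0 → ∀ t s : ℕ, ‖F Q k₂ s (3 ^ k₁ * hf Q ^ t * h)‖ ≤ g) →
    Osc Q Q' (k₁ + k₂) S ≤
      2 * ((k₁ : ℝ) / K + ∑ s ∈ range smin, p k₁ s) + (S : ℝ) ^ 2 * g * Real.sqrt (K + 1)

/-- [TEL] PROOF.  Triangle inequality; `P Q' k s` and `P Q'' k s` are `Q'`-periodic, so `∑_{x < Q} (Q' / Q) |P Q' - (Q'' / Q') P Q''| = ∑_{x < Q'} |..|`. -/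
def St_TEL : Prop :=
  ∀ Q Q' Q'' k S : ℕ, 0 < Q → Q' ∣ Q → Q'' ∣ Q' →
    Osc Q Q'' k S ≤ Osc Q Q' k S + Osc Q' Q'' k S

/-- [STP] the levels above `k / 4`.
PROOF.  `k ≤ k₀` (depending on `B`): `Osc ≤ 2` is covered by `C` (`Osc ≤ 2 ∑ p k s ≤ 2`).  STG with `Q = 3 ^ j q₀`, `Q' = 3 ^ (j - 1) q₀`, `k₁ = 17 j / 20`, `k₂ = k - k₁`, `K = k ^ (B + 2)`, `smin = (19 k₁ + 9) / 10`,
`S = 21 k / 10 + 1`.  `Q ≤ 2 ^ smin`: `1.585 j + log₂ q₀ ≤ 1.9 (.85 j - 1)` as `j > k / 4`, `q₀ ≤ exp (δ k)`.  For `Q' h ≠ 0` the order of `h` is `3 ^ j q`, `q ∣ q₀`, so (ORD) the order of `3 ^ k₁ hf ^ t h` is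
`3 ^ (j - k₁) q`, `j - k₁ ≥ .15 j ≥ .03 k`, `k₂ ≥ (j - k₁) - a`, `a ≤ δ k`: DE3 with `L` large, `δ` small: `g = (.03 k) ^ {-L}`.  Lower tail `≤ ρ ^ k₁` (TAL). -/
def St_STP : Prop :=
  ∀ B : ℕ, ∃ δ : ℝ, 0 < δ ∧ ∃ C : ℝ, ∀ k a q₀ j : ℕ, 1 ≤ k → Odd q₀ → ¬ 3 ∣ q₀ →
    (3 : ℝ) ^ a * q₀ ≤ Real.exp (δ * k) → k / 4 < j → j ≤ k + a →
    Osc (3 ^ j * q₀) (3 ^ (j - 1) * q₀) k (21 * k / 10 + 1) ≤ C / (k : ℝ) ^ B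

/-- [STQ] the modulus `q₀`.
PROOF.  As STP with `Q = 3 ^ (k / 4) q₀`, `Q' = 3 ^ (k / 4)`, `k₁ = k / 4`, `k₂ = k - k / 4`: for `Q' h ≠ 0` the order of `3 ^ k₁ hf ^ t h` divides `q₀` and is `> 1` (ORD): DEQ. -/
def St_STQ : Prop :=
  ∀ B : ℕ, ∃ δ : ℝ, 0 < δ ∧ ∃ C : ℝ, ∀ k q₀ : ℕ, 1 ≤ k → Odd q₀ → ¬ 3 ∣ q₀ →
    (q₀ : ℝ) ≤ Real.exp (δ * k) →
    Osc (3 ^ (k / 4) * q₀) (3 ^ (k / 4)) k (21 * k / 10 + 1) ≤ C / (k : ℝ) ^ B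

/-- [MIX] PROOF.  TEL; STQ, then STP (with `B + 1`) for `j = k / 4 + 1, ..., k + a` (at most `2 k` steps). -/
def St_MIX : Prop :=
  ∀ B : ℕ, ∃ δ : ℝ, 0 < δ ∧ ∃ C : ℝ, ∀ k a q₀ : ℕ, 1 ≤ k → Odd q₀ → ¬ 3 ∣ q₀ →
    (3 : ℝ) ^ a * q₀ ≤ Real.exp (δ * k) →
    Osc (3 ^ (k + a) * q₀) (3 ^ (k / 4)) k (21 * k / 10 + 1) ≤ C / (k : ℝ) ^ B

/-! ### The hand-off -/

/-- [FWD] forward words.
PROOF.  Inductions on the word from the right (`cw (v ++ [i]) = 3 ^ {v.length} + 2 ^ i cw v`, the letter `i` is the first step `n ↦ (3 n + 1) / 2 ^ i = T^[i] n`; `2 ^ i` divides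
`3 ^ {v.length} (3 n + 1)`).  `cw w` is odd if `w` is not empty.  `T` preserves the sign of integers other than 0. -/
def St_FWD : Prop :=
  (∀ (n : ℤ) (k : ℕ), Odd n → ∃ w : List ℕ, w.length = k ∧ (∀ i ∈ w, 1 ≤ i) ∧
    ∃ m : ℤ, Odd m ∧ 2 ^ w.sum * m = 3 ^ k * n + cw w) ∧
  (∀ (n m m' : ℤ) (w w' : List ℕ), Odd n → Odd m → Odd m' → w.length = w'.length →
    (∀ i ∈ w, 1 ≤ i) → (∀ i ∈ w', 1 ≤ i) → 2 ^ w.sum * m = 3 ^ w.length * n + cw w →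
    2 ^ w'.sum * m' = 3 ^ w'.length * n + cw w' → w = w') ∧
  (∀ (n m : ℤ) (w : List ℕ), Odd m → (∀ i ∈ w, 1 ≤ i) →
    2 ^ w.sum * m = 3 ^ w.length * n + cw w →
    Odd n ∧ (0 < n ↔ 0 < m) ∧ ∀ A : Set ℤ, Inv A → (n ∈ A ↔ m ∈ A))

/-- [CNT] PROOF.  The integers `n` with `Odd n`, `Q ∣ n - b` and `m` as stated form one residue class modulo `2 ^ (s + 1) Q` (`3 ^ k n + cw w = 2 ^ s` modulo `2 ^ (s + 1)`;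
FWD (c) gives `Odd n`). -/
def St_CNT : Prop :=
  ∀ (σ b : ℤ) (w : List ℕ) (Y Q : ℕ), σ = 1 ∨ σ = -1 → (∀ i ∈ w, 1 ≤ i) → Odd Q →
    |(Set.ncard {n : ℤ | 1 ≤ σ * n ∧ σ * n ≤ Y ∧ (Q : ℤ) ∣ n - b ∧
        ∃ m : ℤ, Odd m ∧ 2 ^ w.sum * m = 3 ^ w.length * n + cw w} : ℝ) -
      (Y : ℝ) / (2 ^ (w.sum + 1) * Q)| ≤ 1

/-- [HO1] hand-off, first part.
PROOF.  `X < 8` (`k = 0`): all terms are at most 8.  `k = kk X`, `2 ^ (21 k / 10) ≤ X ^ (21 / 22)`; the number of words with `s ≤ 21 k / 10` is `≤ 2 ^ (21 k / 10)` (`p k s ≤ 1`, sum `≤ 1`).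
(1) The odd `n` (`1 ≤ σ n ≤ X`, `Q ∣ n - b`) whose word (FWD) has sum `> 21 k / 10`: by CNT (for the empty word and for all words with `s ≤ 21 k / 10`) and TAL at most `(X / Q) ρ ^ k + 2 * 2 ^ (21 k / 10)`.
(2) For a word `w` with `s ≤ 21 k / 10` the `n ∈ A` with word `w` (and `1 ≤ σ n ≤ X`, `Q ∣ n - b`) correspond to the odd `m ∈ A` with `2 ^ s m = 3 ^ k n + cw w`, i.e. `3 ^ k Q ∣ 2 ^ s m - cw w - 3 ^ k b`; `n ∈ A ↔ m ∈ A`, same sign (FWD);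
the conditions `σ n ≤ X` and `σ m 2 ^ s ≤ 3 ^ k X` differ only for `σ n` in an interval of length `cw w / 3 ^ k` at `X`: at most `K / 3 ^ k + 1` integers of the class of CNT (a class modulo `2 ^ (s + 1) Q`) if `cw w ≤ K 2 ^ s`, `K = k ^ (B + 1)`;
for the other words (BAD: total weight `≤ k / K`) both counts are at most `X / (2 ^ (s + 1) Q) + 1`. -/
def St_HO1 : Prop :=
  ∀ B : ℕ, ∃ C : ℝ, ∀ (σ b : ℤ) (A : Set ℤ) (X Q : ℕ), σ = 1 ∨ σ = -1 → Inv A → 2 ≤ X → Odd Q →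
    |(E σ A X Q b : ℝ) - ∑ s ∈ range (21 * kk X / 10 + 1), ∑ w ∈ W (kk X) s,
        (Cn σ A X Q b w : ℝ)| ≤
      C * (X / Q) / (kk X : ℝ) ^ B + C * (X : ℝ) ^ ((49 : ℝ) / 50)

/-- [HO2] hand-off, second part.
PROOF.  `∑_{w ∈ W k s} Cn = 2 ^ s ∑_m P (3 ^ k Q) k s (m - β_s)` over the odd `m ∈ A` with `1 ≤ σ m`, `σ m 2 ^ s ≤ 3 ^ k X`, where `2 ^ s β_s = 3 ^ k b` modulo `3 ^ k Q`.  `β_s` is divisible by `3 ^ (k / 4)`, so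
`P (3 ^ (k / 4)) k s (m - β_s) = P (3 ^ (k / 4)) k s m`.  These `m` meet each class modulo `3 ^ k Q` at most `X / (2 ^ (s + 1) Q) + 1` times, so replacing `P (3 ^ k Q) k s` by `(3 ^ (k / 4) / (3 ^ k Q)) P (3 ^ (k / 4)) k s`
costs at most `∑_s (X / (2 Q) + 2 ^ s) ∑_{x < 3 ^ k Q} |..| ≤ (X / Q) Osc + 2 ^ (21 k / 10) Osc`, and `Osc ≤ 2` (WRD (b)). -/
def St_HO2 : Prop :=
  ∀ (σ b : ℤ) (A : Set ℤ) (X Q k : ℕ), σ = 1 ∨ σ = -1 → Odd Q →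
    |(∑ s ∈ range (21 * k / 10 + 1), ∑ w ∈ W k s, (Cn σ A X Q b w : ℝ)) - M σ A X k / Q| ≤
      X / Q * Osc (3 ^ k * Q) (3 ^ (k / 4)) k (21 * k / 10 + 1) + 2 * 2 ^ (21 * k / 10)

/-- [HOF] hand-off with a class.
PROOF.  HO1, HO2 with `Q = 3 ^ a q₀`, `3 ^ k Q = 3 ^ (k + a) q₀`, `2 ^ (21 k / 10) ≤ X ^ (21 / 22)`. -/
def St_HOF : Prop :=
  ∀ B : ℕ, ∃ C : ℝ, ∀ (σ b : ℤ) (A : Set ℤ) (X a q₀ : ℕ), σ = 1 ∨ σ = -1 → Inv A → 2 ≤ X →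
    Odd q₀ → ¬ 3 ∣ q₀ →
    |(E σ A X (3 ^ a * q₀) b : ℝ) - M σ A X (kk X) / (3 ^ a * q₀)| ≤
      X / (3 ^ a * q₀) * Osc (3 ^ (kk X + a) * q₀) (3 ^ (kk X / 4)) (kk X) (21 * kk X / 10 + 1) +
      C * (X / (3 ^ a * q₀)) / (kk X : ℝ) ^ B + C * (X : ℝ) ^ ((49 : ℝ) / 50)

/-- [ODD] PROOF.  HOF for `Q` and for `1`, MIX (`Q = 3 ^ a q₀`; `Q ≤ X ^ δ ≤ exp (δ' kk X)`), `X ^ (49 / 50) ≤ (X / Q) X ^ {-1/50 + δ}`; small `X`: constant. -/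
def St_ODD : Prop :=
  ∀ B : ℕ, ∃ δ : ℝ, 0 < δ ∧ ∃ C : ℝ, ∀ (σ b : ℤ) (A : Set ℤ) (X Q : ℕ), σ = 1 ∨ σ = -1 → Inv A →
    2 ≤ X → Odd Q → (Q : ℝ) ≤ (X : ℝ) ^ δ →
    |(E σ A X Q b : ℝ) - E σ A X 1 0 / Q| ≤ C * X / (Q * Real.log X ^ B)

/-- [ALN] THEOREM S.
PROOF.  `n = 2 ^ e n'`, `n'` odd: `n ∈ A ↔ n' ∈ A`, `q ∣ n - r ↔ q ∣ n' - r_e` with `2 ^ e r_e = r` modulo `q`; `N σ A X q r = ∑_e E σ A (X / 2 ^ e) q r_e`.  ODD for `X / 2 ^ e ≥ sqrt X`, the others contribute `≤ 4 sqrt X`. -/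
def St_ALN : Prop :=
  ∀ B : ℕ, ∃ δ : ℝ, 0 < δ ∧ ∃ C : ℝ, ∀ (σ r : ℤ) (A : Set ℤ) (X q : ℕ), σ = 1 ∨ σ = -1 → Inv A →
    2 ≤ X → Odd q → (q : ℝ) ≤ (X : ℝ) ^ δ →
    |(N σ A X q r : ℝ) - N σ A X 1 0 / q| ≤ C * X / (q * Real.log X ^ B)

/-- [TWO] even moduli.
PROOF.  `r = r₀` modulo `2 ^ i`, `0 ≤ r₀ < 2 ^ i`; `T^[i] (r₀ + 2 ^ i l) = 3 ^ a l + t`, `t = T^[i] r₀`, `0 ≤ t < 3 ^ a` (induction on `i`; `a` = number of odd steps).  `n = r₀ + 2 ^ i l`, `m = 3 ^ a l + t`: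
`n ∈ A ↔ m ∈ A`; `2 ^ i q₁ ∣ n - r ↔ 3 ^ a q₁ ∣ m - b`; same sign, `n = 0 ↔ m = 0`; `σ n ≤ X ↔ σ m ≤ X'` with `X' = 3 ^ a ⌊(X - r₀) / 2 ^ i⌋ + t` (`σ = 1`), `3 ^ a ⌊(X + r₀) / 2 ^ i⌋ - t` (`σ = -1`), `0` if negative. -/
def St_TWO : Prop :=
  ∀ (σ r : ℤ) (A : Set ℤ) (X i q₁ : ℕ), σ = 1 ∨ σ = -1 → Inv A → Odd q₁ →
    ∃ (a X' : ℕ) (b : ℤ), a ≤ i ∧ N σ A X (2 ^ i * q₁) r = N σ A X' (3 ^ a * q₁) b ∧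
      |(X' : ℝ) - 3 ^ a * X / 2 ^ i| ≤ 2 * 3 ^ a

/-- [FIN] THEOREM S'.
PROOF.  TWO, then ALN with `B = 1` for the modulus `3 ^ a q₁ ≤ q ^ 1.6` at `X' ≥ X ^ (1 - δ) / 2`, then `N σ A X' 1 0 / X' → d`. -/
def St_FIN : Prop :=
  ∃ δ : ℝ, 0 < δ ∧ ∀ (σ : ℤ) (A : Set ℤ) (d : ℝ), σ = 1 ∨ σ = -1 → Inv A →
    Tendsto (fun X : ℕ => (N σ A X 1 0 : ℝ) / X) atTop (𝓝 d) →
    ∀ ε : ℝ, 0 < ε → ∃ X₀ : ℕ, ∀ (X q : ℕ) (r : ℤ), X₀ ≤ X → 1 ≤ q → (q : ℝ) ≤ (X : ℝ) ^ δ →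
      |(N σ A X q r : ℝ) - d * X / q| ≤ ε * X / q

/-- [LIN] Linnik form, with an absolute exponent (as proposed by helper41).
PROOF.  `c ≤ 1` (`N ≤ X`).  `q = 2 ^ i q₁`, TWO; `X' ≥ 3 ^ a (X / 2 ^ i - 2) ≥ 3 ^ a X / (2 * 2 ^ i) ≥ X / (2 q) ≥ sqrt X ≥ X₁`; `Q = 3 ^ a q₁ ≤ q ^ 1.6 ≤ X' ^ δ` (`C₀ ≥ 4 / δ`);
ALN with `B = 1`: `N σ A X' Q b ≥ (c - C₁ / log X') X' / Q ≥ (c / 2) X' / Q` as `log X' ≥ (log X) / 2 ≥ C₀ / (2 c) ≥ 2 C₁ / c`; `X' / Q ≥ X / (2 q)`. -/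
def St_LIN : Prop :=
  ∃ C₀ : ℝ, 0 < C₀ ∧ ∀ (σ : ℤ) (A : Set ℤ) (c : ℝ) (X₁ : ℕ), σ = 1 ∨ σ = -1 → Inv A → 0 < c →
    (∀ X : ℕ, X₁ ≤ X → c * X ≤ N σ A X 1 0) →
    ∀ (X q : ℕ) (r : ℤ), 1 ≤ q → X₁ ^ 2 ≤ X → Real.exp (C₀ / c) * (q : ℝ) ^ C₀ ≤ X →
      c / 4 * (X / q) ≤ N σ A X q r

end Pool.Agent.SLD
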