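import Pool.Agent.SLD.StA

/-!
SLD, statements for eventually invariant sets (helper30), with proofs in the docstrings: the same
theorems as in `StA.lean` (HO1 to LIN) for sets which are invariant outside `[-K, K]`.
-/

set_option autoImplicit false
set_option linter.unusedVariables false

namespace Pool.Agent.SLD

open Finset Filter Topology
open Pool.Agent.Collatz3 (cw)

/-- invariant outside `[-K, K]` -/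
def EvInv (K : ℕ) (A : Set ℤ) : Prop := ∀ n : ℤ, (K : ℤ) < |n| → (T n ∈ A ↔ n ∈ A)

/-- [FWE] PROOF.  Induction on the word (`FWD_step` in module FWD).  `|n| ≤ 2 |T n|`. -/
def St_FWE : Prop :=
  (∀ (n m : ℤ) (w : List ℕ), Odd m → (∀ i ∈ w, 1 ≤ i) →
    2 ^ w.sum * m = 3 ^ w.length * n + cw w → T^[w.sum] n = m) ∧
  (∀ (K : ℕ) (A : Set ℤ), EvInv K A → ∀ (n : ℤ) (j : ℕ), (K : ℤ) * 2 ^ j < |n| →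
    (T^[j] n ∈ A ↔ n ∈ A))

/-- [HE1] PROOF.  As HO1 (module HO1).  For a word `w`, `s = w.sum`: `n ∈ A ↔ m ∈ A` for `|n| > K 2 ^ s` (FWE), and at most `K / (2 Q) + 1` of the `n` in the class of CNT have `|n| ≤ K 2 ^ s`;
`∑_s #(W k s) ≤ 2 ^ (21 k / 10) ≤ X ^ (21 / 22)`. -/
def St_HE1 : Prop :=
  ∀ B : ℕ, ∃ C : ℝ, ∀ (σ b : ℤ) (K : ℕ) (A : Set ℤ) (X Q : ℕ), σ = 1 ∨ σ = -1 → EvInv K A →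
    2 ≤ X → Odd Q →
    |(E σ A X Q b : ℝ) - ∑ s ∈ range (21 * kk X / 10 + 1), ∑ w ∈ W (kk X) s,
        (Cn σ A X Q b w : ℝ)| ≤
      C * (X / Q) / (kk X : ℝ) ^ B + C * (K + 1) * (X : ℝ) ^ ((24 : ℝ) / 25)

/-- [HEF] PROOF.  As HOF: HE1, HO2 with `Q = 3 ^ a q₀`, `2 ^ (21 k / 10) ≤ X ^ (21 / 22)` (`HO1_pow` in module HO1 is similar). -/
def St_HEF : Prop :=
  ∀ B : ℕ, ∃ C : ℝ, ∀ (σ b : ℤ) (K : ℕ) (A : Set ℤ) (X a q₀ : ℕ), σ = 1 ∨ σ = -1 → EvInv K A →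
    2 ≤ X → Odd q₀ → ¬ 3 ∣ q₀ →
    |(E σ A X (3 ^ a * q₀) b : ℝ) - M σ A X (kk X) / (3 ^ a * q₀)| ≤
      X / (3 ^ a * q₀) * Osc (3 ^ (kk X + a) * q₀) (3 ^ (kk X / 4)) (kk X) (21 * kk X / 10 + 1) +
      C * (X / (3 ^ a * q₀)) / (kk X : ℝ) ^ B + C * (K + 1) * (X : ℝ) ^ ((24 : ℝ) / 25)

/-- [ODE] PROOF.  As ODD: HEF for `Q` and for `1`, MIX; `(K + 1) X ^ (24 / 25) ≤ 2 (X / Q) X ^ {-1/25 + 2 δ}`. -/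
def St_ODE : Prop :=
  ∀ B : ℕ, ∃ δ : ℝ, 0 < δ ∧ ∃ C : ℝ, ∀ (σ b : ℤ) (K : ℕ) (A : Set ℤ) (X Q : ℕ),
    σ = 1 ∨ σ = -1 → EvInv K A → 2 ≤ X → (K : ℝ) ≤ (X : ℝ) ^ δ → Odd Q → (Q : ℝ) ≤ (X : ℝ) ^ δ →
    |(E σ A X Q b : ℝ) - E σ A X 1 0 / Q| ≤ C * X / (Q * Real.log X ^ B)

/-- [ALE] THEOREM S for eventually invariant sets.
PROOF.  As ALN: `n = 2 ^ e n'`, `n'` odd: `n ∈ A ↔ n' ∈ A` if `|n'| > K`; at most `K (log₂ X + 1)` of the `n` have `|n'| ≤ K`.  So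
`|N σ A X q r - ∑_e E σ A (X / 2 ^ e) q r_e| ≤ K (log₂ X + 1)`, also for `q = 1`.  ODE for `X / 2 ^ e ≥ sqrt X` (`K ≤ X ^ δ ≤ (X / 2 ^ e) ^ (2 δ)`), the others contribute `≤ 4 sqrt X`. -/
def St_ALE : Prop :=
  ∀ B : ℕ, ∃ δ : ℝ, 0 < δ ∧ ∃ C : ℝ, ∀ (σ r : ℤ) (K : ℕ) (A : Set ℤ) (X q : ℕ),
    σ = 1 ∨ σ = -1 → EvInv K A → 2 ≤ X → (K : ℝ) ≤ (X : ℝ) ^ δ → Odd q → (q : ℝ) ≤ (X : ℝ) ^ δ →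
    |(N σ A X q r : ℝ) - N σ A X 1 0 / q| ≤ C * X / (q * Real.log X ^ B)

/-- [TWE] even moduli.
PROOF.  As TWO; `n ∈ A ↔ m = T^[i] n ∈ A` if `|n| > K 2 ^ i` (FWE (b)), and at most `K + 1` of the `n = r` modulo `2 ^ i q₁` have `1 ≤ σ n ≤ K 2 ^ i`. -/
def St_TWE : Prop :=
  ∀ (σ r : ℤ) (K : ℕ) (A : Set ℤ) (X i q₁ : ℕ), σ = 1 ∨ σ = -1 → EvInv K A → Odd q₁ →
    ∃ (a X' : ℕ) (b : ℤ), a ≤ i ∧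
      |(N σ A X (2 ^ i * q₁) r : ℝ) - N σ A X' (3 ^ a * q₁) b| ≤ K + 1 ∧
      |(X' : ℝ) - 3 ^ a * X / 2 ^ i| ≤ 2 * 3 ^ a

/-- [FIE] THEOREM S' for eventually invariant sets.
PROOF.  As FIN: TWE, ALE with `B = 1`. -/
def St_FIE : Prop :=
  ∃ δ : ℝ, 0 < δ ∧ ∀ (σ : ℤ) (K : ℕ) (A : Set ℤ) (d : ℝ), σ = 1 ∨ σ = -1 → EvInv K A →
    Tendsto (fun X : ℕ => (N σ A X 1 0 : ℝ) / X) atTop (𝓝 d) →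
    ∀ ε : ℝ, 0 < ε → ∃ X₀ : ℕ, ∀ (X q : ℕ) (r : ℤ), X₀ ≤ X → 1 ≤ q → (q : ℝ) ≤ (X : ℝ) ^ δ →
      |(N σ A X q r : ℝ) - d * X / q| ≤ ε * X / q

/-- [LIE] Linnik form for eventually invariant sets.
PROOF.  As LIN: TWE, ALE with `B = 1` at `X' ≥ X / (2 q) ≥ sqrt X` (`K ≤ X ^ (1 / C₀) ≤ X' ^ δ`): `N σ A X q r ≥ (c / 2) X' / Q - (K + 1) ≥ (c / 2) (X / q - 2) - (K + 1)`. -/
def St_LIE : Prop :=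
  ∃ C₀ : ℝ, 0 < C₀ ∧ ∀ (σ : ℤ) (K : ℕ) (A : Set ℤ) (c : ℝ) (X₁ : ℕ), σ = 1 ∨ σ = -1 →
    EvInv K A → 0 < c → (∀ X : ℕ, X₁ ≤ X → c * X ≤ N σ A X 1 0) →
    ∀ (X q : ℕ) (r : ℤ), 1 ≤ q → X₁ ^ 2 ≤ X → Real.exp (C₀ / c) * (q : ℝ) ^ C₀ ≤ X →
      (K : ℝ) ^ C₀ ≤ X → c / 4 * (X / q) ≤ N σ A X q r

end Pool.Agent.SLD
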