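import Pool.Agent.SLD.StB

/-!
SLD, statements for primes (helper30), with proofs in the docstrings: the sieve of Selberg fed by
the level of distribution of invariant sets.
-/

set_option autoImplicit false
set_option linter.unusedVariables false

namespace Pool.Agent.SLD

open Finset Filter Topology

/-- [SVW] Selberg weights on odd numbers.
PROOF.  `Pool.Agent.MVX.thm_Sel` (module `Pool.Agent.MVX.Sel`) for `g p = 1 / p` (`p` odd), `g 2 = y ^ {-4}`; put `0` for even `d`.  The terms of the quadratic form with `d` or `e` even are at most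
`y ^ 2 g 2` in absolute value (`g p ≤ 1`), `pr g D = 1 / D` for odd squarefree `D`, so the form is `≤ 1 / GG g y + y ^ {-2}`, and (`∏_{p ∣ d} 1 / (p - 1) = ∑ 1 / n` over the `n` with the same primes as `d`)
`GG g y ≥ ∑_{n ≤ y, n odd} 1 / n ≥ (log y) / 2`. -/
def St_SVW : Prop :=
  ∃ C : ℝ, ∀ y : ℕ, 2 ≤ y → ∃ θ : ℕ → ℝ, θ 1 = 1 ∧
    (∀ d, θ d ≠ 0 → 1 ≤ d ∧ d ≤ y ∧ Odd d) ∧ (∀ d, |θ d| ≤ 1) ∧
    ∑ d ∈ Icc 1 y, ∑ e ∈ Icc 1 y, θ d * θ e / (d.lcm e : ℝ) ≤ C / Real.log y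

/-- [SVE] PROOF.  `1 / lcm = gcd / (d e)`; sum over the gcd `g`, `d = g d'`, `e = g e'`: `≤ ∑_g 1 / g ∑ 1 / d' ∑ 1 / e'`. -/
def St_SVE : Prop :=
  ∀ y : ℕ, 1 ≤ y → ∑ d ∈ Icc 1 y, ∑ e ∈ Icc 1 y, 1 / (d.lcm e : ℝ) ≤ (1 + Real.log y) ^ 3

/-- [SVP] primes in eventually invariant sets.
PROOF.  `δ`, `C` from ALE for `B = 5` (`δ ≤ 1 / 2`), `y = ⌊X ^ {δ / 2}⌋` (`X` large, the others are covered by the constant), `θ` from SVW.  A prime `p ≤ X` is `≤ y` or has `∑_{d ∣ p} θ d = θ 1 = 1`; so the number of primes is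
`≤ y + ∑_{n} (∑_{d ∣ n} θ d) ^ 2` over `n ∈ A` with `1 ≤ σ n ≤ X`, `= y + ∑_{d, e} θ d θ e N σ A X [d, e] 0`, and by ALE (`[d, e] ≤ y ^ 2 ≤ X ^ δ` odd)
`≤ y + N σ A X 1 0 ∑ θ d θ e / [d, e] + ∑ C X / ([d, e] (log X) ^ 5)`; SVW and SVE. -/
def St_SVP : Prop :=
  ∃ δ : ℝ, 0 < δ ∧ ∃ C : ℝ, ∀ (σ : ℤ) (K : ℕ) (A : Set ℤ) (X : ℕ),
    σ = 1 ∨ σ = -1 → EvInv K A → 2 ≤ X → (K : ℝ) ≤ (X : ℝ) ^ δ →
    (Set.ncard {p : ℕ | p.Prime ∧ p ≤ X ∧ σ * (p : ℤ) ∈ A} : ℝ) ≤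
      C * (N σ A X 1 0 / Real.log X + X / Real.log X ^ 2)

end Pool.Agent.SLD
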